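import Mathlib

set_option autoImplicit false

/-!
Diagram groups over semigroup presentations, as edge-path groups of Squier complexes.
-/

namespace Pool.Agent.H476R3.Diag

universe u

variable {α : Type u}

/-- the side of a relation `r` : `r.1` if the flag is true, `r.2` otherwise -/
def side (r : List α × List α) (s : Bool) : List α := if s then r.1 else r.2

/-- An oriented edge of the Squier complex: the relation `r` applied inside a word
`a * _ * b`. It leads from `a * r.1 * b` to `a * r.2 * b` if `fwd` is true, and from
`a * r.2 * b` to `a * r.1 * b` otherwise. -/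
structure Edge (α : Type u) where
  /-- left context -/
  a : List α
  /-- the relation -/
  r : List α × List α
  /-- right context -/
  b : List α
  /-- the orientation -/
  fwd : Bool

namespace Edge

/-- initial vertex of an oriented edge -/
def src (e : Edge α) : List α := e.a ++ side e.r e.fwd ++ e.b

/-- terminal vertex of an oriented edge -/
def tgt (e : Edge α) : List α := e.a ++ side e.r (!e.fwd) ++ e.b

/-- the same edge with the opposite orientation -/
def inv (e : Edge α) : Edge α := ⟨e.a, e.r, e.b, !e.fwd⟩

@[simp] theorem src_inv (e : Edge α) : e.inv.src = e.tgt := rfl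
@[simp] theorem tgt_inv (e : Edge α) : e.inv.tgt = e.src := by
  simp [inv, src, tgt]
@[simp] theorem inv_inv (e : Edge α) : e.inv.inv = e := by
  cases e; simp [inv]
@[simp] theorem inv_r (e : Edge α) : e.inv.r = e.r := rfl

end Edge

/-- `IsPath R u L v`: the list `L` of oriented edges is an edge path from `u` to `v` in the
Squier complex of the presentation with set of relations `R`. -/
def IsPath (R : Set (List α × List α)) : List α → List (Edge α) → List α → Prop
  | u, [], v => u = v
  | u, e :: L, v => e.r ∈ R ∧ e.src = u ∧ IsPath R e.tgt L v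

/-- Elementary homotopies of edge paths: deleting a pair `e e⁻¹`, and replacing two consecutive
sides of a square 2-cell by the two other sides. The square belongs to the words `a, b, c` and the
relations `r, s`; `p, q` are the orientations in which its edges are traversed. -/
inductive Elem : List (Edge α) → List (Edge α) → Prop
  | cancel (L₁ : List (Edge α)) (e : Edge α) (L₂ : List (Edge α)) :
      Elem (L₁ ++ e :: e.inv :: L₂) (L₁ ++ L₂)
  | square (L₁ : List (Edge α)) (a : List α) (r : List α × List α) (b : List α)
      (s : List α × List α) (c : List α) (p q : Bool) (L₂ : List (Edge α)) :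
      Elem
        (L₁ ++ ⟨a, r, b ++ side s q ++ c, p⟩ :: ⟨a ++ side r (!p) ++ b, s, c, q⟩ :: L₂)
        (L₁ ++ ⟨a ++ side r p ++ b, s, c, q⟩ :: ⟨a, r, b ++ side s (!q) ++ c, p⟩ :: L₂)

/-- Homotopy (with fixed endpoints) of edge paths from `u` to `v`: the equivalence relation on the
edge paths from `u` to `v` generated by the elementary homotopies. -/
inductive Htpy (R : Set (List α × List α)) (u v : List α) :
    List (Edge α) → List (Edge α) → Prop
  | refl (L : List (Edge α)) : IsPath R u L v → Htpy R u v L L
  | elem (L L' : List (Edge α)) : IsPath R u L v → IsPath R u L' v → Elem L L' → Htpy R u v L L'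
  | symm (L L' : List (Edge α)) : Htpy R u v L L' → Htpy R u v L' L
  | trans (L L' L'' : List (Edge α)) : Htpy R u v L L' → Htpy R u v L' L'' → Htpy R u v L L''

/-- the inverse path -/
def pinv (L : List (Edge α)) : List (Edge α) := (L.map Edge.inv).reverse

section path

variable {R : Set (List α × List α)}

@[simp] theorem isPath_nil {u v : List α} : IsPath R u [] v ↔ u = v := Iff.rfl

theorem isPath_cons {u v : List α} {e : Edge α} {L : List (Edge α)} :
    IsPath R u (e :: L) v ↔ e.r ∈ R ∧ e.src = u ∧ IsPath R e.tgt L v := Iff.rfl

theorem isPath_append {u v : List α} {L L' : List (Edge α)} :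
    IsPath R u (L ++ L') v ↔ ∃ w, IsPath R u L w ∧ IsPath R w L' v := by
  induction L generalizing u with
  | nil => simp
  | cons e L ih =>
    simp only [List.cons_append, isPath_cons, ih]
    constructor
    · rintro ⟨h1, h2, w, h3, h4⟩
      exact ⟨w, ⟨h1, h2, h3⟩, h4⟩
    · rintro ⟨w, ⟨h1, h2, h3⟩, h4⟩
      exact ⟨h1, h2, w, h3, h4⟩

theorem IsPath.append {u v w : List α} {L L' : List (Edge α)} (h : IsPath R u L v)
    (h' : IsPath R v L' w) : IsPath R u (L ++ L') w := isPath_append.2 ⟨v, h, h'⟩

/-- the target of a path is determined by the path -/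
theorem IsPath.tgt_unique {u v v' : List α} {L : List (Edge α)} (h : IsPath R u L v)
    (h' : IsPath R u L v') : v = v' := by
  induction L generalizing u with
  | nil => exact h.symm.trans h'
  | cons e L ih => exact ih h.2.2 h'.2.2

@[simp] theorem pinv_nil : pinv ([] : List (Edge α)) = [] := rfl

@[simp] theorem pinv_cons (e : Edge α) (L : List (Edge α)) : pinv (e :: L) = pinv L ++ [e.inv] := by
  simp [pinv]

@[simp] theorem pinv_append (L L' : List (Edge α)) : pinv (L ++ L') = pinv L' ++ pinv L := by
  simp [pinv]

@[simp] theorem pinv_pinv (L : List (Edge α)) : pinv (pinv L) = L := by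
  induction L with
  | nil => rfl
  | cons e L ih => simp [ih]

theorem IsPath.pinv {u v : List α} {L : List (Edge α)} (h : IsPath R u L v) :
    IsPath R v (pinv L) u := by
  induction L generalizing u with
  | nil => exact h.symm
  | cons e L ih =>
    rw [pinv_cons]
    obtain ⟨h1, h2, h3⟩ := h
    exact (ih h3).append ⟨h1, by simp, by simpa using h2⟩

theorem Elem.append_left {L L' : List (Edge α)} (h : Elem L L') (A : List (Edge α)) :
    Elem (A ++ L) (A ++ L') := by
  cases h with
  | cancel L₁ e L₂ =>
    have := Elem.cancel (A ++ L₁) e L₂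
    simpa only [List.append_assoc] using this
  | square L₁ a r b s c p q L₂ =>
    have := Elem.square (A ++ L₁) a r b s c p q L₂
    simpa only [List.append_assoc] using this

theorem Elem.append_right {L L' : List (Edge α)} (h : Elem L L') (A : List (Edge α)) :
    Elem (L ++ A) (L' ++ A) := by
  cases h with
  | cancel L₁ e L₂ =>
    have := Elem.cancel L₁ e (L₂ ++ A)
    simpa only [List.append_assoc, List.cons_append] using this
  | square L₁ a r b s c p q L₂ =>
    have := Elem.square L₁ a r b s c p q (L₂ ++ A)
    simpa only [List.append_assoc, List.cons_append] using this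

theorem Elem.pinv {L L' : List (Edge α)} (h : Elem L L') :
    Elem (pinv L) (pinv L') ∨ Elem (pinv L') (pinv L) := by
  cases h with
  | cancel L₁ e L₂ =>
    left
    have := Elem.cancel (Diag.pinv L₂) e (Diag.pinv L₁)
    simpa using this
  | square L₁ a r b s c p q L₂ =>
    right
    have := Elem.square (Diag.pinv L₂) a r b s c (!p) (!q) (Diag.pinv L₁)
    simpa [Edge.inv] using this

theorem Htpy.isPath {u v : List α} {L L' : List (Edge α)} (h : Htpy R u v L L') :
    IsPath R u L v ∧ IsPath R u L' v := by
  induction h with
  | refl L h => exact ⟨h, h⟩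
  | elem L L' h h' _ => exact ⟨h, h'⟩
  | symm L L' _ ih => exact ⟨ih.2, ih.1⟩
  | trans L L' L'' _ _ ih ih' => exact ⟨ih.1, ih'.2⟩

theorem Htpy.append_left {u v w : List α} {L L' A : List (Edge α)} (h : Htpy R u v L L')
    (hA : IsPath R w A u) : Htpy R w v (A ++ L) (A ++ L') := by
  induction h with
  | refl L h => exact Htpy.refl _ (hA.append h)
  | elem L L' h h' e => exact Htpy.elem _ _ (hA.append h) (hA.append h') (e.append_left A)
  | symm L L' _ ih => exact Htpy.symm _ _ ih
  | trans L L' L'' _ _ ih ih' => exact Htpy.trans _ _ _ ih ih'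

theorem Htpy.append_right {u v w : List α} {L L' A : List (Edge α)} (h : Htpy R u v L L')
    (hA : IsPath R v A w) : Htpy R u w (L ++ A) (L' ++ A) := by
  induction h with
  | refl L h => exact Htpy.refl _ (h.append hA)
  | elem L L' h h' e => exact Htpy.elem _ _ (h.append hA) (h'.append hA) (e.append_right A)
  | symm L L' _ ih => exact Htpy.symm _ _ ih
  | trans L L' L'' _ _ ih ih' => exact Htpy.trans _ _ _ ih ih'

theorem Htpy.append {u v w : List α} {L L' A A' : List (Edge α)} (h : Htpy R u v L L')
    (h' : Htpy R v w A A') : Htpy R u w (L ++ A) (L' ++ A') :=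
  Htpy.trans _ _ _ (h.append_right h'.isPath.1) (h'.append_left h.isPath.2)

theorem Htpy.pinv {u v : List α} {L L' : List (Edge α)} (h : Htpy R u v L L') :
    Htpy R v u (pinv L) (pinv L') := by
  induction h with
  | refl L h => exact Htpy.refl _ h.pinv
  | elem L L' h h' e =>
    rcases e.pinv with e | e
    · exact Htpy.elem _ _ h.pinv h'.pinv e
    · exact Htpy.symm _ _ (Htpy.elem _ _ h'.pinv h.pinv e)
  | symm L L' _ ih => exact Htpy.symm _ _ ih
  | trans L L' L'' _ _ ih ih' => exact Htpy.trans _ _ _ ih ih'

theorem htpy_mul_pinv {u v : List α} {L : List (Edge α)} (h : IsPath R u L v) :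
    Htpy R u u (L ++ pinv L) [] := by
  induction L using List.reverseRecOn generalizing v with
  | nil => exact Htpy.refl _ rfl
  | append_singleton L e ih =>
    obtain ⟨w, h1, h2⟩ := isPath_append.1 h
    have h3 := ih h1
    have h4 : (L ++ [e]) ++ Diag.pinv (L ++ [e]) = L ++ e :: e.inv :: Diag.pinv L := by simp
    refine Htpy.trans _ _ _ (Htpy.elem _ _ ?_ ?_ ?_) h3
    · exact h.append h.pinv
    · exact h1.append h1.pinv
    · rw [h4]; exact Elem.cancel _ _ _

theorem htpy_pinv_mul {u v : List α} {L : List (Edge α)} (h : IsPath R u L v) :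
    Htpy R v v (pinv L ++ L) [] := by
  have := htpy_mul_pinv h.pinv
  simpa using this

end path

/-- the loops at `w` -/
def Loop (R : Set (List α × List α)) (w : List α) : Type u := {L : List (Edge α) // IsPath R w L w}

/-- homotopy of loops -/
def loopSetoid (R : Set (List α × List α)) (w : List α) : Setoid (Loop R w) where
  r L L' := Htpy R w w L.1 L'.1
  iseqv := ⟨fun L => Htpy.refl _ L.2, fun h => Htpy.symm _ _ h, fun h h' => Htpy.trans _ _ _ h h'⟩

/-- The diagram group `D(P, w)` of the semigroup presentation `P = ⟨α | R⟩` with baseword `w`: the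
fundamental group of the Squier complex of `P` based at `w`, that is, the edge loops at `w` up to
homotopy. -/
def DiagramGroup (R : Set (List α × List α)) (w : List α) : Type u := Quotient (loopSetoid R w)

namespace DiagramGroup

variable {R : Set (List α × List α)} {w : List α}

/-- the class of a loop -/
def mk (L : Loop R w) : DiagramGroup R w := Quotient.mk (loopSetoid R w) L

theorem mk_eq {L L' : Loop R w} : mk L = mk L' ↔ Htpy R w w L.1 L'.1 := by
  exact Quotient.eq (r := loopSetoid R w)

theorem exists_rep (g : DiagramGroup R w) : ∃ L : Loop R w, mk L = g := Quotient.exists_rep g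

/-- Concatenation of loops makes `D(P, w)` a group. -/
instance : Group (DiagramGroup R w) where
  mul := Quotient.map₂ (fun L L' : Loop R w => ⟨L.1 ++ L'.1, L.2.append L'.2⟩)
    (fun _ _ h _ _ h' => Htpy.append h h')
  one := mk ⟨[], isPath_nil.2 rfl⟩
  inv := Quotient.map (fun L : Loop R w => ⟨pinv L.1, L.2.pinv⟩) (fun _ _ h => Htpy.pinv h)
  mul_assoc := by
    intro x y z
    induction x using Quotient.inductionOn
    induction y using Quotient.inductionOn
    induction z using Quotient.inductionOn
    rename_i x y z
    change mk ⟨(x.1 ++ y.1) ++ z.1, _⟩ = mk ⟨x.1 ++ (y.1 ++ z.1), _⟩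
    congr 2
    exact List.append_assoc _ _ _
  one_mul := by
    intro x
    induction x using Quotient.inductionOn
    rfl
  mul_one := by
    intro x
    induction x using Quotient.inductionOn
    rename_i x
    change mk ⟨x.1 ++ [], _⟩ = mk x
    congr 1
    exact Subtype.ext (List.append_nil _)
  inv_mul_cancel := by
    intro x
    induction x using Quotient.inductionOn
    rename_i x
    exact mk_eq.2 (htpy_pinv_mul x.2)

theorem mk_mul (L L' : Loop R w) :
    mk L * mk L' = mk ⟨L.1 ++ L'.1, L.2.append L'.2⟩ := rfl

theorem mk_inv (L : Loop R w) : (mk L)⁻¹ = mk ⟨pinv L.1, L.2.pinv⟩ := rfl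

theorem mk_one : (1 : DiagramGroup R w) = mk ⟨[], isPath_nil.2 rfl⟩ := rfl

end DiagramGroup

end Pool.Agent.H476R3.Diag
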