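import Mathlib
import Pool.Agent.H476R3.Diag

set_option autoImplicit false

namespace Pool.Agent.H476R3.Diag

universe u

variable {α : Type u} {R : Set (List α × List α)}

/-- signed length of an edge path -/
def sgn (L : List (Edge α)) : ℤ := (L.map (fun e => if e.fwd then (1 : ℤ) else -1)).sum

theorem sgn_append (L L' : List (Edge α)) : sgn (L ++ L') = sgn L + sgn L' := by
  simp [sgn]

theorem sgn_cons (e : Edge α) (L : List (Edge α)) :
    sgn (e :: L) = (if e.fwd then (1 : ℤ) else -1) + sgn L := by
  simp [sgn]

theorem Elem.sgn_eq {L L' : List (Edge α)} (h : Elem L L') : sgn L = sgn L' := by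
  cases h with
  | cancel L₁ e L₂ =>
    rw [sgn_append, sgn_append, sgn_cons, sgn_cons]
    rcases e with ⟨a, r, b, f⟩
    cases f <;> simp [Edge.inv]
  | square L₁ a r b s c p q L₂ =>
    rw [sgn_append, sgn_append, sgn_cons, sgn_cons, sgn_cons, sgn_cons]
    simp only
    ring

theorem Htpy.sgn_eq {u v : List α} {L L' : List (Edge α)} (h : Htpy R u v L L') :
    sgn L = sgn L' := by
  induction h with
  | refl L h => rfl
  | elem L L' h h' e => exact e.sgn_eq
  | symm L L' _ ih => exact ih.symm
  | trans L L' L'' _ _ ih ih' => exact ih.trans ih'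

/-- forward paths -/
def FPath (R : Set (List α × List α)) (u : List α) (L : List (Edge α)) (v : List α) : Prop :=
  IsPath R u L v ∧ ∀ e ∈ L, e.fwd = true

theorem FPath.nil (u : List α) : FPath R u [] u := ⟨rfl, by simp⟩

theorem FPath.append {u v w : List α} {L L' : List (Edge α)} (h : FPath R u L v)
    (h' : FPath R v L' w) : FPath R u (L ++ L') w := by
  refine ⟨h.1.append h'.1, ?_⟩
  intro e he
  rcases List.mem_append.1 he with he | he
  · exact h.2 e he
  · exact h'.2 e he

theorem FPath.sgn_eq {u v : List α} {L : List (Edge α)} (h : FPath R u L v) :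
    sgn L = L.length := by
  induction L generalizing u with
  | nil => simp [sgn]
  | cons e L ih =>
    rw [sgn_cons, ih ⟨h.1.2.2, fun e' he' => h.2 e' (List.mem_cons_of_mem _ he')⟩]
    rw [h.2 e List.mem_cons_self]
    simp
    ring

/-- a forward cycle gives a nontrivial element -/
theorem nontrivial_of_cycle {w : List α} {Z : List (Edge α)} (h : FPath R w Z w) (hZ : Z ≠ []) :
    Nontrivial (DiagramGroup R w) := by
  refine ⟨⟨DiagramGroup.mk ⟨Z, h.1⟩, 1, ?_⟩⟩
  rw [DiagramGroup.mk_one]
  intro e
  have h1 := (DiagramGroup.mk_eq.1 e).sgn_eq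
  simp only at h1
  rw [h.sgn_eq] at h1
  simp only [sgn, List.map_nil, List.sum_nil] at h1
  apply hZ
  rw [← List.length_eq_zero_iff]
  exact_mod_cast h1

/-- A presentation which is deterministic on the valid words. -/
structure Det (R : Set (List α × List α)) (Valid : List α → Prop) : Prop where
  pres : ∀ e : Edge α, e.r ∈ R → Valid e.src → Valid e.tgt
  det : ∀ e e' : Edge α, e.r ∈ R → e'.r ∈ R → e.fwd = true → e'.fwd = true →
    Valid e.src → e.src = e'.src → e = e'

variable {Valid : List α → Prop}

theorem Det.path (D : Det R Valid) {u v : List α} {L : List (Edge α)} (h : IsPath R u L v)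
    (hu : Valid u) : Valid v := by
  induction L generalizing u with
  | nil => rw [← (h : u = v)]; exact hu
  | cons e L ih =>
    obtain ⟨h1, h2, h3⟩ := h
    exact ih h3 (D.pres e h1 (by rw [h2]; exact hu))

/-- forward paths from the same valid word are nested -/
theorem Det.nested (D : Det R Valid) {u v v' : List α} {L L' : List (Edge α)}
    (h : FPath R u L v) (h' : FPath R u L' v') (hu : Valid u) (hl : L.length ≤ L'.length) :
    ∃ L'', L' = L ++ L'' := by
  induction L generalizing u L' with
  | nil => exact ⟨L', rfl⟩
  | cons e L ih =>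
    cases L' with
    | nil => simp at hl
    | cons e' L' =>
      obtain ⟨⟨h1, h2, h3⟩, h4⟩ := h
      obtain ⟨⟨h1', h2', h3'⟩, h4'⟩ := h'
      have he : e = e' := D.det e e' h1 h1' (h4 e List.mem_cons_self) (h4' e' List.mem_cons_self)
        (by rw [h2]; exact hu) (h2.trans h2'.symm)
      subst he
      obtain ⟨L'', hL⟩ := ih ⟨h3, fun x hx => h4 x (List.mem_cons_of_mem _ hx)⟩
        ⟨h3', fun x hx => h4' x (List.mem_cons_of_mem _ hx)⟩
        (D.pres e h1 (by rw [h2]; exact hu)) (by simpa using hl)
      exact ⟨L'', by rw [hL]; rfl⟩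

theorem Det.claim (D : Det R Valid) {w : List α} (hw : Valid w) (L : List (Edge α)) :
    ∀ (u v z : List α) (C A : List (Edge α)), IsPath R u L v → FPath R w C z → FPath R u A z →
      ∃ (z' : List α) (C' A' : List (Edge α)), FPath R w C' z' ∧ FPath R v A' z' ∧
        Htpy R w v (C ++ pinv A ++ L) (C' ++ pinv A') := by
  induction L with
  | nil =>
    intro u v z C A h hC hA
    have huv : u = v := h
    subst huv
    refine ⟨z, C, A, hC, hA, ?_⟩
    rw [List.append_nil]
    exact Htpy.refl _ (hC.1.append hA.1.pinv)
  | cons e L ih =>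
    intro u v z C A h hC hA
    obtain ⟨h1, h2, h3⟩ := h
    have hu : Valid u := D.path (hC.1.append hA.1.pinv) hw
    cases hf : e.fwd with
    | true =>
      cases A with
      | nil =>
        have huz : u = z := hA.1
        subst huz
        have hC1 : FPath R w (C ++ [e]) e.tgt :=
          hC.append ⟨⟨h1, h2, rfl⟩, by simp [hf]⟩
        obtain ⟨z', C', A', r1, r2, r3⟩ := ih e.tgt v e.tgt (C ++ [e]) [] h3 hC1 (FPath.nil _)
        refine ⟨z', C', A', r1, r2, ?_⟩
        simpa using r3
      | cons e' A =>
        obtain ⟨⟨h1', h2', h3'⟩, h4'⟩ := hA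
        have he : e = e' := D.det e e' h1 h1' hf (h4' e' List.mem_cons_self)
          (by rw [h2]; exact hu) (h2.trans h2'.symm)
        subst he
        have hA1 : FPath R e.tgt A z := ⟨h3', fun x hx => h4' x (List.mem_cons_of_mem _ hx)⟩
        obtain ⟨z', C', A', r1, r2, r3⟩ := ih e.tgt v z C A h3 hC hA1
        refine ⟨z', C', A', r1, r2, Htpy.trans _ _ _ ?_ r3⟩
        have e1 : C ++ pinv (e :: A) ++ e :: L = (C ++ pinv A) ++ e.inv :: e.inv.inv :: L := by
          simp
        have p1 : IsPath R w (C ++ pinv A) e.tgt := hC.1.append hA1.1.pinv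
        refine Htpy.elem _ _ ?_ ?_ ?_
        · rw [e1]
          refine p1.append ⟨h1, rfl, h1, by simp, ?_⟩
          simpa using h3
        · exact p1.append h3
        · rw [e1]; exact Elem.cancel _ _ _
    | false =>
      have hA1 : FPath R e.tgt (e.inv :: A) z := by
        refine ⟨⟨h1, rfl, ?_⟩, ?_⟩
        · rw [Edge.tgt_inv, h2]; exact hA.1
        · intro x hx
          rcases List.mem_cons.1 hx with rfl | hx
          · simp [Edge.inv, hf]
          · exact hA.2 x hx
      obtain ⟨z', C', A', r1, r2, r3⟩ := ih e.tgt v z C (e.inv :: A) h3 hC hA1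
      refine ⟨z', C', A', r1, r2, ?_⟩
      simpa using r3

/-- if no forward cycle is reachable then the diagram group is trivial -/
theorem Det.trivial (D : Det R Valid) {w : List α} (hw : Valid w)
    (hc : ∀ (z : List α) (A Z : List (Edge α)), FPath R w A z → FPath R z Z z → Z = []) :
    ∀ x : DiagramGroup R w, x = 1 := by
  intro x
  obtain ⟨L, rfl⟩ := DiagramGroup.exists_rep x
  refine DiagramGroup.mk_eq.2 ?_
  obtain ⟨z, C, A, h1, h2, h3⟩ := D.claim hw L.1 w w w [] [] L.2 (FPath.nil w) (FPath.nil w)
  refine Htpy.trans _ _ _ (by simpa using h3) ?_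
  have key : ∀ A B : List (Edge α), FPath R w A z → FPath R w B z → A.length ≤ B.length →
      A = B := by
    intro A B hA hB hl
    obtain ⟨Z, hZ⟩ := D.nested hA hB hw hl
    have hBp := hB.1
    rw [hZ] at hBp
    obtain ⟨z', q1, q2⟩ := isPath_append.1 hBp
    have hz : z' = z := q1.tgt_unique hA.1
    subst hz
    have : FPath R z' Z z' := ⟨q2, fun e he => hB.2 e (by rw [hZ]; exact List.mem_append_right _ he)⟩
    have := hc z' A Z hA this
    rw [hZ, this, List.append_nil]
  have hCA : C = A := by
    rcases le_total C.length A.length with h | h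
    · exact key C A h1 h2 h
    · exact (key A C h2 h1 h).symm
  subst hCA
  exact htpy_mul_pinv h1.1

/-- If there are forward paths from `w` on which the statistic `c` of the end point is arbitrarily
large then no forward cycle is reachable from `w`. -/
theorem Det.no_cycle (D : Det R Valid) {w : List α} (hw : Valid w) (c : List α → ℕ)
    (hub : ∀ K : ℕ, ∃ (v : List α) (A : List (Edge α)), FPath R w A v ∧ K ≤ c v) :
    ∀ (z : List α) (A Z : List (Edge α)), FPath R w A z → FPath R z Z z → Z = [] := by
  intro z A Z hA hZ
  by_contra hne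
  -- powers of the cycle
  have hpow : ∀ k : ℕ, FPath R z (List.replicate k Z).flatten z := by
    intro k
    induction k with
    | zero => exact FPath.nil _
    | succ k ih =>
      rw [List.replicate_succ, List.flatten_cons]
      exact hZ.append ih
  have hlen : ∀ k : ℕ, k ≤ (A ++ (List.replicate k Z).flatten).length := by
    intro k
    have : 1 ≤ Z.length := List.length_pos_iff.2 hne
    simp only [List.length_append, List.length_flatten, List.map_replicate, List.sum_replicate,
      smul_eq_mul]
    nlinarith
  -- the end points of forward paths take finitely many values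
  have hfin : ∃ K : ℕ, ∀ (v : List α) (B : List (Edge α)), FPath R w B v → c v < K := by
    -- splits of a list
    have hsp : ∀ (u : List α) (L : List (Edge α)), ∃ K : ℕ, ∀ (v : List α) (L₁ L₂ : List (Edge α)),
        L = L₁ ++ L₂ → IsPath R u L₁ v → c v < K := by
      intro u L
      induction L generalizing u with
      | nil =>
        refine ⟨c u + 1, ?_⟩
        intro v L₁ L₂ h1 h2
        have : L₁ = [] := by
          have := congrArg List.length h1
          simp at this
          exact List.length_eq_zero_iff.1 (by omega)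
        subst this
        have : u = v := h2
        subst this
        omega
      | cons e L ih =>
        obtain ⟨K, hK⟩ := ih e.tgt
        refine ⟨max K (c u + 1), ?_⟩
        intro v L₁ L₂ h1 h2
        cases L₁ with
        | nil =>
          have : u = v := h2
          subst this
          exact lt_of_lt_of_le (Nat.lt_succ_self _) (le_max_right _ _)
        | cons e' L₁ =>
          rw [List.cons_append, List.cons_eq_cons] at h1
          obtain ⟨rfl, h1⟩ := h1
          exact lt_of_lt_of_le (hK v L₁ L₂ h1 h2.2.2) (le_max_left _ _)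
    obtain ⟨K1, hK1⟩ := hsp w A
    obtain ⟨K2, hK2⟩ := hsp z Z
    refine ⟨max K1 K2, ?_⟩
    intro v B hB
    obtain ⟨T, hT⟩ := D.nested hB (hA.append (hpow B.length)) hw (hlen B.length)
    -- locate the split
    have key : ∀ (k : ℕ) (v : List α) (L₁ L₂ : List (Edge α)),
        (List.replicate k Z).flatten = L₁ ++ L₂ → IsPath R z L₁ v → c v < K2 := by
      intro k
      induction k with
      | zero =>
        intro v L₁ L₂ h1 h2
        have : L₁ = [] := by
          have := congrArg List.length h1
          simp at this
          exact List.length_eq_zero_iff.1 (by omega)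
        subst this
        exact hK2 v [] Z rfl h2
      | succ k ih =>
        intro v L₁ L₂ h1 h2
        rw [List.replicate_succ, List.flatten_cons] at h1
        rcases List.append_eq_append_iff.1 h1 with ⟨as, e1, e2⟩ | ⟨bs, e1, e2⟩
        · rw [e1] at h2
          obtain ⟨z', p1, p2⟩ := isPath_append.1 h2
          have : z' = z := p1.tgt_unique hZ.1
          subst this
          exact ih v as L₂ e2 p2
        · exact hK2 v L₁ bs e1 h2
    rcases List.append_eq_append_iff.1 hT with ⟨as, e1, e2⟩ | ⟨bs, e1, e2⟩
    · have hBp := hB.1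
      rw [e1] at hBp
      obtain ⟨z', p1, p2⟩ := isPath_append.1 hBp
      have : z' = z := p1.tgt_unique hA.1
      subst this
      exact lt_of_lt_of_le (key _ v as T e2 p2) (le_max_right _ _)
    · exact lt_of_lt_of_le (hK1 v B bs e1 hB.1) (le_max_left _ _)
  obtain ⟨K, hK⟩ := hfin
  obtain ⟨v, B, h1, h2⟩ := hub K
  exact absurd (hK v B h1) (by omega)

end Pool.Agent.H476R3.Diag
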