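import Mathlib
import Pool.Agent.H476R3.DiagDet
import Pool.Agent.Helper599.Source

set_option autoImplicit false

namespace Pool.Agent.H476R3.DiagMach

open Pool.Agent.Helper599.Core Pool.Agent.H476R3.Diag Relation

/-- letters -/
inductive Sym (Q : Type) (B : ℕ) : Type
  | dol | one | two | thr | ifc | hsh | clk | pct
  | R (q : Q) (r : Fin B)
  | L (q : Q) (r2 r1 : Fin B)
  | S (q : Q) (r1 r2 : Fin B)
  | T (q : Q) (r1 r2 : Fin B)
  | U (q : Q)
  | E | F | X

variable {Q : Type} (M : Sys Q Bool)

/-- state letters -/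
def Sym.act {Q : Type} {B : ℕ} : Sym Q B → Bool
  | .R _ _ => true | .L _ _ _ => true | .S _ _ _ => true | .T _ _ _ => true | .U _ => true
  | .E => true | .F => true | .X => true
  | _ => false

/-- left-reading state letters -/
def Sym.lft {Q : Type} {B : ℕ} : Sym Q B → Bool
  | .L _ _ _ => true | .U _ => true | .F => true
  | _ => false

/-- zero residue -/
def z0 : Fin M.B := ⟨0, M.hB⟩

/-- residue vector -/
def rv (r1 r2 : Fin M.B) : Bool → Fin M.B := fun j => if j then r2 else r1

/-- the transition table; `ini` is the word written by the initial rule -/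
def δ (q0 : Q) (N : ℕ) : Sym Q M.B → Sym Q M.B → Option (List (Sym Q M.B))
  | .R q r, .one => if h : (r : ℕ) + 1 < M.B then some [.R q ⟨r + 1, h⟩] else some [.two, .R q (z0 M)]
  | .R q r, .hsh => some [.L q r (z0 M), .hsh]
  | .L q r2 r1, .two => some [.L q r2 r1, .two]
  | .L q r2 r1, .one =>
      if h : (r1 : ℕ) + 1 < M.B then some [.L q r2 ⟨r1 + 1, h⟩] else some [.L q r2 (z0 M), .thr]
  | .L q r2 r1, .dol =>
      some (if (M.nxt q (rv M r1 r2)).isSome then [.dol, .S q r1 r2] else [.dol, .E])
  | .S q r1 r2, .thr => some (List.replicate (M.a q (rv M r1 r2) false) .one ++ [.S q r1 r2])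
  | .S q r1 r2, .two =>
      some (List.replicate (M.b q (rv M r1 r2) false) .one ++ [.ifc, .T q r1 r2, .two])
  | .S q r1 r2, .hsh =>
      some (List.replicate (M.b q (rv M r1 r2) false) .one ++ [.ifc, .T q r1 r2, .hsh])
  | .T q r1 r2, .two => some (List.replicate (M.a q (rv M r1 r2) true) .one ++ [.T q r1 r2])
  | .T q r1 r2, .hsh => (M.nxt q (rv M r1 r2)).map fun q' =>
      List.replicate (M.b q (rv M r1 r2) true) .one ++ [.U q', .hsh, .clk]
  | .U q, .one => some [.U q, .one]
  | .U q, .ifc => some [.R q (z0 M)]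
  | .E, .thr => some [.E]
  | .E, .two => some [.E]
  | .E, .hsh => some [.E]
  | .E, .clk => some [.E]
  | .E, .pct => some [.F, .pct]
  | .F, .dol => some [.X]
  | .X, .pct => some ([.dol, .R q0 (z0 M)] ++ List.replicate N .one ++ [.hsh, .pct])
  | _, _ => none

/-- left side of the rule of `(s, y)` -/
def lhs {B : ℕ} (s y : Sym Q B) : List (Sym Q B) := if s.lft then [y, s] else [s, y]

variable (q0 : Q) (N : ℕ)

/-- one rewriting step -/
def Ts (u v : List (Sym Q M.B)) : Prop :=
  ∃ (a b : List (Sym Q M.B)) (s y : Sym Q M.B) (w : List (Sym Q M.B)),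
    δ M q0 N s y = some w ∧ u = a ++ lhs s y ++ b ∧ v = a ++ w ++ b

/-- several rewriting steps -/
abbrev Rt (u v : List (Sym Q M.B)) : Prop := ReflTransGen (Ts M q0 N) u v

variable {M q0 N}

theorem Ts.right {s y : Sym Q M.B} {w : List (Sym Q M.B)} (h : δ M q0 N s y = some w)
    (hs : s.lft = false) (a b : List (Sym Q M.B)) : Ts M q0 N (a ++ s :: y :: b) (a ++ w ++ b) :=
  ⟨a, b, s, y, w, h, by simp [lhs, hs], rfl⟩

theorem Ts.left {s y : Sym Q M.B} {w : List (Sym Q M.B)} (h : δ M q0 N s y = some w)
    (hs : s.lft = true) (a b : List (Sym Q M.B)) : Ts M q0 N (a ++ y :: s :: b) (a ++ w ++ b) :=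
  ⟨a, b, s, y, w, h, by simp [lhs, hs], rfl⟩

attribute [irreducible] Ts

theorem Rt.right {s y : Sym Q M.B} {w : List (Sym Q M.B)} (h : δ M q0 N s y = some w)
    (hs : s.lft = false) (a b : List (Sym Q M.B)) : Rt M q0 N (a ++ s :: y :: b) (a ++ w ++ b) :=
  ReflTransGen.single (Ts.right h hs a b)

theorem Rt.left {s y : Sym Q M.B} {w : List (Sym Q M.B)} (h : δ M q0 N s y = some w)
    (hs : s.lft = true) (a b : List (Sym Q M.B)) : Rt M q0 N (a ++ y :: s :: b) (a ++ w ++ b) :=
  ReflTransGen.single (Ts.left h hs a b)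

/-- a residue -/
def fm (M : Sys Q Bool) (n : ℕ) : Fin M.B := ⟨n % M.B, Nat.mod_lt _ M.hB⟩

theorem fm_self (r : Fin M.B) : fm M r = r := Fin.ext (Nat.mod_eq_of_lt r.2)

theorem rep_comm {β : Type} (n : ℕ) (x : β) (b : List β) :
    List.replicate n x ++ x :: b = x :: (List.replicate n x ++ b) := by
  induction n with
  | zero => rfl
  | succ n ih => rw [List.replicate_succ, List.cons_append, ih, List.cons_append]

/-- phase 1 -/
theorem ph1 (q : Q) (n : ℕ) : ∀ (r : Fin M.B) (a b : List (Sym Q M.B)),
    Rt M q0 N (a ++ .R q r :: (List.replicate n .one ++ b))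
      (a ++ (List.replicate ((r + n) / M.B) .two ++ .R q (fm M (r + n)) :: b)) := by
  induction n with
  | zero =>
    intro r a b
    have : (r : ℕ) / M.B = 0 := Nat.div_eq_of_lt r.2
    simp only [List.replicate_zero, List.nil_append, Nat.add_zero, this, fm_self]
    exact ReflTransGen.refl
  | succ n ih =>
    intro r a b
    rw [List.replicate_succ, List.cons_append]
    by_cases h : (r : ℕ) + 1 < M.B
    · have h1 := Rt.right (M := M) (q0 := q0) (N := N) (s := .R q r) (y := .one)
        (w := [.R q ⟨r + 1, h⟩]) (by simp [δ, h]) rfl a (List.replicate n .one ++ b)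
      refine h1.trans ?_
      have h2 := ih ⟨r + 1, h⟩ a b
      simp only [List.append_assoc, List.cons_append, List.nil_append] at h2 ⊢
      have e : (r : ℕ) + 1 + n = r + (n + 1) := by ring
      rw [e] at h2
      exact h2
    · have hr : (r : ℕ) + 1 = M.B := by have := r.2; omega
      have h1 := Rt.right (M := M) (q0 := q0) (N := N) (s := .R q r) (y := .one)
        (w := [.two, .R q (z0 M)]) (by simp [δ, h]) rfl a (List.replicate n .one ++ b)
      refine h1.trans ?_
      have h2 := ih (z0 M) (a ++ [.two]) b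
      have e : (r : ℕ) + (n + 1) = n + M.B := by omega
      have e1 : (r + (n + 1) : ℕ) / M.B = n / M.B + 1 := by
        rw [e, Nat.add_div_right _ M.hB]
      have e2 : fm M (r + (n + 1)) = fm M n := by
        apply Fin.ext
        simp only [fm]
        rw [e, Nat.add_mod_right]
      rw [e1, e2]
      have e3 : ((z0 M : Fin M.B) : ℕ) + n = n := by simp [z0]
      rw [e3] at h2
      simp only [List.append_assoc, List.cons_append, List.nil_append] at h2 ⊢
      rw [List.replicate_succ, List.cons_append]
      exact h2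

/-- phase 2 -/
theorem ph2 (q : Q) (r2 r1 : Fin M.B) (n : ℕ) : ∀ (a b : List (Sym Q M.B)),
    Rt M q0 N (a ++ (List.replicate n .two ++ .L q r2 r1 :: b))
      (a ++ .L q r2 r1 :: (List.replicate n .two ++ b)) := by
  induction n with
  | zero => intro a b; exact ReflTransGen.refl
  | succ n ih =>
    intro a b
    have h1 := ih (a ++ [.two]) b
    have h2 := Rt.left (M := M) (q0 := q0) (N := N) (s := .L q r2 r1) (y := .two)
        (w := [.L q r2 r1, .two]) (by simp [δ]) rfl a (List.replicate n .two ++ b)
    rw [List.replicate_succ]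
    simp only [List.append_assoc, List.cons_append, List.nil_append] at h1 h2 ⊢
    exact h1.trans h2

/-- phase 3 -/
theorem ph3 (q : Q) (r2 : Fin M.B) (n : ℕ) : ∀ (r1 : Fin M.B) (a b : List (Sym Q M.B)),
    Rt M q0 N (a ++ (List.replicate n .one ++ .L q r2 r1 :: b))
      (a ++ .L q r2 (fm M (r1 + n)) :: (List.replicate ((r1 + n) / M.B) .thr ++ b)) := by
  induction n with
  | zero =>
    intro r a b
    have : (r : ℕ) / M.B = 0 := Nat.div_eq_of_lt r.2
    simp only [List.replicate_zero, List.nil_append, Nat.add_zero, this, fm_self]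
    exact ReflTransGen.refl
  | succ n ih =>
    intro r a b
    have e0 : List.replicate (n + 1) (.one : Sym Q M.B) ++ .L q r2 r :: b =
        List.replicate n .one ++ .one :: .L q r2 r :: b := by
      rw [rep_comm]; rfl
    rw [e0]
    by_cases h : (r : ℕ) + 1 < M.B
    · have h1 := Rt.left (M := M) (q0 := q0) (N := N) (s := .L q r2 r) (y := .one)
        (w := [.L q r2 ⟨r + 1, h⟩]) (by simp [δ, h]) rfl (a ++ List.replicate n .one) b
      have h2 := ih ⟨r + 1, h⟩ a b
      simp only [List.append_assoc, List.cons_append, List.nil_append] at h1 h2 ⊢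
      have e : (r : ℕ) + 1 + n = r + (n + 1) := by ring
      rw [e] at h2
      exact h1.trans h2
    · have hr : (r : ℕ) + 1 = M.B := by have := r.2; omega
      have h1 := Rt.left (M := M) (q0 := q0) (N := N) (s := .L q r2 r) (y := .one)
        (w := [.L q r2 (z0 M), .thr]) (by simp [δ, h]) rfl (a ++ List.replicate n .one) b
      have h2 := ih (z0 M) a (.thr :: b)
      have e : (r : ℕ) + (n + 1) = n + M.B := by omega
      have e1 : (r + (n + 1) : ℕ) / M.B = n / M.B + 1 := by
        rw [e, Nat.add_div_right _ M.hB]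
      have e2 : fm M (r + (n + 1)) = fm M n := by
        apply Fin.ext
        simp only [fm]
        rw [e, Nat.add_mod_right]
      rw [e1, e2]
      have e3 : ((z0 M : Fin M.B) : ℕ) + n = n := by simp [z0]
      rw [e3, rep_comm] at h2
      rw [List.replicate_succ]
      simp only [List.append_assoc, List.cons_append, List.nil_append] at h1 h2 ⊢
      exact h1.trans h2

/-- phase 5 -/
theorem ph5 (q : Q) (r1 r2 : Fin M.B) (n : ℕ) : ∀ (a b : List (Sym Q M.B)),
    Rt M q0 N (a ++ .S q r1 r2 :: (List.replicate n .thr ++ b))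
      (a ++ (List.replicate (M.a q (rv M r1 r2) false * n) .one ++ .S q r1 r2 :: b)) := by
  induction n with
  | zero => intro a b; exact ReflTransGen.refl
  | succ n ih =>
    intro a b
    have h1 := Rt.right (M := M) (q0 := q0) (N := N) (s := .S q r1 r2) (y := .thr)
      (w := List.replicate (M.a q (rv M r1 r2) false) .one ++ [.S q r1 r2]) (by simp [δ]) rfl a
      (List.replicate n .thr ++ b)
    have h2 := ih (a ++ List.replicate (M.a q (rv M r1 r2) false) .one) b
    rw [List.replicate_succ, Nat.mul_succ, Nat.add_comm, List.replicate_add]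
    simp only [List.append_assoc, List.cons_append, List.nil_append] at h1 h2 ⊢
    exact h1.trans h2

/-- phase 7 -/
theorem ph7 (q : Q) (r1 r2 : Fin M.B) (n : ℕ) : ∀ (a b : List (Sym Q M.B)),
    Rt M q0 N (a ++ .T q r1 r2 :: (List.replicate n .two ++ b))
      (a ++ (List.replicate (M.a q (rv M r1 r2) true * n) .one ++ .T q r1 r2 :: b)) := by
  induction n with
  | zero => intro a b; exact ReflTransGen.refl
  | succ n ih =>
    intro a b
    have h1 := Rt.right (M := M) (q0 := q0) (N := N) (s := .T q r1 r2) (y := .two)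
      (w := List.replicate (M.a q (rv M r1 r2) true) .one ++ [.T q r1 r2]) (by simp [δ]) rfl a
      (List.replicate n .two ++ b)
    have h2 := ih (a ++ List.replicate (M.a q (rv M r1 r2) true) .one) b
    rw [List.replicate_succ, Nat.mul_succ, Nat.add_comm, List.replicate_add]
    simp only [List.append_assoc, List.cons_append, List.nil_append] at h1 h2 ⊢
    exact h1.trans h2

/-- phase 6 -/
theorem ph6 (q : Q) (r1 r2 : Fin M.B) (n : ℕ) (a b : List (Sym Q M.B)) :
    Rt M q0 N (a ++ .S q r1 r2 :: (List.replicate n .two ++ .hsh :: b))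
      (a ++ (List.replicate (M.b q (rv M r1 r2) false) .one ++
        .ifc :: .T q r1 r2 :: (List.replicate n .two ++ .hsh :: b))) := by
  cases n with
  | zero =>
    have h1 := Rt.right (M := M) (q0 := q0) (N := N) (s := .S q r1 r2) (y := .hsh)
      (w := List.replicate (M.b q (rv M r1 r2) false) .one ++ [.ifc, .T q r1 r2, .hsh])
      (by simp [δ]) rfl a b
    simpa using h1
  | succ n =>
    have h1 := Rt.right (M := M) (q0 := q0) (N := N) (s := .S q r1 r2) (y := .two)
      (w := List.replicate (M.b q (rv M r1 r2) false) .one ++ [.ifc, .T q r1 r2, .two])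
      (by simp [δ]) rfl a (List.replicate n .two ++ .hsh :: b)
    rw [List.replicate_succ]
    simpa using h1

/-- phase 9 -/
theorem ph9 (q : Q) (n : ℕ) : ∀ (a b : List (Sym Q M.B)),
    Rt M q0 N (a ++ (List.replicate n .one ++ .U q :: b))
      (a ++ .U q :: (List.replicate n .one ++ b)) := by
  induction n with
  | zero => intro a b; exact ReflTransGen.refl
  | succ n ih =>
    intro a b
    have h1 := ih (a ++ [.one]) b
    have h2 := Rt.left (M := M) (q0 := q0) (N := N) (s := .U q) (y := .one)
        (w := [.U q, .one]) (by simp [δ]) rfl a (List.replicate n .one ++ b)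
    rw [List.replicate_succ]
    simp only [List.append_assoc, List.cons_append, List.nil_append] at h1 h2 ⊢
    exact h1.trans h2

/-- erasing -/
theorem phE (y : Sym Q M.B) (hy : δ M q0 N .E y = some [.E]) (n : ℕ) (a b : List (Sym Q M.B)) :
    Rt M q0 N (a ++ .E :: (List.replicate n y ++ b)) (a ++ .E :: b) := by
  induction n with
  | zero => exact ReflTransGen.refl
  | succ n ih =>
    have h1 := Rt.right (M := M) (q0 := q0) (N := N) (s := .E) (y := y) hy rfl a
      (List.replicate n y ++ b)
    rw [List.replicate_succ]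
    simp only [List.append_assoc, List.cons_append, List.nil_append] at h1 ⊢
    exact h1.trans ih

/-- the word of a configuration -/
def cfg (M : Sys Q Bool) (q : Q) (n : Bool → ℕ) (t : ℕ) : List (Sym Q M.B) :=
  .dol :: (List.replicate (n false) .one ++ .R q (z0 M) :: (List.replicate (n true) .one ++
    .hsh :: (List.replicate t .clk ++ [.pct])))

theorem res_eq (n : Bool → ℕ) : rv M (fm M (n false)) (fm M (n true)) = M.res n := by
  funext j
  cases j <;> rfl

theorem half (q : Q) (n : Bool → ℕ) (t : ℕ) :
    Rt M q0 N (cfg M q n t) (.dol :: .L q (fm M (n true)) (fm M (n false)) ::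
      (List.replicate (n false / M.B) .thr ++ (List.replicate (n true / M.B) .two ++
        .hsh :: (List.replicate t .clk ++ [.pct])))) := by
  unfold cfg
  have h1 := ph1 (M := M) (q0 := q0) (N := N) q (n true) (z0 M)
    (.dol :: List.replicate (n false) .one) (.hsh :: (List.replicate t .clk ++ [.pct]))
  have e3 : ∀ k : ℕ, ((z0 M : Fin M.B) : ℕ) + k = k := by intro k; simp [z0]
  rw [e3] at h1
  have h2 := Rt.right (M := M) (q0 := q0) (N := N) (s := .R q (fm M (n true))) (y := .hsh)
    (w := [.L q (fm M (n true)) (z0 M), .hsh]) (by simp [δ]) rfl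
    (.dol :: List.replicate (n false) .one ++ List.replicate (n true / M.B) .two)
    (List.replicate t .clk ++ [.pct])
  have h3 := ph2 (M := M) (q0 := q0) (N := N) q (fm M (n true)) (z0 M) (n true / M.B)
    (.dol :: List.replicate (n false) .one) (.hsh :: (List.replicate t .clk ++ [.pct]))
  have h4 := ph3 (M := M) (q0 := q0) (N := N) q (fm M (n true)) (n false) (z0 M)
    [.dol] (List.replicate (n true / M.B) .two ++ .hsh :: (List.replicate t .clk ++ [.pct]))
  rw [e3] at h4
  simp only [List.append_assoc, List.cons_append, List.nil_append] at h1 h2 h3 h4 ⊢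
  exact ((h1.trans h2).trans h3).trans h4

/-- simulation of one step of the machine -/
theorem macro_step (q q' : Q) (n : Bool → ℕ) (t : ℕ) (h : M.nxt q (M.res n) = some q') :
    Rt M q0 N (cfg M q n t) (cfg M q' (M.nn q n) (t + 1)) := by
  refine (half q n t).trans ?_
  set r1 := fm M (n false) with hr1
  set r2 := fm M (n true) with hr2
  have hrv : rv M r1 r2 = M.res n := res_eq n
  have h4 := Rt.left (M := M) (q0 := q0) (N := N) (s := .L q r2 r1) (y := .dol)
    (w := [.dol, .S q r1 r2]) (by simp [δ, hrv, h]) rfl []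
    (List.replicate (n false / M.B) .thr ++ (List.replicate (n true / M.B) .two ++
        .hsh :: (List.replicate t .clk ++ [.pct])))
  have h5 := ph5 (M := M) (q0 := q0) (N := N) q r1 r2 (n false / M.B) [.dol]
    (List.replicate (n true / M.B) .two ++ .hsh :: (List.replicate t .clk ++ [.pct]))
  have h6 := ph6 (M := M) (q0 := q0) (N := N) q r1 r2 (n true / M.B)
    (.dol :: List.replicate (M.a q (rv M r1 r2) false * (n false / M.B)) .one)
    (List.replicate t .clk ++ [.pct])
  have h7 := ph7 (M := M) (q0 := q0) (N := N) q r1 r2 (n true / M.B)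
    (.dol :: List.replicate (M.a q (rv M r1 r2) false * (n false / M.B)) .one ++
      (List.replicate (M.b q (rv M r1 r2) false) .one ++ [.ifc]))
    (.hsh :: (List.replicate t .clk ++ [.pct]))
  have h8 := Rt.right (M := M) (q0 := q0) (N := N) (s := .T q r1 r2) (y := .hsh)
    (w := List.replicate (M.b q (rv M r1 r2) true) .one ++ [.U q', .hsh, .clk])
    (by simp [δ, hrv, h]) rfl
    (.dol :: List.replicate (M.a q (rv M r1 r2) false * (n false / M.B)) .one ++
      (List.replicate (M.b q (rv M r1 r2) false) .one ++ .ifc ::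
        List.replicate (M.a q (rv M r1 r2) true * (n true / M.B)) .one))
    (List.replicate t .clk ++ [.pct])
  have h9 := ph9 (M := M) (q0 := q0) (N := N) q' (M.a q (rv M r1 r2) true * (n true / M.B) +
      M.b q (rv M r1 r2) true)
    (.dol :: List.replicate (M.a q (rv M r1 r2) false * (n false / M.B)) .one ++
      (List.replicate (M.b q (rv M r1 r2) false) .one ++ [.ifc]))
    (.hsh :: .clk :: (List.replicate t .clk ++ [.pct]))
  have h10 := Rt.left (M := M) (q0 := q0) (N := N) (s := .U q') (y := .ifc)
    (w := [.R q' (z0 M)]) (by simp [δ]) rfl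
    (.dol :: List.replicate (M.a q (rv M r1 r2) false * (n false / M.B)) .one ++
      (List.replicate (M.b q (rv M r1 r2) false) .one))
    (List.replicate (M.a q (rv M r1 r2) true * (n true / M.B) +
      M.b q (rv M r1 r2) true) .one ++ .hsh :: .clk :: (List.replicate t .clk ++ [.pct]))
  have hend : cfg M q' (M.nn q n) (t + 1) = .dol ::
      (List.replicate (M.a q (rv M r1 r2) false * (n false / M.B)) .one ++
      (List.replicate (M.b q (rv M r1 r2) false) .one ++ (.R q' (z0 M) ::
      (List.replicate (M.a q (rv M r1 r2) true * (n true / M.B)) .one ++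
      (List.replicate (M.b q (rv M r1 r2) true) .one ++
        .hsh :: .clk :: (List.replicate t .clk ++ [.pct])))))) := by
    unfold cfg Sys.nn
    rw [hrv, List.replicate_add, List.replicate_add, List.replicate_succ]
    simp only [List.append_assoc, List.cons_append, List.nil_append]
  rw [hend]
  rw [List.replicate_add] at h9 h10
  simp only [List.append_assoc, List.cons_append, List.nil_append] at h4 h5 h6 h7 h8 h9 h10 ⊢
  exact (((((h4.trans h5).trans h6).trans h7).trans h8).trans h9).trans h10

/-- simulation of the last step -/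
theorem macro_stop (q : Q) (n : Bool → ℕ) (t : ℕ) (h : M.nxt q (M.res n) = none) :
    Rt M q0 N (cfg M q n t) [.X, .pct] := by
  refine (half q n t).trans ?_
  set r1 := fm M (n false) with hr1
  set r2 := fm M (n true) with hr2
  have hrv : rv M r1 r2 = M.res n := res_eq n
  have h4 := Rt.left (M := M) (q0 := q0) (N := N) (s := .L q r2 r1) (y := .dol)
    (w := [.dol, .E]) (by simp [δ, hrv, h]) rfl []
    (List.replicate (n false / M.B) .thr ++ (List.replicate (n true / M.B) .two ++
        .hsh :: (List.replicate t .clk ++ [.pct])))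
  have h5 := phE (M := M) (q0 := q0) (N := N) .thr (by simp [δ]) (n false / M.B) [.dol]
    (List.replicate (n true / M.B) .two ++ .hsh :: (List.replicate t .clk ++ [.pct]))
  have h6 := phE (M := M) (q0 := q0) (N := N) .two (by simp [δ]) (n true / M.B) [.dol]
    (.hsh :: (List.replicate t .clk ++ [.pct]))
  have h7 := phE (M := M) (q0 := q0) (N := N) .hsh (by simp [δ]) 1 [.dol]
    (List.replicate t .clk ++ [.pct])
  have h8 := phE (M := M) (q0 := q0) (N := N) .clk (by simp [δ]) t [.dol] [.pct]
  have h9 := Rt.right (M := M) (q0 := q0) (N := N) (s := .E) (y := .pct)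
    (w := [.F, .pct]) (by simp [δ]) rfl [.dol] []
  have h10 := Rt.left (M := M) (q0 := q0) (N := N) (s := .F) (y := .dol)
    (w := [.X]) (by simp [δ]) rfl [] [.pct]
  simp only [List.append_assoc, List.cons_append, List.nil_append, List.replicate_one] at *
  exact (((((h4.trans h5).trans h6).trans h7).trans h8).trans h9).trans h10

theorem start_step (N : ℕ) : Ts M q0 N [.X, .pct]
    (cfg M q0 (Pool.Agent.Helper599.Source.ini N) 0) := by
  have h := Ts.right (M := M) (q0 := q0) (N := N) (s := .X) (y := .pct)
    (w := [.dol, .R q0 (z0 M)] ++ List.replicate N .one ++ [.hsh, .pct]) (by simp [δ]) rfl [] []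
  simpa [cfg, Pool.Agent.Helper599.Source.ini] using h

theorem halts_reach {q : Option Q} {n : Bool → ℕ} (h : M.Halts q n) :
    ∀ q', q = some q' → ∀ t, Rt M q0 N (cfg M q' n t) [.X, .pct] := by
  induction h with
  | stop n => intro q' h; simp at h
  | step q n h' ih =>
    intro q' hq t
    obtain rfl : q = q' := Option.some.inj hq
    cases hn : M.nxt q (M.res n) with
    | none => exact macro_stop q n t hn
    | some q' => exact (macro_step q q' n t hn).trans (ih q' hn (t + 1))

theorem not_halts_reach {n0 : Bool → ℕ} (h : ¬ M.Halts (some q0) n0) (t : ℕ) :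
    ∃ (q : Q) (n : Bool → ℕ), ¬ M.Halts (some q) n ∧
      Rt M q0 N (cfg M q0 n0 0) (cfg M q n t) := by
  induction t with
  | zero => exact ⟨q0, n0, h, ReflTransGen.refl⟩
  | succ t ih =>
    obtain ⟨q, n, h1, h2⟩ := ih
    cases hn : M.nxt q (M.res n) with
    | none =>
      exact absurd (Sys.Halts.step q n (by rw [hn]; exact Sys.Halts.stop _)) h1
    | some q' =>
      refine ⟨q', M.nn q n, ?_, h2.trans (macro_step q q' n t hn)⟩
      intro h3
      exact h1 (Sys.Halts.step q n (by rw [hn]; exact h3))

end Pool.Agent.H476R3.DiagMach
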