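import Mathlib
import Pool.Agent.H476R3.DiagMach

set_option autoImplicit false

namespace Pool.Agent.H476R3.DiagMach

open Pool.Agent.Helper599.Core Pool.Agent.H476R3.Diag Relation

variable {Q : Type} {M : Sys Q Bool} {q0 : Q}

theorem sym_finite (Q : Type) [Finite Q] (B : ℕ) : Finite (Sym Q B) := by
  let f : Sym Q B → Fin 16 × Option Q × Option (Fin B) × Option (Fin B) := fun s =>
    match s with
    | .dol => (0, none, none, none)
    | .one => (1, none, none, none)
    | .two => (2, none, none, none)
    | .thr => (3, none, none, none)
    | .ifc => (4, none, none, none)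
    | .hsh => (5, none, none, none)
    | .clk => (6, none, none, none)
    | .pct => (7, none, none, none)
    | .R q r => (8, some q, some r, none)
    | .L q r2 r1 => (9, some q, some r2, some r1)
    | .S q r1 r2 => (10, some q, some r1, some r2)
    | .T q r1 r2 => (11, some q, some r1, some r2)
    | .U q => (12, some q, none, none)
    | .E => (13, none, none, none)
    | .F => (14, none, none, none)
    | .X => (15, none, none, none)
  refine Finite.of_injective f ?_
  intro x y h
  cases x <;> cases y <;> simp_all [f]

theorem δ_indep (N : ℕ) (s y : Sym Q M.B) (hs : s ≠ .X) : δ M q0 N s y = δ M q0 0 s y := by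
  cases s <;> cases y <;> first | rfl | exact absurd rfl hs

theorem δ_act (N : ℕ) (s y : Sym Q M.B) (w : List (Sym Q M.B)) (h : δ M q0 N s y = some w) :
    s.act = true ∧ y.act = false ∧ w.countP Sym.act = 1 := by
  have hrep : ∀ (n : ℕ) (l : List (Sym Q M.B)),
      (List.replicate n (Sym.one : Sym Q M.B) ++ l).countP Sym.act = l.countP Sym.act := by
    intro n l
    rw [List.countP_append, List.countP_replicate]
    simp [Sym.act]
  have hmap : ∀ (o : Option Q) (f : Q → List (Sym Q M.B)), (∀ q, (f q).countP Sym.act = 1) →
      o.map f = some w → w.countP Sym.act = 1 := by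
    intro o f hf ho
    cases o with
    | none => simp at ho
    | some q =>
      rw [Option.map_some, Option.some.injEq] at ho
      rw [← ho]
      exact hf q
  cases s <;> cases y <;> simp only [δ, reduceCtorEq, Option.some.injEq] at h <;>
    first
    | (subst h; simp [Sym.act, List.countP_cons, hrep]; done)
    | (refine ⟨rfl, rfl, hmap _ _ ?_ h⟩; intro q'; simp [Sym.act, List.countP_cons, hrep]; done)
    | skip
  all_goals split_ifs at h
  all_goals first
    | (subst h; simp [Sym.act, List.countP_cons]; done)
    | (rw [Option.some.injEq] at h; subst h; simp [Sym.act, List.countP_cons]; done)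

end Pool.Agent.H476R3.DiagMach
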