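import Mathlib
import Pool.Agent.H476R3.DiagCode

set_option autoImplicit false

namespace Pool.Agent.H476R3.DiagMach

open Pool.Agent.Helper599.Core Pool.Agent.H476R3.Diag Relation

variable {Q : Type} (M : Sys Q Bool) (q0 : Q) (N : ℕ) (code : Sym Q M.B → ℕ)

/-- the coded relations -/
def rels : Set (List ℕ × List ℕ) :=
  {ρ | ∃ s y w, δ M q0 N s y = some w ∧ ρ = ((lhs s y).map code, w.map code)}

/-- the code of an active letter -/
def actc (n : ℕ) : Prop := ∃ s : Sym Q M.B, s.act = true ∧ code s = n

/-- valid words: exactly one active letter -/
noncomputable def Valid (v : List ℕ) : Prop := by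
  classical
  exact v.countP (fun n => decide (actc M code n)) = 1

variable {M q0 N code}

theorem countP_map (hc : Function.Injective code) (w : List (Sym Q M.B)) [DecidablePred (actc M code)] :
    (w.map code).countP (fun n => decide (actc M code n)) = w.countP Sym.act := by
  rw [List.countP_map]
  congr 1
  funext s
  simp only [Function.comp]
  by_cases h : s.act = true
  · rw [h]
    exact decide_eq_true ⟨s, h, rfl⟩
  · have h' : s.act = false := by simpa using h
    rw [h']
    refine decide_eq_false ?_
    rintro ⟨s', h1, h2⟩
    rw [hc h2] at h1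
    exact h h1

theorem lhs_count (N : ℕ) (s y : Sym Q M.B) (w : List (Sym Q M.B)) (h : δ M q0 N s y = some w) :
    (lhs s y).countP Sym.act = 1 := by
  obtain ⟨h1, h2, -⟩ := δ_act N s y w h
  unfold lhs
  split_ifs <;> simp [List.countP_cons, h1, h2]

theorem split_unique {p : ℕ → Bool} : ∀ (A A' : List ℕ) (n n' : ℕ) (C C' : List ℕ),
    A ++ n :: C = A' ++ n' :: C' → p n = true → p n' = true →
    (A ++ n :: C).countP p = 1 → A = A' ∧ n = n' ∧ C = C' := by
  intro A
  induction A with
  | nil =>
    intro A' n n' C C' h hn hn' hc
    cases A' with
    | nil => simp at h; exact ⟨rfl, h.1, h.2⟩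
    | cons x A' =>
      exfalso
      rw [h] at hc
      simp only [List.nil_append, List.cons_append, List.cons.injEq] at h
      obtain ⟨rfl, -⟩ := h
      simp only [List.countP_cons, List.countP_append, List.cons_append, hn, hn'] at hc
      simp at hc
  | cons x A ih =>
    intro A' n n' C C' h hn hn' hc
    cases A' with
    | nil =>
      exfalso
      simp only [List.nil_append, List.cons_append, List.cons.injEq] at h
      obtain ⟨rfl, -⟩ := h
      simp only [List.countP_cons, List.countP_append, List.cons_append, hn, hn'] at hc
      simp at hc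
    | cons x' A' =>
      simp only [List.cons_append, List.cons.injEq] at h
      obtain ⟨rfl, h⟩ := h
      by_cases hx : p x = true
      · exfalso
        simp only [List.countP_cons, List.countP_append, List.cons_append, hn, hx] at hc
        simp at hc
      · have := ih A' n n' C C' h hn hn' (by
          simp only [List.cons_append, List.countP_cons, hx] at hc
          simpa using hc)
        exact ⟨by rw [this.1], this.2.1, this.2.2⟩

theorem det (hc : Function.Injective code) : Det (rels M q0 N code) (Valid M code) := by
  classical
  constructor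
  · rintro ⟨a, ρ, b, f⟩ hr hv
    obtain ⟨s, y, w, h, hρ⟩ := hr
    simp only at hρ
    subst hρ
    have h1 := lhs_count N s y w h
    have h2 := (δ_act N s y w h).2.2
    unfold Valid Edge.src Edge.tgt at *
    simp only [List.countP_append] at hv ⊢
    have hs : ∀ g, (side ((lhs s y).map code, w.map code) g).countP
        (fun n => decide (actc M code n)) = 1 := by
      intro g
      cases g
      · simp only [side, Bool.false_eq_true, if_false]
        rw [countP_map hc, h2]
      · simp only [side, if_true]
        rw [countP_map hc, h1]
    rw [hs] at hv ⊢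
    exact hv
  · rintro ⟨a, ρ, b, f⟩ ⟨a', ρ', b', f'⟩ hr hr' hf hf' hv he
    obtain ⟨s, y, w, h, hρ⟩ := hr
    obtain ⟨s', y', w', h', hρ'⟩ := hr'
    simp only at hρ hρ' hf hf'
    subst hρ; subst hρ'; subst hf; subst hf'
    have hsa := (δ_act N s y w h).1
    have hsa' := (δ_act N s' y' w' h').1
    have hp : decide (actc M code (code s)) = true := decide_eq_true ⟨s, hsa, rfl⟩
    have hp' : decide (actc M code (code s')) = true := decide_eq_true ⟨s', hsa', rfl⟩
    unfold Valid at hv
    simp only [Edge.src, side, if_true] at he hv
    -- normal forms of the source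
    have e1 : a ++ List.map code (lhs s y) ++ b =
        (if s.lft then a ++ [code y] else a) ++ code s :: (if s.lft then b else code y :: b) := by
      unfold lhs
      split_ifs <;> simp
    have e2 : a' ++ List.map code (lhs s' y') ++ b' =
        (if s'.lft then a' ++ [code y'] else a') ++ code s' ::
          (if s'.lft then b' else code y' :: b') := by
      unfold lhs
      split_ifs <;> simp
    rw [e1, e2] at he
    rw [e1] at hv
    obtain ⟨h3, h4, h5⟩ := split_unique (p := fun n => decide (actc M code n)) _ _ _ _ _ _ he hp hp' hv
    have hss := hc h4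
    subst hss
    have hyy : a = a' ∧ y = y' ∧ b = b' := by
      cases hl : s.lft
      · rw [hl] at h3 h5
        simp only [Bool.false_eq_true, if_false, List.cons.injEq] at h3 h5
        exact ⟨h3, hc h5.1, h5.2⟩
      · rw [hl] at h3 h5
        simp only [if_true] at h3 h5
        have h6 := List.append_inj' h3 rfl
        simp only [List.cons.injEq, and_true] at h6
        exact ⟨h6.1, hc h6.2, h5⟩
    obtain ⟨rfl, rfl, rfl⟩ := hyy
    rw [h] at h'
    obtain rfl := Option.some.inj h'
    rfl

theorem ts_fpath {u v : List (Sym Q M.B)} (h : Ts M q0 N u v) :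
    ∃ e, FPath (rels M q0 N code) (u.map code) [e] (v.map code) := by
  unfold Ts at h
  obtain ⟨a, b, s, y, w, h1, rfl, rfl⟩ := h
  refine ⟨⟨a.map code, ((lhs s y).map code, w.map code), b.map code, true⟩, ⟨⟨s, y, w, h1, rfl⟩,
    ?_, ?_⟩, ?_⟩
  · simp [Edge.src, side]
  · simp [Edge.tgt, side, isPath_nil]
  · intro e he
    rw [List.mem_singleton] at he
    subst he
    rfl

theorem rt_fpath {u v : List (Sym Q M.B)} (h : Rt M q0 N u v) :
    ∃ L, FPath (rels M q0 N code) (u.map code) L (v.map code) := by
  induction h with
  | refl => exact ⟨[], FPath.nil _⟩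
  | tail _ h' ih =>
    obtain ⟨L, hL⟩ := ih
    obtain ⟨e, he⟩ := ts_fpath (code := code) h'
    exact ⟨L ++ [e], hL.append he⟩

/-- The diagram group is nontrivial exactly when the machine stops. -/
theorem nontrivial_iff (hc : Function.Injective code) :
    Nontrivial (DiagramGroup (rels M q0 N code) ([Sym.X, Sym.pct].map code)) ↔
      M.Halts (some q0) (Pool.Agent.Helper599.Source.ini N) := by
  classical
  constructor
  · intro hn
    by_contra hh
    have hv : Valid M code ([Sym.X, Sym.pct].map code) := by
      unfold Valid
      rw [countP_map hc]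
      simp [Sym.act, List.countP_cons]
    have hD := det (M := M) (q0 := q0) (N := N) hc
    have h1 := hD.trivial hv (hD.no_cycle hv (fun v => v.count (code .clk)) (by
      intro K
      obtain ⟨q, n, -, h2⟩ := not_halts_reach (N := N) hh K
      obtain ⟨e, he⟩ := ts_fpath (code := code) (start_step (M := M) (q0 := q0) N)
      obtain ⟨L, hL⟩ := rt_fpath (code := code) h2
      refine ⟨_, [e] ++ L, he.append hL, ?_⟩
      have : (List.map code (cfg M q n K)).count (code .clk) = (cfg M q n K).count .clk :=
        List.count_map_of_injective _ code hc _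
      rw [this]
      unfold cfg
      simp [List.count_cons, List.count_append, List.count_replicate]))
    obtain ⟨x, y, hxy⟩ := hn
    exact hxy ((h1 x).trans (h1 y).symm)
  · intro hh
    obtain ⟨e, he⟩ := ts_fpath (code := code) (start_step (M := M) (q0 := q0) N)
    obtain ⟨L, hL⟩ := rt_fpath (code := code) (halts_reach (q0 := q0) (N := N) hh q0 rfl 0)
    exact nontrivial_of_cycle (he.append hL) (by simp)

end Pool.Agent.H476R3.DiagMach
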