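import Mathlib
import Pool.Agent.H476R3.DiagCode2

set_option autoImplicit false

namespace Pool.Agent.H476R3.DiagMach

open Pool.Agent.H476R3.Diag Pool.Agent.Helper599.Core

variable {Q : Type} (M : Sys Q Bool) (q0 : Q) (code : Sym Q M.B → ℕ)

/-- the rule depending on the input -/
def inp (N : ℕ) : List ℕ × List ℕ :=
  ([code .X, code .pct],
    [code .dol, code (.R q0 (z0 M))] ++ (List.range N).map (fun _ => code .one) ++
      [code .hsh, code .pct])

/-- the set of the other rules -/
def fixedSet : Set (List ℕ × List ℕ) :=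
  {ρ | ∃ s y w, s ≠ Sym.X ∧ δ M q0 0 s y = some w ∧ ρ = ((lhs s y).map code, w.map code)}

theorem fixedSet_finite [Finite Q] : (fixedSet M q0 code).Finite := by
  have := sym_finite Q M.B
  refine Set.Finite.subset (Set.finite_range (fun p : Sym Q M.B × Sym Q M.B =>
    (((lhs p.1 p.2).map code, ((δ M q0 0 p.1 p.2).getD []).map code) : List ℕ × List ℕ))) ?_
  rintro ρ ⟨s, y, w, -, h, rfl⟩
  exact ⟨(s, y), by simp [h]⟩

theorem replicate_eq (N : ℕ) (x : ℕ) : (List.range N).map (fun _ => x) = List.replicate N x := by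
  simp

theorem rels_eq (N : ℕ) (F : List (List ℕ × List ℕ)) (hF : ∀ ρ, ρ ∈ F ↔ ρ ∈ fixedSet M q0 code) :
    {ρ | ρ ∈ inp M q0 code N :: F} = rels M q0 N code := by
  ext ρ
  simp only [Set.mem_ofPred_eq, List.mem_cons, hF]
  constructor
  · rintro (rfl | ⟨s, y, w, hs, h, rfl⟩)
    · refine ⟨.X, .pct, [.dol, .R q0 (z0 M)] ++ List.replicate N .one ++ [.hsh, .pct], rfl, ?_⟩
      unfold inp
      rw [replicate_eq]
      simp [lhs, Sym.lft]
    · exact ⟨s, y, w, by rw [δ_indep N s y hs]; exact h, rfl⟩
  · rintro ⟨s, y, w, h, rfl⟩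
    by_cases hs : s = Sym.X
    · subst hs
      left
      cases y <;> simp only [δ, reduceCtorEq, Option.some.injEq] at h
      subst h
      unfold inp
      rw [replicate_eq]
      simp [lhs, Sym.lft]
    · right
      exact ⟨s, y, w, hs, by rw [← δ_indep N s y hs]; exact h, rfl⟩

theorem inp_primrec : Primrec (inp M q0 code) := by
  unfold inp
  refine Primrec.pair (Primrec.const _) ?_
  refine Primrec.list_append.comp (Primrec.list_append.comp (Primrec.const _) ?_)
    (Primrec.const _)
  exact Primrec.list_map Primrec.list_range (Primrec.const _).to₂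

end Pool.Agent.H476R3.DiagMach
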