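import Mathlib
import Pool.Agent.H476R3.Diag

set_option autoImplicit false

/-! Homomorphisms from a diagram group to `ZMod n` lift to `ℤ`. -/

namespace Pool.Agent.H476R3.Diag

universe u

variable {α : Type u} {R : Set (List α × List α)}

/-- two words are connected in the Squier complex -/
def Conn (R : Set (List α × List α)) (u v : List α) : Prop := ∃ L, IsPath R u L v

theorem Conn.refl (u : List α) : Conn R u u := ⟨[], rfl⟩
theorem Conn.symm {u v : List α} (h : Conn R u v) : Conn R v u := by
  obtain ⟨L, hL⟩ := h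
  exact ⟨pinv L, hL.pinv⟩
theorem Conn.trans {u v x : List α} (h : Conn R u v) (h' : Conn R v x) : Conn R u x := by
  obtain ⟨L, hL⟩ := h
  obtain ⟨L', hL'⟩ := h'
  exact ⟨L ++ L', hL.append hL'⟩

/-- right translation of paths -/
def tr (b : List α) (L : List (Edge α)) : List (Edge α) :=
  L.map (fun e => ⟨e.a, e.r, e.b ++ b, e.fwd⟩)

@[simp] theorem tr_nil (b : List α) : tr b ([] : List (Edge α)) = [] := rfl
@[simp] theorem tr_cons (b : List α) (e : Edge α) (L : List (Edge α)) :
    tr b (e :: L) = ⟨e.a, e.r, e.b ++ b, e.fwd⟩ :: tr b L := rfl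
@[simp] theorem tr_append (b : List α) (L L' : List (Edge α)) :
    tr b (L ++ L') = tr b L ++ tr b L' := by simp [tr]
theorem tr_tr (b b' : List α) (L : List (Edge α)) : tr b' (tr b L) = tr (b ++ b') L := by
  simp [tr]
theorem tr_pinv (b : List α) (L : List (Edge α)) : tr b (pinv L) = pinv (tr b L) := by
  induction L with
  | nil => rfl
  | cons e L ih => simp [ih, Edge.inv]

theorem IsPath.tr {u v : List α} {L : List (Edge α)} (h : IsPath R u L v) (b : List α) :
    IsPath R (u ++ b) (tr b L) (v ++ b) := by
  induction L generalizing u with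
  | nil =>
    have : u = v := h
    subst this
    exact rfl
  | cons e L ih =>
    obtain ⟨h1, h2, h3⟩ := h
    refine ⟨h1, ?_, ?_⟩
    · rw [← h2]; simp [Edge.src]
    · have := ih h3
      have e1 : e.tgt ++ b = (⟨e.a, e.r, e.b ++ b, e.fwd⟩ : Edge α).tgt := by simp [Edge.tgt]
      rw [← e1]
      exact this

theorem Conn.right {u v : List α} (h : Conn R u v) (b : List α) : Conn R (u ++ b) (v ++ b) := by
  obtain ⟨L, hL⟩ := h
  exact ⟨_, hL.tr b⟩

/-- left translation of an edge -/
def ltr (p : List α) (g : Edge α) : Edge α := ⟨p ++ g.a, g.r, g.b, g.fwd⟩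

@[simp] theorem ltr_src (p : List α) (g : Edge α) : (ltr p g).src = p ++ g.src := by
  simp [ltr, Edge.src]
@[simp] theorem ltr_tgt (p : List α) (g : Edge α) : (ltr p g).tgt = p ++ g.tgt := by
  simp [ltr, Edge.tgt]

theorem Conn.left {u v : List α} (h : Conn R u v) (p : List α) : Conn R (p ++ u) (p ++ v) := by
  obtain ⟨L, hL⟩ := h
  induction L generalizing u with
  | nil =>
    have : u = v := hL
    subst this
    exact Conn.refl _
  | cons e L ih =>
    obtain ⟨h1, h2, h3⟩ := hL
    refine Conn.trans ⟨[ltr p e], h1, ?_, ?_⟩ (ih h3)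
    · rw [ltr_src, h2]
    · rw [ltr_tgt]; exact rfl

theorem conn_edge {e : Edge α} (h : e.r ∈ R) : Conn R e.src e.tgt := ⟨[e], h, rfl, rfl⟩

section lift

variable (R) (w : List α) {n : ℕ} (χ : DiagramGroup R w →* Multiplicative (ZMod n))

open Classical in
/-- the value of the homomorphism on a loop -/
noncomputable def chi (L : List (Edge α)) : ZMod n :=
  if h : IsPath R w L w then (χ (DiagramGroup.mk ⟨L, h⟩)).toAdd else 0

variable {R w χ}

theorem chi_append {L L' : List (Edge α)} (h : IsPath R w L w) (h' : IsPath R w L' w) :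
    chi R w χ (L ++ L') = chi R w χ L + chi R w χ L' := by
  unfold chi
  rw [dif_pos h, dif_pos h', dif_pos (h.append h')]
  rw [← toAdd_mul, ← map_mul]
  rfl

theorem chi_htpy {L L' : List (Edge α)} (h : Htpy R w w L L') :
    chi R w χ L = chi R w χ L' := by
  unfold chi
  rw [dif_pos h.isPath.1, dif_pos h.isPath.2]
  congr 2
  exact DiagramGroup.mk_eq.2 h

theorem chi_nil : chi R w χ [] = 0 := by
  have h := chi_append (χ := χ) (L := []) (L' := []) (R := R) (w := w) rfl rfl
  simpa using h

variable (R w χ)

open Classical in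
/-- a path from the base word -/
noncomputable def P (v : List α) : List (Edge α) := if h : Conn R w v then h.choose else []

open Classical in
/-- the cocycle -/
noncomputable def xe (e : Edge α) : ZMod n :=
  if Conn R w e.src then chi R w χ (P R w e.src ++ [e] ++ pinv (P R w e.tgt)) else 0

/-- the cocycle on paths -/
noncomputable def X (L : List (Edge α)) : ZMod n := (L.map (xe R w χ)).sum

variable {R w χ}

theorem P_path {v : List α} (h : Conn R w v) : IsPath R w (P R w v) v := by
  unfold P
  rw [dif_pos h]
  exact h.choose_spec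

@[simp] theorem X_nil : X R w χ [] = 0 := rfl
@[simp] theorem X_cons (e : Edge α) (L : List (Edge α)) :
    X R w χ (e :: L) = xe R w χ e + X R w χ L := by simp [X]
@[simp] theorem X_append (L L' : List (Edge α)) :
    X R w χ (L ++ L') = X R w χ L + X R w χ L' := by simp [X]

theorem X_path {u v : List α} {L : List (Edge α)} (h : IsPath R u L v) (hu : Conn R w u) :
    X R w χ L = chi R w χ (P R w u ++ L ++ pinv (P R w v)) := by
  induction L generalizing u with
  | nil =>
    have : u = v := h
    subst this
    rw [X_nil, List.append_nil, chi_htpy (htpy_mul_pinv (P_path hu)), chi_nil]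
  | cons e L ih =>
    obtain ⟨h1, h2, h3⟩ := h
    have ht : Conn R w e.tgt := by
      refine hu.trans ?_
      rw [← h2]; exact conn_edge h1
    have hv : Conn R w v := ht.trans ⟨L, h3⟩
    rw [X_cons, ih h3 ht]
    unfold xe
    rw [if_pos (by rw [h2]; exact hu)]
    have p1 : IsPath R w (P R w e.src ++ [e] ++ pinv (P R w e.tgt)) w := by
      refine IsPath.append (IsPath.append (v := e.src) ?_ ⟨h1, rfl, rfl⟩) (P_path ht).pinv
      rw [h2]; exact P_path hu
    have p2 : IsPath R w (P R w e.tgt ++ L ++ pinv (P R w v)) w :=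
      ((P_path ht).append h3).append (P_path hv).pinv
    rw [← chi_append p1 p2, h2]
    apply chi_htpy
    have q1 : IsPath R w (P R w u ++ [e]) e.tgt := by
      refine (P_path hu).append ⟨h1, h2, rfl⟩
    have q2 : IsPath R e.tgt (L ++ pinv (P R w v)) w := h3.append (P_path hv).pinv
    have q3 := (htpy_pinv_mul (P_path ht))
    have q4 := (q3.append_left q1).append_right q2
    simpa using q4

theorem X_htpy {u v : List α} {L L' : List (Edge α)} (h : Htpy R u v L L') (hu : Conn R w u) :
    X R w χ L = X R w χ L' := by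
  have hv : Conn R w v := hu.trans ⟨L, h.isPath.1⟩
  rw [X_path h.isPath.1 hu, X_path h.isPath.2 hu]
  exact chi_htpy ((h.append_left (P_path hu)).append_right (P_path hv).pinv)

theorem X_pinv {u v : List α} {L : List (Edge α)} (h : IsPath R u L v) (hu : Conn R w u) :
    X R w χ (pinv L) = - X R w χ L := by
  have := X_htpy (χ := χ) (htpy_mul_pinv h) hu
  rw [X_append, X_nil] at this
  exact eq_neg_of_add_eq_zero_right this

theorem X_loop {L : List (Edge α)} (h : IsPath R w L w) : X R w χ L = chi R w χ L := by
  have hw : Conn R w w := Conn.refl w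
  rw [X_path h hw, chi_append ((P_path hw).append h) (P_path hw).pinv, chi_append (P_path hw) h]
  have := chi_append (χ := χ) (P_path hw) (P_path hw).pinv
  rw [chi_htpy (htpy_mul_pinv (P_path hw)), chi_nil] at this
  linear_combination -this

/-- the square relation -/
theorem square {p p' : List α} {γ : List (Edge α)} (h : IsPath R p γ p') (g : Edge α)
    (hg : g.r ∈ R) (hc : Conn R w (p ++ g.src)) :
    X R w χ (tr g.src γ) + xe R w χ (ltr p' g) = xe R w χ (ltr p g) + X R w χ (tr g.tgt γ) := by
  induction γ generalizing p with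
  | nil =>
    have : p = p' := h
    subst this
    simp
  | cons e γ ih =>
    obtain ⟨h1, h2, h3⟩ := h
    have hc' : Conn R w (e.tgt ++ g.src) := by
      refine hc.trans ?_
      rw [← h2]
      exact (conn_edge h1).right _
    have h4 := ih h3 hc'
    have h5 : X R w χ [⟨e.a, e.r, e.b ++ g.src, e.fwd⟩, ltr e.tgt g] =
        X R w χ [ltr p g, ⟨e.a, e.r, e.b ++ g.tgt, e.fwd⟩] := by
      refine X_htpy (u := p ++ g.src) (v := e.tgt ++ g.tgt) ?_ hc
      refine Htpy.elem _ _ ⟨h1, ?_, hg, ?_, ?_⟩ ⟨hg, ?_, h1, ?_, ?_⟩ ?_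
      · rw [← h2]; simp [Edge.src]
      · rw [ltr_src]; simp [Edge.tgt]
      · rw [ltr_tgt]; exact rfl
      · rw [ltr_src]
      · rw [ltr_tgt, ← h2]; simp [Edge.src]
      · simp [Edge.tgt, isPath_nil]
      · have := Elem.square [] e.a e.r (e.b ++ g.a) g.r g.b e.fwd g.fwd []
        rw [← h2]
        simpa [ltr, Edge.src, Edge.tgt] using this
    simp only [X_cons, X_nil, tr_cons, add_zero] at h5 ⊢
    linear_combination h4 + h5

end lift

end Pool.Agent.H476R3.Diag
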