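import Mathlib
import Pool.Agent.H476R3.DiagLift

set_option autoImplicit false

/-! Homomorphisms from a diagram group to `ZMod n` lift to `ℤ`. -/

namespace Pool.Agent.H476R3.Diag

universe u

variable {α : Type u} (R : Set (List α × List α))

/-- the congruence -/
def connSetoid : Setoid (List α) := ⟨Conn R, ⟨Conn.refl, Conn.symm, Conn.trans⟩⟩

/-- normal form -/
noncomputable def nf (v : List α) : List α := (Quotient.mk (connSetoid R) v).out

variable {R}

theorem nf_conn (v : List α) : Conn R v (nf R v) := by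
  have h : (connSetoid R) (nf R v) v := Quotient.exact (Quotient.out_eq (Quotient.mk (connSetoid R) v))
  exact Conn.symm h

theorem nf_eq {u v : List α} (h : Conn R u v) : nf R u = nf R v := by
  unfold nf
  congr 1
  exact Quotient.sound (s := connSetoid R) h

variable (R)

/-- a path to the normal form -/
noncomputable def tau (v : List α) : List (Edge α) := (nf_conn (R := R) v).choose

variable {R}

theorem tau_path (v : List α) : IsPath R v (tau R v) (nf R v) := (nf_conn (R := R) v).choose_spec

variable (R)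

/-- end point of the canonical path -/
noncomputable def kf : List α → List α → List α
  | n, [] => n
  | n, y :: b => kf (nf R (n ++ [y])) b

/-- canonical path -/
noncomputable def K : List α → List α → List (Edge α)
  | _, [] => []
  | n, y :: b => tr b (tau R (n ++ [y])) ++ K (nf R (n ++ [y])) b

variable {R}

theorem K_path (b : List α) : ∀ n : List α, IsPath R (n ++ b) (K R n b) (kf R n b) := by
  induction b with
  | nil => intro n; simp [K, kf, isPath_nil]
  | cons y b ih =>
    intro n
    have h1 := (tau_path (R := R) (n ++ [y])).tr b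
    have h2 := ih (nf R (n ++ [y]))
    have e : n ++ y :: b = n ++ [y] ++ b := by simp
    rw [e]
    exact h1.append h2

theorem kf_append (u b : List α) : ∀ n : List α, kf R n (u ++ b) = kf R (kf R n u) b := by
  induction u with
  | nil => intro n; rfl
  | cons y u ih => intro n; exact ih _

theorem K_append (u b : List α) : ∀ n : List α,
    K R n (u ++ b) = tr b (K R n u) ++ K R (kf R n u) b := by
  induction u with
  | nil => intro n; rfl
  | cons y u ih =>
    intro n
    rw [List.cons_append]
    simp only [K, kf]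
    rw [ih, tr_append, tr_tr, List.append_assoc]

theorem kf_eq (u : List α) : ∀ n : List α, u ≠ [] → kf R n u = nf R (n ++ u) := by
  induction u with
  | nil => intro n h; exact absurd rfl h
  | cons y u ih =>
    intro n _
    by_cases hu : u = []
    · subst hu; rfl
    · rw [kf, ih _ hu]
      apply nf_eq
      have h := (nf_conn (R := R) (n ++ [y])).right u
      have e : n ++ y :: u = n ++ [y] ++ u := by simp
      rw [e]
      exact h.symm

section lift

variable {w : List α} {n : ℕ} {χ : DiagramGroup R w →* Multiplicative (ZMod n)}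

variable (R w χ)

/-- the reduced cocycle -/
noncomputable def c1 (m : List α) (r : List α × List α) (b : List α) : ZMod n :=
  xe R w χ ⟨m, r, b, true⟩ - X R w χ (tr b (K R m r.1)) + X R w χ (tr b (K R m r.2))

/-- the potential -/
noncomputable def phi (v : List α) : ZMod n := X R w χ (K R [] v)

variable {R w χ}

theorem xe_inv {e : Edge α} (he : e.r ∈ R) (hc : Conn R w e.src) :
    xe R w χ e.inv = - xe R w χ e := by
  have h : IsPath R e.src [e] e.tgt := ⟨he, rfl, rfl⟩
  have := X_pinv (χ := χ) h hc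
  simpa using this

theorem c1_eq (hR : ∀ r ∈ R, r.1 ≠ [] ∧ r.2 ≠ []) (a : List α) (r : List α × List α)
    (b : List α) (hr : r ∈ R) (hc : Conn R w (a ++ r.1 ++ b)) :
    c1 R w χ (kf R [] a) r b =
      xe R w χ ⟨a, r, b, true⟩ - phi R w χ (a ++ r.1 ++ b) + phi R w χ (a ++ r.2 ++ b) := by
  unfold phi c1
  have hn : kf R (kf R [] a) r.1 = kf R (kf R [] a) r.2 := by
    rw [kf_eq _ _ (hR r hr).1, kf_eq _ _ (hR r hr).2]
    apply nf_eq
    refine Conn.left ?_ _
    exact ⟨[⟨[], r, [], true⟩], hr, by simp [Edge.src, side], by simp [Edge.tgt, side, isPath_nil]⟩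
  have e1 : X R w χ (K R [] (a ++ r.1 ++ b)) = X R w χ (tr (r.1 ++ b) (K R [] a)) +
      (X R w χ (tr b (K R (kf R [] a) r.1)) + X R w χ (K R (kf R (kf R [] a) r.1) b)) := by
    rw [List.append_assoc, K_append, K_append, X_append, X_append]
  have e2 : X R w χ (K R [] (a ++ r.2 ++ b)) = X R w χ (tr (r.2 ++ b) (K R [] a)) +
      (X R w χ (tr b (K R (kf R [] a) r.2)) + X R w χ (K R (kf R (kf R [] a) r.2) b)) := by
    rw [List.append_assoc, K_append, K_append, X_append, X_append]
  rw [e1, e2, hn]
  have h3 := square (R := R) (w := w) (χ := χ) (K_path a []) ⟨[], r, b, true⟩ hr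
    (by simpa [Edge.src, side] using hc)
  simp only [Edge.src, Edge.tgt, side, ltr, List.nil_append, List.append_nil, if_true,
    Bool.not_true, Bool.false_eq_true, if_false] at h3
  linear_combination h3

theorem c1_edge (hR : ∀ r ∈ R, r.1 ≠ [] ∧ r.2 ≠ []) (m : List α) (r : List α × List α)
    (hr : r ∈ R) (g : Edge α) (hg : g.r ∈ R) (hc : Conn R w (m ++ r.1 ++ g.src)) :
    c1 R w χ m r g.src = c1 R w χ m r g.tgt := by
  unfold c1
  have hn : kf R m r.1 = kf R m r.2 := by
    rw [kf_eq _ _ (hR r hr).1, kf_eq _ _ (hR r hr).2]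
    apply nf_eq
    refine Conn.left ?_ _
    exact ⟨[⟨[], r, [], true⟩], hr, by simp [Edge.src, side], by simp [Edge.tgt, side, isPath_nil]⟩
  have hK1 : IsPath R (m ++ r.1) (K R m r.1) (kf R m r.1) := K_path _ _
  have hK2 : IsPath R (m ++ r.2) (K R m r.2) (kf R m r.1) := by rw [hn]; exact K_path _ _
  have hlam : IsPath R (kf R m r.1) (pinv (K R m r.1) ++ (⟨m, r, [], true⟩ :: K R m r.2))
      (kf R m r.1) := by
    refine hK1.pinv.append ⟨hr, by simp [Edge.src, side], ?_⟩
    simpa [Edge.tgt, side] using hK2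
  have hcc : Conn R w (kf R m r.1 ++ g.src) :=
    hc.trans (Conn.right ⟨_, hK1⟩ _)
  have h3 := square (R := R) (w := w) (χ := χ) hlam g hg hcc
  have hcc' : Conn R w (kf R m r.1 ++ g.tgt) := hcc.trans ((conn_edge hg).left _)
  have p1 : Conn R w (m ++ r.1 ++ g.src) := hc
  have p2 : Conn R w (m ++ r.1 ++ g.tgt) := hc.trans ((conn_edge hg).left _)
  simp only [tr_append, tr_cons, tr_pinv, X_append, X_cons, List.nil_append] at h3
  rw [X_pinv (hK1.tr g.src) p1, X_pinv (hK1.tr g.tgt) p2] at h3
  linear_combination h3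

theorem c1_conn (hR : ∀ r ∈ R, r.1 ≠ [] ∧ r.2 ≠ []) (m : List α) (r : List α × List α)
    (hr : r ∈ R) {b b' : List α} (hb : Conn R b b') (hc : Conn R w (m ++ r.1 ++ b)) :
    c1 R w χ m r b = c1 R w χ m r b' := by
  obtain ⟨L, hL⟩ := hb
  induction L generalizing b with
  | nil =>
    have : b = b' := hL
    rw [this]
  | cons g L ih =>
    obtain ⟨h1, h2, h3⟩ := hL
    rw [← h2] at hc ⊢
    rw [c1_edge hR m r hr g h1 hc]
    exact ih (hc.trans ((conn_edge h1).left _)) h3

variable (R w χ)

/-- the integral cocycle -/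
noncomputable def xz (e : Edge α) : ℤ :=
  (if e.fwd then 1 else -1) * ((c1 R w χ (kf R [] e.a) e.r (nf R e.b)).cast : ℤ)

/-- the integral cocycle on paths -/
noncomputable def XZ (L : List (Edge α)) : ℤ := (L.map (xz R w χ)).sum

variable {R w χ}

theorem XZ_append (L L' : List (Edge α)) : XZ R w χ (L ++ L') = XZ R w χ L + XZ R w χ L' := by
  simp [XZ]

theorem XZ_cons (e : Edge α) (L : List (Edge α)) : XZ R w χ (e :: L) = xz R w χ e + XZ R w χ L := by
  simp [XZ]

theorem kf_nil_eq {u v : List α} (h : Conn R u v) (hu : u ≠ []) (hv : v ≠ []) :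
    kf R [] u = kf R [] v := by
  rw [kf_eq _ _ hu, kf_eq _ _ hv]
  exact nf_eq h

theorem XZ_elem (hR : ∀ r ∈ R, r.1 ≠ [] ∧ r.2 ≠ []) {u v : List α} {L L' : List (Edge α)}
    (h : IsPath R u L v) (he : Elem L L') : XZ R w χ L = XZ R w χ L' := by
  cases he with
  | cancel L₁ e L₂ =>
    simp only [XZ_append, XZ_cons]
    have : xz R w χ e.inv = - xz R w χ e := by
      unfold xz
      rcases e with ⟨a, r, b, f⟩
      cases f <;> simp [Edge.inv]
    rw [this]; ring
  | square L₁ a r b s c p q L₂ =>
    obtain ⟨z, h1, h2⟩ := isPath_append.1 h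
    have hr : r ∈ R := h2.1
    have hs : s ∈ R := h2.2.2.1
    have hside : ∀ (r : List α × List α), r ∈ R → ∀ f f' : Bool, Conn R (side r f) (side r f') := by
      intro r hr f f'
      have h0 : Conn R r.1 r.2 :=
        ⟨[⟨[], r, [], true⟩], hr, by simp [Edge.src, side], by simp [Edge.tgt, side, isPath_nil]⟩
      cases f <;> cases f' <;> simp only [side, if_true, Bool.false_eq_true, if_false]
      · exact Conn.refl _
      · exact h0.symm
      · exact h0
      · exact Conn.refl _
    have hne : ∀ f : Bool, side r f ≠ [] := by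
      intro f
      cases f <;> simp only [side, if_true, Bool.false_eq_true, if_false]
      · exact (hR r hr).2
      · exact (hR r hr).1
    simp only [XZ_append, XZ_cons]
    have e1 : xz R w χ ⟨a, r, b ++ side s q ++ c, p⟩ = xz R w χ ⟨a, r, b ++ side s (!q) ++ c, p⟩ := by
      unfold xz
      simp only
      rw [nf_eq (((hside s hs q (!q)).left b).right c)]
    have e2 : xz R w χ ⟨a ++ side r (!p) ++ b, s, c, q⟩ = xz R w χ ⟨a ++ side r p ++ b, s, c, q⟩ := by
      unfold xz
      simp only
      rw [kf_nil_eq (((hside r hr (!p) p).left a).right b)]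
      · simp [hne]
      · simp [hne]
    rw [e1, e2]; ring

theorem XZ_htpy (hR : ∀ r ∈ R, r.1 ≠ [] ∧ r.2 ≠ []) {u v : List α} {L L' : List (Edge α)}
    (h : Htpy R u v L L') : XZ R w χ L = XZ R w χ L' := by
  induction h with
  | refl L h => rfl
  | elem L L' h h' e => exact XZ_elem hR h e
  | symm L L' _ ih => exact ih.symm
  | trans L L' L'' _ _ ih ih' => exact ih.trans ih'

theorem xz_cast (hR : ∀ r ∈ R, r.1 ≠ [] ∧ r.2 ≠ []) (e : Edge α) (he : e.r ∈ R)
    (hc : Conn R w e.src) :
    ((xz R w χ e : ℤ) : ZMod n) = xe R w χ e - phi R w χ e.src + phi R w χ e.tgt := by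
  have key : ∀ (a : List α) (r : List α × List α) (b : List α), r ∈ R →
      Conn R w (a ++ r.1 ++ b) → c1 R w χ (kf R [] a) r (nf R b) =
      xe R w χ ⟨a, r, b, true⟩ - phi R w χ (a ++ r.1 ++ b) + phi R w χ (a ++ r.2 ++ b) := by
    intro a r b hr hcab
    rw [← c1_eq hR a r b hr hcab]
    symm
    apply c1_conn hR _ r hr (nf_conn b)
    refine hcab.trans ?_
    refine Conn.right (Conn.right ?_ _) _
    exact ⟨_, K_path a []⟩
  rcases e with ⟨a, r, b, f⟩
  cases f with
  | true =>
    simp only [xz, if_true, one_mul, Edge.src, Edge.tgt, side, Bool.not_true, Bool.false_eq_true,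
      if_false] at *
    rw [ZMod.intCast_cast, ZMod.cast_id]
    exact key a r b he hc
  | false =>
    have hc' : Conn R w (a ++ r.1 ++ b) := by
      have : Conn R (a ++ r.2 ++ b) (a ++ r.1 ++ b) := ⟨[⟨a, r, b, false⟩], he, by
        simp [Edge.src, side], by simp [Edge.tgt, side, isPath_nil]⟩
      refine Conn.trans ?_ this
      simpa [Edge.src, side] using hc
    have h1 := key a r b he hc'
    have h2 := xe_inv (R := R) (w := w) (χ := χ) (e := ⟨a, r, b, true⟩) he
      (by simpa [Edge.src, side] using hc')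
    simp only [Edge.inv, Bool.not_true] at h2
    simp only [xz, Edge.src, Edge.tgt, side, Bool.not_false, Bool.false_eq_true,
      if_false, if_true] at *
    push_cast
    try rw [ZMod.intCast_cast, ZMod.cast_id]
    rw [h1, h2]
    ring

theorem XZ_cast (hR : ∀ r ∈ R, r.1 ≠ [] ∧ r.2 ≠ []) {u v : List α} {L : List (Edge α)}
    (h : IsPath R u L v) (hc : Conn R w u) :
    ((XZ R w χ L : ℤ) : ZMod n) = X R w χ L - phi R w χ u + phi R w χ v := by
  induction L generalizing u with
  | nil =>
    have : u = v := h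
    subst this
    simp [XZ]
  | cons e L ih =>
    obtain ⟨h1, h2, h3⟩ := h
    have hc' : Conn R w e.src := by rw [h2]; exact hc
    rw [XZ_cons, X_cons, Int.cast_add, xz_cast hR e h1 hc',
      ih h3 (hc'.trans (conn_edge h1)), h2]
    ring

/-- Homomorphisms from diagram groups to `ZMod n` lift to `ℤ`. -/
theorem exists_lift (hR : ∀ r ∈ R, r.1 ≠ [] ∧ r.2 ≠ []) (w : List α) (n : ℕ)
    (χ : DiagramGroup R w →* Multiplicative (ZMod n)) :
    ∃ ψ : DiagramGroup R w →* Multiplicative ℤ, ∀ g : DiagramGroup R w,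
      (((ψ g).toAdd : ℤ) : ZMod n) = (χ g).toAdd := by
  refine ⟨MonoidHom.mk' (Quotient.lift (fun L : Loop R w => Multiplicative.ofAdd (XZ R w χ L.1))
    (fun L L' h => ?_)) ?_, ?_⟩
  · exact congrArg Multiplicative.ofAdd (XZ_htpy hR h)
  · intro x y
    obtain ⟨L, rfl⟩ := DiagramGroup.exists_rep x
    obtain ⟨L', rfl⟩ := DiagramGroup.exists_rep y
    change Multiplicative.ofAdd (XZ R w χ (L.1 ++ L'.1)) = _
    rw [XZ_append]
    rfl
  · intro g
    obtain ⟨L, rfl⟩ := DiagramGroup.exists_rep g
    change ((XZ R w χ L.1 : ℤ) : ZMod n) = _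
    rw [XZ_cast hR L.2 (Conn.refl w), X_loop L.2]
    unfold chi
    rw [dif_pos L.2]
    rw [sub_add_cancel]
    rfl

end lift

end Pool.Agent.H476R3.Diag
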