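import Pool.Agent.H476R3.GammaE

set_option autoImplicit false

/-! Double cosets of a finitely generated subgroup of a finitely presented group realise every
computably enumerable equivalence relation. -/

namespace Pool.Agent.H476R3.Gamma

open Pool.Agent.Helper270.WPA
open Pool.Agent.Helper270.WP (V Xw Rules Acc mrules acc_forward div_unique toV acc_of_halts
  halts_of_acc)
open Pool.Agent.Helper270.WPSource
open Pool.Agent.H476R3.TwoInput (rep rep_zero' rep_succ exists_sys2)

theorem mem_of_semi {H : Type} [Group H] {S : Subgroup H} {g a b : H} (hg : g ∈ S) (h : SemiconjBy g a b) :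
    a ∈ S ↔ b ∈ S := by
  have e : b = g * a * g⁻¹ := by rw [h.eq]; group
  rw [e]
  constructor
  · intro ha
    exact S.mul_mem (S.mul_mem hg ha) (S.inv_mem hg)
  · intro hb
    have := S.mul_mem (S.mul_mem (S.inv_mem hg) hb) hg
    have e2 : g⁻¹ * (g * a * g⁻¹) * g = a := by group
    rwa [e2] at this

section Derive

variable {Q : Type} (M : Sys Q Bool) (hpos : ∀ q r j, M.nxt q r ≠ none → 0 < M.a q r j)
  (q0 : Q) (k1 kc kt : ℕ)
variable {H : Type} [Group H] {x y : Bool → H} {t : St Q → H}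
  {r : I1 (Option Q × (Bool → Fin M.B)) → H} {s : J1 → H}
  (hs : Sat (DD M hpos q0 k1 kt) (EE M k1 kc kt) x y t r s) (S : Subgroup H)
  (hr : ∀ i, r i ∈ S) (hS : ∀ j, s j ∈ S) (ht0 : t (.q none) ∈ S)

include hs

theorem d1 (i : I1 (Option Q × (Bool → Fin M.B))) (u z : V) :
    SemiconjBy (r i) (TT x y t ((DD M hpos q0 k1 kt).src i)
      ((DD M hpos q0 k1 kt).m i * u + (DD M hpos q0 k1 kt).r i, z))
      (TT x y t ((DD M hpos q0 k1 kt).tgt i)
        ((DD M hpos q0 k1 kt).a i * u + (DD M hpos q0 k1 kt).b i, z)) :=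
  semi1 hs.comm t (r i) _ _ _ _ _ _ (hs.h1 i) (hs.h2 i) (hs.h3 i) u z

include hr hS ht0

theorem mem_none (z : V) : TT x y t (.q none) (0, z) ∈ S := by
  refine V_ind (fun z => TT x y t (.q none) (0, z) ∈ S) ?_ ?_ z
  · change TT x y t (.q none) 0 ∈ S
    rw [TT_zero]
    exact ht0
  · intro b z
    have h4 := hs.h4 (.N b)
    change s (.N b) * ev x y t (FreeGroup.of (St.q none, (0, Pi.single b 1))) =
      ev x y t (FreeGroup.of (St.q none, 0)) * s (.N b) at h4
    rw [ev_of, ev_of] at h4
    have h := semi2_TT hs.comm t (s (.N b)) _ _ _ _ 0 0 h4 (hs.h5 (.N b)) z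
    have e1 : (((0, Pi.single b 1) : VV) + ((0 : V) * z, z)) = (0, z + Pi.single b 1) := by
      ext <;> simp [add_comm]
    have e2 : ((0 : VV) + ((0 : V) * z, z)) = (0, z) := by
      ext <;> simp
    rw [e1, e2] at h
    exact mem_of_semi (hS _) h

theorem mem_q {p : Option Q} {w : V} (h : Acc (mrules M hpos) none p w) (z : V) :
    TT x y t (.q p) (w, z) ∈ S := by
  induction h with
  | base => exact mem_none M hpos q0 k1 kc kt hs S hr hS ht0 z
  | step i u _ ih =>
    exact (mem_of_semi (hr (.M i)) (d1 M hpos q0 k1 kc kt hs (.M i) u z)).mpr ih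

theorem mem_rw {w : V} (h : RwAcc M hpos q0 k1 kt w) (z : V) :
    TT x y t .rw (w, z) ∈ S := by
  induction h with
  | r1 u _ ih =>
    exact (mem_of_semi (hr .W1) (d1 M hpos q0 k1 kc kt hs .W1 u z)).mpr ih
  | r2 u h =>
    exact (mem_of_semi (hr .W2) (d1 M hpos q0 k1 kc kt hs .W2 u z)).mpr
      (mem_q M hpos q0 k1 kc kt hs S hr hS ht0 h z)

theorem mem_c0 (z : V) (h : RwAcc M hpos q0 k1 kt (aff M k1 kc kt z)) :
    TT x y t .c (0, z) ∈ S := by
  have h4 := hs.h4 .S
  change s .S * ev x y t (FreeGroup.of (St.c, 0)) =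
    ev x y t (FreeGroup.of (St.rw, (vec kt kc, 0))) * s .S at h4
  rw [ev_of, ev_of] at h4
  have h' := semi2_TT hs.comm t (s .S) _ _ _ _ 0 (vec (k1 + kt * (M.B - 1)) (M.B * k1)) h4
    (hs.h5 .S) z
  have e1 : ((0 : VV) + ((0 : V) * z, z)) = (0, z) := by
    ext <;> simp
  have e2 : (((vec kt kc, 0) : VV) + (vec (k1 + kt * (M.B - 1)) (M.B * k1) * z, z)) =
      (aff M k1 kc kt z, z) := by
    rw [aff]
    ext <;> simp [add_comm]
  rw [e1, e2] at h'
  exact (mem_of_semi (hS .S) h').mpr (mem_rw M hpos q0 k1 kc kt hs S hr hS ht0 h z)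

theorem mem_cf (w z : V) (h : TT x y t .c (w, z) ∈ S) :
    TT x y t .c (vec (M.B * w false + 1) (w true), z) ∈ S := by
  have h1 := d1 M hpos q0 k1 kc kt hs (.C false) w z
  change SemiconjBy (r (.C false)) (TT x y t .c ((fun j => if j = false then (M.B : ℤ) else 1) * w +
    (fun j => if j = false then 1 else 0), z)) (TT x y t .c (1 * w + 0, z)) at h1
  have e1 : ((fun j => if j = false then (M.B : ℤ) else 1) * w +
    (fun j => if j = false then 1 else 0) : V) = vec (M.B * w false + 1) (w true) := by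
    apply vec_ext <;> simp
  rw [e1, one_mul, add_zero] at h1
  exact (mem_of_semi (hr _) h1).mpr h

theorem mem_ct (w z : V) (h : TT x y t .c (w, z) ∈ S) :
    TT x y t .c (vec (w false) (M.B * w true + 1), z) ∈ S := by
  have h1 := d1 M hpos q0 k1 kc kt hs (.C true) w z
  change SemiconjBy (r (.C true)) (TT x y t .c ((fun j => if j = true then (M.B : ℤ) else 1) * w +
    (fun j => if j = true then 1 else 0), z)) (TT x y t .c (1 * w + 0, z)) at h1
  have e1 : ((fun j => if j = true then (M.B : ℤ) else 1) * w +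
    (fun j => if j = true then 1 else 0) : V) = vec (w false) (M.B * w true + 1) := by
    apply vec_ext <;> simp
  rw [e1, one_mul, add_zero] at h1
  exact (mem_of_semi (hr _) h1).mpr h

theorem mem_c (z : V) (h : RwAcc M hpos q0 k1 kt (aff M k1 kc kt z)) (i j : ℕ) :
    TT x y t .c (vec (rep M.B j) (rep M.B i), z) ∈ S := by
  induction i with
  | zero =>
    induction j with
    | zero =>
      have := mem_c0 M hpos q0 k1 kc kt hs S hr hS ht0 z h
      have e : vec (rep M.B 0) (rep M.B 0) = 0 := by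
        apply vec_ext <;> simp [rep_zero']
      rwa [e]
    | succ j ih =>
      have := mem_cf M hpos q0 k1 kc kt hs S hr hS ht0 _ z ih
      have e : vec (rep M.B (j + 1) : ℕ) (rep M.B 0 : ℕ) =
          vec (M.B * vec (rep M.B j) (rep M.B 0) false + 1) (vec (rep M.B j) (rep M.B 0) true) := by
        apply vec_ext
        · simp only [vec_false, rep_succ]
          push_cast
          ring
        · rfl
      rwa [e]
  | succ i ih =>
    have := mem_ct M hpos q0 k1 kc kt hs S hr hS ht0 _ z ih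
    have e : vec (rep M.B j : ℕ) (rep M.B (i + 1) : ℕ) =
        vec (vec (rep M.B j) (rep M.B i) false) (M.B * vec (rep M.B j) (rep M.B i) true + 1) := by
      apply vec_ext
      · rfl
      · simp only [vec_true, rep_succ]
        push_cast
        ring
    rwa [e]

/-- Equality of double cosets. -/
def Dc (S : Subgroup H) (g h : H) : Prop := ∃ u ∈ S, ∃ v ∈ S, u * g * v = h

omit hs hr hS ht0 in
theorem Dc.refl (S : Subgroup H) (g : H) : Dc S g g := ⟨1, S.one_mem, 1, S.one_mem, by group⟩

omit hs hr hS ht0 in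
theorem Dc.symm {S : Subgroup H} {g h : H} (e : Dc S g h) : Dc S h g := by
  obtain ⟨u, hu, v, hv, rfl⟩ := e
  exact ⟨u⁻¹, S.inv_mem hu, v⁻¹, S.inv_mem hv, by group⟩

omit hs hr hS ht0 in
theorem Dc.trans {S : Subgroup H} {g h k : H} (e : Dc S g h) (e' : Dc S h k) : Dc S g k := by
  obtain ⟨u, hu, v, hv, rfl⟩ := e
  obtain ⟨u', hu', v', hv', rfl⟩ := e'
  exact ⟨u' * u, S.mul_mem hu' hu, v * v', S.mul_mem hv hv', by group⟩

omit hs hr hS ht0 in
theorem Dc.of_semi {S : Subgroup H} {g a b : H} (hg : g ∈ S) (h : SemiconjBy g a b) :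
    Dc S a b := ⟨g, hg, g⁻¹, S.inv_mem hg, by rw [h.eq]; group⟩

theorem dcA1 (a : ℤ) (n : ℕ) : Dc S (TT x y t .A1 (0, vec n a)) (TT x y t .A1 (0, vec 0 a)) := by
  induction n with
  | zero => exact Dc.refl _ _
  | succ n ih =>
    refine Dc.trans ?_ ih
    have h4 := hs.h4 .E1
    change s .E1 * ev x y t (FreeGroup.of (St.A1, (0, Pi.single false 1))) =
      ev x y t (FreeGroup.of (St.A1, 0)) * s .E1 at h4
    rw [ev_of, ev_of] at h4
    have h := semi2_TT hs.comm t (s .E1) _ _ _ _ 0 0 h4 (hs.h5 .E1) (vec n a)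
    have e1 : (((0, Pi.single false 1) : VV) + ((0 : V) * vec n a, vec n a)) =
        (0, vec (n + 1 : ℕ) a) := by
      refine Prod.ext (by simp) (vec_ext ?_ ?_)
      · simp [add_comm]
      · simp
    have e2 : ((0 : VV) + ((0 : V) * vec n a, vec n a)) = (0, vec n a) := by
      ext <;> simp
    rw [e1, e2] at h
    exact Dc.of_semi (hS _) h

theorem dcA2 (a : ℤ) (n : ℕ) : Dc S (TT x y t .A2 (0, vec a n)) (TT x y t .A2 (0, vec a 0)) := by
  induction n with
  | zero => exact Dc.refl _ _
  | succ n ih =>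
    refine Dc.trans ?_ ih
    have h4 := hs.h4 .E2
    change s .E2 * ev x y t (FreeGroup.of (St.A2, (0, Pi.single true 1))) =
      ev x y t (FreeGroup.of (St.A2, 0)) * s .E2 at h4
    rw [ev_of, ev_of] at h4
    have h := semi2_TT hs.comm t (s .E2) _ _ _ _ 0 0 h4 (hs.h5 .E2) (vec a n)
    have e1 : (((0, Pi.single true 1) : VV) + ((0 : V) * vec a n, vec a n)) =
        (0, vec a (n + 1 : ℕ)) := by
      refine Prod.ext (by simp) (vec_ext ?_ ?_)
      · simp
      · simp [add_comm]
    have e2 : ((0 : VV) + ((0 : V) * vec a n, vec a n)) = (0, vec a n) := by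
      ext <;> simp
    rw [e1, e2] at h
    exact Dc.of_semi (hS _) h

theorem dc12 (k l : ℕ)
    (h : RwAcc M hpos q0 k1 kt (aff M k1 kc kt (vec (rep M.B l) (rep M.B k)))) :
    Dc S (TT x y t .A1 (0, vec 0 (rep M.B k))) (TT x y t .A2 (0, vec (rep M.B l) 0)) := by
  have h0 := mem_c M hpos q0 k1 kc kt hs S hr hS ht0 _ h k l
  set z := vec (rep M.B l) (rep M.B k) with hz
  have h4 := hs.h4 .R0
  change s .R0 * ev x y t (FreeGroup.of (St.c, 0)) =
    ev x y t (FreeGroup.of (St.A1, 0) * (FreeGroup.of (St.A2, 0))⁻¹) * s .R0 at h4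
  rw [map_mul, map_inv, ev_of, ev_of, ev_of] at h4
  have h' := semi2_prod hs.comm t (s .R0) _ _ _ _ _ _ 1 0 h4 (hs.h5 .R0) z
  have e1 : ((0 : VV) + ((1 : V) * z, z)) = (z, z) := by
    ext <;> simp
  have e2 : ((0 : VV) + ((0 : V) * z, z)) = (0, z) := by
    ext <;> simp
  rw [e1, e2] at h'
  have h5 := (mem_of_semi (hS .R0) h').mp h0
  have h6 : Dc S (TT x y t .A1 (0, z)) (TT x y t .A2 (0, z)) := by
    refine ⟨_, S.inv_mem h5, 1, S.one_mem, ?_⟩
    group
  exact ((dcA1 M hpos q0 k1 kc kt hs S hr hS ht0 _ _).symm.trans h6).trans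
    (dcA2 M hpos q0 k1 kc kt hs S hr hS ht0 _ _)

end Derive

theorem rep_computable (B : ℕ) : Computable (rep B) := by
  have h : Primrec (rep B) := by
    refine (Primrec.nat_rec₁ (f := fun _ v => 1 + B * v) 0 ?_).of_eq ?_
    · exact (Primrec.nat_add.comp (Primrec.const 1)
        (Primrec.nat_mul.comp (Primrec.const B) Primrec.snd)).to₂
    · intro n
      induction n with
      | zero => simp [rep_zero']
      | succ n ih => rw [rep_succ, ← ih]
  exact h.to_comp

/-- Every computably enumerable equivalence relation is realised by double cosets of a finitely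
generated subgroup of a finitely presented group. -/
theorem exists_gamma (R : ℕ → ℕ → Prop) (hE : Equivalence R)
    (hR : REPred (fun p : ℕ × ℕ => R p.1 p.2)) :
    ∃ (X : Type) (_ : Finite X) (rels A : Set (FreeGroup X)) (x t : X) (N : ℕ → ℕ),
      rels.Finite ∧ A.Finite ∧ x ≠ t ∧ Computable N ∧
      ∀ n m, R n m ↔ ∃ u ∈ Subgroup.closure A, ∃ v ∈ Subgroup.closure A,
        PresentedGroup.mk rels (u * ((FreeGroup.of x ^ N n)⁻¹ * FreeGroup.of t *
          FreeGroup.of x ^ N n) * v) =
        PresentedGroup.mk rels ((FreeGroup.of x ^ N m)⁻¹ * FreeGroup.of t *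
          FreeGroup.of x ^ N m) := by
  classical
  obtain ⟨Q, hQ, M, q0, k1, kc, kt, hB, hk1, hkc, hkt, hne, hkt0, hpos', hM⟩ := exists_sys2 R hR
  have hpos : ∀ q r j, M.nxt q r ≠ none → 0 < M.a q r j := fun q r j h => (hpos' q r j h).1
  let D := DD M hpos q0 k1 kt
  let E := EE M k1 kc kt
  let A : Set (FreeGroup (Gen (St Q) (I1 (Option Q × (Bool → Fin M.B))) J1)) :=
    {gt (.q none)} ∪ (Set.range gr ∪ Set.range gs)
  have hword : ∀ n : ℕ, ((FreeGroup.of (Gen.y true) ^ n)⁻¹ * FreeGroup.of (Gen.t St.A1) *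
      FreeGroup.of (Gen.y true) ^ n :
        FreeGroup (Gen (St Q) (I1 (Option Q × (Bool → Fin M.B))) J1)) =
      TT gx gy gt .A1 (0, vec 0 n) := by
    intro n
    simp [TT, XX, Xw, gy, gt]
  refine ⟨Gen (St Q) (I1 (Option Q × (Bool → Fin M.B))) J1, inferInstance, rels D E, A,
    .y true, .t .A1, rep M.B, rels_finite D E, ?_, by simp, rep_computable _, ?_⟩
  · exact (Set.finite_singleton _).union ((Set.finite_range _).union (Set.finite_range _))
  intro n m
  simp only [hword]
  constructor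
  · intro hnm
    let π : FreeGroup (Gen (St Q) (I1 (Option Q × (Bool → Fin M.B))) J1) →*
      PresentedGroup (rels D E) := PresentedGroup.mk (rels D E)
    have hs := (sat_iff D E π).mp (fun w hw => PresentedGroup.one_of_mem hw)
    let S : Subgroup (PresentedGroup (rels D E)) := (Subgroup.closure A).map π
    have hr : ∀ i, π (gr i) ∈ S := fun i =>
      ⟨gr i, Subgroup.subset_closure (Or.inr (Or.inl ⟨i, rfl⟩)), rfl⟩
    have hS : ∀ j, π (gs j) ∈ S := fun j =>
      ⟨gs j, Subgroup.subset_closure (Or.inr (Or.inr ⟨j, rfl⟩)), rfl⟩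
    have ht0 : π (gt (.q none)) ∈ S := ⟨_, Subgroup.subset_closure (Or.inl rfl), rfl⟩
    have key : ∀ k l, R k l → Dc S
        (TT (fun j => π (gx j)) (fun j => π (gy j)) (fun p => π (gt p)) .A1
          (0, vec 0 (rep M.B k)))
        (TT (fun j => π (gx j)) (fun j => π (gy j)) (fun p => π (gt p)) .A2
          (0, vec (rep M.B l) 0)) := by
      intro k l hkl
      apply dc12 M hpos q0 k1 kc kt hs S hr hS ht0
      rw [rw_aff M hpos q0 k1 kc kt hB hk1 hkt hne, hM]
      exact hkl
    have h1 := (key n m hnm).trans (key m m (hE.refl m)).symm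
    obtain ⟨_, ⟨u, hu, rfl⟩, _, ⟨v, hv, rfl⟩, h2⟩ := h1
    refine ⟨u, hu, v, hv, ?_⟩
    change π _ = π _
    rw [map_mul, map_mul, map_TT, map_TT]
    exact h2
  · rintro ⟨u, hu, v, hv, huv⟩
    obtain ⟨Ω, x, y, t, r, s, o, hs, hr, hS, ho⟩ := exists_model2 D E
      (FF M hpos q0 k1 kc kt R n)
      (fun i u z => F1 M hpos q0 k1 kc kt R n hB hk1 hkt hne i u z)
      (fun j z => F2 M hpos q0 k1 kc kt R n hB hk1 hkt hne hE hM j z)
      (fun j => i1 M k1 kc kt j) (fun j => i2 M k1 kc kt j)
    let ξ : FreeGroup (Gen (St Q) (I1 (Option Q × (Bool → Fin M.B))) J1) →* Equiv.Perm Ω :=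
      FreeGroup.lift (fun g => match g with
        | .x j => x j
        | .y j => y j
        | .t p => t p
        | .r i => r i
        | .s j => s j)
    have ξx : (fun j => ξ (gx j)) = x := by
      funext j; exact FreeGroup.lift_apply_of
    have ξy : (fun j => ξ (gy j)) = y := by
      funext j; exact FreeGroup.lift_apply_of
    have ξt : (fun j => ξ (gt j)) = t := by
      funext j; exact FreeGroup.lift_apply_of
    have ξr : (fun j => ξ (gr j)) = r := by
      funext j; exact FreeGroup.lift_apply_of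
    have ξs : (fun j => ξ (gs j)) = s := by
      funext j; exact FreeGroup.lift_apply_of
    have hker : ∀ w ∈ rels D E, ξ w = 1 := by
      rw [sat_iff, ξx, ξy, ξt, ξr, ξs]
      exact hs
    have hle : Subgroup.normalClosure (rels D E) ≤ ξ.ker :=
      Subgroup.normalClosure_le_normal hker
    have hT : ∀ p v, ξ (TT gx gy gt p v) = TT x y t p v := by
      intro p v
      rw [map_TT, ξx, ξy, ξt]
    have hfix : ∀ w ∈ Subgroup.closure A, ξ w o = o := by
      intro w hw
      have hsub : Subgroup.closure A ≤ (MulAction.stabilizer (Equiv.Perm Ω) o).comap ξ := by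
        rw [Subgroup.closure_le]
        rintro w (hw | ⟨i, rfl⟩ | ⟨j, rfl⟩)
        · rw [Set.mem_singleton_iff.mp hw]
          change ξ (gt (.q none)) o = o
          have h1 := hT (.q none) 0
          rw [TT_zero] at h1
          rw [h1, ho, FF_iff]
          exact Or.inl Acc.base
        · change ξ (gr i) o = o
          rw [show ξ (gr i) = r i from congrFun ξr i]
          exact hr i
        · change ξ (gs j) o = o
          rw [show ξ (gs j) = s j from congrFun ξs j]
          exact hS j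
      exact hsub hw
    have h1 : ξ (u * TT gx gy gt .A1 (0, vec 0 (rep M.B n)) * v) =
        ξ (TT gx gy gt .A1 (0, vec 0 (rep M.B m))) := by
      have h2 := QuotientGroup.eq.mp huv
      have h3 := hle h2
      rw [MonoidHom.mem_ker, map_mul, map_inv, inv_mul_eq_one] at h3
      exact h3
    have h2 : ξ (TT gx gy gt .A1 (0, vec 0 (rep M.B n))) o = o := by
      rw [hT, ho, FF_iff]
      exact ⟨n, rfl, hE.refl n⟩
    have h3 : ξ (TT gx gy gt .A1 (0, vec 0 (rep M.B m))) o = o := by
      rw [← h1, map_mul, map_mul, Equiv.Perm.mul_apply, Equiv.Perm.mul_apply, hfix v hv, h2,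
        hfix u hu]
    rw [hT, ho, FF_iff] at h3
    obtain ⟨k, hk, hRk⟩ := h3
    have : k = m := by
      apply rep_injective hB
      have hk : ((rep M.B m : ℕ) : ℤ) = rep M.B k := hk
      exact_mod_cast hk.symm
    rw [this] at hRk
    exact hE.symm hRk

end Pool.Agent.H476R3.Gamma
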