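import Pool.Agent.Helper270.WPB

set_option autoImplicit false

/-! The permutation model for words in a free group with a translation action. -/

namespace Pool.Agent.H476R3.Gamma

open Pool.Agent.Helper270.WPA

theorem aut_ext {α : Type} {e f : MulAut (FreeGroup α)}
    (h : ∀ a, e (FreeGroup.of a) = f (FreeGroup.of a)) : e = f := by
  apply MulEquiv.ext
  intro x
  exact DFunLike.congr_fun (FreeGroup.ext_hom (f := e.toMonoidHom) (g := f.toMonoidHom) h) x

section Model

variable (P W : Type) [AddCommGroup W]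

/-- Translation of the index. -/
def tr (v : W) : P × W ≃ P × W where
  toFun x := (x.1, x.2 - v)
  invFun x := (x.1, x.2 + v)
  left_inv := by rintro ⟨p, n⟩; simp
  right_inv := by rintro ⟨p, n⟩; simp

/-- The action of translations on the free group. -/
def φ : Multiplicative W →* MulAut (FreeGroup (P × W)) where
  toFun v := FreeGroup.freeGroupCongr (tr P W v.toAdd)
  map_one' := by
    apply aut_ext
    rintro ⟨p, n⟩
    simp [tr]
  map_mul' v w := by
    apply aut_ext
    rintro ⟨p, n⟩
    simp only [FreeGroup.freeGroupCongr_apply, MulAut.mul_apply, FreeGroup.map.of, tr,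
      Equiv.coe_fn_mk, toAdd_mul]
    congr 2
    abel

theorem φ_of (v : Multiplicative W) (p : P) (n : W) :
    φ P W v (FreeGroup.of (p, n)) = FreeGroup.of (p, n - v.toAdd) := by
  simp [φ, tr]

/-- The base group. -/
abbrev G0 : Type := FreeGroup (P × W) ⋊[φ P W] Multiplicative W

variable {P W} {U : Type} [AddCommGroup U]

/-- The translates of a word. -/
def sh (L : U →+ W) (e : FreeGroup (P × W)) : FreeGroup (Unit × U) →* FreeGroup (P × W) :=
  FreeGroup.lift (fun x : Unit × U => φ P W (Multiplicative.ofAdd (-(L x.2))) e)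

/-- The subgroup of a rule. -/
def jj (L : U →+ W) (e : FreeGroup (P × W)) : G0 Unit U →* G0 P W :=
  SemidirectProduct.map (sh L e) (AddMonoidHom.toMultiplicative L) (by
      intro v
      apply FreeGroup.ext_hom
      rintro ⟨⟨⟩, u⟩
      simp only [MonoidHom.comp_apply, MulEquiv.coe_toMonoidHom, φ_of, sh,
        FreeGroup.lift_apply_of]
      rw [← MulAut.mul_apply, ← map_mul]
      congr 2
      apply Multiplicative.toAdd.injective
      simp only [toAdd_ofAdd, toAdd_mul, map_sub, AddMonoidHom.toMultiplicative_apply_apply]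
      abel)

theorem jj_inl (L : U →+ W) (e : FreeGroup (P × W)) (w : FreeGroup (Unit × U)) :
    jj L e (SemidirectProduct.inl w) = SemidirectProduct.inl (sh L e w) := by
  simp [jj]

theorem sh_of (L : U →+ W) (e : FreeGroup (P × W)) (u : U) :
    sh L e (FreeGroup.of ((), u)) = φ P W (Multiplicative.ofAdd (-(L u))) e := by
  simp [sh]

theorem jj_inr (L : U →+ W) (e : FreeGroup (P × W)) (v : U) :
    jj L e (SemidirectProduct.inr (Multiplicative.ofAdd v)) =
    SemidirectProduct.inr (Multiplicative.ofAdd (L v)) := by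
  simp [jj]

theorem jj_injective (L : U →+ W) (e : FreeGroup (P × W)) (hL : Function.Injective L)
    (he : Function.Injective (sh L e)) : Function.Injective (jj L e) := by
  intro x y hxy
  have h1 := congrArg SemidirectProduct.left hxy
  have h2 := congrArg SemidirectProduct.right hxy
  simp only [jj, SemidirectProduct.map_left, SemidirectProduct.map_right] at h1 h2
  have h3 : x.left = y.left := he h1
  have h4 : x.right = y.right := hL h2
  exact SemidirectProduct.ext h3 h4

theorem sh_injective_of (L : U →+ W) (hL : Function.Injective L) (p : P) (v : W) :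
    Function.Injective (sh L (FreeGroup.of (p, v))) := by
  have : sh L (FreeGroup.of (p, v)) =
      FreeGroup.map (fun x : Unit × U => (p, v + L x.2)) := by
    apply FreeGroup.ext_hom
    rintro ⟨⟨⟩, u⟩
    rw [sh_of, φ_of, FreeGroup.map.of]
    simp
  rw [this]
  apply FreeGroup.map_injective
  rintro ⟨⟨⟩, u⟩ ⟨⟨⟩, u'⟩ h
  have h2 : u = u' := hL (add_left_cancel (Prod.mk.inj h).2)
  rw [h2]

open Classical in
theorem sh_injective_mul (L : U →+ W) (hL : Function.Injective L) (p p' : P) (hp : p ≠ p')
    (v v' : W) :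
    Function.Injective (sh L (FreeGroup.of (p, v) * (FreeGroup.of (p', v'))⁻¹)) := by
  let κ : FreeGroup (P × W) →* FreeGroup (P × W) :=
    FreeGroup.lift (fun x => if x.1 = p' then 1 else FreeGroup.of x)
  have : κ.comp (sh L (FreeGroup.of (p, v) * (FreeGroup.of (p', v'))⁻¹)) =
      sh L (FreeGroup.of (p, v)) := by
    apply FreeGroup.ext_hom
    rintro ⟨⟨⟩, u⟩
    rw [MonoidHom.comp_apply, sh_of, sh_of, map_mul, map_inv, φ_of, φ_of, map_mul, map_inv]
    simp [κ, hp]
  intro x y hxy
  apply sh_injective_of L hL p v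
  rw [← this, MonoidHom.comp_apply, MonoidHom.comp_apply, hxy]

/-- Translations. -/
def trans : Multiplicative W →* Equiv.Perm (W × Bool) where
  toFun v := Equiv.prodCongr (Equiv.addRight v.toAdd) (Equiv.refl _)
  map_one' := by ext x <;> simp
  map_mul' v w := by
    apply Equiv.ext
    rintro ⟨u, ε⟩
    simp only [Equiv.prodCongr_apply, Equiv.coe_addRight, Prod.map_apply, Equiv.refl_apply,
      Equiv.Perm.mul_apply, toAdd_mul, Prod.mk.injEq, and_true]
    rw [add_assoc, add_comm w.toAdd]

theorem trans_apply (v : Multiplicative W) (u : W) (ε : Bool) :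
    trans v (u, ε) = (u + v.toAdd, ε) := rfl

/-- Fibrewise permutations. -/
def fib : (W → Equiv.Perm Bool) →* Equiv.Perm (W × Bool) where
  toFun f := Equiv.prodCongrRight f
  map_one' := by
    apply Equiv.ext
    rintro ⟨u, ε⟩
    rfl
  map_mul' f g := by
    apply Equiv.ext
    rintro ⟨u, ε⟩
    rfl

theorem fib_apply (f : W → Equiv.Perm Bool) (u : W) (ε : Bool) : fib f (u, ε) = (u, f u ε) := rfl

/-- The toggles of a word. -/
def par (F : P → W → Equiv.Perm Bool) : FreeGroup (P × W) →* (W → Equiv.Perm Bool) :=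
  FreeGroup.lift (fun x u => F x.1 (u + x.2))

theorem par_of (F : P → W → Equiv.Perm Bool) (p : P) (n u : W) :
    par F (FreeGroup.of (p, n)) u = F p (u + n) := by
  simp [par]

theorem par_φ (F : P → W → Equiv.Perm Bool) (v : W) (w : FreeGroup (P × W)) (u : W) :
    par F (φ P W (Multiplicative.ofAdd v) w) u = par F w (u - v) := by
  suffices h : ((Pi.evalMonoidHom (fun _ : W => Equiv.Perm Bool) u).comp (par F)).comp
      (φ P W (Multiplicative.ofAdd v)).toMonoidHom =
      (Pi.evalMonoidHom (fun _ : W => Equiv.Perm Bool) (u - v)).comp (par F) from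
    DFunLike.congr_fun h w
  apply FreeGroup.ext_hom
  rintro ⟨p, n⟩
  simp only [MonoidHom.comp_apply, MulEquiv.coe_toMonoidHom, φ_of, Pi.evalMonoidHom_apply, par_of,
    toAdd_ofAdd]
  congr 1
  abel

/-- The action on two sheets. -/
def act0 (F : P → W → Equiv.Perm Bool) : G0 P W →* Equiv.Perm (W × Bool) :=
  SemidirectProduct.lift (fib.comp (par F)) trans (by
    intro v
    apply FreeGroup.ext_hom
    rintro ⟨p, n⟩
    simp only [MonoidHom.comp_apply, MulEquiv.coe_toMonoidHom, φ_of, MulAut.conj_apply]
    apply Equiv.ext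
    rintro ⟨u, ε⟩
    have h1 : (trans v)⁻¹ (u, ε) = (u - v.toAdd, ε) := by
      rw [← map_inv, trans_apply, toAdd_inv, sub_eq_add_neg]
    rw [Equiv.Perm.mul_apply, Equiv.Perm.mul_apply, h1, fib_apply, fib_apply, trans_apply,
      par_of, par_of]
    simp only [sub_add_cancel]
    rw [show u + (n - v.toAdd) = u - v.toAdd + n from by abel])

theorem act0_inr (F : P → W → Equiv.Perm Bool) (v : Multiplicative W) :
    act0 F (SemidirectProduct.inr v) = trans v := by simp [act0]

theorem act0_inl (F : P → W → Equiv.Perm Bool) (w : FreeGroup (P × W)) (u : W) (ε : Bool) :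
    act0 F (SemidirectProduct.inl w) (u, ε) = (u, par F w u ε) := by simp [act0, fib_apply]

/-- Restriction of the action to a sublattice. -/
theorem act0_jj (F : P → W → Equiv.Perm Bool) (L : U →+ W) (e : FreeGroup (P × W))
    (s : G0 Unit U) (x : U × Bool) :
    act0 F (jj L e s) (L x.1, x.2) =
      (L (act0 (fun (_ : Unit) u => par F e (L u)) s x).1,
        (act0 (fun (_ : Unit) u => par F e (L u)) s x).2) := by
  set F' : Unit → U → Equiv.Perm Bool := fun _ u => par F e (L u) with hF'
  let θ : U × Bool → W × Bool := fun x => (L x.1, x.2)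
  suffices h : ∀ (s : G0 Unit U) (x : U × Bool), act0 F (jj L e s) (θ x) = θ (act0 F' s x) from
    h s x
  have hmul : ∀ s t : G0 Unit U, (∀ x, act0 F (jj L e s) (θ x) = θ (act0 F' s x)) →
      (∀ x, act0 F (jj L e t) (θ x) = θ (act0 F' t x)) →
      ∀ x, act0 F (jj L e (s * t)) (θ x) = θ (act0 F' (s * t) x) := by
    intro s t hs ht x
    rw [map_mul, map_mul, map_mul, Equiv.Perm.mul_apply, Equiv.Perm.mul_apply, ht, hs]
  have hinv : ∀ s : G0 Unit U, (∀ x, act0 F (jj L e s) (θ x) = θ (act0 F' s x)) →
      ∀ x, act0 F (jj L e s⁻¹) (θ x) = θ (act0 F' s⁻¹ x) := by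
    intro s hs x
    have := hs (act0 F' s⁻¹ x)
    rw [← Equiv.Perm.mul_apply (act0 F' s), ← map_mul, mul_inv_cancel, map_one,
      Equiv.Perm.one_apply] at this
    rw [← this, ← Equiv.Perm.mul_apply, ← map_mul, ← map_mul, inv_mul_cancel, map_one, map_one,
      Equiv.Perm.one_apply]
  have hgen : ∀ (n : U) x, act0 F (jj L e (SemidirectProduct.inl (FreeGroup.of ((), n)))) (θ x)
      = θ (act0 F' (SemidirectProduct.inl (FreeGroup.of ((), n))) x) := by
    rintro n ⟨u, ε⟩
    rw [jj_inl, sh_of, act0_inl, act0_inl, par_φ, par_of]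
    simp only [θ, hF', sub_neg_eq_add, map_add]
  have hl : ∀ (w : FreeGroup (Unit × U)) x, act0 F (jj L e (SemidirectProduct.inl w)) (θ x) =
      θ (act0 F' (SemidirectProduct.inl w) x) := by
    intro w
    induction w using FreeGroup.induction_on with
    | C1 => intro x; simp
    | of y => obtain ⟨⟨⟩, n⟩ := y; exact hgen n
    | inv_of y ih => rw [map_inv]; exact hinv _ ih
    | mul a b ha hb => rw [map_mul]; exact hmul _ _ ha hb
  have hr : ∀ (v : Multiplicative U) x, act0 F (jj L e (SemidirectProduct.inr v)) (θ x) =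
      θ (act0 F' (SemidirectProduct.inr v) x) := by
    rintro v ⟨u, ε⟩
    have e1 := jj_inr L e v.toAdd
    rw [ofAdd_toAdd] at e1
    rw [e1, act0_inr, act0_inr]
    simp only [θ, trans_apply, toAdd_ofAdd, map_add]
  intro s
  rw [← SemidirectProduct.inl_left_mul_inr_right s]
  exact hmul _ _ (hl _) (hr _)

theorem stab_iff (F : P → W → Equiv.Perm Bool) (L L' : U →+ W) (e e' : FreeGroup (P × W))
    (hL : Function.Injective L) (hL' : Function.Injective L')
    (h : ∀ u, par F e (L u) = par F e' (L' u)) (s : G0 Unit U) :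
    act0 F (jj L e s) (0, false) = (0, false) ↔ act0 F (jj L' e' s) (0, false) = (0, false) := by
  have hF : (fun (_ : Unit) u => par F e (L u)) = fun (_ : Unit) u => par F e' (L' u) := by
    funext _ u; exact h u
  have h1 := act0_jj F L e s (0, false)
  have h2 := act0_jj F L' e' s (0, false)
  simp only [map_zero] at h1 h2
  rw [hF] at h1
  rw [h1, h2]
  have key : ∀ K : U →+ W, Function.Injective K → ∀ y : U × Bool, (K y.1, y.2) = ((0 : W), false) ↔
      y = (0, false) := by
    rintro K hK ⟨u, ε⟩
    simp only [Prod.mk.injEq]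
    constructor
    · rintro ⟨h1, h2⟩
      exact ⟨hK (by rw [h1, map_zero]), h2⟩
    · rintro ⟨rfl, rfl⟩; simp
  rw [key L hL, key L' hL']

/-- One rule in the model. -/
theorem exists_rule (F : P → W → Equiv.Perm Bool) {K : Type}
    (κ : ((W × Bool) ⊕ (Set (G0 P W) × K)) → K) (hκ : Function.Injective κ)
    (L L' : U →+ W) (e e' : FreeGroup (P × W))
    (hL : Function.Injective L) (hL' : Function.Injective L')
    (he : Function.Injective (sh L e)) (he' : Function.Injective (sh L' e'))
    (h : ∀ u, par F e (L u) = par F e' (L' u)) :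
    ∃ R : Equiv.Perm ((W × Bool) ⊕ (Set (G0 P W) × K)),
      R (Sum.inl (0, false)) = Sum.inl (0, false) ∧
      ∀ s, R * big K (act0 F) (jj L e s) = big K (act0 F) (jj L' e' s) * R :=
  exists_conj (act0 F) κ hκ (0, false) (jj L e) (jj L' e') (jj_injective L e hL he)
    (jj_injective L' e' hL' he') (stab_iff F L L' e e' hL hL' h)

end Model

end Pool.Agent.H476R3.Gamma
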