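import Pool.Agent.H476R3.GammaA

set_option autoImplicit false

/-! Words and rules for a pair of double counters. -/

namespace Pool.Agent.H476R3.Gamma

open Pool.Agent.Helper270.WPA
open Pool.Agent.Helper270.WP (V Xw Rules)

/-- Two pairs of counters. -/
abbrev VV : Type := V × V

section Words

variable {P H : Type} [Group H]

/-- Translations as words. -/
def XX (x y : Bool → H) (v : VV) : H := Xw x v.1 * Xw y v.2

/-- Conjugates of the state letters. -/
def TT (x y : Bool → H) (t : P → H) (p : P) (v : VV) : H := (XX x y v)⁻¹ * t p * XX x y v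

theorem map_XX {H' : Type} [Group H'] (f : H →* H') (x y : Bool → H) (v : VV) :
    f (XX x y v) = XX (fun j => f (x j)) (fun j => f (y j)) v := by
  simp [XX, Pool.Agent.Helper270.WP.map_Xw]

theorem map_TT {H' : Type} [Group H'] (f : H →* H') (x y : Bool → H) (t : P → H) (p : P)
    (v : VV) : f (TT x y t p v) = TT (fun j => f (x j)) (fun j => f (y j)) (fun p => f (t p)) p v := by
  simp [TT, map_XX]

/-- The commutation relations. -/
structure Comm (x y : Bool → H) : Prop where
  xx : x false * x true = x true * x false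
  yy : y false * y true = y true * y false
  xy : ∀ i j, x i * y j = y j * x i

theorem comm_Xw {x y : Bool → H} (h : Comm x y) (n m : V) : Commute (Xw x n) (Xw y m) := by
  have h1 : ∀ i j, Commute (x i) (y j) := h.xy
  unfold Xw
  exact (((h1 _ _).zpow_zpow _ _).mul_right ((h1 _ _).zpow_zpow _ _)).mul_left
    (((h1 _ _).zpow_zpow _ _).mul_right ((h1 _ _).zpow_zpow _ _))

theorem XX_add {x y : Bool → H} (h : Comm x y) (v w : VV) :
    XX x y (v + w) = XX x y v * XX x y w := by
  unfold XX
  rw [Prod.fst_add, Prod.snd_add, Pool.Agent.Helper270.WP.Xw_add x h.xx,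
    Pool.Agent.Helper270.WP.Xw_add y h.yy]
  have := (comm_Xw h w.1 v.2).eq
  calc Xw x v.1 * Xw x w.1 * (Xw y v.2 * Xw y w.2)
      = Xw x v.1 * (Xw x w.1 * Xw y v.2) * Xw y w.2 := by group
    _ = Xw x v.1 * (Xw y v.2 * Xw x w.1) * Xw y w.2 := by rw [this]
    _ = _ := by group

theorem XX_zero (x y : Bool → H) : XX x y 0 = 1 := by
  simp [XX, Xw]

theorem TT_add {x y : Bool → H} (h : Comm x y) (t : P → H) (p : P) (v w : VV) :
    TT x y t p (v + w) = (XX x y w)⁻¹ * TT x y t p v * XX x y w := by
  unfold TT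
  rw [XX_add h]
  group

theorem TT_zero (x y : Bool → H) (t : P → H) (p : P) : TT x y t p 0 = t p := by
  simp [TT, XX_zero]

/-- A rule of the first kind. -/
theorem semi1 {x y : Bool → H} (hc : Comm x y) (t : P → H) (r : H) (p p' : P) (m ρ a b : V)
    (h1 : r * TT x y t p (ρ, 0) = TT x y t p' (b, 0) * r)
    (h2 : ∀ j, r * x j ^ m j = x j ^ a j * r)
    (h3 : ∀ j, r * y j = y j * r) (u z : V) :
    SemiconjBy r (TT x y t p (m * u + ρ, z)) (TT x y t p' (a * u + b, z)) := by
  have e2 : SemiconjBy r (Xw x (m * u)) (Xw x (a * u)) := by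
    have f1 : ∀ j, SemiconjBy r (x j ^ (m j * u j)) (x j ^ (a j * u j)) := by
      intro j
      rw [zpow_mul, zpow_mul]
      exact SemiconjBy.zpow_right (h2 j) (u j)
    exact (f1 false).mul_right (f1 true)
  have e3 : SemiconjBy r (Xw y z) (Xw y z) := by
    have f1 : ∀ j, SemiconjBy r (y j ^ (z j)) (y j ^ (z j)) := fun j =>
      SemiconjBy.zpow_right (h3 j) (z j)
    exact (f1 false).mul_right (f1 true)
  have e4 : SemiconjBy r (XX x y (m * u, z)) (XX x y (a * u, z)) := e2.mul_right e3
  have k1 : ((m * u + ρ, z) : VV) = (ρ, 0) + (m * u, z) := by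
    ext <;> simp [add_comm]
  have k2 : ((a * u + b, z) : VV) = (b, 0) + (a * u, z) := by
    ext <;> simp [add_comm]
  rw [k1, k2, TT_add hc, TT_add hc]
  have h1' : SemiconjBy r (TT x y t p (ρ, 0)) (TT x y t p' (b, 0)) := h1
  exact (e4.inv_right.mul_right h1').mul_right e4

/-- The translations of a rule of the second kind. -/
theorem semi2 {x y : Bool → H} (hc : Comm x y) (s : H) (c c' : V)
    (h : ∀ j, s * (x j ^ c j * y j) = (x j ^ c' j * y j) * s) (z : V) :
    SemiconjBy s (XX x y (c * z, z)) (XX x y (c' * z, z)) := by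
  have key : ∀ d : V, XX x y (d * z, z) =
      (x false ^ d false * y false) ^ z false * (x true ^ d true * y true) ^ z true := by
    intro d
    have hxy : ∀ i j, Commute (x i) (y j) := hc.xy
    have f1 : ∀ j, (x j ^ d j * y j) ^ z j = x j ^ (d j * z j) * y j ^ z j := by
      intro j
      rw [((hxy j j).zpow_left (d j)).mul_zpow, zpow_mul]
    rw [f1, f1]
    have f2 : Commute (x true ^ (d true * z true)) (y false ^ z false) :=
      (hxy true false).zpow_zpow _ _
    simp only [XX, Xw, Pi.mul_apply]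
    calc x false ^ (d false * z false) * x true ^ (d true * z true) *
          (y false ^ z false * y true ^ z true)
        = x false ^ (d false * z false) * (x true ^ (d true * z true) * y false ^ z false) *
            y true ^ z true := by group
      _ = x false ^ (d false * z false) * (y false ^ z false * x true ^ (d true * z true)) *
            y true ^ z true := by rw [f2.eq]
      _ = _ := by group
  rw [key, key]
  exact (SemiconjBy.zpow_right (h false) _).mul_right (SemiconjBy.zpow_right (h true) _)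

theorem semi2_TT {x y : Bool → H} (hc : Comm x y) (t : P → H) (s : H) (p p' : P) (v v' : VV)
    (c c' : V) (h0 : s * TT x y t p v = TT x y t p' v' * s)
    (h : ∀ j, s * (x j ^ c j * y j) = (x j ^ c' j * y j) * s) (z : V) :
    SemiconjBy s (TT x y t p (v + (c * z, z))) (TT x y t p' (v' + (c' * z, z))) := by
  have e4 := semi2 hc s c c' h z
  rw [TT_add hc, TT_add hc]
  have h1' : SemiconjBy s (TT x y t p v) (TT x y t p' v') := h0
  exact (e4.inv_right.mul_right h1').mul_right e4

theorem semi2_prod {x y : Bool → H} (hc : Comm x y) (t : P → H) (s : H) (p p' q : P)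
    (v v' w' : VV)
    (c c' : V) (h0 : s * TT x y t p v = (TT x y t p' v' * (TT x y t q w')⁻¹) * s)
    (h : ∀ j, s * (x j ^ c j * y j) = (x j ^ c' j * y j) * s) (z : V) :
    SemiconjBy s (TT x y t p (v + (c * z, z)))
      (TT x y t p' (v' + (c' * z, z)) * (TT x y t q (w' + (c' * z, z)))⁻¹) := by
  have e4 := semi2 hc s c c' h z
  rw [TT_add hc, TT_add hc, TT_add hc]
  have h1' : SemiconjBy s (TT x y t p v) (TT x y t p' v' * (TT x y t q w')⁻¹) := h0
  have := (e4.inv_right.mul_right h1').mul_right e4
  have k : (XX x y (c' * z, z))⁻¹ * TT x y t p' v' * XX x y (c' * z, z) *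
      ((XX x y (c' * z, z))⁻¹ * TT x y t q w' * XX x y (c' * z, z))⁻¹ =
      (XX x y (c' * z, z))⁻¹ * (TT x y t p' v' * (TT x y t q w')⁻¹) * XX x y (c' * z, z) := by
    group
  rw [k]
  exact this

end Words

section Gens

/-- The generators. -/
inductive Gen (P I J : Type) : Type
  | x (j : Bool)
  | y (j : Bool)
  | t (p : P)
  | r (i : I)
  | s (j : J)

/-- The generators as a sum. -/
def genEquiv (P I J : Type) : Gen P I J ≃ (Bool ⊕ Bool ⊕ P ⊕ I ⊕ J) where
  toFun g := match g with
    | .x j => .inl j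
    | .y j => .inr (.inl j)
    | .t p => .inr (.inr (.inl p))
    | .r i => .inr (.inr (.inr (.inl i)))
    | .s j => .inr (.inr (.inr (.inr j)))
  invFun g := match g with
    | .inl j => .x j
    | .inr (.inl j) => .y j
    | .inr (.inr (.inl p)) => .t p
    | .inr (.inr (.inr (.inl i))) => .r i
    | .inr (.inr (.inr (.inr j))) => .s j
  left_inv g := by cases g <;> rfl
  right_inv g := by rcases g with j | j | p | i | j <;> rfl

instance {P I J : Type} [Finite P] [Finite I] [Finite J] : Finite (Gen P I J) :=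
  Finite.of_equiv _ (genEquiv P I J).symm

/-- Rules of the second kind. -/
structure Rules2 (P J : Type) where
  c : J → V
  c' : J → V
  e : J → FreeGroup (P × VV)
  e' : J → FreeGroup (P × VV)

variable {P I J : Type}

/-- Evaluation of base words. -/
def ev {H : Type} [Group H] (x y : Bool → H) (t : P → H) : FreeGroup (P × VV) →* H :=
  FreeGroup.lift (fun q => TT x y t q.1 q.2)

theorem ev_of {H : Type} [Group H] (x y : Bool → H) (t : P → H) (p : P) (v : VV) :
    ev x y t (FreeGroup.of (p, v)) = TT x y t p v := by simp [ev]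

theorem map_ev {H H' : Type} [Group H] [Group H'] (f : H →* H') (x y : Bool → H) (t : P → H)
    (w : FreeGroup (P × VV)) :
    f (ev x y t w) = ev (fun j => f (x j)) (fun j => f (y j)) (fun p => f (t p)) w := by
  have : f.comp (ev x y t) = ev (fun j => f (x j)) (fun j => f (y j)) (fun p => f (t p)) := by
    apply FreeGroup.ext_hom
    rintro ⟨p, v⟩
    rw [MonoidHom.comp_apply, ev_of, ev_of, map_TT]
  exact DFunLike.congr_fun this w

/-- The generators in the free group. -/
def gx (j : Bool) : FreeGroup (Gen P I J) := FreeGroup.of (.x j)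
def gy (j : Bool) : FreeGroup (Gen P I J) := FreeGroup.of (.y j)
def gt (p : P) : FreeGroup (Gen P I J) := FreeGroup.of (.t p)
def gr (i : I) : FreeGroup (Gen P I J) := FreeGroup.of (.r i)
def gs (j : J) : FreeGroup (Gen P I J) := FreeGroup.of (.s j)

variable (D : Rules P I) (E : Rules2 P J)

/-- The relations, as pairs of words. -/
def eqs : Set (FreeGroup (Gen P I J) × FreeGroup (Gen P I J)) :=
  {(gx false * gx true, gx true * gx false)} ∪ ({(gy false * gy true, gy true * gy false)} ∪
  (Set.range (fun ij : Bool × Bool => (gx ij.1 * gy ij.2, gy ij.2 * gx ij.1)) ∪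
  (Set.range (fun i => (gr i * TT gx gy gt (D.src i) (D.r i, 0),
    TT gx gy gt (D.tgt i) (D.b i, 0) * gr i)) ∪
  (Set.range (fun ij : I × Bool => (gr ij.1 * gx ij.2 ^ D.m ij.1 ij.2,
    gx ij.2 ^ D.a ij.1 ij.2 * gr ij.1)) ∪
  (Set.range (fun ij : I × Bool => (gr ij.1 * gy ij.2, gy ij.2 * gr ij.1)) ∪
  (Set.range (fun j => (gs j * ev gx gy gt (E.e j), ev gx gy gt (E.e' j) * gs j)) ∪
  (Set.range (fun ij : J × Bool => (gs ij.1 * (gx ij.2 ^ E.c ij.1 ij.2 * gy ij.2),
    (gx ij.2 ^ E.c' ij.1 ij.2 * gy ij.2) * gs ij.1)))))))))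

/-- The relators. -/
def rels : Set (FreeGroup (Gen P I J)) := (fun q => q.1 * q.2⁻¹) '' eqs D E

theorem rels_finite [Finite I] [Finite J] : (rels D E).Finite := by
  apply Set.Finite.image
  unfold eqs
  exact (Set.finite_singleton _).union ((Set.finite_singleton _).union
    ((Set.finite_range _).union ((Set.finite_range _).union ((Set.finite_range _).union
    ((Set.finite_range _).union ((Set.finite_range _).union (Set.finite_range _)))))))

/-- Relations in a group. -/
structure Sat {H : Type} [Group H] (x y : Bool → H) (t : P → H) (r : I → H) (s : J → H) : Prop where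
  comm : Comm x y
  h1 : ∀ i, r i * TT x y t (D.src i) (D.r i, 0) = TT x y t (D.tgt i) (D.b i, 0) * r i
  h2 : ∀ i j, r i * x j ^ D.m i j = x j ^ D.a i j * r i
  h3 : ∀ i j, r i * y j = y j * r i
  h4 : ∀ j, s j * ev x y t (E.e j) = ev x y t (E.e' j) * s j
  h5 : ∀ j k, s j * (x k ^ E.c j k * y k) = (x k ^ E.c' j k * y k) * s j

theorem sat_iff {H : Type} [Group H] (f : FreeGroup (Gen P I J) →* H) :
    (∀ w ∈ rels D E, f w = 1) ↔ Sat D E (fun j => f (gx j)) (fun j => f (gy j))
      (fun p => f (gt p)) (fun i => f (gr i)) (fun j => f (gs j)) := by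
  have h0 : (∀ w ∈ rels D E, f w = 1) ↔ ∀ q ∈ eqs D E, f q.1 = f q.2 := by
    constructor
    · intro h q hq
      have := h _ ⟨q, hq, rfl⟩
      rwa [map_mul, map_inv, mul_inv_eq_one] at this
    · rintro h _ ⟨q, hq, rfl⟩
      rw [map_mul, map_inv, mul_inv_eq_one]
      exact h q hq
  rw [h0]
  constructor
  · intro h
    refine ⟨⟨?_, ?_, ?_⟩, ?_, ?_, ?_, ?_, ?_⟩
    · have := h _ (Or.inl rfl)
      simpa only [map_mul] using this
    · have := h _ (Or.inr (Or.inl rfl))
      simpa only [map_mul] using this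
    · intro i j
      have := h _ (Or.inr (Or.inr (Or.inl ⟨(i, j), rfl⟩)))
      simpa only [map_mul] using this
    · intro i
      have := h _ (Or.inr (Or.inr (Or.inr (Or.inl ⟨i, rfl⟩))))
      simpa only [map_mul, map_TT] using this
    · intro i j
      have := h _ (Or.inr (Or.inr (Or.inr (Or.inr (Or.inl ⟨(i, j), rfl⟩)))))
      simpa only [map_mul, map_zpow] using this
    · intro i j
      have := h _ (Or.inr (Or.inr (Or.inr (Or.inr (Or.inr (Or.inl ⟨(i, j), rfl⟩))))))
      simpa only [map_mul, map_zpow] using this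
    · intro j
      have := h _ (Or.inr (Or.inr (Or.inr (Or.inr (Or.inr (Or.inr (Or.inl ⟨j, rfl⟩)))))))
      simpa only [map_mul, map_ev] using this
    · intro i j
      have := h _ (Or.inr (Or.inr (Or.inr (Or.inr (Or.inr (Or.inr (Or.inr ⟨(i, j), rfl⟩)))))))
      simpa only [map_mul, map_zpow] using this
  · rintro ⟨⟨a1, a2, a3⟩, b1, b2, b3, b4, b5⟩ q hq
    rcases hq with hq | hq | ⟨⟨i, j⟩, rfl⟩ | ⟨i, rfl⟩ | ⟨⟨i, j⟩, rfl⟩ | ⟨⟨i, j⟩, rfl⟩ | ⟨j, rfl⟩ |
      ⟨⟨i, j⟩, rfl⟩
    · rw [Set.mem_singleton_iff.mp hq]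
      simpa only [map_mul] using a1
    · rw [Set.mem_singleton_iff.mp hq]
      simpa only [map_mul] using a2
    · simpa only [map_mul] using a3 i j
    · simpa only [map_mul, map_TT] using b1 i
    · simpa only [map_mul, map_zpow] using b2 i j
    · simpa only [map_mul, map_zpow] using b3 i j
    · simpa only [map_mul, map_ev] using b4 j
    · simpa only [map_mul, map_zpow] using b5 i j

end Gens

end Pool.Agent.H476R3.Gamma
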