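import Pool.Agent.H476R3.GammaB

set_option autoImplicit false

/-! The permutation model of a machine with two kinds of rules. -/

namespace Pool.Agent.H476R3.Gamma

open Pool.Agent.Helper270.WPA
open Pool.Agent.Helper270.WP (V Xw Rules)

/-- The translations of a rule of the first kind. -/
def L1 (m : V) : VV →+ VV := (AddMonoidHom.mulLeft m).prodMap (AddMonoidHom.id V)

/-- The translations of a rule of the second kind. -/
def L2 (c : V) : V →+ VV := (AddMonoidHom.mulLeft c).prod (AddMonoidHom.id V)

theorem L1_apply (m u z : V) : L1 m (u, z) = (m * u, z) := rfl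

theorem L2_apply (c z : V) : L2 c z = (c * z, z) := rfl

theorem L1_injective (m : V) (hm : ∀ j, m j ≠ 0) : Function.Injective (L1 m) := by
  rintro ⟨u, z⟩ ⟨u', z'⟩ h
  rw [L1_apply, L1_apply] at h
  have h1 := (Prod.mk.inj h).1
  have h2 := (Prod.mk.inj h).2
  have h3 : u = u' := by
    funext j
    exact mul_left_cancel₀ (hm j) (congrFun h1 j)
  rw [h3, h2]

theorem L2_injective (c : V) : Function.Injective (L2 c) := by
  intro z z' h
  exact (Prod.mk.inj h).2

theorem jj_base {P W U : Type} [AddCommGroup W] [AddCommGroup U] (L : U →+ W)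
    (e : FreeGroup (P × W)) :
    jj L e (SemidirectProduct.inl (FreeGroup.of ((), 0))) = SemidirectProduct.inl e := by
  rw [jj_inl, sh_of, map_zero, neg_zero, ofAdd_zero, map_one, MulAut.one_apply]

theorem exists_model2 {P I J : Type} (D : Rules P I) (E : Rules2 P J)
    (F : P → VV → Equiv.Perm Bool)
    (F1 : ∀ i u z, F (D.src i) (D.m i * u + D.r i, z) = F (D.tgt i) (D.a i * u + D.b i, z))
    (F2 : ∀ j z, par F (E.e j) (E.c j * z, z) = par F (E.e' j) (E.c' j * z, z))
    (i1 : ∀ j, Function.Injective (sh (L2 (E.c j)) (E.e j)))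
    (i2 : ∀ j, Function.Injective (sh (L2 (E.c' j)) (E.e' j))) :
    ∃ (Ω : Type) (x y : Bool → Equiv.Perm Ω) (t : P → Equiv.Perm Ω) (r : I → Equiv.Perm Ω)
      (s : J → Equiv.Perm Ω) (o : Ω), Sat D E x y t r s ∧ (∀ i, r i o = o) ∧ (∀ j, s j o = o) ∧
      ∀ p v, TT x y t p v o = o ↔ F p v false = false := by
  classical
  obtain ⟨K, κ, hκ⟩ := exists_kappa (VV × Bool) (Set (G0 P VV))
  have hR := fun i => exists_rule F κ hκ (L1 (D.m i)) (L1 (D.a i))
    (FreeGroup.of (D.src i, (D.r i, 0))) (FreeGroup.of (D.tgt i, (D.b i, 0)))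
    (L1_injective _ (D.hm i)) (L1_injective _ (D.ha i))
    (sh_injective_of _ (L1_injective _ (D.hm i)) _ _)
    (sh_injective_of _ (L1_injective _ (D.ha i)) _ _) (by
      rintro ⟨u, z⟩
      rw [L1_apply, L1_apply, par_of, par_of]
      have := F1 i u z
      simpa using this)
  choose r hr1 hr2 using hR
  have hS := fun j => exists_rule F κ hκ (L2 (E.c j)) (L2 (E.c' j)) (E.e j) (E.e' j)
    (L2_injective _) (L2_injective _) (i1 j) (i2 j) (by
      intro z
      rw [L2_apply, L2_apply]
      exact F2 j z)
  choose s hs1 hs2 using hS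
  let A := big K (act0 F)
  let Y : VV → Equiv.Perm _ := fun v => A (SemidirectProduct.inr (Multiplicative.ofAdd v))
  have Yadd : ∀ v w, Y (v + w) = Y v * Y w := by
    intro v w
    change A _ = A _ * A _
    rw [← map_mul A, ← map_mul (SemidirectProduct.inr), ← ofAdd_add]
  have Yz : ∀ (v : VV) (n : ℤ), Y v ^ n = Y (n • v) := by
    intro v n
    change A _ ^ n = A _
    rw [ofAdd_zsmul, map_zpow (SemidirectProduct.inr), map_zpow A]
  have Ycomm : ∀ v w, Y v * Y w = Y w * Y v := by
    intro v w
    rw [← Yadd, ← Yadd, add_comm]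
  let x : Bool → Equiv.Perm _ := fun j => Y (Pi.single j 1, 0)
  let y : Bool → Equiv.Perm _ := fun j => Y (0, Pi.single j 1)
  let t : P → Equiv.Perm _ := fun p => A (SemidirectProduct.inl (FreeGroup.of (p, 0)))
  have hX : ∀ v : VV, XX x y v = Y v := by
    rintro ⟨w, z⟩
    simp only [XX, Xw, x, y, Yz, ← Yadd]
    congr 1
    ext j
    · cases j <;> simp
    · cases j <;> simp
  have hT : ∀ p v, TT x y t p v = A (SemidirectProduct.inl (FreeGroup.of (p, v))) := by
    intro p v
    rw [TT, hX]
    change (A _)⁻¹ * A _ * A _ = A _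
    rw [← map_inv, ← map_mul, ← map_mul]
    congr 1
    have := SemidirectProduct.inl_aut (φ := φ P VV) (Multiplicative.ofAdd (-v))
      (FreeGroup.of (p, 0))
    rw [φ_of] at this
    rw [toAdd_ofAdd, sub_neg_eq_add, zero_add, ofAdd_neg, map_inv, inv_inv] at this
    exact this.symm
  have hev : ∀ w, ev x y t w = A (SemidirectProduct.inl w) := by
    intro w
    have : ev x y t = A.comp SemidirectProduct.inl := by
      apply FreeGroup.ext_hom
      rintro ⟨p, v⟩
      rw [ev_of, hT, MonoidHom.comp_apply]
    rw [this, MonoidHom.comp_apply]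
  refine ⟨_, x, y, t, r, s, Sum.inl (0, false), ⟨⟨Ycomm _ _, Ycomm _ _, fun i j => Ycomm _ _⟩,
    ?_, ?_, ?_, ?_, ?_⟩, hr1, hs1, ?_⟩
  · intro i
    rw [hT, hT]
    have := hr2 i (SemidirectProduct.inl (FreeGroup.of ((), 0)))
    rw [jj_base, jj_base] at this
    exact this
  · intro i j
    have := hr2 i (SemidirectProduct.inr (Multiplicative.ofAdd (Pi.single j 1, 0)))
    rw [jj_inr, jj_inr, L1_apply, L1_apply] at this
    have key : ∀ c : V, x j ^ c j = Y (c * Pi.single j 1, 0) := by
      intro c
      simp only [x, Yz]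
      congr 1
      ext k
      · by_cases hk : k = j
        · subst hk; simp
        · simp [hk]
      · simp
    rw [key, key]
    exact this
  · intro i j
    have := hr2 i (SemidirectProduct.inr (Multiplicative.ofAdd (0, Pi.single j 1)))
    rw [jj_inr, jj_inr, L1_apply, L1_apply, mul_zero, mul_zero] at this
    exact this
  · intro j
    rw [hev, hev]
    have := hs2 j (SemidirectProduct.inl (FreeGroup.of ((), 0)))
    rw [jj_base, jj_base] at this
    exact this
  · intro j k
    have := hs2 j (SemidirectProduct.inr (Multiplicative.ofAdd (Pi.single k 1)))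
    rw [jj_inr, jj_inr, L2_apply, L2_apply] at this
    have key : ∀ c : V, x k ^ c k * y k = Y (c * Pi.single k 1, Pi.single k 1) := by
      intro c
      simp only [x, y, Yz, ← Yadd]
      congr 1
      ext l
      · by_cases hk : l = k
        · subst hk; simp
        · simp [hk]
      · simp
    rw [key, key]
    exact this
  · intro p v
    rw [hT]
    change Sum.inl (act0 F (SemidirectProduct.inl (FreeGroup.of (p, v))) (0, false)) =
      Sum.inl (0, false) ↔ _
    rw [act0_inl, par_of, zero_add, Sum.inl.injEq, Prod.mk.injEq]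
    simp

end Pool.Agent.H476R3.Gamma
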