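import Pool.Agent.Helper270.WPSource

set_option autoImplicit false

/-! A fixed finite counter machine, with two unary inputs on its tape, whose halting set is a
given computably enumerable relation. -/

namespace Pool.Agent.H476R3.TwoInput

open Turing Relation
open Turing.PartrecToTM2 (trNat trList trNum trPosNum)
open Pool.Agent.Helper270 Pool.Agent.Helper270.WPSource

/-- the number with `k` digits `1` in base `B` -/
def rep (B k : ℕ) : ℕ := ∑ i ∈ Finset.range k, B ^ i

theorem rep_zero' (B : ℕ) : rep B 0 = 0 := by simp [rep]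

theorem rep_succ (B k : ℕ) : rep B (k + 1) = 1 + B * rep B k := by
  unfold rep
  rw [Finset.sum_range_succ', Finset.mul_sum]
  simp only [pow_zero, pow_succ']
  rw [add_comm]

/-- number of binary digits, as the length of the coded numeral -/
def len (n : ℕ) : ℕ := ((trNat n).map (fun _ => 0)).length

theorem len_computable : Computable len :=
  Primrec.list_length.to_comp.comp (digits_computable (fun _ => 0))

theorem trNat_pow (k : ℕ) : trNat (2 ^ k - 1) = List.replicate k PartrecToTM2.Γ'.bit1 := by
  induction k with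
  | zero => simp
  | succ k ih =>
    have h1 : 2 ^ (k + 1) - 1 = (2 ^ (k + 1) - 2) + 1 := by
      have : 2 ≤ 2 ^ (k + 1) := by
        calc 2 = 2 ^ 1 := by norm_num
          _ ≤ 2 ^ (k + 1) := Nat.pow_le_pow_right (by norm_num) (by omega)
      omega
    have h2 : 2 ^ (k + 1) = 2 * 2 ^ k := by ring
    have h3 : 0 < 2 ^ k := by positivity
    rw [h1, trNat_rec]
    have h4 : (2 ^ (k + 1) - 2 + 1) % 2 = 1 := by omega
    have h5 : (2 ^ (k + 1) - 2 + 1) / 2 = 2 ^ k - 1 := by omega
    rw [if_pos h4, h5, ih, List.replicate_succ]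

theorem len_pow (k : ℕ) : len (2 ^ k - 1) = k := by
  simp [len, trNat_pow]

theorem exists_code2 (R : ℕ → ℕ → Prop) (hR : REPred (fun p : ℕ × ℕ => R p.1 p.2)) :
    ∃ c : ToPartrec.Code, ∀ k l : ℕ, (c.eval [2 ^ k - 1, 2 ^ l - 1]).Dom ↔ R k l := by
  unfold REPred at hR
  let g : ℕ → ℕ →. ℕ := fun a b =>
    (Part.assert (R (len a) (len b)) fun _ => Part.some ()).map (fun _ => 0)
  have hg : Partrec₂ g := by
    have h1 : Partrec (fun p : ℕ × ℕ => Part.assert (R (len p.1) (len p.2))
        fun _ => Part.some ()) :=
      hR.comp ((len_computable.comp Computable.fst).pair (len_computable.comp Computable.snd))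
    exact h1.map ((Computable.const 0).to₂)
  obtain ⟨c, hc⟩ := ToPartrec.Code.exists_code (Nat.Partrec'.part_iff₂.2 hg)
  refine ⟨c, fun k l => ?_⟩
  have := hc ⟨[2 ^ k - 1, 2 ^ l - 1], rfl⟩
  simp only at this
  rw [this]
  simp only [List.Vector.head, List.Vector.tail]
  simp [g, len_pow, Part.assert]

theorem exists_machine2 (R : ℕ → ℕ → Prop) (hR : REPred (fun p : ℕ × ℕ => R p.1 p.2)) :
    ∃ (Λ : Type) (_ : Inhabited Λ) (_ : Finite Λ)
      (M : TM0.Machine (TM2to1.Γ' PartrecToTM2.K' (fun _ => PartrecToTM2.Γ')) Λ),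
      ∀ k l, (StateTransition.eval (TM0.step M)
        (TM0.init (sym true .cons :: (List.replicate l (sym false .bit1) ++
          sym false .cons :: List.replicate k (sym false .bit1))))).Dom ↔ R k l := by
  classical
  obtain ⟨c, hc⟩ := exists_code2 R hR
  let inst : Inhabited PartrecToTM2.Λ' :=
    ⟨PartrecToTM2.trNormal c PartrecToTM2.Cont'.halt⟩
  let M2 := PartrecToTM2.tr
  let M1 := TM2to1.tr M2
  let M0 := TM1to0.tr M1
  have s2 : @TM2.Supports _ _ _ _ inst M2 (PartrecToTM2.codeSupp c PartrecToTM2.Cont'.halt) :=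
    PartrecToTM2.tr_supports c PartrecToTM2.Cont'.halt
  have s1 := TM2to1.tr_supports M2 s2
  have s0 := TM1to0.tr_supports M1 s1
  obtain ⟨Λ, i1, i2, M, hM⟩ := finite_states M0 _ (Finset.finite_toSet _) s0
  refine ⟨Λ, i1, i2, M, fun k l => ?_⟩
  rw [hM, ← hc]
  have h2 := PartrecToTM2.tr_eval c [2 ^ k - 1, 2 ^ l - 1]
  have h2' : (StateTransition.eval (TM2.step PartrecToTM2.tr)
      (PartrecToTM2.init c [2 ^ k - 1, 2 ^ l - 1])).Dom ↔ (c.eval [2 ^ k - 1, 2 ^ l - 1]).Dom := by
    rw [h2]; rfl
  rw [← h2']
  have h1 := StateTransition.tr_eval_dom (TM2to1.tr_respects M2)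
    (TM2to1.trCfg_init (K := PartrecToTM2.K') (Γ := fun _ => PartrecToTM2.Γ')
      (Λ := PartrecToTM2.Λ') (σ := Option PartrecToTM2.Γ') PartrecToTM2.K'.main
        (trList [2 ^ k - 1, 2 ^ l - 1]))
  have e1 : (TM2.init PartrecToTM2.K'.main (trList [2 ^ k - 1, 2 ^ l - 1]) :
      TM2.Cfg (fun _ : PartrecToTM2.K' => PartrecToTM2.Γ') PartrecToTM2.Λ'
        (Option PartrecToTM2.Γ')) = PartrecToTM2.init c [2 ^ k - 1, 2 ^ l - 1] := by
    unfold TM2.init PartrecToTM2.init
    congr 1
    funext k
    cases k <;> rfl
  rw [e1] at h1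
  rw [← h1]
  have h0 := StateTransition.tr_eval_dom (TM1to0.tr_respects M1)
    (a₁ := TM1.init (TM2to1.trInit PartrecToTM2.K'.main (trList [2 ^ k - 1, 2 ^ l - 1]))) rfl
  rw [← h0]
  have e2 : TM2to1.trInit (Γ := fun _ => PartrecToTM2.Γ') PartrecToTM2.K'.main
      (trList [2 ^ k - 1, 2 ^ l - 1]) =
      sym true .cons :: (List.replicate l (sym false .bit1) ++
          sym false .cons :: List.replicate k (sym false .bit1)) := by
    have : (trList [2 ^ k - 1, 2 ^ l - 1]).reverse = PartrecToTM2.Γ'.cons ::
        (List.replicate l PartrecToTM2.Γ'.bit1 ++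
          PartrecToTM2.Γ'.cons :: List.replicate k PartrecToTM2.Γ'.bit1) := by
      simp [trNat_pow]
    unfold TM2to1.trInit
    rw [this]
    have e3 : (List.replicate l (sym false .bit1) ++
          sym false .cons :: List.replicate k (sym false .bit1)) =
        (List.replicate l PartrecToTM2.Γ'.bit1 ++
          PartrecToTM2.Γ'.cons :: List.replicate k PartrecToTM2.Γ'.bit1).map (sym false) := by
      simp
    rw [e3]
    rfl
  rw [← e2]
  rfl

section Tape

variable {Γ Λ : Type} [Inhabited Γ] [Fintype Γ] [DecidableEq Γ] [Inhabited Λ]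

theorem enc_append (l m : List Γ) : enc (l ++ m) = enc l + bas Γ ^ l.length * enc m := by
  induction l with
  | nil => simp [enc]
  | cons a l ih =>
    simp only [List.cons_append, enc, ih, List.length_cons, pow_succ]
    ring

theorem enc_replicate (a : Γ) (k : ℕ) : enc (List.replicate k a) = kap a * rep (bas Γ) k := by
  induction k with
  | zero => simp [enc, rep_zero']
  | succ k ih =>
    rw [List.replicate_succ, enc, ih, rep_succ]
    ring

theorem sys_lt (M : TM0.Machine Γ Λ) (q : Λ) (r : Bool → Fin (bas Γ)) (j : Bool)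
    (h : (sys M).nxt q r ≠ none) : (sys M).b q r j < (sys M).a q r j := by
  change ((M q (del (r true))).map (fun p => fb p.2 r j)).getD 0 <
    ((M q (del (r true))).map (fun p => fa p.2 j)).getD 0
  change (M q (del (r true))).map Prod.fst ≠ none at h
  cases hM : M q (del (r true)) with
  | none => rw [hM] at h; exact absurd rfl h
  | some p =>
    simp only [Option.map_some, Option.getD_some]
    obtain ⟨p1, st⟩ := p
    have h1 := (r true).2
    have h2 := (r false).2
    have hb : 0 < bas Γ := by unfold bas; omega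
    rcases st with (_ | _) | x
    · cases j
      · simp [fa, fb]
      · simp only [fa, fb]
        nlinarith
    · cases j
      · simp only [fa, fb]
        nlinarith
      · simp [fa, fb]
    · cases j
      · simp only [fa, fb]
        exact h2
      · simp only [fa, fb]
        exact kap_lt x

end Tape

/-- A fixed finite counter machine with two unary inputs whose halting set is the relation `R`. -/
theorem exists_sys2 (R : ℕ → ℕ → Prop) (hR : REPred (fun p : ℕ × ℕ => R p.1 p.2)) :
    ∃ (Q : Type) (_ : Finite Q) (M : WPSource.Sys Q Bool) (q0 : Q) (k1 kc kt : ℕ),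
      2 ≤ M.B ∧ k1 < M.B ∧ kc < M.B ∧ kt < M.B ∧ k1 ≠ kt ∧ 0 < kt ∧
      (∀ q r j, M.nxt q r ≠ none → 0 < M.a q r j ∧ M.b q r j < M.a q r j) ∧
      ∀ k l : ℕ, M.Halts (some q0) (ini (kt + M.B * (k1 * rep M.B l) +
        M.B ^ (l + 1) * (kc + M.B * (k1 * rep M.B k)))) ↔ R k l := by
  classical
  obtain ⟨Λ, i1, i2, M, hM⟩ := exists_machine2 R hR
  have fK : Finite PartrecToTM2.K' := by
    refine Finite.of_injective (fun k : PartrecToTM2.K' => match k with
      | .main => (0 : Fin 4) | .rev => 1 | .aux => 2 | .stack => 3) ?_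
    intro a b h
    cases a <;> cases b <;> simp_all
  have fG : Finite (TM2to1.Γ' PartrecToTM2.K' (fun _ => PartrecToTM2.Γ')) :=
    inferInstanceAs (Finite (Bool × (PartrecToTM2.K' → Option PartrecToTM2.Γ')))
  let _ : Fintype (TM2to1.Γ' PartrecToTM2.K' (fun _ => PartrecToTM2.Γ')) := Fintype.ofFinite _
  have hne : sym true .cons ≠
      (default : TM2to1.Γ' PartrecToTM2.K' (fun _ => PartrecToTM2.Γ')) := by
    intro h
    have := congrArg Prod.fst h
    simp [sym] at this
  refine ⟨Λ, i2, sys M, default, kap (sym false .bit1), kap (sym false .cons),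
    kap (sym true .cons), ?_, kap_lt _, kap_lt _, kap_lt _, ?_, ?_,
    fun q r j h => ⟨sys_pos M q r j h, sys_lt M q r j h⟩, ?_⟩
  · change 2 ≤ bas _
    have : 0 < Fintype.card (TM2to1.Γ' PartrecToTM2.K' (fun _ => PartrecToTM2.Γ')) :=
      Fintype.card_pos
    unfold bas
    omega
  · intro h
    have h0 : sym false .bit1 = sym true .cons := kap_inj h
    have h1 := congrArg Prod.fst h0
    simp [sym] at h1
  · rcases Nat.eq_zero_or_pos (kap (sym true .cons)) with h | h
    · exfalso
      apply hne
      apply kap_inj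
      rw [h, kap_default]
    · exact h
  · intro k l
    rw [← hM k l]
    have e : kap (sym true .cons) + (sys M).B * (kap (sym false .bit1) * rep (sys M).B l) +
        (sys M).B ^ (l + 1) * (kap (sym false .cons) + (sys M).B *
          (kap (sym false .bit1) * rep (sys M).B k)) =
        enc (sym true .cons :: (List.replicate l (sym false .bit1) ++
          sym false .cons :: List.replicate k (sym false .bit1))) := by
      rw [enc, enc_append, enc, enc_replicate, enc_replicate, List.length_replicate]
      change _ + bas _ * _ + bas _ ^ (l + 1) * _ = _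
      rw [pow_succ]
      change kap (sym true .cons) + bas _ * (kap (sym false .bit1) * rep (bas _) l) +
        bas _ ^ l * bas _ * (kap (sym false .cons) + bas _ *
          (kap (sym false .bit1) * rep (bas _) k)) = _
      ring
    rw [e]
    apply halts_iff
    constructor
    · have := rep_enc (sym true .cons :: (List.replicate l (sym false .bit1) ++
          sym false .cons :: List.replicate k (sym false .bit1)))
      have e : (Tape.mk₁ (sym true PartrecToTM2.Γ'.cons :: (List.replicate l (sym false .bit1) ++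
          sym false .cons :: List.replicate k (sym false .bit1)))).right₀ =
            ListBlank.mk (sym true .cons :: (List.replicate l (sym false .bit1) ++
          sym false .cons :: List.replicate k (sym false .bit1))) := by
        unfold Tape.mk₁ Tape.mk₂
        rw [Tape.mk'_right₀]
      simp only [e]
      exact this
    · exact rep_zero

end Pool.Agent.H476R3.TwoInput
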