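import Pool.Agent.H476R3.GammaC
import Pool.Agent.H476R3.TwoInput

set_option autoImplicit false

/-! The rules of the machine and their derivations. -/

namespace Pool.Agent.H476R3.Gamma

open Pool.Agent.Helper270.WPA
open Pool.Agent.Helper270.WP (V Xw Rules Acc mrules acc_forward div_unique toV acc_of_halts
  halts_of_acc)
open Pool.Agent.Helper270.WPSource
open Pool.Agent.H476R3.TwoInput (rep rep_zero' rep_succ exists_sys2)

/-- A pair of integers. -/
def vec (f t : ℤ) : V := fun j => if j then t else f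

@[simp] theorem vec_false (f t : ℤ) : vec f t false = f := rfl
@[simp] theorem vec_true (f t : ℤ) : vec f t true = t := rfl

theorem vec_ext {u v : V} (h1 : u false = v false) (h2 : u true = v true) : u = v := by
  funext j
  cases j
  · exact h1
  · exact h2

theorem vec_eta (u : V) : vec (u false) (u true) = u := vec_ext rfl rfl

theorem V_ind (p : V → Prop) (h0 : p 0) (h : ∀ b z, p (z + Pi.single b 1) ↔ p z) : ∀ z, p z := by
  have key : ∀ (b : Bool) (n : ℤ) (z : V), p (z + n • Pi.single b 1) ↔ p z := by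
    intro b n
    induction n using Int.induction_on with
    | zero => intro z; simp
    | succ n ih =>
      intro z
      rw [add_smul, one_smul, ← add_assoc, h, ih]
    | pred n ih =>
      intro z
      rw [← h b (z + (-(n : ℤ) - 1) • Pi.single b 1), add_assoc, sub_smul, one_smul,
        sub_add_cancel, ih]
  intro z
  have e : z = 0 + z false • Pi.single false 1 + z true • Pi.single true 1 := by
    apply vec_ext <;> simp
  rw [e, key, key]
  exact h0

/-- The states. -/
inductive St (Q : Type) : Type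
  | c
  | rw
  | q (s : Option Q)
  | A1
  | A2

/-- The rules of the first kind. -/
inductive I1 (ι : Type) : Type
  | C (b : Bool)
  | W1
  | W2
  | M (i : ι)

/-- The rules of the second kind. -/
inductive J1 : Type
  | R0
  | E1
  | E2
  | S
  | N (b : Bool)

instance {Q : Type} [Finite Q] : Finite (St Q) := by
  refine Finite.of_surjective (fun x : Option Q ⊕ Fin 4 => match x with
    | .inl s => St.q s
    | .inr 0 => .c
    | .inr 1 => .rw
    | .inr 2 => .A1
    | .inr 3 => .A2) ?_
  intro y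
  cases y with
  | c => exact ⟨.inr 0, rfl⟩
  | rw => exact ⟨.inr 1, rfl⟩
  | q s => exact ⟨.inl s, rfl⟩
  | A1 => exact ⟨.inr 2, rfl⟩
  | A2 => exact ⟨.inr 3, rfl⟩

instance {ι : Type} [Finite ι] : Finite (I1 ι) := by
  refine Finite.of_surjective (fun x : ι ⊕ (Bool ⊕ Bool) => match x with
    | .inl s => I1.M s
    | .inr (.inl b) => .C b
    | .inr (.inr false) => .W1
    | .inr (.inr true) => .W2) ?_
  intro y
  cases y with
  | C b => exact ⟨.inr (.inl b), rfl⟩
  | W1 => exact ⟨.inr (.inr false), rfl⟩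
  | W2 => exact ⟨.inr (.inr true), rfl⟩
  | M s => exact ⟨.inl s, rfl⟩

instance : Finite J1 := by
  refine Finite.of_surjective (fun x : Bool ⊕ Fin 4 => match x with
    | .inl s => J1.N s
    | .inr 0 => .R0
    | .inr 1 => .E1
    | .inr 2 => .E2
    | .inr 3 => .S) ?_
  intro y
  cases y with
  | R0 => exact ⟨.inr 0, rfl⟩
  | E1 => exact ⟨.inr 1, rfl⟩
  | E2 => exact ⟨.inr 2, rfl⟩
  | S => exact ⟨.inr 3, rfl⟩
  | N b => exact ⟨.inl b, rfl⟩

section Machine

variable {Q : Type} (M : Sys Q Bool) (hpos : ∀ q r j, M.nxt q r ≠ none → 0 < M.a q r j)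
  (q0 : Q) (k1 kc kt : ℕ)

/-- The rules of the first kind. -/
noncomputable def DD : Rules (St Q) (I1 (Option Q × (Bool → Fin M.B))) where
  src i := match i with
    | .C _ => .c
    | .W1 => .rw
    | .W2 => .rw
    | .M i => .q ((mrules M hpos).src i)
  tgt i := match i with
    | .C _ => .c
    | .W1 => .rw
    | .W2 => .q (some q0)
    | .M i => .q ((mrules M hpos).tgt i)
  m i := match i with
    | .C b => fun j => if j = b then (M.B : ℤ) else 1
    | .W1 => vec M.B 1
    | .W2 => vec M.B 1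
    | .M i => (mrules M hpos).m i
  r i := match i with
    | .C b => fun j => if j = b then 1 else 0
    | .W1 => vec k1 0
    | .W2 => vec kt 0
    | .M i => (mrules M hpos).r i
  a i := match i with
    | .C _ => 1
    | .W1 => vec 1 M.B
    | .W2 => vec 1 M.B
    | .M i => (mrules M hpos).a i
  b i := match i with
    | .C _ => 0
    | .W1 => vec 0 k1
    | .W2 => vec 0 kt
    | .M i => (mrules M hpos).b i
  hm i j := by
    have hB := M.hB
    rcases i with b | _ | _ | i
    · simp only
      split_ifs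
      · simp only [ne_eq, Nat.cast_eq_zero]; omega
      · exact one_ne_zero
    · cases j
      · simp only [vec_false, ne_eq, Nat.cast_eq_zero]; omega
      · simp
    · cases j
      · simp only [vec_false, ne_eq, Nat.cast_eq_zero]; omega
      · simp
    · exact (mrules M hpos).hm i j
  ha i j := by
    have hB := M.hB
    rcases i with b | _ | _ | i
    · simp
    · cases j
      · simp
      · simp only [vec_true, ne_eq, Nat.cast_eq_zero]; omega
    · cases j
      · simp
      · simp only [vec_true, ne_eq, Nat.cast_eq_zero]; omega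
    · exact (mrules M hpos).ha i j

/-- The rules of the second kind. -/
def EE : Rules2 (St Q) J1 where
  c j := match j with
    | .R0 => 1
    | _ => 0
  c' j := match j with
    | .S => vec (k1 + kt * (M.B - 1)) (M.B * k1)
    | _ => 0
  e j := match j with
    | .R0 => FreeGroup.of (.c, 0)
    | .E1 => FreeGroup.of (.A1, (0, Pi.single false 1))
    | .E2 => FreeGroup.of (.A2, (0, Pi.single true 1))
    | .S => FreeGroup.of (.c, 0)
    | .N b => FreeGroup.of (.q none, (0, Pi.single b 1))
  e' j := match j with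
    | .R0 => FreeGroup.of (.A1, 0) * (FreeGroup.of (.A2, 0))⁻¹
    | .E1 => FreeGroup.of (.A1, 0)
    | .E2 => FreeGroup.of (.A2, 0)
    | .S => FreeGroup.of (.rw, (vec kt kc, 0))
    | .N b => FreeGroup.of (.q none, 0)

/-- The configurations of the rewinding phase which lead to acceptance. -/
inductive RwAcc : V → Prop
  | r1 (u : V) : RwAcc (vec 1 M.B * u + vec 0 k1) → RwAcc (vec M.B 1 * u + vec k1 0)
  | r2 (u : V) : Acc (mrules M hpos) none (some q0) (vec 1 M.B * u + vec 0 kt) →
      RwAcc (vec M.B 1 * u + vec kt 0)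

theorem rw_cases {v : V} (h : RwAcc M hpos q0 k1 kt v) :
    (∃ u, v = vec M.B 1 * u + vec k1 0 ∧ RwAcc M hpos q0 k1 kt (vec 1 M.B * u + vec 0 k1)) ∨
    ∃ u, v = vec M.B 1 * u + vec kt 0 ∧
      Acc (mrules M hpos) none (some q0) (vec 1 M.B * u + vec 0 kt) := by
  cases h with
  | r1 u h => exact Or.inl ⟨u, rfl, h⟩
  | r2 u h => exact Or.inr ⟨u, rfl, h⟩

theorem rw_unique {k k' : ℕ} (hk : k < M.B) (hk' : k' < M.B) {u u' : V}
    (h : vec M.B 1 * u + vec k 0 = vec M.B 1 * u' + vec k' 0) : u = u' ∧ k = k' := by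
  have h1 := congrFun h false
  have h2 := congrFun h true
  simp only [Pi.add_apply, Pi.mul_apply, vec_false, vec_true, one_mul, add_zero] at h1 h2
  obtain ⟨h3, h4⟩ := div_unique M.hB hk hk' h1
  exact ⟨vec_ext h3 h2, h4⟩

theorem rw_iff1 (h1 : k1 < M.B) (ht : kt < M.B) (hne : k1 ≠ kt) (u : V) :
    RwAcc M hpos q0 k1 kt (vec M.B 1 * u + vec k1 0) ↔
      RwAcc M hpos q0 k1 kt (vec 1 M.B * u + vec 0 k1) := by
  constructor
  · intro h
    rcases rw_cases M hpos q0 k1 kt h with ⟨u', h2, h3⟩ | ⟨u', h2, h3⟩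
    · obtain ⟨rfl, -⟩ := rw_unique M h1 h1 h2
      exact h3
    · exact absurd (rw_unique M h1 ht h2).2 hne
  · exact RwAcc.r1 u

theorem rw_iff2 (h1 : k1 < M.B) (ht : kt < M.B) (hne : k1 ≠ kt) (u : V) :
    RwAcc M hpos q0 k1 kt (vec M.B 1 * u + vec kt 0) ↔
      Acc (mrules M hpos) none (some q0) (vec 1 M.B * u + vec 0 kt) := by
  constructor
  · intro h
    rcases rw_cases M hpos q0 k1 kt h with ⟨u', h2, h3⟩ | ⟨u', h2, h3⟩
    · exact absurd (rw_unique M ht h1 h2).2.symm hne
    · obtain ⟨rfl, -⟩ := rw_unique M ht ht h2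
      exact h3
  · exact RwAcc.r2 u

theorem rep_succ' (B k : ℕ) : rep B (k + 1) = rep B k + B ^ k := by
  unfold rep
  rw [Finset.sum_range_succ]

theorem rw_rep (h1 : k1 < M.B) (ht : kt < M.B) (hne : k1 ≠ kt) (l : ℕ) (v : ℤ) :
    RwAcc M hpos q0 k1 kt (vec (k1 * rep M.B l + kt * M.B ^ l : ℤ) v) ↔
      Acc (mrules M hpos) none (some q0)
        (vec 0 (kt + M.B * (k1 * rep M.B l + M.B ^ l * v))) := by
  induction l generalizing v with
  | zero =>
    have e1 : vec (k1 * rep M.B 0 + kt * M.B ^ 0 : ℤ) v = vec M.B 1 * vec 0 v + vec kt 0 := by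
      apply vec_ext <;> simp [rep_zero']
    rw [e1, rw_iff2 M hpos q0 k1 kt h1 ht hne]
    have e2 : vec 1 M.B * vec 0 v + vec 0 kt =
        vec 0 (kt + M.B * (k1 * rep M.B 0 + M.B ^ 0 * v)) := by
      apply vec_ext
      · simp
      · simp [rep_zero', add_comm]
    rw [e2]
  | succ l ih =>
    have e1 : vec (k1 * rep M.B (l + 1) + kt * M.B ^ (l + 1) : ℤ) v =
        vec M.B 1 * vec (k1 * rep M.B l + kt * M.B ^ l : ℤ) v + vec k1 0 := by
      apply vec_ext
      · simp only [vec_false, Pi.add_apply, Pi.mul_apply, rep_succ]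
        push_cast
        ring
      · simp
    rw [e1, rw_iff1 M hpos q0 k1 kt h1 ht hne]
    have e2 : vec 1 M.B * vec (k1 * rep M.B l + kt * M.B ^ l : ℤ) v + vec 0 k1 =
        vec (k1 * rep M.B l + kt * M.B ^ l : ℤ) (M.B * v + k1) := by
      apply vec_ext <;> simp
    rw [e2, ih, rep_succ']
    have e3 : (kt + M.B * (k1 * rep M.B l + M.B ^ l * (M.B * v + k1)) : ℤ) =
        kt + M.B * (k1 * ((rep M.B l + M.B ^ l : ℕ) : ℤ) + M.B ^ (l + 1) * v) := by
      push_cast
      ring
    rw [e3]

/-- The start of the rewinding phase. -/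
def aff (z : V) : V := vec (k1 + kt * (M.B - 1)) (M.B * k1) * z + vec kt kc

theorem aff_rep (l k : ℕ) : aff M k1 kc kt (vec (rep M.B l) (rep M.B k)) =
    vec (k1 * rep M.B l + kt * M.B ^ l : ℤ) (kc + M.B * (k1 * rep M.B k)) := by
  apply vec_ext
  · simp only [aff, vec_false, Pi.add_apply, Pi.mul_apply]
    have h1 := rep_succ M.B l
    have h2 := rep_succ' M.B l
    rw [h1] at h2
    have h3 : (1 + M.B * rep M.B l : ℤ) = rep M.B l + M.B ^ l := by exact_mod_cast h2
    linear_combination (kt : ℤ) * h3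
  · simp only [aff, vec_true, Pi.add_apply, Pi.mul_apply]
    ring

theorem rw_aff (hB : 2 ≤ M.B) (h1 : k1 < M.B) (ht : kt < M.B) (hne : k1 ≠ kt) (k l : ℕ) :
    RwAcc M hpos q0 k1 kt (aff M k1 kc kt (vec (rep M.B l) (rep M.B k))) ↔
      M.Halts (some q0) (ini (kt + M.B * (k1 * rep M.B l) +
        M.B ^ (l + 1) * (kc + M.B * (k1 * rep M.B k)))) := by
  rw [aff_rep, rw_rep M hpos q0 k1 kt h1 ht hne]
  have e : vec 0 (kt + M.B * (k1 * rep M.B l + M.B ^ l * (kc + M.B * (k1 * rep M.B k)))) =
      toV (ini (kt + M.B * (k1 * rep M.B l) +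
        M.B ^ (l + 1) * (kc + M.B * (k1 * rep M.B k)))) := by
    apply vec_ext
    · simp [toV, ini]
    · simp only [toV, ini, vec_true, if_true]
      push_cast
      ring
  rw [e]
  exact ⟨fun h => halts_of_acc M hpos h _ rfl, acc_of_halts M hpos hB⟩

end Machine

end Pool.Agent.H476R3.Gamma
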