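import Pool.Agent.H476R3.GammaD

set_option autoImplicit false

/-! The invariant of the machine, and the derivations in the group. -/

namespace Pool.Agent.H476R3.Gamma

open Pool.Agent.Helper270.WPA
open Pool.Agent.Helper270.WP (V Xw Rules Acc mrules acc_forward div_unique toV acc_of_halts
  halts_of_acc)
open Pool.Agent.Helper270.WPSource
open Pool.Agent.H476R3.TwoInput (rep rep_zero' rep_succ exists_sys2)

section Rep

theorem rep_injective {B : ℕ} (hB : 2 ≤ B) : Function.Injective (rep B) := by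
  have h : StrictMono (rep B) := by
    apply strictMono_nat_of_lt_succ
    intro n
    rw [rep_succ']
    have : 0 < B ^ n := by positivity
    omega
  exact h.injective

theorem rep_iff {B : ℕ} (hB : 2 ≤ B) (u : ℤ) : (∃ i : ℕ, (B : ℤ) * u + 1 = rep B i) ↔
    ∃ i : ℕ, u = rep B i := by
  constructor
  · rintro ⟨i, hi⟩
    cases i with
    | zero =>
      exfalso
      rw [rep_zero'] at hi
      have h1 : (B : ℤ) * u = -1 := by push_cast at hi; omega
      have h2 : (B : ℤ) ∣ 1 := ⟨-u, by linarith⟩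
      have h3 : B ∣ 1 := by exact_mod_cast h2
      have := Nat.le_of_dvd one_pos h3
      omega
    | succ i =>
      refine ⟨i, ?_⟩
      rw [rep_succ] at hi
      push_cast at hi
      have h1 : (B : ℤ) * u = B * rep B i := by linarith
      have h2 : (B : ℤ) ≠ 0 := by
        simp only [ne_eq, Nat.cast_eq_zero]; omega
      exact mul_left_cancel₀ h2 h1
  · rintro ⟨i, rfl⟩
    refine ⟨i + 1, ?_⟩
    rw [rep_succ]
    push_cast
    ring

end Rep

section Inv

variable {Q : Type} (M : Sys Q Bool) (hpos : ∀ q r j, M.nxt q r ≠ none → 0 < M.a q r j)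
  (q0 : Q) (k1 kc kt : ℕ) (R : ℕ → ℕ → Prop) (n0 : ℕ)

/-- The first coordinate codes an element of the class. -/
def HA1 (z : V) : Prop := ∃ k : ℕ, z true = rep M.B k ∧ R k n0

/-- The second coordinate codes an element of the class. -/
def HA2 (z : V) : Prop := ∃ l : ℕ, z false = rep M.B l ∧ R l n0

/-- Both or none. -/
def Val (z : V) : Prop := HA1 M R n0 z ↔ HA2 M R n0 z

/-- The invariant. -/
def HP (p : St Q) (v : VV) : Prop :=
  match p with
  | .c => ((∃ i : ℕ, v.1 true = rep M.B i) ∧ (∃ j : ℕ, v.1 false = rep M.B j) ∧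
      RwAcc M hpos q0 k1 kt (aff M k1 kc kt v.2)) ∨ Val M R n0 v.2
  | .rw => RwAcc M hpos q0 k1 kt v.1 ∨ Val M R n0 v.2
  | .q s => Acc (mrules M hpos) none s v.1 ∨ Val M R n0 v.2
  | .A1 => HA1 M R n0 v.2
  | .A2 => HA2 M R n0 v.2

/-- The toggle of the other sheet. -/
def nt : Equiv.Perm Bool := Equiv.boolNot

theorem nt_inv : nt⁻¹ = nt := rfl

theorem nt_mul : nt * nt = 1 := by
  apply Equiv.ext
  intro b
  cases b <;> rfl

open Classical in
/-- The toggles. -/
noncomputable def FF (p : St Q) (v : VV) : Equiv.Perm Bool :=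
  if HP M hpos q0 k1 kc kt R n0 p v then 1 else nt

open Classical in
theorem FF_eq (p : St Q) (v : VV) (p' : St Q) (v' : VV)
    (h : HP M hpos q0 k1 kc kt R n0 p v ↔ HP M hpos q0 k1 kc kt R n0 p' v') :
    FF M hpos q0 k1 kc kt R n0 p v = FF M hpos q0 k1 kc kt R n0 p' v' := by
  unfold FF
  simp only [h]

theorem FF_iff (p : St Q) (v : VV) : FF M hpos q0 k1 kc kt R n0 p v false = false ↔
    HP M hpos q0 k1 kc kt R n0 p v := by
  unfold FF
  split_ifs with h
  · simp [h]
  · simp [h, nt]

theorem HP_c (w z : V) : HP M hpos q0 k1 kc kt R n0 .c (w, z) ↔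
    ((∃ i : ℕ, w true = rep M.B i) ∧ (∃ j : ℕ, w false = rep M.B j) ∧
      RwAcc M hpos q0 k1 kt (aff M k1 kc kt z)) ∨ Val M R n0 z := Iff.rfl

theorem F1 (hB : 2 ≤ M.B) (h1 : k1 < M.B) (ht : kt < M.B) (hne : k1 ≠ kt)
    (i : I1 (Option Q × (Bool → Fin M.B))) (u z : V) :
    FF M hpos q0 k1 kc kt R n0 ((DD M hpos q0 k1 kt).src i)
      ((DD M hpos q0 k1 kt).m i * u + (DD M hpos q0 k1 kt).r i, z) =
    FF M hpos q0 k1 kc kt R n0 ((DD M hpos q0 k1 kt).tgt i)
      ((DD M hpos q0 k1 kt).a i * u + (DD M hpos q0 k1 kt).b i, z) := by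
  apply FF_eq
  rcases i with b | _ | _ | i
  · change HP M hpos q0 k1 kc kt R n0 .c (_, z) ↔ HP M hpos q0 k1 kc kt R n0 .c (_, z)
    rw [HP_c, HP_c]
    cases b
    · have e1 : ((DD M hpos q0 k1 kt).m (.C false) * u + (DD M hpos q0 k1 kt).r (.C false)) true =
          u true := by simp [DD]
      have e2 : ((DD M hpos q0 k1 kt).m (.C false) * u + (DD M hpos q0 k1 kt).r (.C false)) false =
          M.B * u false + 1 := by simp [DD]
      have e3 : ((DD M hpos q0 k1 kt).a (.C false) * u + (DD M hpos q0 k1 kt).b (.C false)) = u := by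
        simp [DD]
      rw [e1, e2, e3, rep_iff hB]
    · have e1 : ((DD M hpos q0 k1 kt).m (.C true) * u + (DD M hpos q0 k1 kt).r (.C true)) false =
          u false := by simp [DD]
      have e2 : ((DD M hpos q0 k1 kt).m (.C true) * u + (DD M hpos q0 k1 kt).r (.C true)) true =
          M.B * u true + 1 := by simp [DD]
      have e3 : ((DD M hpos q0 k1 kt).a (.C true) * u + (DD M hpos q0 k1 kt).b (.C true)) = u := by
        simp [DD]
      rw [e1, e2, e3, rep_iff hB]
  · change (RwAcc M hpos q0 k1 kt (vec M.B 1 * u + vec k1 0) ∨ _) ↔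
      (RwAcc M hpos q0 k1 kt (vec 1 M.B * u + vec 0 k1) ∨ _)
    rw [rw_iff1 M hpos q0 k1 kt h1 ht hne]
  · change (RwAcc M hpos q0 k1 kt (vec M.B 1 * u + vec kt 0) ∨ _) ↔
      (Acc (mrules M hpos) none (some q0) (vec 1 M.B * u + vec 0 kt) ∨ _)
    rw [rw_iff2 M hpos q0 k1 kt h1 ht hne]
  · change (Acc (mrules M hpos) none ((mrules M hpos).src i)
        ((mrules M hpos).m i * u + (mrules M hpos).r i) ∨ _) ↔
      (Acc (mrules M hpos) none ((mrules M hpos).tgt i)
        ((mrules M hpos).a i * u + (mrules M hpos).b i) ∨ _)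
    have : Acc (mrules M hpos) none ((mrules M hpos).src i)
        ((mrules M hpos).m i * u + (mrules M hpos).r i) ↔
      Acc (mrules M hpos) none ((mrules M hpos).tgt i)
        ((mrules M hpos).a i * u + (mrules M hpos).b i) :=
      ⟨acc_forward M hpos i u, Acc.step i u⟩
    rw [this]

theorem F2 (hB : 2 ≤ M.B) (h1 : k1 < M.B) (ht : kt < M.B) (hne : k1 ≠ kt)
    (hE : Equivalence R)
    (hM : ∀ k l : ℕ, M.Halts (some q0) (ini (kt + M.B * (k1 * rep M.B l) +
        M.B ^ (l + 1) * (kc + M.B * (k1 * rep M.B k)))) ↔ R k l) (j : J1) (z : V) :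
    par (FF M hpos q0 k1 kc kt R n0) ((EE M k1 kc kt).e j) ((EE M k1 kc kt).c j * z, z) =
    par (FF M hpos q0 k1 kc kt R n0) ((EE M k1 kc kt).e' j) ((EE M k1 kc kt).c' j * z, z) := by
  classical
  rcases j with _ | _ | _ | _ | b
  · change par (FF M hpos q0 k1 kc kt R n0) (FreeGroup.of (St.c, 0)) ((1 : V) * z, z) =
      par (FF M hpos q0 k1 kc kt R n0) (FreeGroup.of (St.A1, 0) * (FreeGroup.of (St.A2, 0))⁻¹)
        ((0 : V) * z, z)
    rw [map_mul, map_inv, Pi.mul_apply, Pi.inv_apply, par_of, par_of, par_of, one_mul, zero_mul,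
      add_zero, add_zero]
    have key : HP M hpos q0 k1 kc kt R n0 St.c (z, z) ↔
        (HA1 M R n0 z ↔ HA2 M R n0 z) := by
      constructor
      · rintro (⟨⟨i, hi⟩, ⟨j, hj⟩, h⟩ | h)
        · have hi : z true = rep M.B i := hi
          have hj : z false = rep M.B j := hj
          have hz : z = vec (rep M.B j) (rep M.B i) := vec_ext hj hi
          have h : RwAcc M hpos q0 k1 kt (aff M k1 kc kt z) := h
          rw [hz, rw_aff M hpos q0 k1 kc kt hB h1 ht hne, hM] at h
          have a1 : HA1 M R n0 z ↔ R i n0 := by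
            constructor
            · rintro ⟨k, hk, hR⟩
              have : k = i := by
                apply rep_injective hB
                rw [hi] at hk
                exact_mod_cast hk.symm
              rwa [this] at hR
            · intro hR
              exact ⟨i, hi, hR⟩
          have a2 : HA2 M R n0 z ↔ R j n0 := by
            constructor
            · rintro ⟨k, hk, hR⟩
              have : k = j := by
                apply rep_injective hB
                rw [hj] at hk
                exact_mod_cast hk.symm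
              rwa [this] at hR
            · intro hR
              exact ⟨j, hj, hR⟩
          rw [a1, a2]
          exact ⟨fun hh => hE.trans (hE.symm h) hh, fun hh => hE.trans h hh⟩
        · exact h
      · intro h
        exact Or.inr h
    have k2 : HP M hpos q0 k1 kc kt R n0 St.A1 (0, z) ↔ HA1 M R n0 z := Iff.rfl
    have k3 : HP M hpos q0 k1 kc kt R n0 St.A2 (0, z) ↔ HA2 M R n0 z := Iff.rfl
    unfold FF
    simp only [key, k2, k3]
    by_cases c1 : HA1 M R n0 z
    · by_cases c2 : HA2 M R n0 z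
      · simp [c1, c2]
      · simp [c1, c2, nt_inv]
    · by_cases c2 : HA2 M R n0 z
      · simp [c1, c2]
      · simp [c1, c2]
  · change par (FF M hpos q0 k1 kc kt R n0) (FreeGroup.of (St.A1, (0, Pi.single false 1)))
        ((0 : V) * z, z) =
      par (FF M hpos q0 k1 kc kt R n0) (FreeGroup.of (St.A1, 0)) ((0 : V) * z, z)
    rw [par_of, par_of]
    apply FF_eq
    change (∃ k : ℕ, (z + Pi.single false 1 : V) true = rep M.B k ∧ R k n0) ↔
      ∃ k : ℕ, (z + 0 : V) true = rep M.B k ∧ R k n0
    simp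
  · change par (FF M hpos q0 k1 kc kt R n0) (FreeGroup.of (St.A2, (0, Pi.single true 1)))
        ((0 : V) * z, z) =
      par (FF M hpos q0 k1 kc kt R n0) (FreeGroup.of (St.A2, 0)) ((0 : V) * z, z)
    rw [par_of, par_of]
    apply FF_eq
    change (∃ k : ℕ, (z + Pi.single true 1 : V) false = rep M.B k ∧ R k n0) ↔
      ∃ k : ℕ, (z + 0 : V) false = rep M.B k ∧ R k n0
    simp
  · change par (FF M hpos q0 k1 kc kt R n0) (FreeGroup.of (St.c, 0)) ((0 : V) * z, z) =
      par (FF M hpos q0 k1 kc kt R n0) (FreeGroup.of (St.rw, (vec kt kc, 0)))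
        (vec (k1 + kt * (M.B - 1)) (M.B * k1) * z, z)
    rw [par_of, par_of]
    apply FF_eq
    change (((∃ i : ℕ, ((0 : V) * z + 0 : V) true = rep M.B i) ∧
      (∃ j : ℕ, ((0 : V) * z + 0 : V) false = rep M.B j) ∧
      RwAcc M hpos q0 k1 kt (aff M k1 kc kt (z + 0))) ∨ Val M R n0 (z + 0)) ↔
      (RwAcc M hpos q0 k1 kt (aff M k1 kc kt z) ∨ Val M R n0 (z + 0))
    have e1 : (∃ i : ℕ, ((0 : V) * z + 0 : V) true = rep M.B i) := ⟨0, by simp [rep_zero']⟩
    have e2 : (∃ i : ℕ, ((0 : V) * z + 0 : V) false = rep M.B i) := ⟨0, by simp [rep_zero']⟩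
    have e3 : z + 0 = z := add_zero z
    constructor
    · rintro (⟨_, _, h⟩ | h)
      · rw [e3] at h
        exact Or.inl h
      · exact Or.inr h
    · rintro (h | h)
      · refine Or.inl ⟨e1, e2, ?_⟩
        rw [e3]
        exact h
      · exact Or.inr h
  · change par (FF M hpos q0 k1 kc kt R n0) (FreeGroup.of (St.q none, (0, Pi.single b 1)))
        ((0 : V) * z, z) =
      par (FF M hpos q0 k1 kc kt R n0) (FreeGroup.of (St.q none, 0)) ((0 : V) * z, z)
    rw [par_of, par_of]
    apply FF_eq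
    have e : Acc (mrules M hpos) none none ((0 : V) * z + 0 : V) := by
      rw [zero_mul, zero_add]
      exact Acc.base
    exact ⟨fun _ => Or.inl e, fun _ => Or.inl e⟩

theorem i1 (j : J1) : Function.Injective (sh (L2 ((EE (Q := Q) M k1 kc kt).c j))
    ((EE (Q := Q) M k1 kc kt).e j)) := by
  rcases j with _ | _ | _ | _ | b
  · exact sh_injective_of _ (L2_injective _) _ _
  · exact sh_injective_of _ (L2_injective _) _ _
  · exact sh_injective_of _ (L2_injective _) _ _
  · exact sh_injective_of _ (L2_injective _) _ _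
  · exact sh_injective_of _ (L2_injective _) _ _

theorem i2 (j : J1) : Function.Injective (sh (L2 ((EE (Q := Q) M k1 kc kt).c' j))
    ((EE (Q := Q) M k1 kc kt).e' j)) := by
  rcases j with _ | _ | _ | _ | b
  · exact sh_injective_mul _ (L2_injective _) _ _ (by simp) _ _
  · exact sh_injective_of _ (L2_injective _) _ _
  · exact sh_injective_of _ (L2_injective _) _ _
  · exact sh_injective_of _ (L2_injective _) _ _
  · exact sh_injective_of _ (L2_injective _) _ _

end Inv

end Pool.Agent.H476R3.Gamma
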