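import Mathlib

set_option autoImplicit false

/-! The monoid `⟨a, b ∣ aabb = 1⟩`. -/

namespace Pool.Agent.H476R3.OM

/-- the relation -/
abbrev rel : FreeMonoid (Fin 2) → FreeMonoid (Fin 2) → Prop :=
  fun x y => x = FreeMonoid.ofList [0, 0, 1, 1] ∧ y = 1

/-- the monoid -/
abbrev M : Type := (conGen rel).Quotient

/-- the generators -/
def gen (i : Fin 2) : M := (conGen rel).mk' (FreeMonoid.of i)

/-- the element of a word -/
def cl (l : List (Fin 2)) : M := (l.map gen).prod

@[simp] theorem cl_nil : cl [] = 1 := rfl
theorem cl_cons (a : Fin 2) (l : List (Fin 2)) : cl (a :: l) = gen a * cl l := by simp [cl]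
theorem cl_append (l l' : List (Fin 2)) : cl (l ++ l') = cl l * cl l' := by simp [cl]
theorem cl_single (a : Fin 2) : cl [a] = gen a := by simp [cl]

theorem cl_eq (l : List (Fin 2)) : cl l = (conGen rel).mk' (FreeMonoid.ofList l) := by
  induction l with
  | nil => rfl
  | cons a l ih =>
    rw [cl_cons, ih]
    rfl

theorem cl_w : cl [0, 0, 1, 1] = 1 := by
  rw [cl_eq]
  have : (conGen rel) (FreeMonoid.ofList [0, 0, 1, 1]) 1 := ConGen.Rel.of _ _ ⟨rfl, rfl⟩
  exact (Con.eq _).2 this

theorem cl_surj (X : M) : ∃ l, cl l = X := by
  obtain ⟨l, rfl⟩ := (conGen rel).mk'_surjective X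
  exact ⟨l.toList, by rw [cl_eq]; rfl⟩

/-- pushing a letter on a stack -/
def push (st : List (Fin 2)) (c : Fin 2) : List (Fin 2) :=
  if c = 1 ∧ st.take 3 = [1, 0, 0] then st.drop 3 else c :: st

theorem push_zero (st : List (Fin 2)) : push st 0 = 0 :: st := by simp [push]
theorem push_pop (r : List (Fin 2)) : push (1 :: 0 :: 0 :: r) 1 = r := by simp [push]
theorem push_one {st : List (Fin 2)} (h : st.take 3 ≠ [1, 0, 0]) : push st 1 = 1 :: st := by
  simp [push, h]

/-- running a word -/
def run (st l : List (Fin 2)) : List (Fin 2) := l.foldl push st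

@[simp] theorem run_nil (st : List (Fin 2)) : run st [] = st := rfl
theorem run_cons (st : List (Fin 2)) (c : Fin 2) (l : List (Fin 2)) :
    run st (c :: l) = run (push st c) l := rfl
theorem run_append (st l l' : List (Fin 2)) : run st (l ++ l') = run (run st l) l' := by
  simp [run]

theorem run_w (st : List (Fin 2)) : run st [0, 0, 1, 1] = st := by
  rw [run_cons, run_cons, run_cons, run_cons, run_nil, push_zero, push_zero]
  rw [push_one (st := 0 :: 0 :: st) (by simp), push_pop]

/-- the action -/
def actF : FreeMonoid (Fin 2) →* (Function.End (List (Fin 2)))ᵐᵒᵖ :=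
  FreeMonoid.lift (fun c => MulOpposite.op (fun st => push st c))

theorem actF_apply (l : List (Fin 2)) (st : List (Fin 2)) :
    (actF (FreeMonoid.ofList l)).unop st = run st l := by
  induction l generalizing st with
  | nil => rfl
  | cons c l ih =>
    have e : FreeMonoid.ofList (c :: l) = FreeMonoid.of c * FreeMonoid.ofList l := rfl
    rw [e, map_mul, run_cons, ← ih]
    rfl

theorem actF_le : conGen rel ≤ Con.ker actF := by
  rw [Con.conGen_le]
  rintro x y ⟨rfl, rfl⟩
  rw [Con.ker_rel]
  apply MulOpposite.unop_injective
  funext st
  rw [actF_apply, run_w]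
  rfl

/-- the action -/
def act : M →* (Function.End (List (Fin 2)))ᵐᵒᵖ := Con.lift _ actF actF_le

theorem act_cl (l st : List (Fin 2)) : (act (cl l)).unop st = run st l := by
  rw [cl_eq, ← actF_apply]
  rfl

theorem run_congr {l l' : List (Fin 2)} (h : cl l = cl l') (st : List (Fin 2)) :
    run st l = run st l' := by
  rw [← act_cl, h, act_cl]

theorem cl_push (st : List (Fin 2)) (c : Fin 2) :
    cl (push st c).reverse = cl st.reverse * gen c := by
  by_cases h : c = 1 ∧ st.take 3 = [1, 0, 0]
  · have h1 : push st c = st.drop 3 := by simp [push, h]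
    have h2 : st = [1, 0, 0] ++ st.drop 3 := by
      conv_lhs => rw [← List.take_append_drop 3 st, h.2]
    rw [h1]
    conv_rhs => rw [h2]
    rw [List.reverse_append, cl_append, h.1, mul_assoc, ← cl_single, ← cl_append]
    have : ([1, 0, 0] : List (Fin 2)).reverse ++ [1] = [0, 0, 1, 1] := rfl
    rw [this, cl_w, mul_one]
  · have h1 : push st c = c :: st := by simp only [push, h, if_false]
    rw [h1, List.reverse_cons, cl_append, cl_single]

theorem cl_run (st l : List (Fin 2)) : cl (run st l).reverse = cl st.reverse * cl l := by
  induction l generalizing st with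
  | nil => simp
  | cons c l ih => rw [run_cons, ih, cl_push, cl_cons, mul_assoc]

/-- the normal form of an element, as a stack -/
def nf (X : M) : List (Fin 2) := (act X).unop []

theorem nf_cl (l : List (Fin 2)) : nf (cl l) = run [] l := act_cl l []

theorem cl_nf (X : M) : cl (nf X).reverse = X := by
  obtain ⟨l, rfl⟩ := cl_surj X
  rw [nf_cl, cl_run]
  simp

theorem nf_mul_cl (X : M) (l : List (Fin 2)) : nf (X * cl l) = run (nf X) l := by
  obtain ⟨k, rfl⟩ := cl_surj X
  rw [← cl_append, nf_cl, nf_cl, run_append]

/-- lengths do not increase -/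
theorem run_length (st l : List (Fin 2)) : (run st l).length ≤ st.length + l.length := by
  induction l generalizing st with
  | nil => simp
  | cons c l ih =>
    rw [run_cons, List.length_cons]
    have h := ih (push st c)
    have : (push st c).length ≤ st.length + 1 := by
      unfold push
      split_ifs
      · rw [List.length_drop]; omega
      · simp
    omega

theorem run_eq_of_length {st l : List (Fin 2)} (h : (run st l).length = st.length + l.length) :
    run st l = l.reverse ++ st := by
  induction l generalizing st with
  | nil => simp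
  | cons c l ih =>
    rw [run_cons] at h ⊢
    have h1 := run_length (push st c) l
    rw [List.length_cons] at h
    have h2 : push st c = c :: st := by
      unfold push at h1 h ⊢
      split_ifs with hc
      · rw [if_pos hc] at h1 h
        rw [List.length_drop] at h1
        omega
      · rfl
    rw [h2] at h ⊢
    rw [ih (by rw [h, List.length_cons]; omega)]
    simp

/-- the words which are products of `a` and `aab`, as stacks -/
inductive Good : List (Fin 2) → Prop
  | nil : Good []
  | zero (v : List (Fin 2)) : Good v → Good (0 :: v)
  | one (v : List (Fin 2)) : Good v → Good (1 :: 0 :: 0 :: v)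

theorem Good.of_zero {v : List (Fin 2)} (h : Good (0 :: v)) : Good v := by
  generalize hu : (0 :: v) = u at h
  cases h with
  | nil => simp at hu
  | zero v' h' => rw [List.cons.injEq] at hu; rw [hu.2]; exact h'
  | one v' h' => simp at hu

theorem Good.of_one {v : List (Fin 2)} (h : Good (1 :: v)) : Good v := by
  generalize hu : (1 :: v) = u at h
  cases h with
  | nil => simp at hu
  | zero v' h' => simp at hu
  | one v' h' =>
    rw [List.cons.injEq] at hu
    rw [hu.2]
    exact Good.zero _ (Good.zero _ h')

theorem good_of_push {v : List (Fin 2)} {c : Fin 2} (h : Good (push v c)) : Good v := by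
  by_cases hc : c = 1 ∧ v.take 3 = [1, 0, 0]
  · have h1 : push v c = v.drop 3 := by simp [push, hc]
    rw [h1] at h
    have h2 : v = [1, 0, 0] ++ v.drop 3 := by
      conv_lhs => rw [← List.take_append_drop 3 v, hc.2]
    rw [h2]
    exact Good.one _ h
  · have h1 : push v c = c :: v := by simp only [push, hc, if_false]
    rw [h1] at h
    have : c = 0 ∨ c = 1 := by fin_cases c <;> simp
    rcases this with rfl | rfl
    · exact h.of_zero
    · exact h.of_one

theorem good_of_run {v l : List (Fin 2)} (h : Good (run v l)) : Good v := by
  induction l generalizing v with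
  | nil => exact h
  | cons c l ih => exact good_of_push (ih h)

/-- right invertible elements -/
theorem good_of_right_inv {X Y : M} (h : X * Y = 1) : Good (nf X) := by
  obtain ⟨l, rfl⟩ := cl_surj Y
  have h1 := nf_mul_cl X l
  rw [h] at h1
  have h2 : nf (1 : M) = [] := nf_cl []
  rw [h2] at h1
  apply good_of_run (l := l)
  rw [← h1]
  exact Good.nil

/-- running a good word is pushing it -/
theorem run_good {p : List (Fin 2)} (hp : Good p) (st : List (Fin 2)) :
    run st p.reverse = p ++ st := by
  induction hp generalizing st with
  | nil => rfl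
  | zero v _ ih =>
    rw [List.reverse_cons, run_append, ih, run_cons, run_nil, push_zero]
    rfl
  | one v _ ih =>
    have e : (1 :: 0 :: 0 :: v : List (Fin 2)).reverse = v.reverse ++ [0, 0, 1] := by simp
    rw [e, run_append, ih, run_cons, run_cons, run_cons, run_nil, push_zero, push_zero,
      push_one (by simp)]
    rfl

/-- commutation with a good word is commutation of words -/
theorem comm_words {V : M} {p : List (Fin 2)} (hp : Good p)
    (h : V * cl p.reverse = cl p.reverse * V) : p ++ nf V = nf V ++ p := by
  have h1 : nf (V * cl p.reverse) = p ++ nf V := by rw [nf_mul_cl, run_good hp]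
  have hVe : V = cl (nf V).reverse := (cl_nf V).symm
  have h2 : nf (cl p.reverse * V) = run p (nf V).reverse := by
    conv_lhs => rw [hVe]
    rw [nf_mul_cl, nf_cl, run_good hp, List.append_nil]
  rw [h, h2] at h1
  have h3 : (run p (nf V).reverse).length = p.length + (nf V).reverse.length := by
    rw [h1]; simp
  rw [run_eq_of_length h3, List.reverse_reverse] at h1
  exact h1.symm

end Pool.Agent.H476R3.OM
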