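import Mathlib
import Pool.Agent.H476R3.MBase

set_option autoImplicit false

/-! Arithmetic in the monoid `⟨a, b ∣ aabb = 1⟩`. -/

namespace Pool.Agent.H476R3.OM

/-- the hom to the integers -/
def lamF : FreeMonoid (Fin 2) →* Multiplicative ℤ :=
  FreeMonoid.lift ![Multiplicative.ofAdd 1, Multiplicative.ofAdd (-1)]

theorem lamF_le : conGen rel ≤ Con.ker lamF := by
  rw [Con.conGen_le]
  rintro x y ⟨rfl, rfl⟩
  rw [Con.ker_rel]
  simp [lamF]

/-- the hom to the integers -/
def lam : M →* Multiplicative ℤ := Con.lift _ lamF lamF_le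

theorem lam_zero : lam (gen 0) = Multiplicative.ofAdd 1 := rfl
theorem lam_one : lam (gen 1) = Multiplicative.ofAdd (-1) := rfl

/-- the hom to the infinite dihedral group -/
def delF : FreeMonoid (Fin 2) →* DihedralGroup 0 :=
  FreeMonoid.lift ![DihedralGroup.sr 0, DihedralGroup.sr 1]

theorem delF_le : conGen rel ≤ Con.ker delF := by
  rw [Con.conGen_le]
  rintro x y ⟨rfl, rfl⟩
  rw [Con.ker_rel]
  simp [delF]

/-- the hom to the infinite dihedral group -/
def del : M →* DihedralGroup 0 := Con.lift _ delF delF_le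

theorem del_zero : del (gen 0) = DihedralGroup.sr 0 := rfl
theorem del_one : del (gen 1) = DihedralGroup.sr 1 := rfl

/-- the generator `a` -/
def A : M := gen 0
/-- the generator `b` -/
def B : M := gen 1
/-- `y = aab` -/
def Yy : M := A * A * B
/-- `p = aa` -/
def P : M := A * A
/-- `q = aaab` -/
def Q : M := A * Yy

theorem rel_AB : A * A * B * B = 1 := by
  have := cl_w
  simp only [cl, List.map_cons, List.map_nil, List.prod_cons, List.prod_nil, mul_one] at this
  rw [← this]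
  simp only [A, B, mul_assoc]

/-- having a common right inverse -/
def Adj (X Z : M) : Prop := ∃ W, X * W = 1 ∧ Z * W = 1

/-- right invertible elements -/
def RI (X : M) : Prop := ∃ W, X * W = 1

theorem RI.mul {X Z : M} (hX : RI X) (hZ : RI Z) : RI (X * Z) := by
  obtain ⟨W, hW⟩ := hX
  obtain ⟨W', hW'⟩ := hZ
  exact ⟨W' * W, by rw [mul_assoc, ← mul_assoc Z, hW', one_mul, hW]⟩

theorem RI.one : RI 1 := ⟨1, one_mul 1⟩
theorem RI.pow {X : M} (hX : RI X) (n : ℕ) : RI (X ^ n) := by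
  induction n with
  | zero => rw [pow_zero]; exact RI.one
  | succ n ih => rw [pow_succ]; exact ih.mul hX

theorem RI_A : RI A := ⟨A * B * B, by rw [← mul_assoc, ← mul_assoc]; exact rel_AB⟩
theorem RI_Y : RI Yy := ⟨B, rel_AB⟩
theorem RI_P : RI P := RI_A.mul RI_A
theorem RI_Q : RI Q := RI_A.mul RI_Y

theorem Adj.symm {X Z : M} (h : Adj X Z) : Adj Z X := by
  obtain ⟨W, h1, h2⟩ := h
  exact ⟨W, h2, h1⟩

theorem Adj.mul {X Z C D : M} (h : Adj X Z) (hC : RI C) (hD : RI D) :
    Adj (C * X * D) (C * Z * D) := by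
  obtain ⟨W, h1, h2⟩ := h
  obtain ⟨C', hC⟩ := hC
  obtain ⟨D', hD⟩ := hD
  refine ⟨D' * W * C', ?_, ?_⟩
  · have : C * X * D * (D' * W * C') = C * (X * (D * D') * W) * C' := by simp only [mul_assoc]
    rw [this, hD, mul_one, h1, mul_one, hC]
  · have : C * Z * D * (D' * W * C') = C * (Z * (D * D') * W) * C' := by simp only [mul_assoc]
    rw [this, hD, mul_one, h2, mul_one, hC]

/-- `aa` and `yy` have a common right inverse -/
theorem adj_base : Adj (A * A) (Yy * Yy) := by
  refine ⟨B * B, ?_, ?_⟩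
  · rw [← mul_assoc]; exact rel_AB
  · have : Yy * Yy * (B * B) = Yy * (A * A * B * B) * B := by simp only [Yy, mul_assoc]
    rw [this, rel_AB, mul_one]
    exact rel_AB

/-- chains -/
def Ch : M → M → Prop := Relation.ReflTransGen Adj

theorem Ch.refl (X : M) : Ch X X := Relation.ReflTransGen.refl
theorem Ch.trans {X Z W : M} (h : Ch X Z) (h' : Ch Z W) : Ch X W := Relation.ReflTransGen.trans h h'

theorem Ch.mul {X Z C D : M} (h : Ch X Z) (hC : RI C) (hD : RI D) :
    Ch (C * X * D) (C * Z * D) := by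
  induction h with
  | refl => exact Ch.refl _
  | tail _ h2 ih => exact Relation.ReflTransGen.tail ih (h2.mul hC hD)

theorem Ch.mul_left {X Z C : M} (h : Ch X Z) (hC : RI C) : Ch (C * X) (C * Z) := by
  have := h.mul hC RI.one
  simpa using this

theorem Ch.mul_right {X Z D : M} (h : Ch X Z) (hD : RI D) : Ch (X * D) (Z * D) := by
  have := h.mul RI.one hD
  simpa using this

theorem ch_QP : Ch (Q * P) (P * Q) := by
  have h1 : Adj (Q * P) (Q * (Yy * Yy)) := by
    have := adj_base.mul RI_Q RI.one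
    simpa [P] using this
  have h2 : Adj (A * (Yy * Yy) * Yy) (A * (A * A) * Yy) := adj_base.symm.mul RI_A RI_Y
  have e1 : Q * (Yy * Yy) = A * (Yy * Yy) * Yy := by simp only [Q, mul_assoc]
  have e2 : A * (A * A) * Yy = P * Q := by simp only [Q, P, mul_assoc]
  rw [e1] at h1
  rw [e2] at h2
  exact (Relation.ReflTransGen.single h1).tail h2

theorem ch_QnP (n : ℕ) : Ch (Q ^ n * P) (P * Q ^ n) := by
  induction n with
  | zero => simpa using Ch.refl P
  | succ n ih =>
    have h1 : Ch (Q ^ n * (Q * P)) (Q ^ n * (P * Q)) := ch_QP.mul_left (RI_Q.pow n)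
    have h2 : Ch (Q ^ n * P * Q) (P * Q ^ n * Q) := ih.mul_right RI_Q
    have e1 : Q ^ (n + 1) * P = Q ^ n * (Q * P) := by rw [pow_succ, mul_assoc]
    have e2 : Q ^ n * (P * Q) = Q ^ n * P * Q := by rw [mul_assoc]
    have e3 : P * Q ^ (n + 1) = P * Q ^ n * Q := by rw [pow_succ, mul_assoc]
    rw [e1, e3]
    rw [e2] at h1
    exact h1.trans h2

theorem ch_pow (m k : ℕ) : Ch ((P * Q ^ m) ^ k) (P ^ k * Q ^ (m * k)) := by
  induction k with
  | zero => simpa using Ch.refl 1
  | succ k ih =>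
    have h1 : Ch ((P * Q ^ m) ^ k * (P * Q ^ m)) (P ^ k * Q ^ (m * k) * (P * Q ^ m)) :=
      ih.mul_right (RI_P.mul (RI_Q.pow m))
    have h2 : Ch (P ^ k * (Q ^ (m * k) * P) * Q ^ m) (P ^ k * (P * Q ^ (m * k)) * Q ^ m) :=
      (ch_QnP (m * k)).mul (RI_P.pow k) (RI_Q.pow m)
    have e1 : P ^ k * Q ^ (m * k) * (P * Q ^ m) = P ^ k * (Q ^ (m * k) * P) * Q ^ m := by
      simp only [mul_assoc]
    have e2 : P ^ (k + 1) * Q ^ (m * (k + 1)) = P ^ k * (P * Q ^ (m * k)) * Q ^ m := by
      rw [pow_succ, mul_add, mul_one, pow_add]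
      simp only [mul_assoc]
    rw [pow_succ, e2]
    rw [e1] at h1
    exact h1.trans h2

/-- the definable relation -/
def Cj (X Z : M) : Prop := ∃ T' T'' W : M, T' * W = 1 ∧ T'' * W = 1 ∧ X * T' = T'' * Z

theorem Cj.of_ch {X Z : M} (h : Ch X Z) : Cj X Z := by
  unfold Ch at h
  induction h using Relation.ReflTransGen.head_induction_on with
  | refl => exact ⟨1, 1, 1, one_mul 1, one_mul 1, by rw [one_mul, mul_one]⟩
  | @head X X' h1 _ ih =>
    obtain ⟨Y, hY, hY'⟩ := h1
    obtain ⟨T', T'', W, h3, h4, h5⟩ := ih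
    refine ⟨X' * T', X * T'', W * Y, ?_, ?_, ?_⟩
    · have : X' * T' * (W * Y) = X' * (T' * W) * Y := by simp only [mul_assoc]
      rw [this, h3, mul_one, hY']
    · have : X * T'' * (W * Y) = X * (T'' * W) * Y := by simp only [mul_assoc]
      rw [this, h4, mul_one, hY]
    · rw [h5, mul_assoc]

theorem Cj.conj {X Z : M} (h : Cj X Z) {G : Type} [Group G] (f : M →* G) :
    ∃ T : M, f X = f T * f Z * (f T)⁻¹ := by
  obtain ⟨T', T'', W, h1, h2, h3⟩ := h
  have e1 : f T' * f W = 1 := by rw [← map_mul, h1, map_one]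
  have e2 : f T'' * f W = 1 := by rw [← map_mul, h2, map_one]
  have e3 : f T' = f T'' := mul_right_cancel (e1.trans e2.symm)
  have e4 : f X * f T' = f T'' * f Z := by rw [← map_mul, h3, map_mul]
  refine ⟨T'', ?_⟩
  rw [← e4, e3, mul_assoc, mul_inv_cancel, mul_one]

theorem lam_A : lam A = Multiplicative.ofAdd 1 := rfl
theorem lam_P : lam P = Multiplicative.ofAdd 2 := rfl
theorem lam_Q : lam Q = Multiplicative.ofAdd 2 := rfl
theorem del_P : del P = 1 := rfl
theorem del_Q : del Q = DihedralGroup.r 1 := rfl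

theorem lam_PQ (k c : ℕ) : lam (P ^ k * Q ^ c) = Multiplicative.ofAdd (2 * k + 2 * c : ℤ) := by
  rw [map_mul, map_pow, map_pow, lam_P, lam_Q, ← ofAdd_nsmul, ← ofAdd_nsmul, ← ofAdd_add]
  congr 1
  simp only [nsmul_eq_mul]
  ring

theorem del_PQ (k c : ℕ) : del (P ^ k * Q ^ c) = DihedralGroup.r (c : ZMod 0) := by
  rw [map_mul, map_pow, map_pow, del_P, del_Q, one_pow, one_mul, DihedralGroup.r_pow]
  simp

theorem conj_r (g : DihedralGroup 0) (c : ZMod 0) :
    g * DihedralGroup.r c * g⁻¹ = DihedralGroup.r c ∨ g * DihedralGroup.r c * g⁻¹ = DihedralGroup.r (-c) := by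
  rcases g with i | i
  · left
    rw [DihedralGroup.inv_r, DihedralGroup.r_mul_r, DihedralGroup.r_mul_r]
    congr 1
    ring
  · right
    rw [DihedralGroup.inv_sr, DihedralGroup.sr_mul_r, DihedralGroup.sr_mul_sr]
    congr 1
    ring

/-- **soundness** -/
theorem sound {W : M} {m k c L l : ℕ} (hL : 0 < L) (hW : W ^ L = (P * Q ^ m) ^ l)
    (hC : Cj W (P ^ k * Q ^ c)) : c = m * k := by
  have h1 := hC.conj lam
  have h2 := hC.conj del
  obtain ⟨T, hT⟩ := h1
  obtain ⟨T2, hT2⟩ := h2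
  have h3 : lam W = lam (P ^ k * Q ^ c) := by
    rw [hT, mul_comm (lam T), mul_assoc, mul_inv_cancel, mul_one]
  have h4 : lam (W ^ L) = lam ((P ^ 1 * Q ^ m) ^ l) := by rw [hW, pow_one]
  rw [map_pow, map_pow, h3, lam_PQ, lam_PQ, ← ofAdd_nsmul, ← ofAdd_nsmul] at h4
  have h5 : (L : ℤ) * (2 * k + 2 * c) = l * (2 * 1 + 2 * m) := by
    have := Multiplicative.ofAdd.injective h4
    simpa only [nsmul_eq_mul, Nat.cast_one] using this
  have h6 : del (W ^ L) = del ((P ^ 1 * Q ^ m) ^ l) := by rw [hW, pow_one]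
  rw [del_PQ] at hT2
  rw [map_pow, map_pow, del_PQ, DihedralGroup.r_pow] at h6
  have h7 : (c : ℤ) * L = m * l ∨ -(c : ℤ) * L = m * l := by
    rcases conj_r (del T2) (c : ZMod 0) with h | h
    · left
      rw [hT2, h, DihedralGroup.r_pow] at h6
      have := DihedralGroup.r.inj h6
      exact this
    · right
      rw [hT2, h, DihedralGroup.r_pow] at h6
      have := DihedralGroup.r.inj h6
      exact this
  have hL' : (0 : ℤ) < L := by exact_mod_cast hL
  have h8 : (c : ℤ) * L = m * l := by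
    rcases h7 with h | h
    · exact h
    · have a1 : (0 : ℤ) ≤ c * L := by positivity
      have a2 : (0 : ℤ) ≤ m * l := by positivity
      have a3 : -((c : ℤ) * L) = m * l := by rw [← h]; ring
      omega
  have h9 : (k : ℤ) * L = l := by linarith
  have h10 : (c : ℤ) * L = (m * k) * L := by rw [h8, ← h9]; ring
  have h11 : (c : ℤ) = m * k := mul_right_cancel₀ (ne_of_gt hL') h10
  exact_mod_cast h11

end Pool.Agent.H476R3.OM
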