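import Mathlib
import Pool.Agent.H476R3.MArith

set_option autoImplicit false

/-! Commutation in the monoid `⟨a, b ∣ aabb = 1⟩`, and its units. -/

namespace Pool.Agent.H476R3.OM

/-- commuting with a single letter -/
theorem comm_letter {v : List (Fin 2)} (h : [0] ++ v = v ++ [0]) : v = List.replicate v.length 0 := by
  induction v with
  | nil => rfl
  | cons c v ih =>
    simp only [List.cons_append, List.nil_append, List.cons.injEq] at h
    obtain ⟨rfl, h⟩ := h
    rw [List.length_cons, List.replicate_succ, ← ih (by simpa using h)]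

/-- commuting with `[1,0,0,0]` -/
theorem comm_q (n : ℕ) : ∀ v : List (Fin 2), v.length = n → [1, 0, 0, 0] ++ v = v ++ [1, 0, 0, 0] →
    ∃ c, v = (List.replicate c [1, 0, 0, 0]).flatten := by
  induction n using Nat.strong_induction_on with
  | _ n ih =>
    intro v hv h
    match v, hv, h with
    | [], _, _ => exact ⟨0, rfl⟩
    | [_], _, h => simp at h
    | [_, _], _, h => simp at h
    | [_, _, _], _, h => simp at h
    | a :: b :: c :: d :: v, hv, h =>
      simp only [List.cons_append, List.nil_append, List.cons.injEq] at h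
      obtain ⟨rfl, rfl, rfl, rfl, h⟩ := h
      obtain ⟨c, hc⟩ := ih v.length (by simp at hv; omega) v rfl (by simpa using h)
      refine ⟨c + 1, ?_⟩
      rw [List.replicate_succ, List.flatten_cons, ← hc]
      rfl

theorem good_A : Good [0] := Good.zero _ Good.nil
theorem good_Q : Good [1, 0, 0, 0] := Good.one _ (Good.zero _ Good.nil)

theorem cl_A : cl [0] = A := cl_single 0
theorem cl_Q : cl [0, 0, 0, 1] = Q := by
  simp only [cl, List.map_cons, List.map_nil, List.prod_cons, List.prod_nil, mul_one, Q, Yy, A, B,
    mul_assoc]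

theorem cl_flatten (c : ℕ) (l : List (Fin 2)) : cl (List.replicate c l).flatten = cl l ^ c := by
  induction c with
  | zero => simp
  | succ c ih => rw [List.replicate_succ, List.flatten_cons, cl_append, ih, pow_succ']

theorem cl_replicate (c : ℕ) (a : Fin 2) : cl (List.replicate c a) = gen a ^ c := by
  simp [cl]

/-- the elements commuting with `a` -/
theorem comm_A (V : M) : V * A = A * V ↔ ∃ n : ℕ, V = A ^ n := by
  constructor
  · intro h
    have h1 := comm_words (V := V) good_A (by
      have : ([0] : List (Fin 2)).reverse = [0] := rfl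
      rw [this, cl_A]; exact h)
    have h2 := comm_letter h1
    refine ⟨(nf V).length, ?_⟩
    have h3 : V = cl (List.replicate (nf V).length 0).reverse := by
      rw [← h2]; exact (cl_nf V).symm
    rw [List.reverse_replicate, cl_replicate] at h3
    exact h3
  · rintro ⟨n, rfl⟩
    exact ((Commute.refl A).pow_left n).eq

/-- the elements commuting with `q` -/
theorem comm_Q (V : M) : V * Q = Q * V ↔ ∃ n : ℕ, V = Q ^ n := by
  constructor
  · intro h
    have h1 := comm_words (V := V) good_Q (by
      have : ([1, 0, 0, 0] : List (Fin 2)).reverse = [0, 0, 0, 1] := rfl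
      rw [this, cl_Q]; exact h)
    obtain ⟨c, hc⟩ := comm_q _ _ rfl h1
    refine ⟨c, ?_⟩
    rw [← cl_nf V, hc, List.reverse_flatten, List.map_replicate, List.reverse_replicate,
      cl_flatten]
    have : ([1, 0, 0, 0] : List (Fin 2)).reverse = [0, 0, 0, 1] := rfl
    rw [this, cl_Q]
  · rintro ⟨n, rfl⟩
    exact ((Commute.refl Q).pow_left n).eq

/-- powers of lists -/
def lp (u : List (Fin 2)) : ℕ → List (Fin 2)
  | 0 => []
  | n + 1 => u ++ lp u n

theorem lp_length (u : List (Fin 2)) (n : ℕ) : (lp u n).length = n * u.length := by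
  induction n with
  | zero => simp [lp]
  | succ n ih => rw [lp, List.length_append, ih]; ring

theorem lp_comm {u v : List (Fin 2)} (h : u ++ v = v ++ u) (n : ℕ) : lp u n ++ v = v ++ lp u n := by
  induction n with
  | zero => simp [lp]
  | succ n ih => rw [lp, List.append_assoc, ih, ← List.append_assoc, h, List.append_assoc]

theorem lp_comm2 {u v : List (Fin 2)} (h : u ++ v = v ++ u) (m n : ℕ) :
    lp u m ++ lp v n = lp v n ++ lp u m :=
  (lp_comm (u := v) (v := lp u m) (lp_comm h m).symm n).symm

theorem lp_eq {u v : List (Fin 2)} (h : u ++ v = v ++ u) : lp u v.length = lp v u.length := by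
  have h1 := lp_comm2 h v.length u.length
  have h2 : (lp u v.length).length = (lp v u.length).length := by
    rw [lp_length, lp_length]; ring
  exact (List.append_inj h1 h2).1

theorem cl_lp_reverse (u : List (Fin 2)) (n : ℕ) : cl (lp u n).reverse = (cl u.reverse) ^ n := by
  induction n with
  | zero => simp [lp]
  | succ n ih => rw [lp, List.reverse_append, cl_append, ih, pow_succ]

theorem Good.append {u v : List (Fin 2)} (hu : Good u) (hv : Good v) : Good (u ++ v) := by
  induction hu with
  | nil => exact hv
  | zero u _ ih => exact Good.zero _ ih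
  | one u _ ih => exact Good.one _ ih

theorem Good.lp {u : List (Fin 2)} (hu : Good u) (n : ℕ) : Good (lp u n) := by
  induction n with
  | zero => exact Good.nil
  | succ n ih => exact hu.append ih

/-- commuting with `p q ^ m` -/
theorem comm_PQ {W : M} {m : ℕ} (h : W * (P * Q ^ m) = (P * Q ^ m) * W) :
    ∃ L l : ℕ, 0 < L ∧ W ^ L = (P * Q ^ m) ^ l := by
  let p : List (Fin 2) := lp [1, 0, 0, 0] m ++ [0, 0]
  have hp : Good p := (good_Q.lp m).append (Good.zero _ (Good.zero _ Good.nil))
  have hcl : cl p.reverse = P * Q ^ m := by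
    have h1 : p.reverse = [0, 0] ++ (lp [1, 0, 0, 0] m).reverse := by
      simp [p]
    have h2 : cl [0, 0] = P := by simp [cl, P, A]
    have h3 : ([1, 0, 0, 0] : List (Fin 2)).reverse = [0, 0, 0, 1] := rfl
    rw [h1, cl_append, cl_lp_reverse, h2, h3, cl_Q]
  rw [← hcl] at h ⊢
  have h1 := comm_words hp h
  have h2 := lp_eq h1
  refine ⟨p.length, (nf W).length, by simp [p], ?_⟩
  have h3 := congrArg (fun l => cl l.reverse) h2
  simp only [cl_lp_reverse, cl_nf] at h3
  exact h3.symm

/-- the value of `lam` on good words -/
theorem lam_good {v : List (Fin 2)} (hv : Good v) :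
    0 ≤ Multiplicative.toAdd (lam (cl v.reverse)) ∧
      (Multiplicative.toAdd (lam (cl v.reverse)) = 0 → v = []) := by
  induction hv with
  | nil => simp
  | zero v _ ih =>
    rw [List.reverse_cons, cl_append, cl_single, map_mul, toAdd_mul, lam_zero, toAdd_ofAdd]
    constructor
    · omega
    · intro h; omega
  | one v _ ih =>
    have e : (1 :: 0 :: 0 :: v : List (Fin 2)).reverse = v.reverse ++ [0, 0, 1] := by simp
    have e2 : lam (cl [0, 0, 1]) = Multiplicative.ofAdd 1 := rfl
    rw [e, cl_append, map_mul, toAdd_mul, e2, toAdd_ofAdd]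
    constructor
    · omega
    · intro h; omega

/-- the group of units is trivial -/
theorem unit_eq_one {X Z : M} (h : X * Z = 1) (h' : Z * X = 1) : X = 1 := by
  have h1 := lam_good (good_of_right_inv h)
  have h2 := lam_good (good_of_right_inv h')
  rw [cl_nf] at h1 h2
  have h3 : Multiplicative.toAdd (lam X) + Multiplicative.toAdd (lam Z) = 0 := by
    rw [← toAdd_mul, ← map_mul, h, map_one, toAdd_one]
  have h4 : nf X = [] := h1.2 (by omega)
  rw [← cl_nf X, h4]
  rfl

instance : Subsingleton Mˣ := by
  constructor
  intro a b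
  have h : ∀ u : Mˣ, u = 1 := fun u => Units.ext (unit_eq_one u.mul_inv u.inv_mul)
  rw [h a, h b]

end Pool.Agent.H476R3.OM
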