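import Mathlib
import Pool.Agent.H476R3.MWord

set_option autoImplicit false

/-! Relations on the monoid definable by finite systems of equations. -/

namespace Pool.Agent.H476R3.OM

/-- words with variables in `ι` -/
abbrev Tm (ι : Type) : Type := List (Fin 2 ⊕ ι)

/-- value of a word -/
def ev {ι : Type} (a : ι → M) (t : Tm ι) : M := (t.map (Sum.elim gen a)).prod

theorem ev_append {ι : Type} (a : ι → M) (t u : Tm ι) : ev a (t ++ u) = ev a t * ev a u := by
  simp [ev]

/-- substitution -/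
def sub {ι κ : Type} (f : ι → Tm κ) (t : Tm ι) : Tm κ :=
  t.flatMap (fun p => match p with
    | Sum.inl c => [Sum.inl c]
    | Sum.inr i => f i)

theorem ev_sub {ι κ : Type} (f : ι → Tm κ) (t : Tm ι) (a : κ → M) :
    ev a (sub f t) = ev (fun i => ev a (f i)) t := by
  induction t with
  | nil => rfl
  | cons p t ih =>
    have h1 : sub f (p :: t) = sub f [p] ++ sub f t := by
      unfold sub; simp
    have h2 : (p :: t : Tm ι) = [p] ++ t := rfl
    rw [h1, h2, ev_append, ev_append, ih]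
    congr 1
    rcases p with c | i
    · simp [sub, ev]
    · simp only [sub, List.flatMap_cons, List.flatMap_nil, List.append_nil]
      simp [ev]

/-- functions given by words -/
def TF {ι : Type} (f : (ι → M) → M) : Prop := ∃ t : Tm ι, ∀ a, ev a t = f a

theorem TF.proj {ι : Type} (i : ι) : TF (fun a : ι → M => a i) :=
  ⟨[Sum.inr i], fun a => by simp [ev]⟩

theorem TF.const {ι : Type} (g : M) : TF (fun _ : ι → M => g) := by
  obtain ⟨l, rfl⟩ := cl_surj g
  exact ⟨l.map Sum.inl, fun a => by simp [ev, cl, Function.comp_def]⟩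

theorem TF.mul {ι : Type} {f g : (ι → M) → M} (hf : TF f) (hg : TF g) :
    TF (fun a => f a * g a) := by
  obtain ⟨t, ht⟩ := hf
  obtain ⟨u, hu⟩ := hg
  exact ⟨t ++ u, fun a => by rw [ev_append, ht, hu]⟩

theorem TF.pow {ι : Type} {f : (ι → M) → M} (hf : TF f) (n : ℕ) : TF (fun a => (f a) ^ n) := by
  induction n with
  | zero => simpa using TF.const 1
  | succ n ih => simpa [pow_succ] using ih.mul hf

/-- relations defined by finite systems with auxiliary variables -/
def Dfn {ι : Type} (P : (ι → M) → Prop) : Prop :=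
  ∃ (κ : Type) (_ : Fintype κ) (L : List (Tm (ι ⊕ κ) × Tm (ι ⊕ κ))),
    ∀ a : ι → M, P a ↔ ∃ b : κ → M, ∀ t ∈ L, ev (Sum.elim a b) t.1 = ev (Sum.elim a b) t.2

theorem Dfn.congr {ι : Type} {P Q : (ι → M) → Prop} (hP : Dfn P) (h : ∀ a, Q a ↔ P a) : Dfn Q := by
  obtain ⟨κ, i, L, hL⟩ := hP
  exact ⟨κ, i, L, fun a => (h a).trans (hL a)⟩

/-- renaming of variables -/
def ren {ι κ : Type} (f : ι → κ) (t : Tm ι) : Tm κ := t.map (Sum.map id f)

theorem ev_ren {ι κ : Type} (f : ι → κ) (t : Tm ι) (a : κ → M) :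
    ev a (ren f t) = ev (a ∘ f) t := by
  unfold ren ev
  rw [List.map_map]
  congr 1
  apply List.map_congr_left
  intro p _
  rcases p with c | i <;> rfl

/-- renaming of variables in equations -/
def ren2 {ι κ : Type} (f : ι → κ) (t : Tm ι × Tm ι) : Tm κ × Tm κ := (ren f t.1, ren f t.2)

theorem holds_ren2 {ι κ : Type} (f : ι → κ) (t : Tm ι × Tm ι) (a : κ → M) :
    (ev a (ren2 f t).1 = ev a (ren2 f t).2) ↔ (ev (a ∘ f) t.1 = ev (a ∘ f) t.2) := by
  unfold ren2
  rw [ev_ren, ev_ren]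

theorem Dfn.eq {ι : Type} {f g : (ι → M) → M} (hf : TF f) (hg : TF g) :
    Dfn (fun a => f a = g a) := by
  obtain ⟨t, ht⟩ := hf
  obtain ⟨u, hu⟩ := hg
  refine ⟨Empty, inferInstance, [ren2 Sum.inl (t, u)], ?_⟩
  intro a
  have key : ∀ b : Empty → M, (Sum.elim a b : ι ⊕ Empty → M) ∘ Sum.inl = a := fun b => rfl
  constructor
  · intro h
    refine ⟨Empty.elim, ?_⟩
    intro v hv
    rw [List.mem_singleton] at hv
    rw [hv, holds_ren2, key]
    change ev a t = ev a u
    rw [ht, hu]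
    exact h
  · rintro ⟨b, hb⟩
    have := hb _ (List.mem_singleton.2 rfl)
    rw [holds_ren2, key] at this
    change ev a t = ev a u at this
    rw [ht, hu] at this
    exact this

theorem Dfn.tr {ι : Type} : Dfn (fun _ : ι → M => True) :=
  ⟨Empty, inferInstance, [], fun a => by simp⟩

theorem Dfn.and {ι : Type} {P Q : (ι → M) → Prop} (hP : Dfn P) (hQ : Dfn Q) :
    Dfn (fun a => P a ∧ Q a) := by
  obtain ⟨κ, _, L, hL⟩ := hP
  obtain ⟨κ', _, L', hL'⟩ := hQ
  refine ⟨κ ⊕ κ', inferInstance,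
    L.map (ren2 (Sum.map id Sum.inl)) ++ L'.map (ren2 (Sum.map id Sum.inr)), ?_⟩
  intro a
  refine (and_congr (hL a) (hL' a)).trans ?_
  have k1 : ∀ (b : κ → M) (b' : κ' → M),
      Sum.elim a (Sum.elim b b') ∘ Sum.map id Sum.inl = Sum.elim a b := by
    intro b b'
    funext i; rcases i with i | i <;> rfl
  have k2 : ∀ (b : κ → M) (b' : κ' → M),
      Sum.elim a (Sum.elim b b') ∘ Sum.map id Sum.inr = Sum.elim a b' := by
    intro b b'
    funext i; rcases i with i | i <;> rfl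
  constructor
  · rintro ⟨⟨b, hb⟩, ⟨b', hb'⟩⟩
    refine ⟨Sum.elim b b', ?_⟩
    intro t ht
    rcases List.mem_append.1 ht with ht | ht
    · obtain ⟨t, ht', rfl⟩ := List.mem_map.1 ht
      rw [holds_ren2, k1]
      exact hb t ht'
    · obtain ⟨t, ht', rfl⟩ := List.mem_map.1 ht
      rw [holds_ren2, k2]
      exact hb' t ht'
  · rintro ⟨b, hb⟩
    have e : b = Sum.elim (b ∘ Sum.inl) (b ∘ Sum.inr) := by
      funext z; rcases z with z | z <;> rfl
    refine ⟨⟨b ∘ Sum.inl, ?_⟩, ⟨b ∘ Sum.inr, ?_⟩⟩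
    · intro t ht
      have := hb _ (List.mem_append_left _ (List.mem_map_of_mem ht))
      rw [holds_ren2, e, k1] at this
      exact this
    · intro t ht
      have := hb _ (List.mem_append_right _ (List.mem_map_of_mem ht))
      rw [holds_ren2, e, k2] at this
      exact this

theorem Dfn.ex {ι κ : Type} [Fintype κ] {P : (κ → M) → (ι → M) → Prop}
    (hP : Dfn (fun c : κ ⊕ ι → M => P (fun k => c (Sum.inl k)) (fun i => c (Sum.inr i)))) :
    Dfn (fun a : ι → M => ∃ b : κ → M, P b a) := by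
  obtain ⟨μ, _, L, hL⟩ := hP
  let f : (κ ⊕ ι) ⊕ μ → ι ⊕ (κ ⊕ μ) := fun z => match z with
    | Sum.inl (Sum.inl k) => Sum.inr (Sum.inl k)
    | Sum.inl (Sum.inr i) => Sum.inl i
    | Sum.inr m => Sum.inr (Sum.inr m)
  refine ⟨κ ⊕ μ, inferInstance, L.map (ren2 f), ?_⟩
  intro a
  have key : ∀ (b : κ → M) (m : μ → M),
      (Sum.elim a (Sum.elim b m) : ι ⊕ (κ ⊕ μ) → M) ∘ f = Sum.elim (Sum.elim b a) m := by
    intro b m
    funext z
    rcases z with (z | z) | z <;> rfl
  constructor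
  · rintro ⟨b, hb⟩
    obtain ⟨m, hm⟩ := (hL (Sum.elim b a)).1 hb
    refine ⟨Sum.elim b m, ?_⟩
    intro t ht
    obtain ⟨t, ht', rfl⟩ := List.mem_map.1 ht
    rw [holds_ren2, key]
    exact hm t ht'
  · rintro ⟨c, hc⟩
    have e : c = Sum.elim (c ∘ Sum.inl) (c ∘ Sum.inr) := by
      funext z; rcases z with z | z <;> rfl
    refine ⟨c ∘ Sum.inl, (hL (Sum.elim (c ∘ Sum.inl) a)).2 ⟨c ∘ Sum.inr, ?_⟩⟩
    intro t ht
    have := hc _ (List.mem_map_of_mem ht)
    rw [holds_ren2, e, key] at this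
    exact this

theorem Dfn.ex1 {ι : Type} {P : M → (ι → M) → Prop}
    (hP : Dfn (fun c : Unit ⊕ ι → M => P (c (Sum.inl ())) (fun i => c (Sum.inr i)))) :
    Dfn (fun a : ι → M => ∃ b : M, P b a) := by
  refine (Dfn.ex (κ := Unit) (P := fun b a => P (b ()) a) hP).congr ?_
  intro a
  constructor
  · rintro ⟨b, hb⟩
    exact ⟨fun _ => b, hb⟩
  · rintro ⟨b, hb⟩
    exact ⟨b (), hb⟩

theorem Dfn.comp {ι κ : Type} {P : (ι → M) → Prop} (hP : Dfn P) {s : ι → (κ → M) → M}
    (hs : ∀ i, TF (s i)) : Dfn (fun a => P (fun i => s i a)) := by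
  obtain ⟨μ, _, L, hL⟩ := hP
  choose u hu using hs
  let F : ι ⊕ μ → Tm (κ ⊕ μ) :=
    Sum.elim (fun i => ren Sum.inl (u i)) (fun m => [Sum.inr (Sum.inr m)])
  refine ⟨μ, inferInstance, L.map (fun t => (sub F t.1, sub F t.2)), ?_⟩
  intro a
  refine (hL _).trans ?_
  have key : ∀ (m : μ → M) (t : Tm (ι ⊕ μ)),
      ev (Sum.elim a m) (sub F t) = ev (Sum.elim (fun i => s i a) m) t := by
    intro m t
    rw [ev_sub]
    congr 1
    funext z
    rcases z with z | z
    · simp only [F, Sum.elim_inl]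
      rw [ev_ren, ← hu]
      rfl
    · simp [F, ev]
  constructor
  · rintro ⟨b, hb⟩
    refine ⟨b, ?_⟩
    intro t ht
    obtain ⟨t, ht', rfl⟩ := List.mem_map.1 ht
    simp only [key]
    exact hb t ht'
  · rintro ⟨b, hb⟩
    refine ⟨b, ?_⟩
    intro t ht
    have := hb _ (List.mem_map_of_mem ht)
    simp only [key] at this
    exact this

theorem Dfn.all {ι β : Type} (l : List β) {P : β → (ι → M) → Prop} (h : ∀ q ∈ l, Dfn (P q)) :
    Dfn (fun a => ∀ q ∈ l, P q a) := by
  induction l with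
  | nil => exact Dfn.tr.congr (fun a => by simp)
  | cons q l ih =>
    refine ((h q List.mem_cons_self).and (ih (fun q' hq' => h q' (List.mem_cons_of_mem _ hq')))).congr ?_
    intro a
    simp

/-- unary definable relations -/
def Dfn1 (R : M → Prop) : Prop := Dfn (fun a : Unit → M => R (a ()))

theorem Dfn1.ap {ι : Type} {R : M → Prop} (h : Dfn1 R) {f : (ι → M) → M} (hf : TF f) :
    Dfn (fun a => R (f a)) :=
  Dfn.comp h (s := fun _ => f) (fun _ => hf)

/-- ternary definable relations -/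
def Dfn3 (R : M → M → M → Prop) : Prop := Dfn (fun a : Fin 3 → M => R (a 0) (a 1) (a 2))

theorem Dfn3.ap {ι : Type} {R : M → M → M → Prop} (h : Dfn3 R) {f g k : (ι → M) → M} (hf : TF f)
    (hg : TF g) (hk : TF k) : Dfn (fun a => R (f a) (g a) (k a)) := by
  refine Dfn.comp h (s := ![f, g, k]) ?_
  intro i
  fin_cases i
  · exact hf
  · exact hg
  · exact hk

/-- binary definable relations -/
def Dfn2 (R : M → M → Prop) : Prop := Dfn (fun a : Fin 2 → M => R (a 0) (a 1))

theorem Dfn2.ap {ι : Type} {R : M → M → Prop} (h : Dfn2 R) {f g : (ι → M) → M} (hf : TF f)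
    (hg : TF g) : Dfn (fun a => R (f a) (g a)) := by
  refine Dfn.comp h (s := ![f, g]) ?_
  intro i
  fin_cases i
  · exact hf
  · exact hg

/-- commutation -/
theorem Dfn.comm {ι : Type} {f g : (ι → M) → M} (hf : TF f) (hg : TF g) :
    Dfn (fun a => f a * g a = g a * f a) := Dfn.eq (hf.mul hg) (hg.mul hf)

end Pool.Agent.H476R3.OM
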