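import Mathlib
import Pool.Agent.H476R3.MDfn
import Pool.Agent.Helper437.Dio.Sys

set_option autoImplicit false

/-! Integer arithmetic in the monoid `⟨a, b ∣ aabb = 1⟩`. -/

namespace Pool.Agent.H476R3.OM

theorem A_pow_inj {m n : ℕ} (h : A ^ m = A ^ n) : m = n := by
  have := congrArg lam h
  rw [map_pow, map_pow, lam_A, ← ofAdd_nsmul, ← ofAdd_nsmul] at this
  have := Multiplicative.ofAdd.injective this
  simpa using this

theorem Q_pow_inj {m n : ℕ} (h : Q ^ m = Q ^ n) : m = n := by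
  have := congrArg lam h
  rw [map_pow, map_pow, lam_Q, ← ofAdd_nsmul, ← ofAdd_nsmul] at this
  have := Multiplicative.ofAdd.injective this
  simpa using this

theorem dfn_NA : Dfn1 (fun g => ∃ n : ℕ, g = A ^ n) :=
  (Dfn.comm (TF.proj ()) (TF.const A)).congr (fun _ => (comm_A _).symm)

theorem dfn_NQ : Dfn1 (fun g => ∃ n : ℕ, g = Q ^ n) :=
  (Dfn.comm (TF.proj ()) (TF.const Q)).congr (fun _ => (comm_Q _).symm)

theorem dfn_Cj : Dfn2 Cj := by
  refine (Dfn.ex (κ := Fin 3) (P := fun b (a : Fin 2 → M) => b 0 * b 2 = 1 ∧ b 1 * b 2 = 1 ∧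
    a 0 * b 0 = b 1 * a 1) ?_).congr ?_
  · refine (Dfn.eq ((TF.proj (Sum.inl 0)).mul (TF.proj (Sum.inl 2))) (TF.const 1)).and ?_
    refine (Dfn.eq ((TF.proj (Sum.inl 1)).mul (TF.proj (Sum.inl 2))) (TF.const 1)).and ?_
    exact Dfn.eq ((TF.proj (Sum.inr 0)).mul (TF.proj (Sum.inl 0)))
      ((TF.proj (Sum.inl 1)).mul (TF.proj (Sum.inr 1)))
  · intro a
    constructor
    · rintro ⟨T', T'', W, h1, h2, h3⟩
      exact ⟨![T', T'', W], h1, h2, h3⟩
    · rintro ⟨b, h1, h2, h3⟩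
      exact ⟨b 0, b 1, b 2, h1, h2, h3⟩

/-- mixed multiplication -/
def M0 (U V V' : M) : Prop := ∃ k m : ℕ, U = A ^ k ∧ V = Q ^ m ∧ V' = Q ^ (m * k)

theorem AA_pow (k : ℕ) : A ^ k * A ^ k = P ^ k := by
  rw [P, ← pow_add, ← pow_two A, ← pow_mul, two_mul]

theorem dfn_M0 : Dfn3 M0 := by
  refine ((dfn_NA.ap (TF.proj 0)).and ((dfn_NQ.ap (TF.proj 1)).and ((dfn_NQ.ap (TF.proj 2)).and
    (Dfn.ex1 (P := fun W (a : Fin 3 → M) => W * (P * a 1) = (P * a 1) * W ∧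
      Cj W ((a 0 * a 0) * a 2)) ?_)))).congr ?_
  · refine (Dfn.comm (TF.proj (Sum.inl ())) ((TF.const P).mul (TF.proj (Sum.inr 1)))).and ?_
    exact dfn_Cj.ap (TF.proj (Sum.inl ())) (((TF.proj (Sum.inr 0)).mul (TF.proj (Sum.inr 0))).mul
      (TF.proj (Sum.inr 2)))
  · intro a
    constructor
    · rintro ⟨k, m, h1, h2, h3⟩
      refine ⟨⟨k, h1⟩, ⟨m, h2⟩, ⟨_, h3⟩, (P * Q ^ m) ^ k, ?_, ?_⟩
      · rw [h2]
        exact ((Commute.refl (P * Q ^ m)).pow_left k).eq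
      · rw [h1, h3, AA_pow]
        exact Cj.of_ch (ch_pow m k)
    · rintro ⟨⟨k, h1⟩, ⟨m, h2⟩, ⟨c, h3⟩, W, h4, h5⟩
      rw [h2] at h4
      rw [h1, h3, AA_pow] at h5
      obtain ⟨L, l, hL, hW⟩ := comm_PQ h4
      refine ⟨k, m, h1, h2, ?_⟩
      rw [h3, sound hL hW h5]

/-- conversion -/
def Cv (U V : M) : Prop := ∃ k : ℕ, U = A ^ k ∧ V = Q ^ k

theorem dfn_Cv : Dfn2 Cv := by
  refine (dfn_M0.ap (TF.proj 0) (TF.const Q) (TF.proj 1)).congr ?_
  intro a
  constructor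
  · rintro ⟨k, h1, h2⟩
    exact ⟨k, 1, h1, (pow_one Q).symm, by rw [one_mul]; exact h2⟩
  · rintro ⟨k, m, h1, h2, h3⟩
    have : 1 = m := Q_pow_inj (by rw [pow_one]; exact h2)
    subst this
    exact ⟨k, h1, by rw [one_mul] at h3; exact h3⟩

/-- multiplication -/
def MN (U V W : M) : Prop := ∃ k m : ℕ, U = A ^ k ∧ V = A ^ m ∧ W = A ^ (k * m)

theorem dfn_MN : Dfn3 MN := by
  refine (Dfn.ex (κ := Fin 2) (P := fun b (a : Fin 3 → M) => Cv (a 1) (b 0) ∧ Cv (a 2) (b 1) ∧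
    M0 (a 0) (b 0) (b 1)) ?_).congr ?_
  · refine (dfn_Cv.ap (TF.proj (Sum.inr 1)) (TF.proj (Sum.inl 0))).and ?_
    refine (dfn_Cv.ap (TF.proj (Sum.inr 2)) (TF.proj (Sum.inl 1))).and ?_
    exact dfn_M0.ap (TF.proj (Sum.inr 0)) (TF.proj (Sum.inl 0)) (TF.proj (Sum.inl 1))
  · intro a
    constructor
    · rintro ⟨k, m, h1, h2, h3⟩
      refine ⟨![Q ^ m, Q ^ (k * m)], ⟨m, h2, rfl⟩, ⟨k * m, h3, rfl⟩, ⟨k, m, h1, rfl, ?_⟩⟩
      rw [mul_comm m k]
      rfl
    · rintro ⟨b, ⟨m, h1, h2⟩, ⟨c, h3, h4⟩, ⟨k, m', h5, h6, h7⟩⟩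
      have e1 : m' = m := Q_pow_inj (by rw [← h6, ← h2])
      subst e1
      have e2 : c = m' * k := Q_pow_inj (by rw [← h4, ← h7])
      subst e2
      exact ⟨k, m', h5, h1, by rw [mul_comm k m']; exact h3⟩

open Pool.Agent.Helper437.Dio.Sys in
/-- the relation corresponding to an equation -/
def ER {W : Type} (q : Eqn W) (u : W × Bool → M) : Prop :=
  ∃ T : Fin 4 → M, MN (u (q.i, true)) (u (q.j, true)) (T 0) ∧
    MN (u (q.i, false)) (u (q.j, false)) (T 1) ∧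
    MN (u (q.i, true)) (u (q.j, false)) (T 2) ∧
    MN (u (q.i, false)) (u (q.j, true)) (T 3) ∧
    T 0 ^ q.e.toNat * T 1 ^ q.e.toNat * T 2 ^ (-q.e).toNat * T 3 ^ (-q.e).toNat *
      u (q.k, true) ^ q.a.toNat * u (q.k, false) ^ (-q.a).toNat *
      u (q.l, true) ^ q.b.toNat * u (q.l, false) ^ (-q.b).toNat *
      u (q.m, true) ^ q.c.toNat * u (q.m, false) ^ (-q.c).toNat * A ^ q.d.toNat =
    T 0 ^ (-q.e).toNat * T 1 ^ (-q.e).toNat * T 2 ^ q.e.toNat * T 3 ^ q.e.toNat *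
      u (q.k, true) ^ (-q.a).toNat * u (q.k, false) ^ q.a.toNat *
      u (q.l, true) ^ (-q.b).toNat * u (q.l, false) ^ q.b.toNat *
      u (q.m, true) ^ (-q.c).toNat * u (q.m, false) ^ q.c.toNat * A ^ (-q.d).toNat

open Pool.Agent.Helper437.Dio.Sys in
theorem dfn_ER {W : Type} (q : Eqn W) : Dfn (ER q) := by
  refine Dfn.ex ?_
  refine (dfn_MN.ap (TF.proj (Sum.inr (q.i, true))) (TF.proj (Sum.inr (q.j, true)))
    (TF.proj (Sum.inl 0))).and ?_
  refine (dfn_MN.ap (TF.proj (Sum.inr (q.i, false))) (TF.proj (Sum.inr (q.j, false)))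
    (TF.proj (Sum.inl 1))).and ?_
  refine (dfn_MN.ap (TF.proj (Sum.inr (q.i, true))) (TF.proj (Sum.inr (q.j, false)))
    (TF.proj (Sum.inl 2))).and ?_
  refine (dfn_MN.ap (TF.proj (Sum.inr (q.i, false))) (TF.proj (Sum.inr (q.j, true)))
    (TF.proj (Sum.inl 3))).and ?_
  refine Dfn.eq ?_ ?_ <;>
  · refine TF.mul (TF.mul (TF.mul (TF.mul (TF.mul (TF.mul (TF.mul (TF.mul (TF.mul (TF.mul ?_ ?_)
      ?_) ?_) ?_) ?_) ?_) ?_) ?_) ?_) ?_
    all_goals first
      | exact (TF.proj _).pow _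
      | exact TF.const _

open Pool.Agent.Helper437.Dio.Sys in
theorem ER_iff {W : Type} (q : Eqn W) (n : W × Bool → ℕ) :
    ER q (fun v => A ^ n v) ↔ q.Holds (fun w => (n (w, true) : ℤ) - n (w, false)) := by
  have key : ∀ t0 t1 t2 t3 : ℕ, (
    (A ^ t0) ^ q.e.toNat * (A ^ t1) ^ q.e.toNat * (A ^ t2) ^ (-q.e).toNat * (A ^ t3) ^ (-q.e).toNat *
      (A ^ n (q.k, true)) ^ q.a.toNat * (A ^ n (q.k, false)) ^ (-q.a).toNat *
      (A ^ n (q.l, true)) ^ q.b.toNat * (A ^ n (q.l, false)) ^ (-q.b).toNat *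
      (A ^ n (q.m, true)) ^ q.c.toNat * (A ^ n (q.m, false)) ^ (-q.c).toNat * A ^ q.d.toNat =
    (A ^ t0) ^ (-q.e).toNat * (A ^ t1) ^ (-q.e).toNat * (A ^ t2) ^ q.e.toNat * (A ^ t3) ^ q.e.toNat *
      (A ^ n (q.k, true)) ^ (-q.a).toNat * (A ^ n (q.k, false)) ^ q.a.toNat *
      (A ^ n (q.l, true)) ^ (-q.b).toNat * (A ^ n (q.l, false)) ^ q.b.toNat *
      (A ^ n (q.m, true)) ^ (-q.c).toNat * (A ^ n (q.m, false)) ^ q.c.toNat * A ^ (-q.d).toNat) ↔
      q.e * ((t0 : ℤ) + t1 - t2 - t3) + q.a * ((n (q.k, true) : ℤ) - n (q.k, false)) +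
        q.b * ((n (q.l, true) : ℤ) - n (q.l, false)) +
        q.c * ((n (q.m, true) : ℤ) - n (q.m, false)) + q.d = 0 := by
    intro t0 t1 t2 t3
    simp only [← pow_mul, ← pow_add]
    have he : (q.e.toNat : ℤ) - (-q.e).toNat = q.e := by omega
    have ha : (q.a.toNat : ℤ) - (-q.a).toNat = q.a := by omega
    have hb : (q.b.toNat : ℤ) - (-q.b).toNat = q.b := by omega
    have hc : (q.c.toNat : ℤ) - (-q.c).toNat = q.c := by omega
    have hd : (q.d.toNat : ℤ) - (-q.d).toNat = q.d := by omega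
    constructor
    · intro h
      have h1 := A_pow_inj h
      have h2 : ((t0 * q.e.toNat + t1 * q.e.toNat + t2 * (-q.e).toNat + t3 * (-q.e).toNat +
        n (q.k, true) * q.a.toNat + n (q.k, false) * (-q.a).toNat +
        n (q.l, true) * q.b.toNat + n (q.l, false) * (-q.b).toNat +
        n (q.m, true) * q.c.toNat + n (q.m, false) * (-q.c).toNat + q.d.toNat : ℕ) : ℤ) =
        ((t0 * (-q.e).toNat + t1 * (-q.e).toNat + t2 * q.e.toNat + t3 * q.e.toNat +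
        n (q.k, true) * (-q.a).toNat + n (q.k, false) * q.a.toNat +
        n (q.l, true) * (-q.b).toNat + n (q.l, false) * q.b.toNat +
        n (q.m, true) * (-q.c).toNat + n (q.m, false) * q.c.toNat + (-q.d).toNat : ℕ) : ℤ) := by
        rw [h1]
      push_cast at h2
      have e2 : ((t0 : ℤ) + t1 - t2 - t3) * ((q.e.toNat : ℤ) - (-q.e).toNat) +
        ((n (q.k, true) : ℤ) - n (q.k, false)) * ((q.a.toNat : ℤ) - (-q.a).toNat) +
        ((n (q.l, true) : ℤ) - n (q.l, false)) * ((q.b.toNat : ℤ) - (-q.b).toNat) +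
        ((n (q.m, true) : ℤ) - n (q.m, false)) * ((q.c.toNat : ℤ) - (-q.c).toNat) +
        ((q.d.toNat : ℤ) - (-q.d).toNat) = 0 := by
        linear_combination h2
      rw [he, ha, hb, hc, hd] at e2
      linear_combination e2
    · intro h
      congr 1
      have e2 : ((t0 : ℤ) + t1 - t2 - t3) * ((q.e.toNat : ℤ) - (-q.e).toNat) +
        ((n (q.k, true) : ℤ) - n (q.k, false)) * ((q.a.toNat : ℤ) - (-q.a).toNat) +
        ((n (q.l, true) : ℤ) - n (q.l, false)) * ((q.b.toNat : ℤ) - (-q.b).toNat) +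
        ((n (q.m, true) : ℤ) - n (q.m, false)) * ((q.c.toNat : ℤ) - (-q.c).toNat) +
        ((q.d.toNat : ℤ) - (-q.d).toNat) = 0 := by
        rw [he, ha, hb, hc, hd]
        linear_combination h
      have h2 : ((t0 * q.e.toNat + t1 * q.e.toNat + t2 * (-q.e).toNat + t3 * (-q.e).toNat +
        n (q.k, true) * q.a.toNat + n (q.k, false) * (-q.a).toNat +
        n (q.l, true) * q.b.toNat + n (q.l, false) * (-q.b).toNat +
        n (q.m, true) * q.c.toNat + n (q.m, false) * (-q.c).toNat + q.d.toNat : ℕ) : ℤ) =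
        ((t0 * (-q.e).toNat + t1 * (-q.e).toNat + t2 * q.e.toNat + t3 * q.e.toNat +
        n (q.k, true) * (-q.a).toNat + n (q.k, false) * q.a.toNat +
        n (q.l, true) * (-q.b).toNat + n (q.l, false) * q.b.toNat +
        n (q.m, true) * (-q.c).toNat + n (q.m, false) * q.c.toNat + (-q.d).toNat : ℕ) : ℤ) := by
        push_cast
        linear_combination e2
      exact_mod_cast h2
  constructor
  · rintro ⟨T, ⟨k0, m0, h0, h0', h0''⟩, ⟨k1, m1, h1, h1', h1''⟩, ⟨k2, m2, h2, h2', h2''⟩,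
      ⟨k3, m3, h3, h3', h3''⟩, h⟩
    rw [h0'', h1'', h2'', h3''] at h
    have e0 := A_pow_inj h0
    have e0' := A_pow_inj h0'
    have e1 := A_pow_inj h1
    have e1' := A_pow_inj h1'
    have e2 := A_pow_inj h2
    have e2' := A_pow_inj h2'
    have e3 := A_pow_inj h3
    have e3' := A_pow_inj h3'
    have h4 := (key _ _ _ _).1 h
    rw [← e0, ← e0', ← e1, ← e1', ← e2, ← e2', ← e3, ← e3'] at h4
    unfold Eqn.Holds
    push_cast at h4
    linear_combination h4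
  · intro h
    unfold Eqn.Holds at h
    refine ⟨![A ^ (n (q.i, true) * n (q.j, true)), A ^ (n (q.i, false) * n (q.j, false)),
      A ^ (n (q.i, true) * n (q.j, false)), A ^ (n (q.i, false) * n (q.j, true))],
      ⟨_, _, rfl, rfl, rfl⟩, ⟨_, _, rfl, rfl, rfl⟩, ⟨_, _, rfl, rfl, rfl⟩, ⟨_, _, rfl, rfl, rfl⟩, ?_⟩
    refine (key _ _ _ _).2 ?_
    push_cast
    linear_combination h

open Pool.Agent.Helper437.Dio.Sys in
/-- the relation of a system -/
def SR {W : Type} [Fintype W] (f : W) (L : List (Eqn W)) (g : M) : Prop :=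
  ∃ u : W × Bool → M, (∀ w ∈ (Finset.univ : Finset (W × Bool)).toList, ∃ n : ℕ, u w = A ^ n) ∧
    (∀ q ∈ L, ER q u) ∧ g * u (f, true) = A * u (f, false)

open Pool.Agent.Helper437.Dio.Sys in
theorem dfn_SR {W : Type} [Fintype W] (f : W) (L : List (Eqn W)) : Dfn1 (SR f L) := by
  refine Dfn.ex (κ := W × Bool) (P := fun (u : W × Bool → M) (a : Unit → M) =>
    (∀ w ∈ (Finset.univ : Finset (W × Bool)).toList, ∃ n : ℕ, u w = A ^ n) ∧
    (∀ q ∈ L, ER q u) ∧ a () * u (f, true) = A * u (f, false)) ?_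
  refine (Dfn.all _ (fun w _ => dfn_NA.ap (TF.proj (Sum.inl w)))).and ?_
  refine (Dfn.all _ (fun q _ => Dfn.comp (dfn_ER q) (s := fun w c => c (Sum.inl w))
    (fun w => TF.proj (Sum.inl w)))).and ?_
  exact Dfn.eq ((TF.proj (Sum.inr ())).mul (TF.proj (Sum.inl (f, true))))
    ((TF.const A).mul (TF.proj (Sum.inl (f, false))))

open Pool.Agent.Helper437.Dio.Sys in
theorem SR_iff {W : Type} [Fintype W] (f : W) (L : List (Eqn W)) (N : ℕ) :
    SR f L (A ^ N) ↔ ∃ v : W → ℤ, v f = 1 - N ∧ ∀ q ∈ L, q.Holds v := by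
  constructor
  · rintro ⟨u, h1, h2, h3⟩
    have h1' : ∀ w, ∃ n : ℕ, u w = A ^ n := fun w => h1 w (by simp)
    choose n hn using h1'
    have e : u = fun w => A ^ n w := funext hn
    subst e
    refine ⟨fun w => (n (w, true) : ℤ) - n (w, false), ?_, ?_⟩
    · have h4 : A ^ N * A ^ n (f, true) = A * A ^ n (f, false) := h3
      rw [← pow_add, ← pow_succ'] at h4
      have := A_pow_inj h4
      change (n (f, true) : ℤ) - n (f, false) = 1 - N
      omega
    · intro q hq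
      exact (ER_iff q n).1 (h2 q hq)
  · rintro ⟨v, h1, h2⟩
    let n : W × Bool → ℕ := fun w => if w.2 then (v w.1).toNat else (-v w.1).toNat
    have hv : (fun w => (n (w, true) : ℤ) - n (w, false)) = v := by
      funext w
      simp only [n, if_true]
      simp
    refine ⟨fun w => A ^ n w, fun w _ => ⟨n w, rfl⟩, ?_, ?_⟩
    · intro q hq
      rw [ER_iff, hv]
      exact h2 q hq
    · change A ^ N * A ^ n (f, true) = A * A ^ n (f, false)
      rw [← pow_add, ← pow_succ']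
      congr 1
      have : (n (f, true) : ℤ) - n (f, false) = v f := congrFun hv f
      omega

end Pool.Agent.H476R3.OM
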