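import Mathlib
import Pool.Agent.H476R3.MMul

set_option autoImplicit false

/-! Undecidability of the Diophantine problem of `⟨a, b ∣ aabb = 1⟩`. -/

namespace Pool.Agent.H476R3.OM

open Pool.Agent.Helper437.Dio.Sys Pool.Agent.Helper437.Dio

/-- solvability of finite systems of equations over the monoid -/
def Sat (S : List (List (Fin 2 ⊕ ℕ) × List (Fin 2 ⊕ ℕ))) : Prop :=
  ∃ σ : ℕ → M, ∀ e ∈ S, (e.1.map (Sum.elim gen σ)).prod = (e.2.map (Sum.elim gen σ)).prod

/-- A universal partial function with undecidable domain. -/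
def u (n : ℕ) : Part ℕ := (Denumerable.ofNat Nat.Partrec.Code n).eval 0

theorem u_partrec : Partrec u := by
  have h := Nat.Partrec.Code.eval_part.comp
    (Computable.ofNat Nat.Partrec.Code) (Computable.const (0 : ℕ))
  exact h

theorem u_not_computable : ¬ ComputablePred (fun n => (u n).Dom) := by
  intro h
  refine ComputablePred.halting_problem 0 ?_
  have : ManyOneReducible (fun c : Nat.Partrec.Code => (Nat.Partrec.Code.eval c 0).Dom)
      (fun n => (u n).Dom) := by
    refine ⟨Encodable.encode, Computable.encode, ?_⟩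
    intro c
    simp [u, Denumerable.ofNat_encode]
  exact ComputablePred.computable_of_manyOneReducible this h

/-- the right side of the input equation -/
def inp (n : ℕ) : List (Fin 2 ⊕ ℕ) := (List.range (4 * n)).map (fun _ => Sum.inl 0)

theorem inp_primrec : Primrec inp := by
  unfold inp
  refine Primrec.list_map (Primrec.list_range.comp (Primrec.nat_mul.comp (Primrec.const 4) Primrec.id)) ?_
  exact (Primrec.const _).to₂

theorem sat_iff {ι : Type} (f : ι → ℕ) (hf : Function.Injective f) (L : List (Tm ι × Tm ι)) :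
    Sat (L.map (ren2 f)) ↔ ∃ a : ι → M, ∀ t ∈ L, ev a t.1 = ev a t.2 := by
  constructor
  · rintro ⟨σ, h⟩
    refine ⟨σ ∘ f, ?_⟩
    intro t ht
    rw [← holds_ren2]
    exact h _ (List.mem_map_of_mem ht)
  · rintro ⟨a, ha⟩
    let σ : ℕ → M := Function.extend f a (fun _ => 1)
    have hσ : σ ∘ f = a := by
      funext i
      exact hf.extend_apply a (fun _ => 1) i
    refine ⟨σ, ?_⟩
    intro e he
    obtain ⟨t, ht, rfl⟩ := List.mem_map.1 he
    have := (holds_ren2 f t σ).2 (by rw [hσ]; exact ha t ht)
    exact this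

theorem sat_not_computable : ¬ ComputablePred Sat := by
  intro h
  apply u_not_computable
  obtain ⟨W, _, f, L, hL⟩ := exists_system (fun n => (u n).Dom) (dprm u_partrec.dom_re)
  obtain ⟨κ, _, L', hL'⟩ := dfn_SR f L
  let F : Unit ⊕ κ → ℕ := Sum.elim (fun _ => 0) (fun k => (Fintype.equivFin κ k : ℕ) + 1)
  have hF : Function.Injective F := by
    intro a b hab
    rcases a with a | a <;> rcases b with b | b
    · rfl
    · simp [F] at hab
    · simp [F] at hab
    · have : (Fintype.equivFin κ a : ℕ) = (Fintype.equivFin κ b : ℕ) := by simpa [F] using hab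
      have h2 := Fin.ext this
      rw [(Fintype.equivFin κ).injective h2]
  let w : ℕ → Tm (Unit ⊕ κ) × Tm (Unit ⊕ κ) := fun n =>
    ([Sum.inr (Sum.inl ())], (List.range (4 * n)).map (fun _ => Sum.inl 0))
  have hw : ∀ n, ren2 F (w n) = ([Sum.inr 0], inp n) := by
    intro n
    simp [ren2, ren, w, inp, F]
  have hev : ∀ (n : ℕ) (a : Unit ⊕ κ → M), ev a (w n).1 = ev a (w n).2 ↔
      a (Sum.inl ()) = A ^ (4 * n) := by
    intro n a
    have e1 : ev a (w n).1 = a (Sum.inl ()) := by simp [ev, w]
    have e2 : ev a (w n).2 = A ^ (4 * n) := by simp [ev, w, A]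
    rw [e1, e2]
  refine ComputablePred.computable_of_manyOneReducible
    ⟨fun n => ([Sum.inr 0], inp n) :: L'.map (ren2 F), ?_, ?_⟩ h
  · exact (Primrec.list_cons.comp (Primrec.pair (Primrec.const _) inp_primrec)
      (Primrec.const _)).to_comp
  · intro n
    have e : ([Sum.inr 0], inp n) :: L'.map (ren2 F) = (w n :: L').map (ren2 F) := by
      rw [List.map_cons, hw]
    change (u n).Dom ↔ Sat (([Sum.inr 0], inp n) :: L'.map (ren2 F))
    rw [e, sat_iff F hF]
    have h1 : (∃ m : ℕ, (u m).Dom ∧ (1 - ((4 * n : ℕ) : ℤ)) = 1 - 4 * m) ↔ (u n).Dom := by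
      constructor
      · rintro ⟨m, h2, h3⟩
        have : n = m := by push_cast at h3; omega
        rwa [this]
      · intro h2
        exact ⟨n, h2, by push_cast; rfl⟩
    rw [← h1, ← hL, ← SR_iff f L (4 * n)]
    have h2 := hL' (fun _ => A ^ (4 * n))
    refine h2.trans ?_
    constructor
    · rintro ⟨b, hb⟩
      refine ⟨Sum.elim (fun _ => A ^ (4 * n)) b, ?_⟩
      intro t ht
      rcases List.mem_cons.1 ht with rfl | ht
      · rw [hev]; rfl
      · exact hb t ht
    · rintro ⟨a, ha⟩
      have h3 := ha _ List.mem_cons_self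
      rw [hev] at h3
      refine ⟨a ∘ Sum.inr, ?_⟩
      intro t ht
      have h4 := ha t (List.mem_cons_of_mem _ ht)
      have h5 : (Sum.elim (fun _ => A ^ (4 * n)) (a ∘ Sum.inr) : Unit ⊕ κ → M) = a := by
        funext i
        rcases i with i | i
        · exact h3.symm
        · rfl
      rw [h5]
      exact h4

end Pool.Agent.H476R3.OM
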