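import Mathlib

set_option autoImplicit false

namespace Pool.Agent.H476R3.QM

open FreeGroup
open scoped commutatorElement

/-- the weight of two adjacent letters: `+1` for `ab`, `-1` for `b⁻¹a⁻¹`. -/
def f : (Bool × Bool) → (Bool × Bool) → ℤ
  | (true, true), (false, true) => 1
  | (false, false), (true, false) => -1
  | _, _ => 0

theorem f_le (x y : Bool × Bool) : |f x y| ≤ 1 := by
  rcases x with ⟨x1, x2⟩; rcases y with ⟨y1, y2⟩
  cases x1 <;> cases x2 <;> cases y1 <;> cases y2 <;> simp [f]

theorem f_inv (x y : Bool × Bool) : f (y.1, !y.2) (x.1, !x.2) = - f x y := by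
  rcases x with ⟨x1, x2⟩; rcases y with ⟨y1, y2⟩
  cases x1 <;> cases x2 <;> cases y1 <;> cases y2 <;> simp [f]

/-- the counting function on words -/
def c : List (Bool × Bool) → ℤ
  | [] => 0
  | [_] => 0
  | x :: y :: L => f x y + c (y :: L)

@[simp] theorem c_nil : c [] = 0 := rfl
@[simp] theorem c_single (x : Bool × Bool) : c [x] = 0 := rfl
theorem c_cons_cons (x y : Bool × Bool) (L : List (Bool × Bool)) :
    c (x :: y :: L) = f x y + c (y :: L) := rfl

theorem c_append_cons (A : List (Bool × Bool)) (x y : Bool × Bool) (B : List (Bool × Bool)) :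
    c (A ++ x :: y :: B) = c (A ++ [x]) + f x y + c (y :: B) := by
  induction A with
  | nil => simp [c_cons_cons]
  | cons a A ih =>
    cases A with
    | nil =>
      simp only [List.cons_append, List.nil_append, c_cons_cons, c_single]
      ring
    | cons b A =>
      simp only [List.cons_append, c_cons_cons] at ih ⊢
      rw [ih]; ring

theorem c_append_le (A B : List (Bool × Bool)) : |c (A ++ B) - c A - c B| ≤ 1 := by
  rcases List.eq_nil_or_concat A with rfl | ⟨A', x, rfl⟩
  · simp
  · cases B with
    | nil => simp
    | cons y B =>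
      have : (A' ++ [x]) ++ y :: B = A' ++ x :: y :: B := by simp
      rw [List.concat_eq_append, this, c_append_cons]
      have : c (A' ++ [x]) + f x y + c (y :: B) - c (A' ++ [x]) - c (y :: B) = f x y := by ring
      rw [this]
      exact f_le x y

theorem c_invRev (A : List (Bool × Bool)) : c (invRev A) = - c A := by
  induction A with
  | nil => simp [invRev]
  | cons x A ih =>
    cases A with
    | nil => simp [invRev]
    | cons y A =>
      have h1 : invRev (x :: y :: A) = invRev A ++ (y.1, !y.2) :: (x.1, !x.2) :: [] := by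
        simp [invRev]
      have h2 : invRev (y :: A) = invRev A ++ [(y.1, !y.2)] := by
        simp [invRev]
      rw [h2] at ih
      rw [h1, c_append_cons, ih, f_inv, c_cons_cons, c_single]
      ring

theorem decomp (n : ℕ) : ∀ (A B : List (Bool × Bool)), A.length ≤ n → FreeGroup.IsReduced A → FreeGroup.IsReduced B →
    ∃ u s v : List (Bool × Bool), A = u ++ s ∧ B = invRev s ++ v ∧ FreeGroup.IsReduced (u ++ v) := by
  induction n with
  | zero =>
    intro A B hA h1 h2
    have : A = [] := List.length_eq_zero_iff.1 (Nat.le_zero.1 hA)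
    subst this
    exact ⟨[], [], B, by simp, by simp [invRev], by simpa using h2⟩
  | succ n ih =>
    intro A B hA h1 h2
    rcases List.eq_nil_or_concat A with rfl | ⟨A', x, rfl⟩
    · exact ⟨[], [], B, by simp, by simp [invRev], by simpa using h2⟩
    · cases B with
      | nil => exact ⟨A'.concat x, [], [], by simp, by simp [invRev], by simpa using h1⟩
      | cons y B =>
        rw [List.concat_eq_append] at *
        by_cases hxy : x.1 = y.1 → x.2 = y.2
        · refine ⟨A' ++ [x], [], y :: B, by simp, by simp [invRev], ?_⟩
          unfold FreeGroup.IsReduced at *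
          rw [List.isChain_append]
          refine ⟨h1, h2, ?_⟩
          intro a ha b hb
          simp at ha hb
          subst ha; subst hb
          exact hxy
        · push Not at hxy
          obtain ⟨e1, e2⟩ := hxy
          have h1' : FreeGroup.IsReduced A' := (List.isChain_append.1 h1).1
          have h2' : FreeGroup.IsReduced B := (List.isChain_append.1 (show List.IsChain _ ([y] ++ B) from h2)).2.1
          have hl : A'.length ≤ n := by
            simp at hA; omega
          obtain ⟨u, s, v, r1, r2, r3⟩ := ih A' B hl h1' h2'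
          refine ⟨u, s ++ [x], v, by rw [r1]; simp, ?_, r3⟩
          have : y = (x.1, !x.2) := by
            rcases x with ⟨x1, x2⟩
            rcases y with ⟨y1, y2⟩
            simp only at e1 e2 ⊢
            subst e1
            cases x2 <;> cases y2 <;> simp_all
          rw [r2, this]
          simp [invRev]

/-- Brooks counting quasimorphism -/
def φ (g : FreeGroup Bool) : ℤ := c g.toWord

theorem φ_mul (g h : FreeGroup Bool) : |φ (g * h) - φ g - φ h| ≤ 3 := by
  obtain ⟨u, s, v, h1, h2, h3⟩ := decomp _ g.toWord h.toWord le_rfl isReduced_toWord isReduced_toWord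
  have hg : g = mk (u ++ s) := by rw [← h1, mk_toWord]
  have hh : h = mk (invRev s ++ v) := by rw [← h2, mk_toWord]
  have hgh : g * h = mk (u ++ v) := by
    rw [hg, hh, ← mul_mk, ← mul_mk, ← inv_mk, ← mul_mk]
    group
  have e : (g * h).toWord = u ++ v := by
    rw [hgh, toWord_mk, h3.reduce_eq]
  unfold φ
  rw [e, h1, h2]
  have a1 := c_append_le u v
  have a2 := c_append_le u s
  have a3 := c_append_le (invRev s) v
  rw [c_invRev] at a3
  rw [abs_le] at *
  constructor <;> linarith [a1.1, a1.2, a2.1, a2.2, a3.1, a3.2]

theorem φ_one : φ 1 = 0 := by simp [φ]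

theorem φ_inv (g : FreeGroup Bool) : φ g⁻¹ = - φ g := by
  unfold φ
  rw [toWord_inv, c_invRev]

theorem φ_comm (g h : FreeGroup Bool) : |φ ⁅g, h⁆| ≤ 9 := by
  rw [commutatorElement_def]
  have a1 := φ_mul (g * h * g⁻¹) h⁻¹
  have a2 := φ_mul (g * h) g⁻¹
  have a3 := φ_mul g h
  rw [φ_inv] at a1 a2
  rw [abs_le] at *
  constructor <;> linarith [a1.1, a1.2, a2.1, a2.2, a3.1, a3.2]

theorem φ_prod (l : List (FreeGroup Bool)) (hl : ∀ x ∈ l, x ∈ commutatorSet (FreeGroup Bool)) :
    |φ l.prod| ≤ 12 * l.length := by
  induction l with
  | nil => simp [φ_one]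
  | cons x l ih =>
    have h1 := ih (fun y hy => hl y (List.mem_cons_of_mem _ hy))
    obtain ⟨g, h, hx⟩ := hl x List.mem_cons_self
    have h2 : |φ x| ≤ 9 := by rw [← hx]; exact φ_comm g h
    have h3 := φ_mul x l.prod
    rw [List.prod_cons, List.length_cons]
    push_cast
    rw [abs_le] at *
    constructor <;> linarith [h1.1, h1.2, h2.1, h2.2, h3.1, h3.2]

/-- the word `(a b a⁻¹ b⁻¹)^n` -/
def W : ℕ → List (Bool × Bool)
  | 0 => []
  | n + 1 => (true, true) :: (false, true) :: (true, false) :: (false, false) :: W n

theorem W_red (n : ℕ) : FreeGroup.IsReduced (W n) := by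
  induction n with
  | zero => exact FreeGroup.IsReduced.nil
  | succ n ih =>
    cases n with
    | zero => simp [W, FreeGroup.IsReduced]
    | succ n =>
      have : W (n + 1 + 1) = (true, true) :: (false, true) :: (true, false) :: (false, false) ::
        (true, true) :: ((false, true) :: (true, false) :: (false, false) :: W n) := rfl
      rw [this]
      have ih' : FreeGroup.IsReduced ((true, true) :: ((false, true) :: (true, false) ::
        (false, false) :: W n)) := ih
      rw [isReduced_cons_cons] at ih'
      simp only [isReduced_cons_cons]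
      simp_all

theorem c_W (n : ℕ) : c (W n) = n := by
  induction n with
  | zero => simp [W]
  | succ n ih =>
    cases n with
    | zero => simp [W, c, f]
    | succ n =>
      have : W (n + 1 + 1) = (true, true) :: (false, true) :: (true, false) :: (false, false) ::
        (true, true) :: ((false, true) :: (true, false) :: (false, false) :: W n) := rfl
      rw [this]
      have ih' : c ((true, true) :: ((false, true) :: (true, false) ::
        (false, false) :: W n)) = ((n + 1 : ℕ) : ℤ) := ih
      rw [c_cons_cons, c_cons_cons, c_cons_cons, c_cons_cons, ih']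
      simp [f]
      ring

theorem mk_W (n : ℕ) : (mk (W n) : FreeGroup Bool) = ⁅of true, of false⁆ ^ n := by
  induction n with
  | zero => rfl
  | succ n ih =>
    rw [pow_succ', ← ih]
    have : W (n + 1) = [(true, true)] ++ ([(false, true)] ++ ([(true, false)] ++
      ([(false, false)] ++ W n))) := rfl
    rw [this, ← mul_mk, ← mul_mk, ← mul_mk, ← mul_mk, commutatorElement_def]
    have h1 : (mk [(true, true)] : FreeGroup Bool) = of true := rfl
    have h2 : (mk [(false, true)] : FreeGroup Bool) = of false := rfl
    have h3 : (mk [(true, false)] : FreeGroup Bool) = (of true)⁻¹ := rfl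
    have h4 : (mk [(false, false)] : FreeGroup Bool) = (of false)⁻¹ := rfl
    rw [h1, h2, h3, h4]
    group

theorem φ_W (n : ℕ) : φ (⁅of true, of false⁆ ^ n) = n := by
  rw [← mk_W]
  unfold φ
  rw [toWord_mk, (W_red n).reduce_eq, c_W]

/-- the free group of rank two has infinite commutator width -/
theorem infinite_width : ¬ ∃ n : ℕ, ∀ g ∈ commutator (FreeGroup Bool),
    ∃ l : List (FreeGroup Bool), l.length ≤ n ∧
      (∀ c ∈ l, c ∈ commutatorSet (FreeGroup Bool)) ∧ l.prod = g := by
  rintro ⟨n, hn⟩
  obtain ⟨l, h1, h2, h3⟩ := hn (⁅of true, of false⁆ ^ (12 * n + 1)) (by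
    refine Subgroup.pow_mem _ ?_ _
    exact Subgroup.commutator_mem_commutator (Subgroup.mem_top _) (Subgroup.mem_top _))
  have h4 := φ_prod l h2
  rw [h3, φ_W] at h4
  push_cast at h4
  have h5 : (l.length : ℤ) ≤ n := by exact_mod_cast h1
  rw [abs_le] at h4
  linarith [h4.2]

end Pool.Agent.H476R3.QM
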