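import Mathlib

set_option autoImplicit false

/-! Thompson's group `F`. -/

namespace Pool.Agent.H476R3.ThF

/-- the unit interval -/
abbrev UI : Type := Set.Icc (0 : ℝ) 1

/-- dyadic rational numbers -/
def Dyadic (x : ℝ) : Prop := ∃ (m : ℤ) (k : ℕ), x = m / 2 ^ k

/-- `f` is piecewise linear, its finitely many breakpoints lie in a finite set of dyadic rational
numbers and its slopes are integer powers of two: there is a finite set `B` of dyadic rationals such
that on each interval `[c, d]` containing no point of `B` in its interior, `f` is affine and its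
slope is `2 ^ k` for an integer `k`. -/
def IsPL (f : UI ≃o UI) : Prop :=
  ∃ B : Finset ℝ, (∀ b ∈ B, Dyadic b) ∧
    ∀ c d : UI, c < d → (∀ b ∈ B, ¬ ((c : ℝ) < b ∧ b < (d : ℝ))) →
      ∃ k : ℤ, ∀ x : UI, c ≤ x → x ≤ d → (f x : ℝ) = f c + 2 ^ k * ((x : ℝ) - c)

theorem Dyadic.add {x y : ℝ} (hx : Dyadic x) (hy : Dyadic y) : Dyadic (x + y) := by
  obtain ⟨m, k, rfl⟩ := hx
  obtain ⟨m', k', rfl⟩ := hy
  refine ⟨m * 2 ^ k' + m' * 2 ^ k, k + k', ?_⟩
  push_cast
  rw [pow_add]
  field_simp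

theorem Dyadic.neg {x : ℝ} (hx : Dyadic x) : Dyadic (-x) := by
  obtain ⟨m, k, rfl⟩ := hx
  exact ⟨-m, k, by push_cast; ring⟩

theorem Dyadic.zpow_mul {x : ℝ} (hx : Dyadic x) (j : ℤ) : Dyadic (2 ^ j * x) := by
  obtain ⟨m, k, rfl⟩ := hx
  rcases j with j | j
  · refine ⟨m * 2 ^ j, k, ?_⟩
    push_cast
    simp only [Int.ofNat_eq_natCast, zpow_natCast]
    ring
  · refine ⟨m, k + (j + 1), ?_⟩
    rw [zpow_negSucc, pow_add]
    field_simp
    ring

theorem Dyadic.sub {x y : ℝ} (hx : Dyadic x) (hy : Dyadic y) : Dyadic (x - y) := by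
  rw [sub_eq_add_neg]; exact hx.add hy.neg

theorem dyadic_zero : Dyadic 0 := ⟨0, 0, by simp⟩
theorem dyadic_one : Dyadic 1 := ⟨1, 0, by simp⟩

theorem map_zero' (f : UI ≃o UI) : f ⟨0, by simp⟩ = ⟨0, by simp⟩ := f.map_bot
theorem map_one' (f : UI ≃o UI) : f ⟨1, by simp⟩ = ⟨1, by simp⟩ := f.map_top

/-- the last breakpoint before `x` -/
theorem exists_last (B : Finset ℝ) (x : UI) (hx : (0 : ℝ) < x) :
    ∃ c : UI, c < x ∧ ((c : ℝ) = 0 ∨ (c : ℝ) ∈ B) ∧ ∀ b ∈ B, ¬ ((c : ℝ) < b ∧ b < (x : ℝ)) := by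
  classical
  let S : Finset ℝ := (insert 0 B).filter (fun b => 0 ≤ b ∧ b < x)
  have hS : S.Nonempty := ⟨0, by simp [S, hx]⟩
  have hm := S.max'_mem hS
  have hm' : (S.max' hS = 0 ∨ S.max' hS ∈ B) ∧ 0 ≤ S.max' hS ∧ S.max' hS < x := by
    have := Finset.mem_filter.1 hm
    rw [Finset.mem_insert] at this
    exact this
  refine ⟨⟨S.max' hS, hm'.2.1, hm'.2.2.le.trans x.2.2⟩, hm'.2.2, hm'.1, ?_⟩
  intro b hb ⟨h1, h2⟩
  have : b ∈ S := by
    simp only [S, Finset.mem_filter, Finset.mem_insert]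
    exact ⟨Or.inr hb, hm'.2.1.trans h1.le, h2⟩
  have := S.le_max' b this
  simp only at h1
  linarith

theorem IsPL.map_dyadic {f : UI ≃o UI} (hf : IsPL f) : ∀ x : UI, Dyadic x → Dyadic (f x) := by
  obtain ⟨B, hB, h⟩ := hf
  -- points of `B`
  have step : ∀ x : UI, Dyadic x → 0 < (x : ℝ) → ∃ c : UI, c < x ∧ ((c : ℝ) = 0 ∨ (c : ℝ) ∈ B) ∧
      (Dyadic (f c) → Dyadic (f x)) := by
    intro x hx h0
    obtain ⟨c, h1, h2, h3⟩ := exists_last B x h0
    refine ⟨c, h1, h2, ?_⟩
    intro hc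
    obtain ⟨k, hk⟩ := h c x h1 h3
    rw [hk x h1.le le_rfl]
    have hcd : Dyadic c := by
      rcases h2 with h2 | h2
      · rw [h2]; exact dyadic_zero
      · exact hB _ h2
    exact hc.add ((hx.sub hcd).zpow_mul k)
  have zero : ∀ x : UI, (x : ℝ) = 0 → Dyadic (f x) := by
    intro x hx
    have : x = ⟨0, by simp⟩ := Subtype.ext hx
    rw [this, map_zero']
    exact dyadic_zero
  have inB : ∀ n : ℕ, ∀ x : UI, (x : ℝ) ∈ B → (B.filter (fun b => b < (x : ℝ))).card ≤ n →
      Dyadic (f x) := by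
    classical
    intro n
    induction n with
    | zero =>
      intro x hx hc
      rcases x.2.1.lt_or_eq with h0 | h0
      · obtain ⟨c, h1, h2, h3⟩ := step x (hB _ hx) h0
        rcases h2 with h2 | h2
        · exact h3 (zero c h2)
        · exfalso
          have : (c : ℝ) ∈ B.filter (fun b => b < (x : ℝ)) := Finset.mem_filter.2 ⟨h2, h1⟩
          rw [Finset.card_eq_zero.1 (Nat.le_zero.1 hc)] at this
          simp at this
      · exact zero x h0.symm
    | succ n ih =>
      intro x hx hc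
      rcases x.2.1.lt_or_eq with h0 | h0
      · obtain ⟨c, h1, h2, h3⟩ := step x (hB _ hx) h0
        rcases h2 with h2 | h2
        · exact h3 (zero c h2)
        · apply h3
          apply ih c h2
          have hlt : (B.filter (fun b => b < (c : ℝ))) ⊂ (B.filter (fun b => b < (x : ℝ))) := by
            rw [Finset.ssubset_iff_of_subset]
            · exact ⟨c, Finset.mem_filter.2 ⟨h2, h1⟩, by simp⟩
            · intro b hb
              rw [Finset.mem_filter] at hb ⊢
              exact ⟨hb.1, hb.2.trans h1⟩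
          have := Finset.card_lt_card hlt
          omega
      · exact zero x h0.symm
  intro x hx
  rcases x.2.1.lt_or_eq with h0 | h0
  · obtain ⟨c, h1, h2, h3⟩ := step x hx h0
    rcases h2 with h2 | h2
    · exact h3 (zero c h2)
    · exact h3 (inB _ c h2 le_rfl)
  · exact zero x h0.symm

theorem IsPL.dyadic_of_map {f : UI ≃o UI} (hf : IsPL f) (x : UI) (hx : Dyadic (f x)) :
    Dyadic x := by
  have hd := hf.map_dyadic
  obtain ⟨B, hB, h⟩ := hf
  rcases x.2.1.lt_or_eq with h0 | h0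
  · obtain ⟨c, h1, h2, h3⟩ := exists_last B x h0
    obtain ⟨k, hk⟩ := h c x h1 h3
    have hcd : Dyadic c := by
      rcases h2 with h2 | h2
      · rw [h2]; exact dyadic_zero
      · exact hB _ h2
    have e := hk x h1.le le_rfl
    have : (x : ℝ) = c + 2 ^ (-k) * (f x - f c) := by
      rw [e, zpow_neg]
      field_simp
      ring
    rw [this]
    exact hcd.add ((hx.sub (hd c hcd)).zpow_mul _)
  · rw [← h0]; exact dyadic_zero

theorem IsPL.mul {f g : UI ≃o UI} (hf : IsPL f) (hg : IsPL g) : IsPL (f * g) := by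
  classical
  have hgd := hg.dyadic_of_map
  obtain ⟨B, hB, h⟩ := hf
  obtain ⟨C, hC, h'⟩ := hg
  let ginv : ℝ → ℝ := fun b => if hb : b ∈ Set.Icc (0 : ℝ) 1 then (g.symm ⟨b, hb⟩ : ℝ) else 0
  refine ⟨C ∪ B.image ginv, ?_, ?_⟩
  · intro b hb
    rcases Finset.mem_union.1 hb with hb | hb
    · exact hC b hb
    · obtain ⟨b', hb', rfl⟩ := Finset.mem_image.1 hb
      simp only [ginv]
      split_ifs with h0
      · apply hgd
        simpa using hB b' hb'
      · exact dyadic_zero
  · intro c d hcd hbr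
    obtain ⟨k, hk⟩ := h' c d hcd (fun b hb => hbr b (Finset.mem_union_left _ hb))
    obtain ⟨l, hl⟩ := h (g c) (g d) (g.strictMono hcd) (by
      intro b hb ⟨h1, h2⟩
      have hb' : b ∈ Set.Icc (0 : ℝ) 1 := ⟨(g c).2.1.trans h1.le, h2.le.trans (g d).2.2⟩
      refine hbr (ginv b) (Finset.mem_union_right _ (Finset.mem_image_of_mem _ hb)) ?_
      simp only [ginv, dif_pos hb']
      constructor
      · have : c < g.symm ⟨b, hb'⟩ := g.lt_symm_apply.2 h1
        exact this
      · have : g.symm ⟨b, hb'⟩ < d := g.symm_apply_lt.2 h2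
        exact this)
    refine ⟨l + k, ?_⟩
    intro x hcx hxd
    have e1 := hk x hcx hxd
    have e2 := hl (g x) (g.monotone hcx) (g.monotone hxd)
    change (f (g x) : ℝ) = f (g c) + _
    rw [e2, e1, zpow_add₀ (by norm_num)]
    ring

theorem IsPL.one : IsPL 1 := ⟨∅, by simp, fun c d _ _ => ⟨0, fun x _ _ => by simp⟩⟩

theorem IsPL.inv {f : UI ≃o UI} (hf : IsPL f) : IsPL f⁻¹ := by
  classical
  have hfd := hf.map_dyadic
  obtain ⟨B, hB, h⟩ := hf
  let fm : ℝ → ℝ := fun b => if hb : b ∈ Set.Icc (0 : ℝ) 1 then (f ⟨b, hb⟩ : ℝ) else 0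
  refine ⟨B.image fm, ?_, ?_⟩
  · intro b hb
    obtain ⟨b', hb', rfl⟩ := Finset.mem_image.1 hb
    simp only [fm]
    split_ifs with h0
    · exact hfd _ (hB b' hb')
    · exact dyadic_zero
  · intro c d hcd hbr
    have hs : ∀ x, (f⁻¹ : UI ≃o UI) x = f.symm x := fun x => rfl
    obtain ⟨k, hk⟩ := h (f.symm c) (f.symm d) (f.symm.strictMono hcd) (by
      intro b hb ⟨h1, h2⟩
      have hb' : b ∈ Set.Icc (0 : ℝ) 1 :=
        ⟨(f.symm c).2.1.trans h1.le, h2.le.trans (f.symm d).2.2⟩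
      refine hbr (fm b) (Finset.mem_image_of_mem _ hb) ?_
      simp only [fm, dif_pos hb']
      constructor
      · have : c < f ⟨b, hb'⟩ := f.symm_apply_lt.1 h1
        exact this
      · have : f ⟨b, hb'⟩ < d := f.lt_symm_apply.1 h2
        exact this)
    refine ⟨-k, ?_⟩
    intro x hcx hxd
    rw [hs, hs]
    have e := hk (f.symm x) (f.symm.monotone hcx) (f.symm.monotone hxd)
    simp only [OrderIso.apply_symm_apply] at e
    rw [e, zpow_neg]
    field_simp
    ring

/-- **Thompson's group `F`**: the orientation preserving piecewise linear homeomorphisms of `[0,1]`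
with finitely many breakpoints, all of them dyadic rational numbers, and with all slopes integer
powers of two. -/
def ThompsonF : Subgroup (UI ≃o UI) where
  carrier := {f | IsPL f}
  mul_mem' := IsPL.mul
  one_mem' := IsPL.one
  inv_mem' := IsPL.inv

end Pool.Agent.H476R3.ThF
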