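import Mathlib
import Pool.Agent.H476R3.ThF

set_option autoImplicit false

/-! A copy of `ℤ ≀ ℤ` in Thompson's group `F`. -/

namespace Pool.Agent.H476R3.ThF

/-- order isomorphism of the unit interval from real functions -/
def mkIso (F G : ℝ → ℝ) (hF : ∀ x ∈ Set.Icc (0 : ℝ) 1, F x ∈ Set.Icc (0 : ℝ) 1)
    (hG : ∀ x ∈ Set.Icc (0 : ℝ) 1, G x ∈ Set.Icc (0 : ℝ) 1) (mF : Monotone F) (mG : Monotone G)
    (h1 : ∀ x ∈ Set.Icc (0 : ℝ) 1, G (F x) = x) (h2 : ∀ x ∈ Set.Icc (0 : ℝ) 1, F (G x) = x) :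
    UI ≃o UI where
  toFun x := ⟨F x, hF x x.2⟩
  invFun x := ⟨G x, hG x x.2⟩
  left_inv x := Subtype.ext (h1 x x.2)
  right_inv x := Subtype.ext (h2 x x.2)
  map_rel_iff' := by
    intro x y
    constructor
    · intro h
      have h' : F x ≤ F y := h
      have := mG h'
      rw [h1 x x.2, h1 y y.2] at this
      exact this
    · intro h
      exact mF h

/-- formula for `t` -/
noncomputable def tF (x : ℝ) : ℝ := min (4 * x) (min (x + 3 / 8) (x / 4 + 3 / 4))
/-- formula for the inverse of `t` -/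
noncomputable def tG (x : ℝ) : ℝ := max (x / 4) (max (x - 3 / 8) (4 * x - 3))
/-- formula for `a` -/
noncomputable def aF (x : ℝ) : ℝ := max x (min (2 * x - 1 / 8) (x / 2 + 1 / 4))
/-- formula for the inverse of `a` -/
noncomputable def aG (x : ℝ) : ℝ := min x (max ((x + 1 / 8) / 2) (2 * x - 1 / 2))

/-- the element `t` -/
noncomputable def t : UI ≃o UI := mkIso tF tG
  (by
    rintro x ⟨h0, h1⟩
    unfold tF
    constructor
    · refine le_min (by linarith) (le_min (by linarith) (by linarith))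
    · exact (min_le_right _ _).trans ((min_le_right _ _).trans (by linarith)))
  (by
    rintro x ⟨h0, h1⟩
    unfold tG
    constructor
    · exact le_max_of_le_left (by linarith)
    · refine max_le (by linarith) (max_le (by linarith) (by linarith)))
  (by
    intro x y h
    unfold tF
    exact min_le_min (by linarith) (min_le_min (by linarith) (by linarith)))
  (by
    intro x y h
    unfold tG
    exact max_le_max (by linarith) (max_le_max (by linarith) (by linarith)))
  (by
    rintro x ⟨h0, h1⟩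
    unfold tF tG
    simp only [min_def, max_def]
    split_ifs <;> linarith)
  (by
    rintro x ⟨h0, h1⟩
    unfold tF tG
    simp only [min_def, max_def]
    split_ifs <;> linarith)

/-- the element `a` -/
noncomputable def a : UI ≃o UI := mkIso aF aG
  (by
    rintro x ⟨h0, h1⟩
    unfold aF
    constructor
    · exact le_max_of_le_left h0
    · refine max_le h1 ((min_le_right _ _).trans (by linarith)))
  (by
    rintro x ⟨h0, h1⟩
    unfold aG
    constructor
    · exact le_min h0 (le_max_of_le_left (by linarith))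
    · exact (min_le_left _ _).trans h1)
  (by
    intro x y h
    unfold aF
    exact max_le_max h (min_le_min (by linarith) (by linarith)))
  (by
    intro x y h
    unfold aG
    exact min_le_min h (max_le_max (by linarith) (by linarith)))
  (by
    rintro x ⟨h0, h1⟩
    unfold aF aG
    simp only [min_def, max_def]
    split_ifs <;> linarith)
  (by
    rintro x ⟨h0, h1⟩
    unfold aF aG
    simp only [min_def, max_def]
    split_ifs <;> linarith)

theorem t_apply (x : UI) : (t x : ℝ) = tF x := rfl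
theorem a_apply (x : UI) : (a x : ℝ) = aF x := rfl

theorem tF_1 {x : ℝ} (h : x ≤ 1 / 8) : tF x = 4 * x := by
  unfold tF
  rw [min_eq_left]
  exact le_min (by linarith) (by linarith)
theorem tF_2 {x : ℝ} (h : 1 / 8 ≤ x) (h' : x ≤ 1 / 2) : tF x = x + 3 / 8 := by
  unfold tF
  rw [min_eq_right, min_eq_left]
  · linarith
  · exact (min_le_left _ _).trans (by linarith)
theorem tF_3 {x : ℝ} (h : 1 / 2 ≤ x) : tF x = x / 4 + 3 / 4 := by
  unfold tF
  rw [min_eq_right, min_eq_right]
  · linarith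
  · exact (min_le_left _ _).trans (by linarith)

theorem aF_1 {x : ℝ} (h : x ≤ 1 / 8) : aF x = x := by
  unfold aF
  rw [max_eq_left]
  exact (min_le_left _ _).trans (by linarith)
theorem aF_2 {x : ℝ} (h : 1 / 8 ≤ x) (h' : x ≤ 1 / 4) : aF x = 2 * x - 1 / 8 := by
  unfold aF
  rw [max_eq_right, min_eq_left]
  · linarith
  · exact le_min (by linarith) (by linarith)
theorem aF_3 {x : ℝ} (h : 1 / 4 ≤ x) (h' : x ≤ 1 / 2) : aF x = x / 2 + 1 / 4 := by
  unfold aF
  rw [max_eq_right, min_eq_right]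
  · linarith
  · exact le_min (by linarith) (by linarith)
theorem aF_4 {x : ℝ} (h : 1 / 2 ≤ x) : aF x = x := by
  unfold aF
  rw [max_eq_left]
  exact (min_le_right _ _).trans (by linarith)

theorem dyadic_8 : Dyadic (1 / 8) := ⟨1, 3, by norm_num⟩
theorem dyadic_4 : Dyadic (1 / 4) := ⟨1, 2, by norm_num⟩
theorem dyadic_2 : Dyadic (1 / 2) := ⟨1, 1, by norm_num⟩

theorem t_isPL : IsPL t := by
  refine ⟨{1 / 8, 1 / 2}, ?_, ?_⟩
  · intro b hb
    simp only [Finset.mem_insert, Finset.mem_singleton] at hb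
    rcases hb with rfl | rfl
    · exact dyadic_8
    · exact dyadic_2
  · intro c d hcd h
    have hcd' : (c : ℝ) < d := hcd
    have h8 := h (1 / 8) (by simp)
    have h2 := h (1 / 2) (by simp)
    simp only [t_apply]
    rcases le_or_gt (d : ℝ) (1 / 8) with hd | hd
    · refine ⟨2, fun x hx hx' => ?_⟩
      have hx1 : (c : ℝ) ≤ x := hx
      have hx2 : (x : ℝ) ≤ d := hx'
      rw [tF_1 (by linarith), tF_1 (by linarith)]
      norm_num; ring
    · have hc : 1 / 8 ≤ (c : ℝ) := by
        by_contra hc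
        exact h8 ⟨not_le.1 hc, hd⟩
      rcases le_or_gt (d : ℝ) (1 / 2) with hd' | hd'
      · refine ⟨0, fun x hx hx' => ?_⟩
        have hx1 : (c : ℝ) ≤ x := hx
        have hx2 : (x : ℝ) ≤ d := hx'
        rw [tF_2 (by linarith) (by linarith), tF_2 (by linarith) (by linarith)]
        norm_num; ring
      · have hc' : 1 / 2 ≤ (c : ℝ) := by
          by_contra hc'
          exact h2 ⟨not_le.1 hc', hd'⟩
        refine ⟨-2, fun x hx hx' => ?_⟩
        have hx1 : (c : ℝ) ≤ x := hx
        rw [tF_3 (by linarith), tF_3 (by linarith)]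
        norm_num; ring

theorem a_isPL : IsPL a := by
  refine ⟨{1 / 8, 1 / 4, 1 / 2}, ?_, ?_⟩
  · intro b hb
    simp only [Finset.mem_insert, Finset.mem_singleton] at hb
    rcases hb with rfl | rfl | rfl
    · exact dyadic_8
    · exact dyadic_4
    · exact dyadic_2
  · intro c d hcd h
    have hcd' : (c : ℝ) < d := hcd
    have h8 := h (1 / 8) (by simp)
    have h4 := h (1 / 4) (by simp)
    have h2 := h (1 / 2) (by simp)
    simp only [a_apply]
    rcases le_or_gt (d : ℝ) (1 / 8) with hd | hd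
    · refine ⟨0, fun x hx hx' => ?_⟩
      have hx1 : (c : ℝ) ≤ x := hx
      have hx2 : (x : ℝ) ≤ d := hx'
      rw [aF_1 (by linarith), aF_1 (by linarith)]
      norm_num
    · have hc : 1 / 8 ≤ (c : ℝ) := by
        by_contra hc
        exact h8 ⟨not_le.1 hc, hd⟩
      rcases le_or_gt (d : ℝ) (1 / 4) with hd4 | hd4
      · refine ⟨1, fun x hx hx' => ?_⟩
        have hx1 : (c : ℝ) ≤ x := hx
        have hx2 : (x : ℝ) ≤ d := hx'
        rw [aF_2 (by linarith) (by linarith), aF_2 (by linarith) (by linarith)]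
        norm_num; ring
      · have hc4 : 1 / 4 ≤ (c : ℝ) := by
          by_contra hc
          exact h4 ⟨not_le.1 hc, hd4⟩
        rcases le_or_gt (d : ℝ) (1 / 2) with hd' | hd'
        · refine ⟨-1, fun x hx hx' => ?_⟩
          have hx1 : (c : ℝ) ≤ x := hx
          have hx2 : (x : ℝ) ≤ d := hx'
          rw [aF_3 (by linarith) (by linarith), aF_3 (by linarith) (by linarith)]
          norm_num; ring
        · have hc' : 1 / 2 ≤ (c : ℝ) := by
            by_contra hc'
            exact h2 ⟨not_le.1 hc', hd'⟩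
          refine ⟨0, fun x hx hx' => ?_⟩
          have hx1 : (c : ℝ) ≤ x := hx
          rw [aF_4 (by linarith), aF_4 (by linarith)]
          norm_num

/-- `h` has slope `2 ^ k` to the right of `x` -/
def RS (h : UI ≃o UI) (x : UI) (k : ℤ) : Prop :=
  ∃ ε : ℝ, 0 < ε ∧ ∀ y : UI, x ≤ y → (y : ℝ) < x + ε → (h y : ℝ) = h x + 2 ^ k * ((y : ℝ) - x)

theorem RS.mul {f g : UI ≃o UI} {x : UI} {k l : ℤ} (hf : RS f (g x) k) (hg : RS g x l) :
    RS (f * g) x (k + l) := by
  obtain ⟨ε, he, h⟩ := hf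
  obtain ⟨ε', he', h'⟩ := hg
  have hp : (0 : ℝ) < 2 ^ l := by positivity
  refine ⟨min ε' (ε / 2 ^ l), by positivity, ?_⟩
  intro y hxy hy
  have h1 := h' y hxy (hy.trans_le (by gcongr; exact min_le_left _ _))
  have hy2 : (y : ℝ) < x + ε / 2 ^ l := hy.trans_le (by gcongr; exact min_le_right _ _)
  have h2 := h (g y) (g.monotone hxy) (by
    rw [h1]
    have : 2 ^ l * ((y : ℝ) - x) < ε := by
      have : (y : ℝ) - x < ε / 2 ^ l := by linarith
      rw [lt_div_iff₀ hp] at this
      linarith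
    linarith)
  change (f (g y) : ℝ) = f (g x) + _
  rw [h2, h1, zpow_add₀ (by norm_num)]
  ring

theorem RS.inv {f : UI ≃o UI} {x : UI} {k : ℤ} (hf : RS f x k) (hx : (x : ℝ) < 1) :
    RS f⁻¹ (f x) (-k) := by
  obtain ⟨ε, he, h⟩ := hf
  have hp : (0 : ℝ) < 2 ^ k := by positivity
  refine ⟨2 ^ k * (ε / 2), by positivity, ?_⟩
  intro y hxy hy
  have hs : ∀ x, (f⁻¹ : UI ≃o UI) x = f.symm x := fun x => rfl
  rw [hs, hs, OrderIso.symm_apply_apply]
  have hz : x ≤ f.symm y := f.le_symm_apply.2 hxy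
  have hz' : ((f.symm y : UI) : ℝ) < x + ε := by
    by_contra hcon
    rw [not_lt] at hcon
    have hle : (x : ℝ) + ε / 2 ≤ 1 := by
      have := (f.symm y).2.2
      linarith
    have h0 : (0 : ℝ) ≤ x + ε / 2 := by
      have := x.2.1
      linarith
    have h1 := h ⟨x + ε / 2, h0, hle⟩ (by
      change (x : ℝ) ≤ x + ε / 2
      linarith) (by simp only; linarith)
    have h2 : (⟨x + ε / 2, h0, hle⟩ : UI) ≤ f.symm y := by
      change (x : ℝ) + ε / 2 ≤ f.symm y
      linarith
    have h3 : (f ⟨x + ε / 2, h0, hle⟩ : ℝ) ≤ y := by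
      have := f.le_symm_apply.1 h2
      exact this
    rw [h1] at h3
    simp only at h3
    have : (x : ℝ) + ε / 2 - x = ε / 2 := by ring
    rw [this] at h3
    linarith
  have e := h (f.symm y) hz hz'
  rw [OrderIso.apply_symm_apply] at e
  rw [e, zpow_neg]
  field_simp
  ring

theorem RS.unique {f : UI ≃o UI} {x : UI} {k l : ℤ} (hf : RS f x k) (hf' : RS f x l)
    (hx : (x : ℝ) < 1) : k = l := by
  obtain ⟨ε, he, h⟩ := hf
  obtain ⟨ε', he', h'⟩ := hf'
  let δ : ℝ := min (min ε ε') (1 - x)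
  have hδ : 0 < δ := lt_min (lt_min he he') (by linarith)
  have d1 : δ ≤ ε := (min_le_left _ _).trans (min_le_left _ _)
  have d2 : δ ≤ ε' := (min_le_left _ _).trans (min_le_right _ _)
  have d3 : δ ≤ 1 - x := min_le_right _ _
  have h0 := x.2.1
  let y : UI := ⟨x + δ / 2, by linarith, by linarith⟩
  have hxy : x ≤ y := by
    change (x : ℝ) ≤ x + δ / 2
    linarith
  have e1 := h y hxy (by change (x : ℝ) + δ / 2 < _; linarith)
  have e2 := h' y hxy (by change (x : ℝ) + δ / 2 < _; linarith)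
  rw [e1] at e2
  have e3 : (y : ℝ) - x = δ / 2 := by
    change (x : ℝ) + δ / 2 - x = _
    ring
  rw [e3] at e2
  have e4 : (2 : ℝ) ^ k = 2 ^ l := by
    have : (2 : ℝ) ^ k * (δ / 2) = 2 ^ l * (δ / 2) := by linarith
    exact mul_right_cancel₀ (by positivity) this
  exact zpow_right_injective₀ (by norm_num) (by norm_num) e4

theorem RS_t (x : UI) : ∃ k : ℤ, RS t x k ∧ (k : ZMod 2) = 0 := by
  rcases lt_or_ge (x : ℝ) (1 / 8) with h | h
  · refine ⟨2, ⟨1 / 8 - x, by linarith, ?_⟩, rfl⟩
    intro y hy hy'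
    rw [t_apply, t_apply, tF_1 (by linarith), tF_1 (by linarith)]
    norm_num; ring
  · rcases lt_or_ge (x : ℝ) (1 / 2) with h' | h'
    · refine ⟨0, ⟨1 / 2 - x, by linarith, ?_⟩, by simp⟩
      intro y hy hy'
      have hy1 : (x : ℝ) ≤ y := hy
      rw [t_apply, t_apply, tF_2 (by linarith) (by linarith), tF_2 (by linarith) (by linarith)]
      norm_num; ring
    · refine ⟨-2, ⟨1, by linarith, ?_⟩, by rfl⟩
      intro y hy hy'
      have hy1 : (x : ℝ) ≤ y := hy
      rw [t_apply, t_apply, tF_3 (by linarith), tF_3 (by linarith)]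
      norm_num; ring

theorem RS_a_0 (x : UI) (hx : (x : ℝ) = 1 / 8) : RS a x 1 := by
  refine ⟨1 / 8, by norm_num, ?_⟩
  intro y hy hy'
  have hy1 : (x : ℝ) ≤ y := hy
  rw [a_apply, a_apply, aF_2 (by linarith) (by linarith), aF_2 (by linarith) (by linarith)]
  norm_num; ring

theorem RS_a_far (x : UI) (hx : (x : ℝ) < 1 / 8 ∨ 1 / 2 ≤ (x : ℝ)) : RS a x 0 := by
  rcases hx with hx | hx
  · refine ⟨1 / 8 - x, by linarith, ?_⟩
    intro y hy hy'
    rw [a_apply, a_apply, aF_1 (by linarith), aF_1 (by linarith)]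
    norm_num
  · refine ⟨1, by norm_num, ?_⟩
    intro y hy hy'
    have hy1 : (x : ℝ) ≤ y := hy
    rw [a_apply, a_apply, aF_4 (by linarith), aF_4 (by linarith)]
    norm_num

theorem RS_one (x : UI) : RS 1 x 0 := ⟨1, by norm_num, by intro y _ _; simp⟩

end Pool.Agent.H476R3.ThF
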