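import Mathlib
import Pool.Agent.H476R3.ThW

set_option autoImplicit false

/-! The index two subgroup of `ℤ ≀ ℤ` and its homomorphism onto `ℤ / 2`. -/

namespace Pool.Agent.H476R3.ThF

/-- the base point -/
noncomputable def d0 : UI := ⟨1 / 8, by norm_num, by norm_num⟩

/-- the orbit of the base point -/
noncomputable def d (i : ℤ) : UI := (t ^ i) d0

theorem d_add (i j : ℤ) : (t ^ i) (d j) = d (i + j) := by
  unfold d
  rw [zpow_add]
  rfl

theorem t_d (i : ℤ) : t (d i) = d (i + 1) := by
  have := d_add 1 i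
  rw [zpow_one] at this
  rw [this, add_comm]

theorem tF_gt {x : ℝ} (h0 : 0 < x) (h1 : x < 1) : x < tF x := by
  unfold tF
  exact lt_min (by linarith) (lt_min (by linarith) (by linarith))

theorem d_mem (i : ℤ) : 0 < (d i : ℝ) ∧ (d i : ℝ) < 1 := by
  have hz : ∀ i : ℤ, (t ^ i) ⟨0, by simp⟩ = ⟨0, by simp⟩ := fun i => (t ^ i).map_bot
  have ho : ∀ i : ℤ, (t ^ i) ⟨1, by simp⟩ = ⟨1, by simp⟩ := fun i => (t ^ i).map_top
  constructor
  · have h : (t ^ i) ⟨0, by simp⟩ < (t ^ i) d0 := (t ^ i).strictMono (by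
      change (0 : ℝ) < 1 / 8
      norm_num)
    rw [hz] at h
    exact h
  · have h : (t ^ i) d0 < (t ^ i) ⟨1, by simp⟩ := (t ^ i).strictMono (by
      change (1 / 8 : ℝ) < 1
      norm_num)
    rw [ho] at h
    exact h

theorem d_lt_succ (i : ℤ) : d i < d (i + 1) := by
  rw [← t_d]
  exact tF_gt (d_mem i).1 (d_mem i).2

theorem d_strictMono : StrictMono d := strictMono_int_of_lt_succ d_lt_succ

theorem d_zero : d 0 = d0 := by simp [d]

theorem d_one : (d 1 : ℝ) = 1 / 2 := by
  have : d 1 = t (d 0) := by rw [t_d]; rfl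
  rw [this, d_zero, t_apply]
  rw [tF_1 (by simp [d0])]
  simp only [d0]
  norm_num

theorem d_far {i : ℤ} (h : i ≠ 0) : (d i : ℝ) < 1 / 8 ∨ 1 / 2 ≤ (d i : ℝ) := by
  rcases lt_or_gt_of_ne h with h | h
  · left
    have := d_strictMono h
    rw [d_zero] at this
    exact this
  · right
    rw [← d_one]
    exact d_strictMono.monotone (by omega : (1 : ℤ) ≤ i)

theorem a_d (i : ℤ) : a (d i) = d i := by
  apply Subtype.ext
  rw [a_apply]
  by_cases h : i = 0
  · subst h
    rw [d_zero]
    exact aF_1 (by simp [d0])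
  · rcases d_far h with h | h
    · exact aF_1 h.le
    · exact aF_4 h

/-- The element `h` maps `d i` to `d (i + n)`, with slope of parity `f (i + n)` to the right. -/
def T (h : UI ≃o UI) (n : ℤ) (f : ℤ →₀ ZMod 2) : Prop :=
  ∀ i : ℤ, h (d i) = d (i + n) ∧ ∃ k : ℤ, RS h (d i) k ∧ (k : ZMod 2) = f (i + n)

/-- translation of functions -/
noncomputable def sh (n : ℤ) (f : ℤ →₀ ZMod 2) : ℤ →₀ ZMod 2 :=
  Finsupp.equivMapDomain (Equiv.addRight n) f

theorem sh_apply (n : ℤ) (f : ℤ →₀ ZMod 2) (j : ℤ) : sh n f j = f (j - n) := by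
  simp [sh, Finsupp.equivMapDomain_apply, sub_eq_add_neg]

theorem T.mul {g h : UI ≃o UI} {n m : ℤ} {f f' : ℤ →₀ ZMod 2} (hg : T g n f) (hh : T h m f') :
    T (g * h) (n + m) (f + sh n f') := by
  intro i
  obtain ⟨h1, k, h2, h3⟩ := hh i
  obtain ⟨g1, l, g2, g3⟩ := hg (i + m)
  refine ⟨?_, l + k, ?_, ?_⟩
  · change g (h (d i)) = _
    rw [h1, g1]
    congr 1; ring
  · exact RS.mul (by rw [h1]; exact g2) h2
  · rw [Int.cast_add, g3, h3, Finsupp.add_apply, sh_apply]
    congr 2
    · ring
    · ring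

theorem T.inv {g : UI ≃o UI} {n : ℤ} {f : ℤ →₀ ZMod 2} (hg : T g n f) :
    T g⁻¹ (-n) (- sh (-n) f) := by
  intro i
  obtain ⟨g1, l, g2, g3⟩ := hg (i - n)
  have e : i - n + n = i := by ring
  rw [e] at g1 g3
  have hg' : g⁻¹ (d i) = d (i - n) := by
    rw [← g1]
    exact g.symm_apply_apply _
  refine ⟨by rw [hg']; congr 1, -l, ?_, ?_⟩
  · have := g2.inv (d_mem _).2
    rw [g1] at this
    exact this
  · rw [Int.cast_neg, g3, Finsupp.neg_apply, sh_apply]
    congr 2
    ring

theorem T.one : T 1 0 0 := by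
  intro i
  refine ⟨by simp, 0, RS_one _, by simp⟩

theorem T.unique {g : UI ≃o UI} {n m : ℤ} {f f' : ℤ →₀ ZMod 2} (h : T g n f) (h' : T g m f') :
    n = m ∧ f = f' := by
  have hn : n = m := by
    have h1 := (h 0).1
    rw [(h' 0).1] at h1
    have := d_strictMono.injective h1
    omega
  subst hn
  refine ⟨rfl, ?_⟩
  ext j
  obtain ⟨-, k, h2, h3⟩ := h (j - n)
  obtain ⟨-, l, h2', h3'⟩ := h' (j - n)
  have e : j - n + n = j := by ring
  rw [e] at h3 h3'
  rw [← h3, ← h3', h2.unique h2' (d_mem _).2]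

theorem T_t : T t 1 0 := by
  intro i
  obtain ⟨k, h1, h2⟩ := RS_t (d i)
  exact ⟨t_d i, k, h1, by rw [h2]; rfl⟩

theorem T_a : T a 0 (Finsupp.single 0 1) := by
  intro i
  by_cases h : i = 0
  · subst h
    refine ⟨by simpa using a_d 0, 1, RS_a_0 _ (by rw [d_zero]; rfl), by simp⟩
  · refine ⟨by simpa using a_d i, 0, RS_a_far _ (d_far h), ?_⟩
    rw [add_zero, Finsupp.single_apply, if_neg (Ne.symm h)]
    simp

/-- total sum -/
noncomputable def tot : (ℤ →₀ ZMod 2) →+ ZMod 2 :=
  Finsupp.liftAddHom (fun _ : ℤ => AddMonoidHom.id (ZMod 2))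

open Classical in
/-- sum over the odd numbers -/
noncomputable def od : (ℤ →₀ ZMod 2) →+ ZMod 2 :=
  Finsupp.liftAddHom (fun j : ℤ => if Odd j then AddMonoidHom.id (ZMod 2) else 0)

/-- translation as a homomorphism -/
noncomputable def shHom (n : ℤ) : (ℤ →₀ ZMod 2) →+ (ℤ →₀ ZMod 2) where
  toFun := sh n
  map_zero' := by ext j; simp [sh_apply]
  map_add' := by intro f g; ext j; simp [sh_apply]

theorem sh_single (n i : ℤ) (x : ZMod 2) :
    sh n (Finsupp.single i x) = Finsupp.single (i + n) x := by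
  simp [sh, Finsupp.equivMapDomain_single]

theorem tot_single (i : ℤ) (x : ZMod 2) : tot (Finsupp.single i x) = x := by
  simp [tot]

open Classical in
theorem od_single (i : ℤ) (x : ZMod 2) : od (Finsupp.single i x) = if Odd i then x else 0 := by
  simp only [od, Finsupp.liftAddHom_apply_single]
  split_ifs <;> simp

theorem tot_sh (n : ℤ) (f : ℤ →₀ ZMod 2) : tot (sh n f) = tot f := by
  have : tot.comp (shHom n) = tot := by
    apply Finsupp.addHom_ext
    intro i x
    change tot (sh n (Finsupp.single i x)) = _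
    rw [sh_single, tot_single, tot_single]
  exact DFunLike.congr_fun this f

theorem zmod2_cases (x : ZMod 2) : x + x = 0 := by
  revert x; decide

open Classical in
theorem od_sh (n : ℤ) (f : ℤ →₀ ZMod 2) :
    od (sh n f) = if Odd n then tot f + od f else od f := by
  by_cases hn : Odd n
  · rw [if_pos hn]
    have : od.comp (shHom n) = tot + od := by
      apply Finsupp.addHom_ext
      intro i x
      change od (sh n (Finsupp.single i x)) = tot _ + od _
      rw [sh_single, od_single, od_single, tot_single]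
      by_cases hi : Odd i
      · have h1 : ¬ Odd (i + n) := by
          rw [Int.not_odd_iff_even]
          exact hi.add_odd hn
        rw [if_neg h1, if_pos hi, zmod2_cases]
      · have h1 : Odd (i + n) := by
          rw [Int.not_odd_iff_even] at hi
          exact hi.add_odd hn
        rw [if_pos h1, if_neg hi, add_zero]
    exact DFunLike.congr_fun this f
  · rw [if_neg hn]
    have : od.comp (shHom n) = od := by
      apply Finsupp.addHom_ext
      intro i x
      change od (sh n (Finsupp.single i x)) = od _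
      rw [sh_single, od_single, od_single]
      have hn' := Int.not_odd_iff_even.1 hn
      by_cases hi : Odd i
      · rw [if_pos hi, if_pos (hi.add_even hn')]
      · rw [if_neg hi, if_neg]
        rw [Int.not_odd_iff_even] at hi ⊢
        exact hi.add hn'
    exact DFunLike.congr_fun this f

/-- the elements with even total parity -/
def S0 : Subgroup (UI ≃o UI) where
  carrier := {h | ∃ n f, T h n f ∧ tot f = 0}
  mul_mem' := by
    rintro g h ⟨n, f, h1, h2⟩ ⟨m, f', h3, h4⟩
    refine ⟨_, _, h1.mul h3, ?_⟩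
    rw [map_add, tot_sh, h2, h4, add_zero]
  one_mem' := ⟨0, 0, T.one, by simp⟩
  inv_mem' := by
    rintro g ⟨n, f, h1, h2⟩
    refine ⟨_, _, h1.inv, ?_⟩
    rw [map_neg, tot_sh, h2, neg_zero]

/-- the homomorphism onto `ℤ / 2` -/
noncomputable def chi0 : S0 →* Multiplicative (ZMod 2) where
  toFun h := Multiplicative.ofAdd (od h.2.choose_spec.choose)
  map_one' := by
    have h1 := (1 : S0).2.choose_spec.choose_spec.1
    have := (h1.unique T.one).2
    rw [this, map_zero]
    rfl
  map_mul' := by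
    intro x y
    have hx := x.2.choose_spec.choose_spec
    have hy := y.2.choose_spec.choose_spec
    have hxy := (x * y).2.choose_spec.choose_spec.1
    have := (hxy.unique (hx.1.mul hy.1)).2
    rw [this, ← ofAdd_add, map_add, od_sh]
    congr 2
    split_ifs
    · rw [hy.2, zero_add]
    · rfl

theorem chi0_eq {h : S0} {n : ℤ} {f : ℤ →₀ ZMod 2} (hT : T h n f) :
    chi0 h = Multiplicative.ofAdd (od f) := by
  have h1 := h.2.choose_spec.choose_spec.1
  have := (h1.unique hT).2
  change Multiplicative.ofAdd (od _) = _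
  rw [this]

/-- the conjugate of `a` -/
noncomputable def b : UI ≃o UI := t * a * t⁻¹

theorem T_b : T b 0 (Finsupp.single 1 1) := by
  have h := (T_t.mul T_a).mul T_t.inv
  have e : (0 : ℤ →₀ ZMod 2) + sh 1 (Finsupp.single 0 1) + sh (1 + 0) (-sh (-1) 0) =
      Finsupp.single 1 1 := by
    have : sh (-1) (0 : ℤ →₀ ZMod 2) = 0 := by ext j; simp [sh_apply]
    rw [this, sh_single, neg_zero]
    have : sh (1 + 0) (0 : ℤ →₀ ZMod 2) = 0 := by ext j; simp [sh_apply]
    rw [this]
    simp
  rw [e] at h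
  unfold b
  simpa using h

theorem comm : b * a = a * b := by
  have hb1 : ∀ x : UI, (x : ℝ) ≤ 1 / 2 → b x = x := by
    intro x hx
    have h1 : (t⁻¹ x : UI) ≤ (⟨1 / 8, by norm_num, by norm_num⟩ : UI) := by
      have : (t⁻¹ : UI ≃o UI) x = t.symm x := rfl
      rw [this, t.symm_apply_le]
      change (x : ℝ) ≤ tF (1 / 8)
      rw [tF_1 le_rfl]
      linarith
    have h2 : a (t⁻¹ x) = t⁻¹ x := by
      apply Subtype.ext
      rw [a_apply]
      exact aF_1 h1
    change t (a (t⁻¹ x)) = x
    rw [h2]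
    exact t.apply_symm_apply x
  have half : (⟨1 / 2, by norm_num, by norm_num⟩ : UI) = b ⟨1 / 2, by norm_num, by norm_num⟩ :=
    (hb1 _ le_rfl).symm
  ext x
  change (b (a x) : ℝ) = a (b x)
  rcases le_total (x : ℝ) (1 / 2) with hx | hx
  · have h1 : (a x : ℝ) ≤ 1 / 2 := by
      have h2 : a x ≤ a ⟨1 / 2, by norm_num, by norm_num⟩ := a.monotone hx
      have h3 : (a ⟨1 / 2, by norm_num, by norm_num⟩ : ℝ) = 1 / 2 := by
        rw [a_apply]; exact aF_4 le_rfl
      have h4 : (a x : ℝ) ≤ a ⟨1 / 2, by norm_num, by norm_num⟩ := h2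
      rw [h3] at h4
      exact h4
    rw [hb1 _ h1, hb1 _ hx]
  · have h1 : a x = x := by
      apply Subtype.ext
      rw [a_apply]
      exact aF_4 hx
    have h2 : (1 / 2 : ℝ) ≤ b x := by
      have h3 : b ⟨1 / 2, by norm_num, by norm_num⟩ ≤ b x := b.monotone hx
      rw [← half] at h3
      exact h3
    rw [h1, a_apply, aF_4 h2]

end Pool.Agent.H476R3.ThF
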