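import Mathlib

set_option autoImplicit false

/-! Thompson's group `V` as a subgroup of the permutations of Cantor space. -/

namespace Pool.Agent.H476R3.ThV

/-- Cantor space -/
abbrev C : Type := ℕ → Bool

/-- putting a letter in front -/
def cons (b : Bool) (w : C) : C := fun n => Nat.casesOn n b w

/-- removing the first letter -/
def tl (w : C) : C := fun n => w (n + 1)

/-- putting a word in front -/
def cat : List Bool → C → C
  | [], w => w
  | b :: u, w => cons b (cat u w)

@[simp] theorem cons_zero (b : Bool) (w : C) : cons b w 0 = b := rfl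
@[simp] theorem cons_succ (b : Bool) (w : C) (n : ℕ) : cons b w (n + 1) = w n := rfl
@[simp] theorem tl_cons (b : Bool) (w : C) : tl (cons b w) = w := rfl
theorem cons_tl (w : C) : cons (w 0) (tl w) = w := by
  funext n; cases n <;> rfl

theorem cons_inj {b b' : Bool} {w w' : C} : cons b w = cons b' w' ↔ b = b' ∧ w = w' := by
  constructor
  · intro h
    exact ⟨congrFun h 0, by
      funext n
      exact congrFun h (n + 1)⟩
  · rintro ⟨rfl, rfl⟩; rfl

theorem exists_cons (w : C) : ∃ b v, w = cons b v := ⟨w 0, tl w, (cons_tl w).symm⟩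

@[simp] theorem cat_nil (w : C) : cat [] w = w := rfl
@[simp] theorem cat_cons (b : Bool) (u : List Bool) (w : C) : cat (b :: u) w = cons b (cat u w) := rfl

theorem cat_append (u v : List Bool) (w : C) : cat (u ++ v) w = cat u (cat v w) := by
  induction u with
  | nil => rfl
  | cons b u ih => simp [ih]

theorem cat_inj {u : List Bool} {w w' : C} : cat u w = cat u w' ↔ w = w' := by
  induction u with
  | nil => rfl
  | cons b u ih => rw [cat_cons, cat_cons, cons_inj, ih]; simp

theorem cat_length_eq {u u' : List Bool} {w w' : C} (h : cat u w = cat u' w')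
    (hl : u.length = u'.length) : u = u' ∧ w = w' := by
  induction u generalizing u' with
  | nil =>
    cases u' with
    | nil => exact ⟨rfl, h⟩
    | cons b u' => simp at hl
  | cons b u ih =>
    cases u' with
    | nil => simp at hl
    | cons b' u' =>
      rw [cat_cons, cat_cons, cons_inj] at h
      obtain ⟨rfl, h⟩ := h
      obtain ⟨rfl, rfl⟩ := ih h (by simpa using hl)
      exact ⟨rfl, rfl⟩

/-- comparable words -/
theorem cat_le {u u' : List Bool} {w w' : C} (h : cat u w = cat u' w')
    (hl : u.length ≤ u'.length) : ∃ v, u' = u ++ v ∧ w = cat v w' := by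
  have e : u' = u'.take u.length ++ u'.drop u.length := (List.take_append_drop _ _).symm
  rw [e, cat_append] at h
  obtain ⟨h1, h2⟩ := cat_length_eq h (by simp; omega)
  refine ⟨u'.drop u.length, ?_, h2⟩
  conv_lhs => rw [e, ← h1]

theorem exists_cat (w : C) (n : ℕ) : ∃ (u : List Bool) (v : C), u.length = n ∧ w = cat u v := by
  induction n generalizing w with
  | zero => exact ⟨[], w, rfl, rfl⟩
  | succ n ih =>
    obtain ⟨b, w', rfl⟩ := exists_cons w
    obtain ⟨u, v, h1, rfl⟩ := ih w'
    exact ⟨b :: u, v, by simp [h1], rfl⟩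

/-- the elements of Thompson's group `V` -/
def IsV (g : Equiv.Perm C) : Prop :=
  ∃ N : ℕ, ∀ u : List Bool, u.length = N → ∃ v : List Bool, ∀ w : C, g (cat u w) = cat v w

theorem isV_one : IsV 1 := ⟨0, fun u _ => ⟨u, fun w => rfl⟩⟩

theorem IsV.mul {g h : Equiv.Perm C} (hg : IsV g) (hh : IsV h) : IsV (g * h) := by
  obtain ⟨M, hM⟩ := hg
  obtain ⟨N, hN⟩ := hh
  refine ⟨N + M, ?_⟩
  intro u hu
  have e : u = u.take N ++ u.drop N := (List.take_append_drop _ _).symm
  obtain ⟨v, hv⟩ := hN (u.take N) (by simp; omega)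
  have hl : M ≤ (v ++ u.drop N).length := by simp; omega
  have e2 : v ++ u.drop N = (v ++ u.drop N).take M ++ (v ++ u.drop N).drop M :=
    (List.take_append_drop _ _).symm
  obtain ⟨v', hv'⟩ := hM ((v ++ u.drop N).take M) (by
    rw [List.length_take]; exact min_eq_left hl)
  refine ⟨v' ++ (v ++ u.drop N).drop M, ?_⟩
  intro w
  change g (h (cat u w)) = _
  rw [e, cat_append, hv, ← cat_append, ← e]
  conv_lhs => rw [e2, cat_append, hv', ← cat_append]

theorem IsV.inv {g : Equiv.Perm C} (hg : IsV g) : IsV g⁻¹ := by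
  obtain ⟨N, hN⟩ := hg
  choose! V hV using hN
  -- a bound for the lengths
  have hb : ∃ M : ℕ, ∀ u : List Bool, u.length = N → (V u).length ≤ M := by
    have hf : (Set.range (fun u : {u : List Bool // u.length = N} => (V u.1).length)).Finite := by
      have : Finite {u : List Bool // u.length = N} := List.finite_length_eq Bool N
      exact Set.finite_range _
    obtain ⟨M, hM⟩ := hf.bddAbove
    exact ⟨M, fun u hu => hM ⟨⟨u, hu⟩, rfl⟩⟩
  obtain ⟨M, hM⟩ := hb
  refine ⟨M, ?_⟩
  intro c hc
  obtain ⟨u, w1, hu, hw1⟩ := exists_cat (g⁻¹ (cat c (fun _ => false))) N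
  have h1 : cat c (fun _ => false) = cat (V u) w1 := by
    rw [← hV u hu, ← hw1]
    simp
  obtain ⟨v, hv, -⟩ := cat_le h1.symm (by rw [hc]; exact hM u hu)
  refine ⟨u ++ v, ?_⟩
  intro w
  rw [Equiv.Perm.inv_eq_iff_eq, cat_append, hV u hu, hv, cat_append]

/-- Thompson's group `V` -/
def V : Subgroup (Equiv.Perm C) where
  carrier := {g | IsV g}
  mul_mem' := IsV.mul
  one_mem' := isV_one
  inv_mem' := IsV.inv

/-- the words used in the frozen statement -/
theorem frozen_cat (u : List Bool) (w : C) :
    (fun k => if h : k < u.length then u.get ⟨k, h⟩ else w (k - u.length)) = cat u w := by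
  induction u generalizing w with
  | nil => funext k; simp
  | cons b u ih =>
    funext k
    cases k with
    | zero => simp
    | succ k =>
      rw [cat_cons, cons_succ, ← ih]
      by_cases h : k < u.length
      · simp [h]
      · simp [h]

/-- the table condition of the frozen statement -/
def Table (D : List (List Bool × List Bool)) (g : Equiv.Perm C) : Prop :=
  (∀ w : ℕ → Bool, ∃ p ∈ D, ∀ i : ℕ, ∀ h : i < p.1.length, w i = p.1.get ⟨i, h⟩) ∧
    ∀ p ∈ D, ∀ w : ℕ → Bool,
      g (fun k => if h : k < p.1.length then p.1.get ⟨k, h⟩ else w (k - p.1.length)) =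
        (fun k => if h : k < p.2.length then p.2.get ⟨k, h⟩ else w (k - p.2.length))

theorem starts_iff (u : List Bool) (w : C) :
    (∀ i : ℕ, ∀ h : i < u.length, w i = u.get ⟨i, h⟩) ↔ ∃ v, w = cat u v := by
  induction u generalizing w with
  | nil => simp
  | cons b u ih =>
    obtain ⟨b', w', rfl⟩ := exists_cons w
    constructor
    · intro h
      have h0 := h 0 (by simp)
      simp only [cons_zero, List.get_eq_getElem, List.getElem_cons_zero] at h0
      subst h0
      obtain ⟨v, hv⟩ := (ih w').1 (by
        intro i hi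
        have := h (i + 1) (by simpa using hi)
        simpa using this)
      exact ⟨v, by rw [hv]; rfl⟩
    · rintro ⟨v, hv⟩ i hi
      rw [cat_cons, cons_inj] at hv
      obtain ⟨rfl, hv⟩ := hv
      cases i with
      | zero => simp
      | succ i =>
        have := (ih w').2 ⟨v, hv⟩ i (by simpa using hi)
        simpa using this

theorem table_iff (D : List (List Bool × List Bool)) (g : Equiv.Perm C) :
    Table D g ↔ (∀ w : C, ∃ p ∈ D, ∃ v, w = cat p.1 v) ∧ ∀ p ∈ D, ∀ w : C, g (cat p.1 w) = cat p.2 w := by
  unfold Table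
  simp only [frozen_cat, starts_iff]

theorem isV_iff (g : Equiv.Perm C) : IsV g ↔ ∃ D, Table D g := by
  constructor
  · rintro ⟨N, hN⟩
    choose! V hV using hN
    have hf : {u : List Bool | u.length = N}.Finite := List.finite_length_eq Bool N
    refine ⟨hf.toFinset.toList.map (fun u => (u, V u)), ?_⟩
    rw [table_iff]
    constructor
    · intro w
      obtain ⟨u, v, hu, rfl⟩ := exists_cat w N
      exact ⟨(u, V u), List.mem_map.2 ⟨u, by simpa using hu, rfl⟩, v, rfl⟩
    · intro p hp w
      obtain ⟨u, hu, rfl⟩ := List.mem_map.1 hp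
      exact hV u (by simpa using hu) w
  · rintro ⟨D, hD⟩
    rw [table_iff] at hD
    obtain ⟨h1, h2⟩ := hD
    -- a bound for the lengths
    have hb : ∃ N, ∀ p ∈ D, p.1.length ≤ N := by
      clear h1 h2
      induction D with
      | nil => exact ⟨0, by simp⟩
      | cons p D ih =>
        obtain ⟨N, hN⟩ := ih
        refine ⟨max p.1.length N, ?_⟩
        intro q hq
        rcases List.mem_cons.1 hq with rfl | hq
        · exact le_max_left _ _
        · exact (hN q hq).trans (le_max_right _ _)
    obtain ⟨N, hN⟩ := hb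
    refine ⟨N, ?_⟩
    intro u hu
    obtain ⟨p, hp, v, hv⟩ := h1 (cat u (fun _ => false))
    obtain ⟨u', hu', -⟩ := cat_le hv.symm (by rw [hu]; exact hN p hp)
    refine ⟨p.2 ++ u', ?_⟩
    intro w
    rw [hu', cat_append, h2 p hp, cat_append]

theorem table_unique {D : List (List Bool × List Bool)} {g h : Equiv.Perm C} (hg : Table D g)
    (hh : Table D h) : g = h := by
  rw [table_iff] at hg hh
  ext1 w
  obtain ⟨p, hp, v, rfl⟩ := hg.1 w
  rw [hg.2 p hp, hh.2 p hp]

end Pool.Agent.H476R3.ThV
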