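import Mathlib
import Pool.Agent.H476R3.VBase

set_option autoImplicit false

/-! Some elements of Thompson's group `V` and their centralisers. -/

namespace Pool.Agent.H476R3.ThV

/-- `x` as a function -/
def xf (w : C) : C :=
  if w 0 then cons true w else if w 1 then cons true (cons false (tl (tl w))) else tl w

/-- the inverse of `x` as a function -/
def xg (w : C) : C :=
  if w 0 then (if w 1 then tl w else cons false (cons true (tl (tl w)))) else cons false w

/-- the element `x` : `00w ↦ 0w`, `01w ↦ 10w`, `1w ↦ 11w` -/
def x : Equiv.Perm C where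
  toFun := xf
  invFun := xg
  left_inv := by
    intro w
    obtain ⟨a, w, rfl⟩ := exists_cons w
    obtain ⟨b, w, rfl⟩ := exists_cons w
    cases a <;> cases b <;> simp [xf, xg, show ∀ (a : Bool) (w : C), cons a w 1 = w 0 from fun _ _ => rfl]
  right_inv := by
    intro w
    obtain ⟨a, w, rfl⟩ := exists_cons w
    obtain ⟨b, w, rfl⟩ := exists_cons w
    cases a <;> cases b <;> simp [xf, xg, show ∀ (a : Bool) (w : C), cons a w 1 = w 0 from fun _ _ => rfl]

theorem x_00 (w : C) : x (cons false (cons false w)) = cons false w := rfl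
theorem x_01 (w : C) : x (cons false (cons true w)) = cons true (cons false w) := rfl
theorem x_1 (w : C) : x (cons true w) = cons true (cons true w) := rfl
theorem xi_0 (w : C) : x⁻¹ (cons false w) = cons false (cons false w) := rfl
theorem xi_10 (w : C) : x⁻¹ (cons true (cons false w)) = cons false (cons true w) := rfl
theorem xi_11 (w : C) : x⁻¹ (cons true (cons true w)) = cons true w := rfl

/-- the element `s` exchanging the two halves -/
def s : Equiv.Perm C where
  toFun w := cons (!w 0) (tl w)
  invFun w := cons (!w 0) (tl w)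
  left_inv w := by simp [cons_tl]
  right_inv w := by simp [cons_tl]

theorem s_cons (b : Bool) (w : C) : s (cons b w) = cons (!b) w := rfl

/-- acting on the cone of a letter -/
def lff (c : Bool) (g : C → C) (w : C) : C := if w 0 = c then cons c (g (tl w)) else w

/-- acting on the cone of a letter -/
def lf (c : Bool) (g : Equiv.Perm C) : Equiv.Perm C where
  toFun := lff c g
  invFun := lff c g.symm
  left_inv := by
    intro w
    obtain ⟨a, w, rfl⟩ := exists_cons w
    by_cases h : a = c
    · simp [lff, h]
    · simp [lff, h]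
  right_inv := by
    intro w
    obtain ⟨a, w, rfl⟩ := exists_cons w
    by_cases h : a = c
    · simp [lff, h]
    · simp [lff, h]

theorem lf_eq (c : Bool) (g : Equiv.Perm C) (w : C) : lf c g (cons c w) = cons c (g w) := by
  change lff c g (cons c w) = _
  simp [lff]

theorem lf_ne {c a : Bool} (g : Equiv.Perm C) (w : C) (h : a ≠ c) :
    lf c g (cons a w) = cons a w := by
  change lff c g (cons a w) = _
  simp [lff, h]

theorem lf_mul (c : Bool) (g h : Equiv.Perm C) : lf c (g * h) = lf c g * lf c h := by
  ext1 w
  obtain ⟨a, w, rfl⟩ := exists_cons w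
  by_cases hc : a = c
  · subst hc
    rw [Equiv.Perm.mul_apply, lf_eq, lf_eq, lf_eq, Equiv.Perm.mul_apply]
  · rw [Equiv.Perm.mul_apply, lf_ne _ _ hc, lf_ne _ _ hc, lf_ne _ _ hc]

/-- `lf` as a homomorphism -/
def lfHom (c : Bool) : Equiv.Perm C →* Equiv.Perm C := MonoidHom.mk' (lf c) (lf_mul c)

theorem lf_inv (c : Bool) (g : Equiv.Perm C) : lf c g⁻¹ = (lf c g)⁻¹ := map_inv (lfHom c) g
theorem lf_zpow (c : Bool) (g : Equiv.Perm C) (n : ℤ) : lf c (g ^ n) = (lf c g) ^ n :=
  map_zpow (lfHom c) g n

theorem isV_of_two {g : Equiv.Perm C} (h : ∀ a b : Bool, ∃ v : List Bool, ∀ w : C,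
    g (cons a (cons b w)) = cat v w) : IsV g := by
  refine ⟨2, ?_⟩
  intro u hu
  match u, hu with
  | [a, b], _ => exact h a b

theorem x_isV : IsV x := by
  apply isV_of_two
  intro a b
  cases a <;> cases b
  · exact ⟨[false], fun w => rfl⟩
  · exact ⟨[true, false], fun w => rfl⟩
  · exact ⟨[true, true, false], fun w => rfl⟩
  · exact ⟨[true, true, true], fun w => rfl⟩

theorem s_isV : IsV s := by
  apply isV_of_two
  intro a b
  exact ⟨[!a, b], fun w => rfl⟩

theorem IsV.lf {g : Equiv.Perm C} (hg : IsV g) (c : Bool) : IsV (lf c g) := by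
  obtain ⟨N, hN⟩ := hg
  refine ⟨N + 1, ?_⟩
  intro u hu
  match u, hu with
  | a :: u, hu =>
    obtain ⟨v, hv⟩ := hN u (by simpa using hu)
    by_cases h : a = c
    · subst h
      exact ⟨a :: v, fun w => by rw [cat_cons, lf_eq, hv]; rfl⟩
    · exact ⟨a :: u, fun w => by rw [cat_cons, lf_ne _ _ h]⟩

/-- the word `w` starts with the word `u` -/
def St (u : List Bool) (w : C) : Prop := ∃ v, w = cat u v

@[simp] theorem st_nil (w : C) : St [] w := ⟨w, rfl⟩
@[simp] theorem st_cons (b b' : Bool) (u : List Bool) (w : C) :
    St (b :: u) (cons b' w) ↔ b' = b ∧ St u w := by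
  constructor
  · rintro ⟨v, hv⟩
    rw [cat_cons, cons_inj] at hv
    exact ⟨hv.1, v, hv.2⟩
  · rintro ⟨rfl, v, rfl⟩
    exact ⟨v, rfl⟩

/-- `g` preserves the property `S` -/
def Pres (g : Equiv.Perm C) (S : C → Prop) : Prop := ∀ w, S (g w) ↔ S w

theorem pres_supp {g h : Equiv.Perm C} (hc : g * h = h * g) : Pres g (fun w => h w ≠ w) := by
  intro w
  have : h (g w) = g (h w) := by
    rw [← Equiv.Perm.mul_apply, ← hc, Equiv.Perm.mul_apply]
  simp only [this, ne_eq, EmbeddingLike.apply_eq_iff_eq]

theorem Pres.pre {g h : Equiv.Perm C} (hc : g * h = h * g) {S : C → Prop} (hS : Pres g S) :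
    Pres g (fun w => S (h w)) := by
  intro w
  have : h (g w) = g (h w) := by
    rw [← Equiv.Perm.mul_apply, ← hc, Equiv.Perm.mul_apply]
  simp only [this]
  exact hS _

theorem Pres.congr {g : Equiv.Perm C} {S T : C → Prop} (hS : Pres g S) (h : ∀ w, S w ↔ T w) :
    Pres g T := by
  intro w
  rw [← h, ← h]
  exact hS w

theorem inv_comm' {g h : Equiv.Perm C} (hc : g * h = h * g) : g * h⁻¹ = h⁻¹ * g :=
  (Commute.inv_right (show Commute g h from hc)).eq

/-- An element commuting with three particular elements acting on a cone fixes the cone. -/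
theorem fix_cone {g : Equiv.Perm C} {c : Bool} (h1 : g * lf c x = lf c x * g)
    (h2 : g * lf c s = lf c s * g) (h3 : g * lf c (lf false s) = lf c (lf false s) * g) (w : C) :
    g (cons c w) = cons c w := by
  -- cones are preserved
  have p0 : Pres g (St [c, false]) := by
    refine (pres_supp h3).congr ?_
    intro w
    obtain ⟨a, w, rfl⟩ := exists_cons w
    obtain ⟨b, w, rfl⟩ := exists_cons w
    by_cases ha : a = c
    · subst ha
      rw [lf_eq]
      cases b
      · rw [lf_eq]
        obtain ⟨d, w, rfl⟩ := exists_cons w
        rw [s_cons]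
        simp [cons_inj]
      · rw [lf_ne _ _ (by decide)]
        simp
    · rw [lf_ne _ _ ha]
      simp [ha]
  have key : ∀ n : ℕ, ∀ v : List Bool, v.length = n + 1 → Pres g (St (c :: v)) := by
    intro n
    induction n with
    | zero =>
      intro v hv
      match v, hv with
      | [false], _ => exact p0
      | [true], _ =>
        refine (p0.pre h2).congr ?_
        intro w
        obtain ⟨a, w, rfl⟩ := exists_cons w
        obtain ⟨b, w, rfl⟩ := exists_cons w
        by_cases ha : a = c
        · subst ha
          rw [lf_eq, s_cons]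
          cases b <;> simp
        · rw [lf_ne _ _ ha]
          simp [ha]
    | succ n ih =>
      have ff : ∀ v : List Bool, v.length = n → Pres g (St (c :: false :: false :: v)) := by
        intro v hv
        refine ((ih (false :: v) (by simp [hv])).pre h1).congr ?_
        intro w
        obtain ⟨a, w, rfl⟩ := exists_cons w
        obtain ⟨b, w, rfl⟩ := exists_cons w
        obtain ⟨d, w, rfl⟩ := exists_cons w
        by_cases ha : a = c
        · subst ha
          rw [lf_eq]
          cases b
          · cases d
            · rw [x_00]; simp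
            · rw [x_01]; simp
          · rw [x_1]; simp
        · rw [lf_ne _ _ ha]
          simp [ha]
      have tt : ∀ v : List Bool, v.length = n → Pres g (St (c :: true :: true :: v)) := by
        intro v hv
        refine ((ih (true :: v) (by simp [hv])).pre (inv_comm' h1)).congr ?_
        intro w
        obtain ⟨a, w, rfl⟩ := exists_cons w
        obtain ⟨b, w, rfl⟩ := exists_cons w
        obtain ⟨d, w, rfl⟩ := exists_cons w
        rw [← lf_inv]
        by_cases ha : a = c
        · subst ha
          rw [lf_eq]
          cases b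
          · rw [xi_0]; simp
          · cases d
            · rw [xi_10]; simp
            · rw [xi_11]; simp
        · rw [lf_ne _ _ ha]
          simp [ha]
      intro v hv
      match v, hv with
      | false :: false :: v, hv => exact ff v (by simpa using hv)
      | true :: true :: v, hv => exact tt v (by simpa using hv)
      | false :: true :: v, hv =>
        refine ((tt v (by simpa using hv)).pre h2).congr ?_
        intro w
        obtain ⟨a, w, rfl⟩ := exists_cons w
        obtain ⟨b, w, rfl⟩ := exists_cons w
        by_cases ha : a = c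
        · subst ha
          rw [lf_eq, s_cons]
          cases b <;> simp
        · rw [lf_ne _ _ ha]
          simp [ha]
      | true :: false :: v, hv =>
        refine ((ff v (by simpa using hv)).pre h2).congr ?_
        intro w
        obtain ⟨a, w, rfl⟩ := exists_cons w
        obtain ⟨b, w, rfl⟩ := exists_cons w
        by_cases ha : a = c
        · subst ha
          rw [lf_eq, s_cons]
          cases b <;> simp
        · rw [lf_ne _ _ ha]
          simp [ha]
  -- conclusion
  have hpre : ∀ (n : ℕ), ∃ u : List Bool, u.length = n + 1 ∧ St (c :: u) (cons c w) ∧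
      St (c :: u) (g (cons c w)) := by
    intro n
    obtain ⟨u, v, hu, rfl⟩ := exists_cat w (n + 1)
    have h0 : St (c :: u) (cons c (cat u v)) := ⟨v, rfl⟩
    exact ⟨u, hu, h0, ((key n u hu) _).2 h0⟩
  funext n
  obtain ⟨u, hu, ⟨v1, e1⟩, ⟨v2, e2⟩⟩ := hpre n
  have hlt : n < (c :: u).length := by rw [List.length_cons, hu]; omega
  have hget : ∀ v : C, cat (c :: u) v n = (c :: u).get ⟨n, hlt⟩ := by
    intro v
    rw [← frozen_cat]
    exact dif_pos hlt
  rw [e2, hget, e1, hget]

/-- An element fixing a cone commutes with the elements acting on the cone. -/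
theorem comm_of_fix {g : Equiv.Perm C} {c : Bool} (h : ∀ w, g (cons c w) = cons c w)
    (k : Equiv.Perm C) : g * lf c k = lf c k * g := by
  ext1 w
  rw [Equiv.Perm.mul_apply, Equiv.Perm.mul_apply]
  obtain ⟨a, w, rfl⟩ := exists_cons w
  by_cases ha : a = c
  · subst ha
    rw [lf_eq, h, h, lf_eq]
  · rw [lf_ne _ _ ha]
    obtain ⟨b, v, hv⟩ := exists_cons (g (cons a w))
    have hb : b ≠ c := by
      intro hb
      subst hb
      rw [← h v] at hv
      have := g.injective hv
      rw [cons_inj] at this
      exact ha this.1
    rw [hv, lf_ne _ _ hb]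

end Pool.Agent.H476R3.ThV
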