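import Mathlib
import Pool.Agent.H476R3.VElt

set_option autoImplicit false

/-! Centralisers and germs. -/

namespace Pool.Agent.H476R3.ThV

/-- putting `n` letters `b` in front -/
def pw (b : Bool) : ℕ → C → C
  | 0, w => w
  | n + 1, w => cons b (pw b n w)

@[simp] theorem pw_zero (b : Bool) (w : C) : pw b 0 w = w := rfl
theorem pw_succ (b : Bool) (n : ℕ) (w : C) : pw b (n + 1) w = cons b (pw b n w) := rfl
theorem pw_add (b : Bool) (m n : ℕ) (w : C) : pw b (m + n) w = pw b m (pw b n w) := by
  induction m with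
  | zero => simp
  | succ m ih => rw [Nat.succ_add, pw_succ, pw_succ, ih]
theorem pw_succ' (b : Bool) (n : ℕ) (w : C) : pw b (n + 1) w = pw b n (cons b w) := by
  rw [pw_add]; rfl
theorem pw_cat (b : Bool) (n : ℕ) (w : C) : pw b n w = cat (List.replicate n b) w := by
  induction n with
  | zero => rfl
  | succ n ih => rw [pw_succ, ih, List.replicate_succ, cat_cons]

theorem pw_inj {b : Bool} {n : ℕ} {w w' : C} : pw b n w = pw b n w' ↔ w = w' := by
  rw [pw_cat, pw_cat, cat_inj]

/-- the leading block is determined -/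
theorem pw_unique {b : Bool} : ∀ {m n : ℕ} {w w' : C},
    pw b m (cons (!b) w) = pw b n (cons (!b) w') → m = n := by
  intro m
  induction m with
  | zero =>
    intro n w w' h
    cases n with
    | zero => rfl
    | succ n =>
      rw [pw_zero, pw_succ, cons_inj] at h
      exact absurd h.1 (by cases b <;> decide)
  | succ m ih =>
    intro n w w' h
    cases n with
    | zero =>
      rw [pw_zero, pw_succ, cons_inj] at h
      exact absurd h.1 (by cases b <;> decide)
    | succ n =>
      rw [pw_succ, pw_succ, cons_inj] at h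
      rw [ih h.2]

/-- the constant point -/
def cst (b : Bool) : C := fun _ => b

theorem cst_cons (b : Bool) : cons b (cst b) = cst b := by
  funext n; cases n <;> rfl
theorem cst_pw (b : Bool) (n : ℕ) : pw b n (cst b) = cst b := by
  induction n with
  | zero => rfl
  | succ n ih => rw [pw_succ, ih, cst_cons]

theorem exists_block (b : Bool) (w : C) : w = cst b ∨ ∃ (n : ℕ) (v : C), w = pw b n (cons (!b) v) := by
  classical
  by_cases h : ∃ n, w n ≠ b
  · right
    obtain ⟨n, hn⟩ := h
    induction n generalizing w with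
    | zero =>
      refine ⟨0, tl w, ?_⟩
      rw [pw_zero, show (!b) = w 0 by
        have h0 : w 0 ≠ b := hn
        cases hb : b <;> cases hw : w 0 <;> simp_all, cons_tl]
    | succ n ih =>
      obtain ⟨a, w', rfl⟩ := exists_cons w
      by_cases ha : a = b
      · subst ha
        obtain ⟨m, v, hv⟩ := ih w' hn
        exact ⟨m + 1, v, by rw [pw_succ, hv]⟩
      · refine ⟨0, w', ?_⟩
        have : a = !b := by cases a <;> cases b <;> simp_all
        rw [this]; rfl
  · left
    funext n
    by_contra hn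
    exact h ⟨n, hn⟩

/-- germ of `g` at the constant point: `g` adds `k` letters `b` -/
def AB (b : Bool) (g : Equiv.Perm C) (k : ℤ) : Prop :=
  ∃ M N : ℕ, (N : ℤ) = M + k ∧ ∀ w, g (pw b M w) = pw b N w

theorem AB.mul {b : Bool} {g h : Equiv.Perm C} {k l : ℤ} (hg : AB b g k) (hh : AB b h l) :
    AB b (g * h) (k + l) := by
  obtain ⟨M, N, e, hg⟩ := hg
  obtain ⟨M', N', e', hh⟩ := hh
  refine ⟨M' + M, N + N', by push_cast; linarith, ?_⟩
  intro w
  rw [Equiv.Perm.mul_apply, pw_add, hh, ← pw_add, Nat.add_comm N' M, pw_add, hg, ← pw_add]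

theorem AB.inv {b : Bool} {g : Equiv.Perm C} {k : ℤ} (hg : AB b g k) : AB b g⁻¹ (-k) := by
  obtain ⟨M, N, e, hg⟩ := hg
  refine ⟨N, M, by linarith, ?_⟩
  intro w
  rw [Equiv.Perm.inv_eq_iff_eq, hg]

theorem AB.one (b : Bool) : AB b 1 0 := ⟨0, 0, by simp, fun w => rfl⟩

theorem AB.unique {b : Bool} {g : Equiv.Perm C} {k l : ℤ} (hg : AB b g k) (hg' : AB b g l) :
    k = l := by
  obtain ⟨M, N, e, hg⟩ := hg
  obtain ⟨M', N', e', hg'⟩ := hg'
  have h1 := hg (pw b M' (cons (!b) (cst b)))
  have h2 := hg' (pw b M (cons (!b) (cst b)))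
  rw [← pw_add, ← pw_add] at h1 h2
  rw [Nat.add_comm M M', h2] at h1
  have := pw_unique h1
  omega

theorem AB.pow {b : Bool} {g : Equiv.Perm C} {k : ℤ} (hg : AB b g k) (n : ℕ) :
    AB b (g ^ n) (n * k) := by
  induction n with
  | zero => simpa using AB.one b
  | succ n ih =>
    rw [pow_succ]
    have := ih.mul hg
    have e : ((n + 1 : ℕ) : ℤ) * k = n * k + k := by push_cast; ring
    rw [e]; exact this

theorem AB.zpow {b : Bool} {g : Equiv.Perm C} {k : ℤ} (hg : AB b g k) (n : ℤ) :
    AB b (g ^ n) (n * k) := by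
  obtain ⟨n, rfl | rfl⟩ := n.eq_nat_or_neg
  · simpa using hg.pow n
  · have := (hg.pow n).inv
    rw [zpow_neg, zpow_natCast]
    have e : -(n : ℤ) * k = -(n * k) := by ring
    rw [e]; exact this

theorem AB_zero_iff {b : Bool} {g : Equiv.Perm C} :
    AB b g 0 ↔ ∃ M, ∀ w, g (pw b M w) = pw b M w := by
  constructor
  · rintro ⟨M, N, e, h⟩
    have : N = M := by omega
    subst this
    exact ⟨N, h⟩
  · rintro ⟨M, h⟩
    exact ⟨M, M, by simp, h⟩

theorem AB_x_false : AB false x (-1) := ⟨2, 1, by norm_num, fun w => rfl⟩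
theorem AB_x_true : AB true x 1 := ⟨1, 2, by norm_num, fun w => rfl⟩

/-- the element `y` -/
def y : Equiv.Perm C := lf true x

theorem y_false (w : C) : y (cons false w) = cons false w := lf_ne _ _ (by decide)
theorem AB_y_false : AB false y 0 := AB_zero_iff.2 ⟨1, fun w => y_false w⟩
theorem AB_y_true : AB true y 1 := ⟨2, 3, by norm_num, fun w => rfl⟩

theorem y_pow_false (q : ℕ) (w : C) : (y ^ q) (cons false w) = cons false w := by
  induction q with
  | zero => rfl
  | succ q ih => rw [pow_succ', Equiv.Perm.mul_apply, ih, y_false]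

/-- the element `z q` -/
def z (q : ℕ) : Equiv.Perm C := y ^ q * x

theorem AB_z_false (q : ℕ) : AB false (z q) (-1) := by
  have := (AB_y_false.pow q).mul AB_x_false
  unfold z
  simpa using this

theorem AB_z_true (q : ℕ) : AB true (z q) (q + 1) := by
  have := (AB_y_true.pow q).mul AB_x_true
  unfold z
  simpa using this

theorem z_00 (q : ℕ) (w : C) : z q (cons false (cons false w)) = cons false w := by
  unfold z
  rw [Equiv.Perm.mul_apply, x_00, y_pow_false]

theorem zi_0 (q : ℕ) (w : C) : (z q)⁻¹ (cons false w) = cons false (cons false w) := by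
  rw [Equiv.Perm.inv_eq_iff_eq, z_00]

theorem zi_pow_0 (q j : ℕ) (w : C) : ((z q)⁻¹ ^ j) (cons false w) = pw false (j + 1) w := by
  induction j with
  | zero => rfl
  | succ j ih => rw [pow_succ', Equiv.Perm.mul_apply, ih, pw_succ, zi_0]; rfl

theorem yi_block (a : ℕ) (v : C) : ∃ (a' : ℕ) (v' : C), a' ≤ a ∧
    y⁻¹ (pw true (a + 1) (cons false v)) = pw true (a' + 1) (cons false v') := by
  have e : y⁻¹ = lf true x⁻¹ := by rw [lf_inv]; rfl
  rw [e, pw_succ, lf_eq]
  match a with
  | 0 => exact ⟨0, cons false v, le_rfl, by rw [pw_zero, xi_0]; rfl⟩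
  | 1 => exact ⟨0, cons true v, by omega, by rw [pw_succ, pw_zero, xi_10]; rfl⟩
  | a + 2 => exact ⟨a + 1, v, by omega, by rw [pw_succ, pw_succ, xi_11]⟩

theorem yi_pow_block (q : ℕ) : ∀ (a : ℕ) (v : C), ∃ (a' : ℕ) (v' : C), a' ≤ a ∧
    (y⁻¹ ^ q) (pw true (a + 1) (cons false v)) = pw true (a' + 1) (cons false v') := by
  induction q with
  | zero => intro a v; exact ⟨a, v, le_rfl, rfl⟩
  | succ q ih =>
    intro a v
    obtain ⟨a1, v1, h1, h2⟩ := ih a v
    obtain ⟨a2, v2, h3, h4⟩ := yi_block a1 v1
    refine ⟨a2, v2, h3.trans h1, ?_⟩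
    rw [pow_succ', Equiv.Perm.mul_apply, h2, h4]

theorem zi_block (q a : ℕ) (v : C) : ∃ (a' : ℕ) (v' : C), a' ≤ a ∧
    (z q)⁻¹ (pw true (a + 1) (cons false v)) = pw true a' (cons false v') := by
  obtain ⟨a1, v1, h1, h2⟩ := yi_pow_block q a v
  have e : (z q)⁻¹ = x⁻¹ * y⁻¹ ^ q := by unfold z; rw [mul_inv_rev, inv_pow]
  rw [e, Equiv.Perm.mul_apply, h2]
  cases a1 with
  | zero => exact ⟨0, cons true v1, by omega, by rw [pw_succ, pw_zero, xi_10]; rfl⟩
  | succ a1 => exact ⟨a1 + 1, v1, h1, by rw [pw_succ, pw_succ, xi_11]⟩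

theorem reach_zero (q : ℕ) (a : ℕ) : ∀ v : C, ∃ (j : ℕ) (v' : C),
    ((z q)⁻¹ ^ j) (pw true a (cons false v)) = cons false v' := by
  induction a using Nat.strong_induction_on with
  | _ a ih =>
    intro v
    cases a with
    | zero => exact ⟨0, v, rfl⟩
    | succ a =>
      obtain ⟨a', v', h1, h2⟩ := zi_block q a v
      obtain ⟨j, v'', h3⟩ := ih a' (by omega) v'
      refine ⟨j + 1, v'', ?_⟩
      rw [pow_succ, Equiv.Perm.mul_apply, h2, h3]

/-- every point other than `111...` comes from near `000...` -/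
theorem reach_deep (q m : ℕ) (w : C) (hw : w ≠ cst true) : ∃ (j : ℕ) (v : C),
    ((z q)⁻¹ ^ j) w = pw false (m + 1) v := by
  rcases exists_block true w with h | ⟨a, v, rfl⟩
  · exact absurd h hw
  · obtain ⟨j, v', h⟩ := reach_zero q a v
    refine ⟨m + j, v', ?_⟩
    rw [pow_add, Equiv.Perm.mul_apply]
    have : (!true) = false := rfl
    rw [this, h, zi_pow_0]

theorem z_fix {q : ℕ} {w : C} (h : z q w = w) : w = cst true ∨ w = cst false := by
  by_cases hw : w = cst true
  · exact Or.inl hw
  · right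
    have hi : (z q)⁻¹ w = w := by rw [Equiv.Perm.inv_eq_iff_eq, h]
    have hj : ∀ j : ℕ, ((z q)⁻¹ ^ j) w = w := by
      intro j
      induction j with
      | zero => rfl
      | succ j ih => rw [pow_succ', Equiv.Perm.mul_apply, ih, hi]
    funext n
    obtain ⟨j, v, hv⟩ := reach_deep q n w hw
    rw [hj] at hv
    rw [hv]
    have : ∀ (n : ℕ) (v : C), pw false (n + 1) v n = false := by
      intro n
      induction n with
      | zero => intro v; rfl
      | succ n ih => intro v; rw [pw_succ]; exact ih v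
    exact this n v

theorem z_cst_false (q : ℕ) : z q (cst false) = cst false := by
  have := z_00 q (cst false)
  rw [cst_cons, cst_cons] at this
  exact this

theorem cat_cst {u : List Bool} (h : cat u (cst false) = cst false) :
    u = List.replicate u.length false := by
  induction u with
  | nil => rfl
  | cons b u ih =>
    rw [cat_cons] at h
    have h' := h.trans (cst_cons false).symm
    rw [cons_inj] at h'
    obtain ⟨h1, h2⟩ := h'
    rw [h1, List.length_cons, List.replicate_succ, ← ih h2]

theorem cat_ne_cst {u : List Bool} (h : cat u (cst false) = cst true) : False := by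
  induction u with
  | nil =>
    have := congrFun h 0
    simp [cst] at this
  | cons b u ih =>
    rw [cat_cons] at h
    have h' := h.trans (cst_cons true).symm
    rw [cons_inj] at h'
    exact ih h'.2

/-- **centralisers** : an element commuting with `z q` which is a word replacement near `000...`
is a power of `z q`. -/
theorem centralizer_z {q : ℕ} {g : Equiv.Perm C} (hc : g * z q = z q * g)
    (hl : ∃ (m : ℕ) (u : List Bool), ∀ w, g (pw false m w) = cat u w) :
    ∃ n : ℤ, g = (z q) ^ n := by
  obtain ⟨m, u, hg⟩ := hl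
  have hgw : ∀ w, z q (g w) = g (z q w) := by
    intro w
    rw [← Equiv.Perm.mul_apply, ← hc, Equiv.Perm.mul_apply]
  have h0 : g (cst false) = cat u (cst false) := by
    have := hg (cst false)
    rwa [cst_pw] at this
  have h1 : z q (g (cst false)) = g (cst false) := by rw [hgw, z_cst_false]
  have h2 : cat u (cst false) = cst false := by
    rcases z_fix h1 with h | h
    · rw [h0] at h; exact (cat_ne_cst h).elim
    · rw [h0] at h; exact h
  have hu := cat_cst h2
  set l := u.length with hl
  have hg' : ∀ w, g (pw false m w) = pw false l w := by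
    intro w
    rw [hg, hu, pw_cat]
  -- the normalised element
  have hcom : Commute g (z q) := hc
  let g' : Equiv.Perm C := (z q)⁻¹ ^ m * (z q) ^ l * g
  have hcom' : Commute g' (z q) := by
    refine Commute.mul_left (Commute.mul_left ?_ ?_) hcom
    · exact ((Commute.refl (z q)).inv_left).pow_left m
    · exact (Commute.refl (z q)).pow_left l
  have hfix : ∀ w, g' (pw false (m + 1) w) = pw false (m + 1) w := by
    intro w
    change ((z q)⁻¹ ^ m) (((z q) ^ l) (g (pw false (m + 1) w))) = _
    rw [pw_succ', hg', ← pw_succ']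
    have : (z q ^ l) (pw false (l + 1) w) = cons false w := by
      have h := zi_pow_0 q l w
      rw [← h, ← Equiv.Perm.mul_apply, inv_pow, mul_inv_cancel]
      rfl
    rw [this, zi_pow_0]
    exact pw_succ' _ _ _
  have hfix2 : ∀ w, w ≠ cst true → g' w = w := by
    intro w hw
    obtain ⟨j, v, hv⟩ := reach_deep q m w hw
    have hcj : Commute g' ((z q)⁻¹ ^ j) := hcom'.inv_right.pow_right j
    have h3 : ((z q)⁻¹ ^ j) (g' w) = ((z q)⁻¹ ^ j) w := by
      rw [← Equiv.Perm.mul_apply, ← hcj.eq, Equiv.Perm.mul_apply, hv, hfix]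
    exact ((z q)⁻¹ ^ j).injective h3
  have hg1 : g' = 1 := by
    ext1 w
    by_cases hw : w = cst true
    · subst hw
      by_contra hne
      have h4 := hfix2 (g' (cst true)) hne
      exact hne (g'.injective h4)
    · exact hfix2 w hw
  refine ⟨m - l, ?_⟩
  have h5 : (z q)⁻¹ ^ m * (z q) ^ l * g = 1 := hg1
  have h6 : g = ((z q)⁻¹ ^ m * (z q) ^ l)⁻¹ := (eq_inv_of_mul_eq_one_right h5)
  rw [h6, mul_inv_rev, inv_pow, inv_inv, zpow_sub, zpow_natCast, zpow_natCast]
  exact (((Commute.refl (z q)).pow_pow m l).inv_right).eq.symm ▸ rfl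

end Pool.Agent.H476R3.ThV
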