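import Mathlib
import Pool.Agent.H476R3.VCent
import Pool.Agent.H476R3.VDfn

set_option autoImplicit false

/-! Definable relations in Thompson's group `V`. -/

namespace Pool.Agent.H476R3.ThV

open Pool.Agent.H476R3.Df

theorem inv_app (g : Equiv.Perm C) (w : C) : g⁻¹ (g w) = w := g.symm_apply_apply w
theorem app_inv (g : Equiv.Perm C) (w : C) : g (g⁻¹ w) = w := g.apply_symm_apply w

theorem x_pow_cons_true (n : ℕ) (w : C) : (x ^ n) (cons true w) = pw true (n + 1) w := by
  induction n with
  | zero => rfl
  | succ n ih => rw [pow_succ', Equiv.Perm.mul_apply, ih, pw_succ, x_1]; rfl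

theorem xi_pow_cons_false (n : ℕ) (w : C) : (x⁻¹ ^ n) (cons false w) = pw false (n + 1) w := by
  induction n with
  | zero => rfl
  | succ n ih => rw [pow_succ', Equiv.Perm.mul_apply, ih, pw_succ, xi_0]; rfl

theorem AB_x (b : Bool) : AB b x (if b then 1 else -1) := by
  cases b
  · exact AB_x_false
  · exact AB_x_true

/-- local form of the elements of `V` near a constant point -/
theorem IsV.near {g : Equiv.Perm C} (hg : IsV g) (b : Bool) :
    ∃ (m : ℕ) (u : List Bool), ∀ w, g (pw b m w) = cat u w := by
  obtain ⟨N, hN⟩ := hg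
  obtain ⟨v, hv⟩ := hN (List.replicate N b) (by simp)
  exact ⟨N, v, fun w => by rw [pw_cat, hv]⟩

theorem z_zero : z 0 = x := by unfold z; simp

/-- the centraliser of `x` in `V` -/
theorem cent_x {g : Equiv.Perm C} (hg : IsV g) : g * x = x * g ↔ ∃ n : ℤ, g = x ^ n := by
  constructor
  · intro h
    rw [← z_zero] at h
    obtain ⟨n, hn⟩ := centralizer_z h (hg.near false)
    exact ⟨n, by rw [hn, z_zero]⟩
  · rintro ⟨n, rfl⟩
    exact ((Commute.refl x).zpow_left n).eq

/-- elements commuting with `y` and fixing the cone `0` -/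
theorem cent_y {g : Equiv.Perm C} (hg : IsV g) :
    (g * y = y * g ∧ ∀ w, g (cons false w) = cons false w) ↔ ∃ n : ℤ, g = y ^ n := by
  constructor
  · rintro ⟨h, hf⟩
    -- the cone `1` is preserved
    have h1 : ∀ w, (g (cons true w)) 0 = true := by
      intro w
      by_contra hne
      have hz : (g (cons true w)) 0 = false := by simpa using hne
      obtain ⟨b, v, hv⟩ := exists_cons (g (cons true w))
      rw [hv, cons_zero] at hz
      rw [hz, ← hf v] at hv
      have := g.injective hv
      rw [cons_inj] at this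
      exact absurd this.1 (by decide)
    have h1' : ∀ w, g (cons true w) = cons true (tl (g (cons true w))) := by
      intro w
      conv_lhs => rw [← cons_tl (g (cons true w)), h1]
    have h2 : ∀ w, (g⁻¹ (cons true w)) 0 = true := by
      intro w
      by_contra hne
      have hz : (g⁻¹ (cons true w)) 0 = false := by simpa using hne
      obtain ⟨b, v, hv⟩ := exists_cons (g⁻¹ (cons true w))
      rw [hv, cons_zero] at hz
      rw [hz, Equiv.Perm.inv_eq_iff_eq, hf, cons_inj] at hv
      exact absurd hv.1 (by decide)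
    have h2' : ∀ w, g⁻¹ (cons true w) = cons true (tl (g⁻¹ (cons true w))) := by
      intro w
      conv_lhs => rw [← cons_tl (g⁻¹ (cons true w)), h2]
    let k : Equiv.Perm C :=
      { toFun := fun w => tl (g (cons true w))
        invFun := fun w => tl (g⁻¹ (cons true w))
        left_inv := by
          intro w
          change tl (g⁻¹ (cons true (tl (g (cons true w))))) = w
          rw [← h1', inv_app, tl_cons]
        right_inv := by
          intro w
          change tl (g (cons true (tl (g⁻¹ (cons true w))))) = w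
          rw [← h2', app_inv, tl_cons] }
    have hk : ∀ w, g (cons true w) = cons true (k w) := h1'
    have hgk : g = lf true k := by
      ext1 w
      obtain ⟨a, w, rfl⟩ := exists_cons w
      cases a
      · rw [hf, lf_ne _ _ (by decide)]
      · rw [hk, lf_eq]
    have hkx : k * x = x * k := by
      ext1 w
      have := congrArg (fun f : Equiv.Perm C => f (cons true w)) h
      simp only [Equiv.Perm.mul_apply] at this
      rw [y, lf_eq, hk, hk, lf_eq, cons_inj] at this
      exact this.2
    have hkV : IsV k := by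
      obtain ⟨N, hN⟩ := hg
      refine ⟨N, ?_⟩
      intro u hu
      -- use depth `N + 1` in `g`
      have hN' : ∃ v, ∀ w, g (cat (true :: u) w) = cat v w := by
        obtain ⟨v, hv⟩ := hN ((true :: u).take N) (by simp; omega)
        refine ⟨v ++ (true :: u).drop N, ?_⟩
        intro w
        conv_lhs => rw [← List.take_append_drop N (true :: u), cat_append, hv, ← cat_append]
      obtain ⟨v, hv⟩ := hN'
      match v, hv with
      | [], hv =>
        exfalso
        have h3 := hk (cat u (cst false))
        have h4 := hv (cst false)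
        rw [cat_cons, h3, cat_nil] at h4
        have := congrFun h4 0
        simp [cst] at this
      | b :: v, hv =>
        refine ⟨v, ?_⟩
        intro w
        have := hv w
        rw [cat_cons, hk, cat_cons, cons_inj] at this
        exact this.2
    obtain ⟨n, hn⟩ := (cent_x hkV).1 hkx
    exact ⟨n, by rw [hgk, hn, lf_zpow]; rfl⟩
  · rintro ⟨n, rfl⟩
    refine ⟨((Commute.refl y).zpow_left n).eq, ?_⟩
    intro w
    rw [y, ← lf_zpow, lf_ne _ _ (by decide)]

/-- `g` fixes the cone of `c` -/
def FC (c : Bool) (g : Equiv.Perm C) : Prop := ∀ w, g (cons c w) = cons c w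

theorem FC_iff (c : Bool) (g : Equiv.Perm C) : FC c g ↔
    (g * lf c x = lf c x * g ∧ g * lf c s = lf c s * g ∧
      g * lf c (lf false s) = lf c (lf false s) * g) :=
  ⟨fun h => ⟨comm_of_fix h _, comm_of_fix h _, comm_of_fix h _⟩,
    fun ⟨h1, h2, h3⟩ => fix_cone h1 h2 h3⟩

/-- trivial germ at the constant point, up to a translation by a power of `x` -/
theorem E_iff (b : Bool) (g : Equiv.Perm C) :
    (∃ n : ℤ, FC b (x ^ n * g * (x ^ n)⁻¹)) ↔ AB b g 0 := by
  constructor
  · rintro ⟨n, hn⟩
    have h1 : AB b (x ^ n * g * (x ^ n)⁻¹) 0 := AB_zero_iff.2 ⟨1, hn⟩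
    have h2 := (AB_x b).zpow n
    have h3 := (h2.inv.mul h1).mul h2
    have e : (x ^ n)⁻¹ * (x ^ n * g * (x ^ n)⁻¹) * x ^ n = g := by group
    rw [e] at h3
    have e2 : -(n * (if b then 1 else -1)) + 0 + n * (if b then 1 else -1) = (0 : ℤ) := by ring
    rw [e2] at h3
    exact h3
  · intro h
    obtain ⟨M, hM⟩ := AB_zero_iff.1 h
    have hM' : ∀ w, g (pw b (M + 1) w) = pw b (M + 1) w := by
      intro w
      rw [pw_succ', hM]
    cases b
    · refine ⟨M, ?_⟩
      intro w
      rw [Equiv.Perm.mul_apply, Equiv.Perm.mul_apply, zpow_natCast]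
      have e : (x ^ M)⁻¹ (cons false w) = pw false (M + 1) w := by
        rw [← xi_pow_cons_false, inv_pow]
      rw [e, hM', ← e, app_inv]
    · refine ⟨-M, ?_⟩
      intro w
      rw [Equiv.Perm.mul_apply, Equiv.Perm.mul_apply, zpow_neg, zpow_natCast, inv_inv,
        x_pow_cons_true, hM', ← x_pow_cons_true, inv_app]

/-- nonnegative powers -/
theorem nn_iff (n : ℤ) : FC false (x ^ n * lf true s * (x ^ n)⁻¹) ↔ 0 ≤ n := by
  constructor
  · intro h
    by_contra hn
    obtain ⟨r, hr⟩ : ∃ r : ℕ, n = -((r + 1 : ℕ) : ℤ) := ⟨(-n - 1).toNat, by push_cast; omega⟩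
    have h1 := h (cons true (cst false))
    rw [hr, zpow_neg, zpow_natCast, inv_inv, Equiv.Perm.mul_apply, Equiv.Perm.mul_apply,
      Equiv.Perm.inv_eq_iff_eq] at h1
    have h2 : (x ^ (r + 1)) (cons false (cons true (cst false))) =
        pw true (r + 1) (cons false (cst false)) := by
      rw [pow_succ, Equiv.Perm.mul_apply, x_01, x_pow_cons_true]
    rw [h2, pw_succ, lf_eq, cons_inj] at h1
    have h3 := congrFun h1.2 0
    change (!(pw true r (cons false (cst false)) 0)) = pw true r (cons false (cst false)) 0 at h3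
    cases hb : pw true r (cons false (cst false)) 0 <;> simp [hb] at h3
  · intro hn w
    obtain ⟨n, rfl⟩ := Int.eq_ofNat_of_zero_le hn
    rw [Equiv.Perm.mul_apply, Equiv.Perm.mul_apply]
    change (x ^ ((n : ℕ) : ℤ)) (lf true s ((x ^ ((n : ℕ) : ℤ))⁻¹ (cons false w))) = _
    rw [zpow_natCast]
    have e : (x ^ n)⁻¹ (cons false w) = pw false (n + 1) w := by
      rw [← xi_pow_cons_false, inv_pow]
    have e2 : lf true s (pw false (n + 1) w) = pw false (n + 1) w := by
      rw [pw_succ, lf_ne _ _ (by decide)]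
    rw [e, e2, ← e, app_inv]

theorem x_zpow_inj {m n : ℤ} (h : x ^ m = x ^ n) : m = n := by
  have h1 := AB_x_true.zpow m
  have h2 := AB_x_true.zpow n
  rw [h] at h1
  have := h1.unique h2
  simpa using this

theorem y_isV : IsV y := x_isV.lf true

theorem z_isV (q : ℕ) : IsV (z q) := by
  unfold z
  exact V.mul_mem (V.pow_mem y_isV q) x_isV

/-- conversion of powers -/
theorem cv_iff (m n : ℤ) : AB true ((x ^ m)⁻¹ * y ^ n) 0 ↔ m = n := by
  have h1 := ((AB_x_true.zpow m).inv).mul (AB_y_true.zpow n)
  constructor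
  · intro h
    have := h1.unique h
    omega
  · rintro rfl
    have e : -(m * 1) + m * 1 = (0 : ℤ) := by ring
    rw [e] at h1
    exact h1

/-- **multiplication** -/
theorem mul_iff (q : ℕ) (n m : ℤ) :
    (∃ W, IsV W ∧ W * (y ^ (q : ℤ) * x) = (y ^ (q : ℤ) * x) * W ∧ AB false (W⁻¹ * x ^ n) 0 ∧
      AB true (W⁻¹ * x ^ m) 0) ↔ m = n * (1 + q) := by
  rw [zpow_natCast]
  constructor
  · rintro ⟨W, hW, hc, h1, h2⟩
    obtain ⟨k, hk⟩ := centralizer_z (q := q) hc (hW.near false)
    subst hk
    have h3 := (((AB_z_false q).zpow k).inv.mul (AB_x_false.zpow n)).unique h1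
    have h4 := (((AB_z_true q).zpow k).inv.mul (AB_x_true.zpow m)).unique h2
    have hkn : k = n := by linarith
    subst hkn
    linarith
  · rintro rfl
    refine ⟨(z q) ^ n, V.zpow_mem (z_isV q) n, ?_, ?_, ?_⟩
    · exact ((Commute.refl (z q)).zpow_left n).eq
    · have h3 := (((AB_z_false q).zpow n).inv.mul (AB_x_false.zpow n))
      have e : -(n * -1) + n * -1 = (0 : ℤ) := by ring
      rw [e] at h3
      exact h3
    · have h4 := (((AB_z_true q).zpow n).inv.mul (AB_x_true.zpow (n * (1 + q))))
      have e : -(n * ((q : ℤ) + 1)) + n * (1 + q) * 1 = (0 : ℤ) := by ring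
      rw [e] at h4
      exact h4

end Pool.Agent.H476R3.ThV
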