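import Mathlib
import Pool.Agent.H476R3.VRel
import Pool.Agent.Helper437.Dio.Sys

set_option autoImplicit false

/-! Integer arithmetic in Thompson's group `V`. -/

namespace Pool.Agent.H476R3.ThV

open Pool.Agent.H476R3.Df

/-- Thompson's group as a type -/
abbrev GV : Type := V

/-- the element `x` -/
def X : GV := ⟨x, x_isV⟩
/-- the element `y` -/
def Y : GV := ⟨y, y_isV⟩
/-- a constant -/
def A1 (c : Bool) : GV := ⟨lf c x, x_isV.lf c⟩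
/-- a constant -/
def A2 (c : Bool) : GV := ⟨lf c s, s_isV.lf c⟩
/-- a constant -/
def A3 (c : Bool) : GV := ⟨lf c (lf false s), (s_isV.lf false).lf c⟩
/-- a constant -/
def TT : GV := ⟨lf true s, s_isV.lf true⟩

theorem comm_iff (g h : GV) : g * h = h * g ↔ g.1 * h.1 = h.1 * g.1 := by
  rw [Subtype.ext_iff]; rfl

theorem X_zpow (n : ℤ) : (X ^ n).1 = x ^ n := rfl
theorem Y_zpow (n : ℤ) : (Y ^ n).1 = y ^ n := rfl

theorem comm_X (g : GV) : g * X = X * g ↔ ∃ n : ℤ, g = X ^ n := by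
  rw [comm_iff]
  refine (cent_x g.2).trans ?_
  constructor
  · rintro ⟨n, hn⟩
    exact ⟨n, Subtype.ext hn⟩
  · rintro ⟨n, hn⟩
    exact ⟨n, by rw [hn]; rfl⟩

theorem X_zpow_inj {m n : ℤ} (h : X ^ m = X ^ n) : m = n := x_zpow_inj (congrArg Subtype.val h)

theorem dfn_FC (c : Bool) : Dfn1 (fun g : GV => FC c g.1) := by
  refine ((Dfn.comm (TF.proj ()) (TF.const (A1 c))).and
    ((Dfn.comm (TF.proj ()) (TF.const (A2 c))).and
      (Dfn.comm (TF.proj ()) (TF.const (A3 c))))).congr ?_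
  intro a
  refine (FC_iff c _).trans ?_
  rw [comm_iff, comm_iff, comm_iff]
  rfl

theorem dfn_E (b : Bool) : Dfn1 (fun g : GV => AB b g.1 0) := by
  refine (Dfn.ex1 (P := fun h (a : Unit → GV) => h * X = X * h ∧ FC b (h * a () * h⁻¹).1) ?_).congr ?_
  · exact (Dfn.comm (TF.proj (Sum.inl ())) (TF.const X)).and ((dfn_FC b).ap
      (((TF.proj (Sum.inl ())).mul (TF.proj (Sum.inr ()))).mul (TF.proj (Sum.inl ())).inv))
  · intro a
    refine (E_iff b _).symm.trans ?_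
    constructor
    · rintro ⟨n, hn⟩
      exact ⟨X ^ n, (comm_X _).2 ⟨n, rfl⟩, hn⟩
    · rintro ⟨h, h1, h2⟩
      obtain ⟨n, rfl⟩ := (comm_X h).1 h1
      exact ⟨n, h2⟩

theorem dfn_PX : Dfn1 (fun g : GV => ∃ n : ℤ, g = X ^ n) :=
  (Dfn.comm (TF.proj ()) (TF.const X)).congr (fun _ => (comm_X _).symm)

theorem dfn_NN : Dfn1 (fun g : GV => ∃ q : ℕ, g = X ^ (q : ℤ)) := by
  refine ((Dfn.comm (TF.proj ()) (TF.const X)).and ((dfn_FC false).ap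
    (((TF.proj ()).mul (TF.const TT)).mul (TF.proj ()).inv))).congr ?_
  intro a
  rw [comm_X]
  constructor
  · rintro ⟨q, hq⟩
    refine ⟨⟨q, hq⟩, ?_⟩
    rw [hq]
    exact (nn_iff q).2 (by positivity)
  · rintro ⟨⟨n, hn⟩, h⟩
    rw [hn] at h
    have h2 := (nn_iff n).1 h
    obtain ⟨q, rfl⟩ := Int.eq_ofNat_of_zero_le h2
    exact ⟨q, hn⟩

theorem dfn_CV : Dfn2 (fun P Q : GV => ∃ n : ℤ, P = X ^ n ∧ Q = Y ^ n) := by
  refine ((Dfn.comm (TF.proj 0) (TF.const X)).and ((Dfn.comm (TF.proj 1) (TF.const Y)).and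
    (((dfn_FC false).ap (TF.proj 1)).and ((dfn_E true).ap ((TF.proj 0).inv.mul (TF.proj 1)))))).congr ?_
  intro a
  rw [comm_X]
  constructor
  · rintro ⟨n, h1, h2⟩
    have h3 := (cent_y (a 1).2).2 ⟨n, by rw [h2]; rfl⟩
    refine ⟨⟨n, h1⟩, (comm_iff _ _).2 h3.1, h3.2, ?_⟩
    rw [h1, h2]
    exact (cv_iff n n).2 rfl
  · rintro ⟨⟨n, h1⟩, h2, h3, h4⟩
    obtain ⟨m, hm⟩ := (cent_y (a 1).2).1 ⟨(comm_iff _ _).1 h2, h3⟩
    have hm' : a 1 = Y ^ m := Subtype.ext hm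
    rw [h1, hm'] at h4
    have := (cv_iff n m).1 h4
    subst this
    exact ⟨n, h1, hm'⟩

/-- restricted multiplication -/
def M1 (A B M : GV) : Prop :=
  ∃ (n : ℤ) (q : ℕ), A = X ^ n ∧ B = X ^ (q : ℤ) ∧ M = X ^ (n * (1 + q))

theorem dfn_M1 : Dfn3 M1 := by
  refine (((dfn_PX).ap (TF.proj 0)).and (((dfn_NN).ap (TF.proj 1)).and (((dfn_PX).ap (TF.proj 2)).and
    (Dfn.ex1 (P := fun Q (a : Fin 3 → GV) => ∃ W : GV, (∃ n : ℤ, a 1 = X ^ n ∧ Q = Y ^ n) ∧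
      W * (Q * X) = (Q * X) * W ∧ AB false (W⁻¹ * a 0).1 0 ∧ AB true (W⁻¹ * a 2).1 0) ?_)))).congr ?_
  · refine Dfn.ex1 (P := fun W (c : Unit ⊕ Fin 3 → GV) => (∃ n : ℤ, c (Sum.inr 1) = X ^ n ∧
      c (Sum.inl ()) = Y ^ n) ∧ W * (c (Sum.inl ()) * X) = (c (Sum.inl ()) * X) * W ∧
      AB false (W⁻¹ * c (Sum.inr 0)).1 0 ∧ AB true (W⁻¹ * c (Sum.inr 2)).1 0) ?_
    refine (dfn_CV.ap (TF.proj (Sum.inr (Sum.inr 1))) (TF.proj (Sum.inr (Sum.inl ())))).and ?_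
    refine (Dfn.comm (TF.proj (Sum.inl ())) ((TF.proj (Sum.inr (Sum.inl ()))).mul (TF.const X))).and ?_
    exact ((dfn_E false).ap ((TF.proj (Sum.inl ())).inv.mul (TF.proj (Sum.inr (Sum.inr 0))))).and
      ((dfn_E true).ap ((TF.proj (Sum.inl ())).inv.mul (TF.proj (Sum.inr (Sum.inr 2)))))
  · intro a
    constructor
    · rintro ⟨n, q, h1, h2, h3⟩
      refine ⟨⟨n, h1⟩, ⟨q, h2⟩, ⟨_, h3⟩, Y ^ (q : ℤ), ?_⟩
      obtain ⟨W, hW, w1, w2, w3⟩ := (mul_iff q n _).2 rfl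
      refine ⟨⟨W, hW⟩, ⟨q, h2, rfl⟩, ?_, ?_, ?_⟩
      · exact Subtype.ext w1
      · rw [h1]; exact w2
      · rw [h3]; exact w3
    · rintro ⟨⟨n, h1⟩, ⟨q, h2⟩, ⟨m, h3⟩, Q, W, ⟨k, h4, h5⟩, h6, h7, h8⟩
      have hk : k = q := X_zpow_inj (by rw [← h4, ← h2])
      subst hk
      have := (mul_iff q n m).1 ⟨W.1, W.2, by
        have := congrArg Subtype.val h6
        rw [h5] at this
        exact this, by rw [h1] at h7; exact h7, by rw [h3] at h8; exact h8⟩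
      subst this
      exact ⟨n, q, h1, h2, h3⟩

/-- multiplication -/
def MR (A B M : GV) : Prop :=
  ∃ (n k : ℤ), A = X ^ n ∧ B = X ^ k ∧ M = X ^ (n * k)

theorem dfn_MR : Dfn3 MR := by
  refine (Dfn.ex (κ := Fin 4) (P := fun b (a : Fin 3 → GV) => a 1 = b 0 * (b 1)⁻¹ ∧
    a 2 = b 2 * (b 3)⁻¹ ∧ M1 (a 0) (b 0) (b 2) ∧ M1 (a 0) (b 1) (b 3)) ?_).congr ?_
  · refine (Dfn.eq (TF.proj (Sum.inr 1)) ((TF.proj (Sum.inl 0)).mul (TF.proj (Sum.inl 1)).inv)).and ?_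
    refine (Dfn.eq (TF.proj (Sum.inr 2)) ((TF.proj (Sum.inl 2)).mul (TF.proj (Sum.inl 3)).inv)).and ?_
    exact (dfn_M1.ap (TF.proj (Sum.inr 0)) (TF.proj (Sum.inl 0)) (TF.proj (Sum.inl 2))).and
      (dfn_M1.ap (TF.proj (Sum.inr 0)) (TF.proj (Sum.inl 1)) (TF.proj (Sum.inl 3)))
  · intro a
    constructor
    · rintro ⟨n, k, h1, h2, h3⟩
      refine ⟨![X ^ ((k.toNat : ℕ) : ℤ), X ^ (((-k).toNat : ℕ) : ℤ),
        X ^ (n * (1 + (k.toNat : ℤ))), X ^ (n * (1 + ((-k).toNat : ℤ)))], ?_, ?_, ?_, ?_⟩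
      · change a 1 = X ^ ((k.toNat : ℕ) : ℤ) * (X ^ (((-k).toNat : ℕ) : ℤ))⁻¹
        rw [h2, ← zpow_sub]
        congr 1
        omega
      · change a 2 = X ^ (n * (1 + (k.toNat : ℤ))) * (X ^ (n * (1 + ((-k).toNat : ℤ))))⁻¹
        rw [h3, ← zpow_sub]
        congr 1
        have : k = (k.toNat : ℤ) - ((-k).toNat : ℤ) := by omega
        conv_lhs => rw [this]
        ring
      · exact ⟨n, k.toNat, h1, rfl, rfl⟩
      · exact ⟨n, (-k).toNat, h1, rfl, rfl⟩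
    · rintro ⟨b, h1, h2, ⟨n, q, h3, h4, h5⟩, ⟨n', q', h3', h4', h5'⟩⟩
      have hn : n = n' := X_zpow_inj (by rw [← h3, ← h3'])
      subst hn
      refine ⟨n, q - q', h3, ?_, ?_⟩
      · rw [h1, h4, h4', ← zpow_sub]
      · rw [h2, h5, h5', ← zpow_sub]
        congr 1
        ring

open Pool.Agent.Helper437.Dio.Sys in
/-- the relation corresponding to an equation -/
def ER {W : Type} (q : Eqn W) (u : W → GV) : Prop :=
  ∃ T : GV, MR (u q.i) (u q.j) T ∧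
    T ^ q.e * (u q.k) ^ q.a * (u q.l) ^ q.b * (u q.m) ^ q.c * X ^ q.d = 1

open Pool.Agent.Helper437.Dio.Sys in
theorem dfn_ER {W : Type} (q : Eqn W) : Dfn (ER q) := by
  refine Dfn.ex1 (P := fun T (u : W → GV) => MR (u q.i) (u q.j) T ∧
    T ^ q.e * (u q.k) ^ q.a * (u q.l) ^ q.b * (u q.m) ^ q.c * X ^ q.d = 1) ?_
  refine (dfn_MR.ap (TF.proj (Sum.inr q.i)) (TF.proj (Sum.inr q.j)) (TF.proj (Sum.inl ()))).and ?_
  exact Dfn.eq (((((TF.proj (Sum.inl ())).zpow q.e).mul ((TF.proj (Sum.inr q.k)).zpow q.a)).mul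
    ((TF.proj (Sum.inr q.l)).zpow q.b)).mul ((TF.proj (Sum.inr q.m)).zpow q.c) |>.mul
      (TF.const (X ^ q.d))) (TF.const 1)

open Pool.Agent.Helper437.Dio.Sys in
theorem ER_iff {W : Type} (q : Eqn W) (v : W → ℤ) : ER q (fun w => X ^ v w) ↔ q.Holds v := by
  have key : ∀ t : ℤ, (X ^ t) ^ q.e * (X ^ v q.k) ^ q.a * (X ^ v q.l) ^ q.b * (X ^ v q.m) ^ q.c *
      X ^ q.d = X ^ (q.e * t + q.a * v q.k + q.b * v q.l + q.c * v q.m + q.d) := by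
    intro t
    rw [← zpow_mul, ← zpow_mul, ← zpow_mul, ← zpow_mul, ← zpow_add, ← zpow_add, ← zpow_add,
      ← zpow_add]
    congr 1
    ring
  constructor
  · rintro ⟨T, ⟨n, k, h1, h2, h3⟩, h4⟩
    subst h3
    have e1 : v q.i = n := X_zpow_inj h1
    have e2 : v q.j = k := X_zpow_inj h2
    rw [← e1, ← e2, key] at h4
    have : X ^ (q.e * (v q.i * v q.j) + q.a * v q.k + q.b * v q.l + q.c * v q.m + q.d) =
        X ^ (0 : ℤ) := by rw [h4, zpow_zero]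
    exact X_zpow_inj this
  · intro h
    refine ⟨X ^ (v q.i * v q.j), ⟨v q.i, v q.j, rfl, rfl, rfl⟩, ?_⟩
    rw [key]
    have h' : q.e * (v q.i * v q.j) + q.a * v q.k + q.b * v q.l + q.c * v q.m + q.d = 0 := h
    rw [h', zpow_zero]

open Pool.Agent.Helper437.Dio.Sys in
/-- the relation of a system -/
def SR {W : Type} [Fintype W] (f : W) (L : List (Eqn W)) (g : GV) : Prop :=
  ∃ u : W → GV, (∀ w ∈ (Finset.univ : Finset W).toList, ∃ n : ℤ, u w = X ^ n) ∧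
    (∀ q ∈ L, ER q u) ∧ u f = g

open Pool.Agent.Helper437.Dio.Sys in
theorem dfn_SR {W : Type} [Fintype W] (f : W) (L : List (Eqn W)) : Dfn1 (SR f L) := by
  refine Dfn.ex (κ := W) (P := fun (u : W → GV) (a : Unit → GV) =>
    (∀ w ∈ (Finset.univ : Finset W).toList, ∃ n : ℤ, u w = X ^ n) ∧
    (∀ q ∈ L, ER q u) ∧ u f = a ()) ?_
  refine (Dfn.all _ (fun w _ => dfn_PX.ap (TF.proj (Sum.inl w)))).and ?_
  refine (Dfn.all _ (fun q _ => Dfn.comp (dfn_ER q) (s := fun w c => c (Sum.inl w))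
    (fun w => TF.proj (Sum.inl w)))).and ?_
  exact Dfn.eq (TF.proj (Sum.inl f)) (TF.proj (Sum.inr ()))

open Pool.Agent.Helper437.Dio.Sys in
theorem SR_iff {W : Type} [Fintype W] (f : W) (L : List (Eqn W)) (z : ℤ) :
    SR f L (X ^ z) ↔ ∃ v : W → ℤ, v f = z ∧ ∀ q ∈ L, q.Holds v := by
  constructor
  · rintro ⟨u, h1, h2, h3⟩
    have h1' : ∀ w, ∃ n : ℤ, u w = X ^ n := fun w => h1 w (by simp)
    choose v hv using h1'
    have e : u = fun w => X ^ v w := funext hv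
    subst e
    refine ⟨v, X_zpow_inj h3, ?_⟩
    intro q hq
    exact (ER_iff q v).1 (h2 q hq)
  · rintro ⟨v, h1, h2⟩
    refine ⟨fun w => X ^ v w, fun w _ => ⟨v w, rfl⟩, ?_, by rw [← h1]⟩
    intro q hq
    exact (ER_iff q v).2 (h2 q hq)

end Pool.Agent.H476R3.ThV
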