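import Mathlib
import Pool.Agent.H476R3.VMul

set_option autoImplicit false

/-! Undecidability of the Diophantine problem in Thompson's group `V`. -/

namespace Pool.Agent.H476R3.ThV

open Pool.Agent.H476R3.Df Pool.Agent.Helper437.Dio.Sys Pool.Agent.Helper437.Dio

/-- tables -/
abbrev Tab : Type := List (List Bool × List Bool)

/-- the predicate of the frozen statement -/
def Sat (S : List (List ((ℕ ⊕ Tab) × Bool))) : Prop :=
  ∃ σ : ℕ → Equiv.Perm C, ∃ τ : Tab → Equiv.Perm C,
    (∀ n, ∃ D : Tab, Table D (σ n)) ∧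
    (∀ e ∈ S, ∀ x ∈ e, ∀ D : Tab, x.1 = Sum.inr D → Table D (τ D)) ∧
    ∀ e ∈ S, (e.map (fun x => if x.2 then Sum.elim σ τ x.1 else (Sum.elim σ τ x.1)⁻¹)).prod = 1

/-- a table of an element -/
noncomputable def tbl (g : GV) : Tab := Classical.choose ((isV_iff g.1).1 g.2)

theorem tbl_spec (g : GV) : Table (tbl g) g.1 := Classical.choose_spec ((isV_iff g.1).1 g.2)

/-- coding of words -/
noncomputable def code {ι : Type} (f : ι → ℕ) (t : Tm GV ι) : List ((ℕ ⊕ Tab) × Bool) :=
  t.map (fun p => (Sum.map f tbl p.1, p.2))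

theorem prod_code {ι : Type} (f : ι → ℕ) (a : ι → GV) (σ : ℕ → Equiv.Perm C)
    (τ : Tab → Equiv.Perm C) (hσ : ∀ i, σ (f i) = (a i).1) (t : Tm GV ι)
    (hτ : ∀ p ∈ t, ∀ g, p.1 = Sum.inr g → τ (tbl g) = g.1) :
    ((code f t).map (fun x => if x.2 then Sum.elim σ τ x.1 else (Sum.elim σ τ x.1)⁻¹)).prod =
      (ev a t).1 := by
  induction t with
  | nil => rfl
  | cons p t ih =>
    have h1 := ih (fun p hp => hτ p (List.mem_cons_of_mem _ hp))
    have h2 : (ev a (p :: t)).1 = (if p.2 then Sum.elim a id p.1 else (Sum.elim a id p.1)⁻¹ : GV).1 *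
        (ev a t).1 := rfl
    rw [h2, ← h1]
    have h3 : code f (p :: t) = (Sum.map f tbl p.1, p.2) :: code f t := rfl
    rw [h3, List.map_cons, List.prod_cons]
    congr 1
    rcases p with ⟨i | g, b⟩
    · cases b
      · change (σ (f i))⁻¹ = ((a i)⁻¹ : GV).1
        rw [hσ]; rfl
      · exact hσ i
    · have h4 := hτ _ List.mem_cons_self g rfl
      cases b
      · change (τ (tbl g))⁻¹ = (g⁻¹ : GV).1
        rw [h4]; rfl
      · exact h4

theorem sat_iff {ι : Type} (f : ι → ℕ) (hf : Function.Injective f) (L : List (Tm GV ι)) :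
    Sat (L.map (code f)) ↔ ∃ a : ι → GV, ∀ t ∈ L, ev a t = 1 := by
  classical
  constructor
  · rintro ⟨σ, τ, h1, h2, h3⟩
    have hσ : ∀ n, IsV (σ n) := fun n => (isV_iff _).2 (h1 n)
    refine ⟨fun i => ⟨σ (f i), hσ _⟩, ?_⟩
    intro t ht
    have h4 := h3 _ (List.mem_map_of_mem ht)
    rw [prod_code f (fun i => ⟨σ (f i), hσ _⟩) σ τ (fun i => rfl) t] at h4
    · exact Subtype.ext h4
    · intro p hp g hg
      have h5 := h2 _ (List.mem_map_of_mem ht) (Sum.map f tbl p.1, p.2) (List.mem_map_of_mem hp)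
        (tbl g) (by simp [hg])
      exact table_unique h5 (tbl_spec g)
  · rintro ⟨a, ha⟩
    let σ : ℕ → Equiv.Perm C := Function.extend f (fun i => (a i).1) (fun _ => 1)
    let τ : Tab → Equiv.Perm C := fun D => if h : ∃ g : Equiv.Perm C, Table D g then
      Classical.choose h else 1
    have hτ : ∀ g : GV, Table (tbl g) (τ (tbl g)) := by
      intro g
      have h : ∃ k : Equiv.Perm C, Table (tbl g) k := ⟨g.1, tbl_spec g⟩
      have : τ (tbl g) = Classical.choose h := dif_pos h
      rw [this]
      exact Classical.choose_spec h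
    have hσ : ∀ i, σ (f i) = (a i).1 := fun i => hf.extend_apply _ _ i
    refine ⟨σ, τ, ?_, ?_, ?_⟩
    · intro n
      rw [← isV_iff]
      by_cases h : ∃ i, f i = n
      · obtain ⟨i, rfl⟩ := h
        rw [hσ]
        exact (a i).2
      · have : σ n = 1 := Function.extend_apply' _ _ _ h
        rw [this]
        exact isV_one
    · intro e he p hp D hD
      obtain ⟨t, ht, rfl⟩ := List.mem_map.1 he
      obtain ⟨q, hq, rfl⟩ := List.mem_map.1 hp
      rcases q with ⟨i | g, b⟩
      · simp at hD
      · simp only [Sum.map_inr, Sum.inr.injEq] at hD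
        rw [← hD]
        exact hτ g
    · intro e he
      obtain ⟨t, ht, rfl⟩ := List.mem_map.1 he
      rw [prod_code f a σ τ hσ t, ha t ht]
      · rfl
      · intro p hp g hg
        exact table_unique (hτ g) (tbl_spec g)

/-- A universal partial function with undecidable domain. -/
def u (n : ℕ) : Part ℕ := (Denumerable.ofNat Nat.Partrec.Code n).eval 0

theorem u_partrec : Partrec u := by
  have h := Nat.Partrec.Code.eval_part.comp
    (Computable.ofNat Nat.Partrec.Code) (Computable.const (0 : ℕ))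
  exact h

theorem u_not_computable : ¬ ComputablePred (fun n => (u n).Dom) := by
  intro h
  refine ComputablePred.halting_problem 0 ?_
  have : ManyOneReducible (fun c : Nat.Partrec.Code => (Nat.Partrec.Code.eval c 0).Dom)
      (fun n => (u n).Dom) := by
    refine ⟨Encodable.encode, Computable.encode, ?_⟩
    intro c
    simp [u, Denumerable.ofNat_encode]
  exact ComputablePred.computable_of_manyOneReducible this h

/-- the input equation -/
def inp (D : Tab) (n : ℕ) : List ((ℕ ⊕ Tab) × Bool) :=
  (Sum.inl 0, true) :: ((List.range (4 * n)).map (fun _ => ((Sum.inr D, true) : (ℕ ⊕ Tab) × Bool)) ++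
    [(Sum.inr D, false)])

theorem inp_primrec (D : Tab) : Primrec (inp D) := by
  unfold inp
  refine Primrec.list_cons.comp (Primrec.const _) ?_
  refine Primrec.list_append.comp ?_ (Primrec.const _)
  refine Primrec.list_map (Primrec.list_range.comp (Primrec.nat_mul.comp (Primrec.const 4) Primrec.id)) ?_
  exact (Primrec.const _).to₂

theorem sat_not_computable : ¬ ComputablePred Sat := by
  intro h
  apply u_not_computable
  obtain ⟨W, _, f, L, hL⟩ := exists_system (fun n => (u n).Dom) (dprm u_partrec.dom_re)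
  obtain ⟨κ, _, L', hL'⟩ := dfn_SR f L
  let F : Unit ⊕ κ → ℕ := Sum.elim (fun _ => 0) (fun k => (Fintype.equivFin κ k : ℕ) + 1)
  have hF : Function.Injective F := by
    intro a b hab
    rcases a with a | a <;> rcases b with b | b
    · rfl
    · simp [F] at hab
    · simp [F] at hab
    · have : (Fintype.equivFin κ a : ℕ) = (Fintype.equivFin κ b : ℕ) := by simpa [F] using hab
      have h2 := Fin.ext this
      rw [(Fintype.equivFin κ).injective h2]
  let w : ℕ → Tm GV (Unit ⊕ κ) := fun n => (Sum.inl (Sum.inl ()), true) ::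
    ((List.range (4 * n)).map (fun _ => (Sum.inr X, true)) ++ [(Sum.inr X, false)])
  have hw : ∀ n, code F (w n) = inp (tbl X) n := by
    intro n
    simp [code, w, inp, F]
  have hev : ∀ (n : ℕ) (a : Unit ⊕ κ → GV), ev a (w n) = 1 ↔ a (Sum.inl ()) = X ^ (1 - 4 * (n : ℤ)) := by
    intro n a
    have e : ev a (w n) = a (Sum.inl ()) * (X ^ (1 - 4 * (n : ℤ)))⁻¹ := by
      have e1 : ev a (w n) = a (Sum.inl ()) * (X ^ (4 * n) * X⁻¹) := by
        simp [ev, w]
      rw [e1, ← zpow_neg]
      congr 1
      rw [← zpow_natCast, ← zpow_neg_one, ← zpow_add]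
      congr 1
      push_cast
      ring
    rw [e, mul_inv_eq_one]
  refine ComputablePred.computable_of_manyOneReducible
    ⟨fun n => inp (tbl X) n :: L'.map (code F), ?_, ?_⟩ h
  · exact (Primrec.list_cons.comp (inp_primrec _) (Primrec.const _)).to_comp
  · intro n
    have e : inp (tbl X) n :: L'.map (code F) = (w n :: L').map (code F) := by
      rw [List.map_cons, hw]
    change (u n).Dom ↔ Sat (inp (tbl X) n :: L'.map (code F))
    rw [e, sat_iff F hF]
    have h1 : (∃ m : ℕ, (u m).Dom ∧ (1 - 4 * (n : ℤ)) = 1 - 4 * m) ↔ (u n).Dom := by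
      constructor
      · rintro ⟨m, h2, h3⟩
        have : n = m := by omega
        rwa [this]
      · intro h2
        exact ⟨n, h2, rfl⟩
    rw [← h1, ← hL, ← SR_iff f L (1 - 4 * (n : ℤ))]
    have h2 := hL' (fun _ => X ^ (1 - 4 * (n : ℤ)))
    refine h2.trans ?_
    constructor
    · rintro ⟨b, hb⟩
      refine ⟨Sum.elim (fun _ => X ^ (1 - 4 * (n : ℤ))) b, ?_⟩
      intro t ht
      rcases List.mem_cons.1 ht with rfl | ht
      · rw [hev]; rfl
      · exact hb t ht
    · rintro ⟨a, ha⟩
      have h3 := ha _ List.mem_cons_self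
      rw [hev] at h3
      refine ⟨a ∘ Sum.inr, ?_⟩
      intro t ht
      have h4 := ha t (List.mem_cons_of_mem _ ht)
      rw [← h4]
      congr 1
      funext i
      rcases i with i | i
      · exact h3.symm
      · rfl

end Pool.Agent.H476R3.ThV
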